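import Pool.Agent.Helper317.PMU.Core

/-!
Bounded embeddings of linear orders.
-/

namespace Pool.Agent.Helper317.PM

open Pool.Agent.Helper317.SOA Function


theorem circ_neB {S : Set ℕ} {C : ℕ → ℕ → ℕ → Prop} (hS : Circ S C) {a b c : ℕ}
    (ha : a ∈ S) (hb : b ∈ S) (hc : c ∈ S) (h : C a b c) : a ≠ b ∧ b ≠ c ∧ a ≠ c := by
  have key : ∀ x ∈ S, ∀ y ∈ S, ¬ C x x y := by
    intro x hx y hy h1
    have h2 := hS.cyclic x hx x hx y hy h1
    have h3 := hS.cyclic x hx y hy x hx h2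
    exact hS.asymm x hx x hx y hy h1 h3
  refine ⟨?_, ?_, ?_⟩
  · rintro rfl; exact key a ha c hc h
  · rintro rfl
    exact key b hb a ha (hS.cyclic a ha b hb b hb h)
  · rintro rfl
    exact hS.asymm a ha b hb a ha h h

theorem circ_cut {S : Set ℕ} {C : ℕ → ℕ → ℕ → Prop} (hS : Circ S C) :
    ∃ lt : ℕ → ℕ → Prop, LinOn S lt ∧
      ∀ a ∈ S, ∀ b ∈ S, ∀ c ∈ S, (C a b c ↔ cyc lt a b c) := by

  classical
  obtain ⟨p, hp, q, hq, hpq⟩ := hS.two
  have cyc2 : ∀ a ∈ S, ∀ b ∈ S, ∀ c ∈ S, C b c a → C a b c := by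
    intro a ha b hb c hc h
    exact hS.cyclic c hc a ha b hb (hS.cyclic b hb c hc a ha h)
  set lt : ℕ → ℕ → Prop := fun x y => (x = p ∧ y ≠ p) ∨ (x ≠ p ∧ y ≠ p ∧ C p x y) with hlt
  have hlin : LinOn S lt := by
    refine ⟨?_, ?_, ?_⟩
    · rintro a ha (⟨h1, h2⟩ | ⟨h1, h2, h3⟩)
      · exact h2 h1
      · exact (circ_neB hS hp ha ha h3).2.1 rfl
    · rintro a ha b hb c hc (⟨h1, h2⟩ | ⟨h1, h2, h3⟩) (⟨k1, k2⟩ | ⟨k1, k2, k3⟩)
      · exact absurd k1 h2
      · exact Or.inl ⟨h1, k2⟩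
      · exact absurd k1 h2
      · exact Or.inr ⟨h1, k2, hS.trans p hp a ha b hb c hc h3 k3⟩
    · intro a ha b hb hab
      by_cases h1 : a = p
      · exact Or.inl (Or.inl ⟨h1, fun h => hab (h1.trans h.symm)⟩)
      by_cases h2 : b = p
      · exact Or.inr (Or.inl ⟨h2, h1⟩)
      rcases hS.total p hp a ha b hb (Ne.symm h1) hab (Ne.symm h2) with h | h
      · exact Or.inl (Or.inr ⟨h1, h2, h⟩)
      · exact Or.inr (Or.inr ⟨h2, h1, cyc2 p hp b hb a ha h⟩)
  have claim : ∀ a ∈ S, ∀ b ∈ S, ∀ c ∈ S, lt a b → lt b c → C a b c := by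
    rintro a ha b hb c hc (⟨h1, h2⟩ | ⟨h1, h2, h3⟩) (⟨k1, k2⟩ | ⟨k1, k2, k3⟩)
    · exact absurd k1 h2
    · rw [h1]; exact k3
    · exact absurd k1 h2
    · have e1 : C b c p := hS.cyclic p hp b hb c hc k3
      have e2 : C b p a := hS.cyclic a ha b hb p hp (hS.cyclic p hp a ha b hb h3)
      have e3 : C b c a := hS.trans b hb c hc p hp a ha e1 e2
      exact cyc2 a ha b hb c hc e3
  refine ⟨lt, hlin, ?_⟩
  intro a ha b hb c hc
  constructor
  · intro h
    obtain ⟨hab, hbc, hac⟩ := circ_neB hS ha hb hc h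
    have hno : ¬ C c b a := hS.asymm a ha b hb c hc h
    rcases hlin.total a ha b hb hab with h1 | h1
    · rcases hlin.total b hb c hc hbc with h2 | h2
      · exact Or.inl ⟨h1, h2⟩
      · rcases hlin.total a ha c hc hac with h3 | h3
        · exact absurd (hS.cyclic a ha c hc b hb (claim a ha c hc b hb h3 h2)) hno
        · exact Or.inr (Or.inr ⟨h3, h1⟩)
    · rcases hlin.total b hb c hc hbc with h2 | h2
      · rcases hlin.total a ha c hc hac with h3 | h3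
        · exact absurd (cyc2 c hc b hb a ha (claim b hb a ha c hc h1 h3)) hno
        · exact Or.inr (Or.inl ⟨h2, h3⟩)
      · exact absurd (claim c hc b hb a ha h2 h1) hno
  · rintro (⟨h1, h2⟩ | ⟨h1, h2⟩ | ⟨h1, h2⟩)
    · exact claim a ha b hb c hc h1 h2
    · exact cyc2 a ha b hb c hc (claim b hb c hc a ha h1 h2)
    · exact hS.cyclic c hc a ha b hb (claim c hc a ha b hb h1 h2)

theorem adq_exists {S : Set ℕ} {C : ℕ → ℕ → ℕ → Prop} (hS : Circ S C) (m : ℕ) :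
    ∃ v, Adq S C m v := by

  classical
  induction m with
  | zero =>
    obtain ⟨a, ha, b, hb, hab⟩ := hS.two
    obtain ⟨c, hc, hC⟩ := hS.dense a ha b hb hab
    obtain ⟨h1, h2, h3⟩ := circ_neB hS ha hc hb hC
    exact ⟨a + b + c, a, by omega, b, by omega, c, by omega, ha, hb, hc, hab, h2.symm, h1⟩
  | succ m ih =>
    obtain ⟨u, hu⟩ := ih
    set z : ℕ → ℕ → ℕ := fun x y =>
      if h : x ∈ S ∧ y ∈ S ∧ x ≠ y then (hS.dense x h.1 y h.2.1 h.2.2).choose else 0 with hz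
    have hzs : ∀ x y, x ∈ S → y ∈ S → x ≠ y → z x y ∈ S ∧ C x (z x y) y := by
      intro x y hx hy hxy
      have h : x ∈ S ∧ y ∈ S ∧ x ≠ y := ⟨hx, hy, hxy⟩
      simp only [hz, dif_pos h]
      exact (hS.dense x h.1 y h.2.1 h.2.2).choose_spec
    refine ⟨u + ∑ x ∈ Finset.range (u+1), ∑ y ∈ Finset.range (u+1), z x y, u, by omega, hu, ?_⟩
    intro x hx y hy hxS hyS hxy
    refine ⟨z x y, ?_, hzs x y hxS hyS hxy⟩
    have h1 : z x y ≤ ∑ y ∈ Finset.range (u+1), z x y :=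
      Finset.single_le_sum (f := fun y => z x y) (fun _ _ => Nat.zero_le _)
        (Finset.mem_range.2 (by omega))
    have h2 : ∑ y ∈ Finset.range (u+1), z x y ≤
        ∑ x ∈ Finset.range (u+1), ∑ y ∈ Finset.range (u+1), z x y :=
      Finset.single_le_sum (f := fun x => ∑ y ∈ Finset.range (u+1), z x y)
        (fun _ _ => Nat.zero_le _) (Finset.mem_range.2 (by omega))
    omega


theorem fin_max {S : Set ℕ} {lt : ℕ → ℕ → Prop} (hlt : LinOn S lt) (g : ℕ → ℕ) (P : ℕ → Prop)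
    (n : ℕ) (hg : ∀ a < n, P a → g a ∈ S) :
    (∀ a < n, ¬ P a) ∨ ∃ a₀ < n, P a₀ ∧ ∀ a < n, P a → g a = g a₀ ∨ lt (g a) (g a₀) := by
  classical
  induction n with
  | zero => exact Or.inl (fun a ha => absurd ha (Nat.not_lt_zero a))
  | succ n ih =>
    have ih' := ih (fun a ha => hg a (by omega))
    by_cases hP : P n
    · right
      rcases ih' with h | ⟨a₀, ha₀, hPa₀, hmax⟩
      · refine ⟨n, by omega, hP, ?_⟩
        intro a ha hPa
        rcases Nat.lt_succ_iff_lt_or_eq.1 ha with h1 | h1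
        · exact absurd hPa (h a h1)
        · left; rw [h1]
      · by_cases heq : g n = g a₀
        · refine ⟨a₀, by omega, hPa₀, ?_⟩
          intro a ha hPa
          rcases Nat.lt_succ_iff_lt_or_eq.1 ha with h1 | h1
          · exact hmax a h1 hPa
          · left; rw [h1]; exact heq
        · rcases hlt.total _ (hg n (by omega) hP) _ (hg a₀ (by omega) hPa₀) heq with h1 | h1
          · refine ⟨a₀, by omega, hPa₀, ?_⟩
            intro a ha hPa
            rcases Nat.lt_succ_iff_lt_or_eq.1 ha with h2 | h2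
            · exact hmax a h2 hPa
            · right; rw [h2]; exact h1
          · refine ⟨n, by omega, hP, ?_⟩
            intro a ha hPa
            rcases Nat.lt_succ_iff_lt_or_eq.1 ha with h2 | h2
            · rcases hmax a h2 hPa with h3 | h3
              · right; rw [h3]; exact h1
              · right
                exact hlt.trans _ (hg a (by omega) hPa) _ (hg a₀ (by omega) hPa₀) _
                  (hg n (by omega) hP) h3 h1
            · left; rw [h2]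
    · rcases ih' with h | ⟨a₀, ha₀, hPa₀, hmax⟩
      · left
        intro a ha
        rcases Nat.lt_succ_iff_lt_or_eq.1 ha with h1 | h1
        · exact h a h1
        · rw [h1]; exact hP
      · right
        refine ⟨a₀, by omega, hPa₀, ?_⟩
        intro a ha hPa
        rcases Nat.lt_succ_iff_lt_or_eq.1 ha with h1 | h1
        · exact hmax a h1 hPa
        · rw [h1] at hPa; exact absurd hPa hP

theorem LinOn.flip {S : Set ℕ} {lt : ℕ → ℕ → Prop} (h : LinOn S lt) :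
    LinOn S (fun a b => lt b a) :=
  ⟨h.irrefl, fun a ha b hb c hc h1 h2 => h.trans c hc b hb a ha h2 h1,
    fun a ha b hb hab => (h.total a ha b hb hab).symm⟩

/-- the invariant -/
def InvE (S : Set ℕ) (lt : ℕ → ℕ → Prop) (X : Set ℕ) (ltX : ℕ → ℕ → Prop) (β : ℕ → ℕ)
    (m : ℕ) (g : ℕ → ℕ) : Prop :=
  (∀ a < m, a ∈ X → (g a ∈ S ∧ g a ≤ β m) ∧ (∃ z ∈ S, z ≤ β m ∧ lt z (g a)) ∧
    (∃ z ∈ S, z ≤ β m ∧ lt (g a) z)) ∧
  (∀ a < m, ∀ b < m, a ∈ X → b ∈ X → ltX a b → lt (g a) (g b)) ∧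
  (∀ a < m, a ∈ X → g a ≤ β (a + 1))

theorem inv_step {S : Set ℕ} {C : ℕ → ℕ → ℕ → Prop} (hS : Circ S C) {lt : ℕ → ℕ → Prop}
    (hlt : LinOn S lt) (hcyc : ∀ a ∈ S, ∀ b ∈ S, ∀ c ∈ S, (C a b c ↔ cyc lt a b c))
    {X : Set ℕ} {ltX : ℕ → ℕ → Prop} (hX : LinOn X ltX) (β : ℕ → ℕ)
    (hβ : ∀ m, β m ≤ β (m + 1))
    (hβ0 : ∃ a ∈ S, ∃ b ∈ S, a ≤ β 0 ∧ b ≤ β 0 ∧ a ≠ b)
    (hβ2 : ∀ m, ∀ x ∈ S, ∀ y ∈ S, x ≤ β m → y ≤ β m → x ≠ y →
      ∃ z ∈ S, z ≤ β (m + 1) ∧ C x z y)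
    (m : ℕ) (g : ℕ → ℕ) (hinv : InvE S lt X ltX β m g) :
    ∃ w, InvE S lt X ltX β (m + 1) (update g m w) := by
  classical
  obtain ⟨h1, h2, h3⟩ := hinv
  by_cases hm : m ∈ X
  swap
  · refine ⟨0, ?_, ?_, ?_⟩
    · intro a ha haX
      have ham : a ≠ m := fun h => hm (h ▸ haX)
      rw [update_of_ne ham]
      obtain ⟨⟨k1, k2⟩, ⟨z, z1, z2, z3⟩, ⟨z', z1', z2', z3'⟩⟩ := h1 a (by omega) haX
      have := hβ m
      exact ⟨⟨k1, by omega⟩, ⟨z, z1, by omega, z3⟩, ⟨z', z1', by omega, z3'⟩⟩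
    · intro a ha b hb haX hbX hab
      have ham : a ≠ m := fun h => hm (h ▸ haX)
      have hbm : b ≠ m := fun h => hm (h ▸ hbX)
      rw [update_of_ne ham, update_of_ne hbm]
      exact h2 a (by omega) b (by omega) haX hbX hab
    · intro a ha haX
      have ham : a ≠ m := fun h => hm (h ▸ haX)
      rw [update_of_ne ham]
      exact h3 a (by omega) haX
  -- monotone
  have hβ0m : ∀ k, β 0 ≤ β k := by
    intro k
    induction k with
    | zero => exact le_rfl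
    | succ k ih => exact ih.trans (hβ k)
  have hXasymm : ∀ a ∈ X, ∀ b ∈ X, ltX a b → ¬ ltX b a := by
    intro a ha b hb hab hba
    exact hX.irrefl a ha (hX.trans a ha b hb a ha hab hba)
  -- find p, q
  have hpq : ∃ p ∈ S, ∃ q ∈ S, p ≤ β m ∧ q ≤ β m ∧ lt p q ∧
      (∀ a < m, a ∈ X → ltX a m → g a = p ∨ lt (g a) p) ∧
      (∀ a < m, a ∈ X → ltX m a → g a = q ∨ lt q (g a)) := by
    have hL := fin_max hlt g (fun a => a ∈ X ∧ ltX a m) m (fun a ha h => (h1 a ha h.1).1.1)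
    have hU := fin_max hlt.flip g (fun a => a ∈ X ∧ ltX m a) m (fun a ha h => (h1 a ha h.1).1.1)
    rcases hL with hL | ⟨p0, hp0, ⟨hp0X, hp0m⟩, hpmax⟩
    · rcases hU with hU | ⟨q0, hq0, ⟨hq0X, hq0m⟩, hqmin⟩
      · obtain ⟨a, ha, b, hb, ha0, hb0, hab⟩ := hβ0
        have hk := hβ0m m
        rcases hlt.total a ha b hb hab with h | h
        · exact ⟨a, ha, b, hb, by omega, by omega, h,
            fun a' ha' haX hh => absurd ⟨haX, hh⟩ (hL a' ha'),
            fun a' ha' haX hh => absurd ⟨haX, hh⟩ (hU a' ha')⟩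
        · exact ⟨b, hb, a, ha, by omega, by omega, h,
            fun a' ha' haX hh => absurd ⟨haX, hh⟩ (hL a' ha'),
            fun a' ha' haX hh => absurd ⟨haX, hh⟩ (hU a' ha')⟩
      · obtain ⟨⟨k1, k2⟩, ⟨z, z1, z2, z3⟩, _⟩ := h1 q0 hq0 hq0X
        exact ⟨z, z1, g q0, k1, z2, k2, z3,
            fun a' ha' haX hh => absurd ⟨haX, hh⟩ (hL a' ha'),
            fun a' ha' haX hh => hqmin a' ha' ⟨haX, hh⟩⟩
    · obtain ⟨⟨k1, k2⟩, _, ⟨z, z1, z2, z3⟩⟩ := h1 p0 hp0 hp0X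
      rcases hU with hU | ⟨q0, hq0, ⟨hq0X, hq0m⟩, hqmin⟩
      · exact ⟨g p0, k1, z, z1, k2, z2, z3,
            fun a' ha' haX hh => hpmax a' ha' ⟨haX, hh⟩,
            fun a' ha' haX hh => absurd ⟨haX, hh⟩ (hU a' ha')⟩
      · obtain ⟨⟨l1, l2⟩, _, _⟩ := h1 q0 hq0 hq0X
        refine ⟨g p0, k1, g q0, l1, k2, l2, ?_,
            fun a' ha' haX hh => hpmax a' ha' ⟨haX, hh⟩,
            fun a' ha' haX hh => hqmin a' ha' ⟨haX, hh⟩⟩
        exact h2 p0 hp0 q0 hq0 hp0X hq0X (hX.trans p0 hp0X m hm q0 hq0X hp0m hq0m)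
  obtain ⟨p, hp, q, hq, hpβ, hqβ, hpqlt, hLp, hUq⟩ := hpq
  have hpq_ne : p ≠ q := by
    rintro rfl; exact hlt.irrefl p hp hpqlt
  obtain ⟨w, hw, hwβ, hCw⟩ := hβ2 m p hp q hq hpβ hqβ hpq_ne
  have hnot : ¬ lt q p := fun h => hlt.irrefl p hp (hlt.trans p hp q hq p hp hpqlt h)
  have hpw : lt p w ∧ lt w q := by
    rcases (hcyc p hp w hw q hq).1 hCw with h | h | h
    · exact h
    · exact absurd h.2 hnot
    · exact absurd h.1 hnot
  have hβm := hβ m
  refine ⟨w, ?_, ?_, ?_⟩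
  · intro a ha haX
    by_cases ham : a = m
    · rw [ham, update_self]
      exact ⟨⟨hw, hwβ⟩, ⟨p, hp, by omega, hpw.1⟩, ⟨q, hq, by omega, hpw.2⟩⟩
    · rw [update_of_ne ham]
      obtain ⟨⟨k1, k2⟩, ⟨z, z1, z2, z3⟩, ⟨z', z1', z2', z3'⟩⟩ := h1 a (by omega) haX
      exact ⟨⟨k1, by omega⟩, ⟨z, z1, by omega, z3⟩, ⟨z', z1', by omega, z3'⟩⟩
  · intro a ha b hb haX hbX hab
    by_cases ham : a = m
    · by_cases hbm : b = m
      · rw [ham, hbm] at hab
        exact absurd hab (hX.irrefl m hm)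
      · rw [ham, update_self, update_of_ne hbm]
        have hb' : b < m := by omega
        rw [ham] at hab
        rcases hUq b hb' hbX hab with h | h
        · rw [h]; exact hpw.2
        · exact hlt.trans w hw q hq _ (h1 b hb' hbX).1.1 hpw.2 h
    · have ha' : a < m := by omega
      by_cases hbm : b = m
      · rw [hbm, update_self, update_of_ne ham]
        rw [hbm] at hab
        rcases hLp a ha' haX hab with h | h
        · rw [h]; exact hpw.1
        · exact hlt.trans _ (h1 a ha' haX).1.1 p hp w hw h hpw.1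
      · rw [update_of_ne ham, update_of_ne hbm]
        exact h2 a ha' b (by omega) haX hbX hab
  · intro a ha haX
    by_cases ham : a = m
    · rw [ham, update_self]; exact hwβ
    · rw [update_of_ne ham]
      exact h3 a (by omega) haX

theorem bdd_emb {S : Set ℕ} {C : ℕ → ℕ → ℕ → Prop} (hS : Circ S C) {lt : ℕ → ℕ → Prop}
    (hlt : LinOn S lt) (hcyc : ∀ a ∈ S, ∀ b ∈ S, ∀ c ∈ S, (C a b c ↔ cyc lt a b c))
    {X : Set ℕ} {ltX : ℕ → ℕ → Prop} (hX : LinOn X ltX) :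
    ∃ f : ℕ → ℕ, (∀ a ∈ X, f a ∈ S) ∧ (∀ a ∈ X, ∀ b ∈ X, ltX a b → lt (f a) (f b)) ∧
      ∀ a ∈ X, ∀ v, Adq S C (a + 1) v → f a ≤ v := by

  classical
  set β : ℕ → ℕ := fun m => Nat.find (adq_exists hS m) with hβdef
  have hβspec : ∀ m, Adq S C m (β m) := fun m => Nat.find_spec (adq_exists hS m)
  have hβmin : ∀ m v, Adq S C m v → β m ≤ v := fun m v h => Nat.find_min' (adq_exists hS m) h
  have hβ : ∀ m, β m ≤ β (m + 1) := by
    intro m
    obtain ⟨u, hu, hA, _⟩ := hβspec (m + 1)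
    exact (hβmin m u hA).trans hu
  have hβ0 : ∃ a ∈ S, ∃ b ∈ S, a ≤ β 0 ∧ b ≤ β 0 ∧ a ≠ b := by
    obtain ⟨a, ha, b, hb, c, hc, haS, hbS, hcS, hab, _, _⟩ := hβspec 0
    exact ⟨a, haS, b, hbS, ha, hb, hab⟩
  have hβ2 : ∀ m, ∀ x ∈ S, ∀ y ∈ S, x ≤ β m → y ≤ β m → x ≠ y →
      ∃ z ∈ S, z ≤ β (m + 1) ∧ C x z y := by
    intro m x hx y hy hxm hym hxy
    obtain ⟨u, hu, hA, hz⟩ := hβspec (m + 1)
    have hmu := hβmin m u hA
    obtain ⟨z, hz1, hz2, hz3⟩ := hz x (hxm.trans hmu) y (hym.trans hmu) hx hy hxy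
    exact ⟨z, hz2, hz1, hz3⟩
  have hstep := inv_step hS hlt hcyc hX β hβ hβ0 hβ2
  have h0 : InvE S lt X ltX β 0 (fun _ => 0) := by
    refine ⟨?_, ?_, ?_⟩
    · intro a ha; exact absurd ha (Nat.not_lt_zero a)
    · intro a ha; exact absurd ha (Nat.not_lt_zero a)
    · intro a ha; exact absurd ha (Nat.not_lt_zero a)
  let G : (m : ℕ) → {g : ℕ → ℕ // InvE S lt X ltX β m g} := fun m =>
    Nat.rec ⟨fun _ => 0, h0⟩
      (fun m G => ⟨update G.1 m (hstep m G.1 G.2).choose, (hstep m G.1 G.2).choose_spec⟩) m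
  have hG : ∀ m, (G (m + 1)).1 = update (G m).1 m (hstep m (G m).1 (G m).2).choose := fun m => rfl
  have hGa : ∀ m a, a < m → (G m).1 a = (G (a + 1)).1 a := by
    intro m
    induction m with
    | zero => intro a ha; exact absurd ha (Nat.not_lt_zero a)
    | succ m ih =>
      intro a ha
      rcases Nat.lt_succ_iff_lt_or_eq.1 ha with h | h
      · rw [hG, update_of_ne (by omega)]
        exact ih a h
      · rw [h]
  refine ⟨fun a => (G (a + 1)).1 a, ?_, ?_, ?_⟩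
  · intro a ha
    exact ((G (a + 1)).2.1 a (Nat.lt_succ_self a) ha).1.1
  · intro a ha b hb hab
    have hma : a < max a b + 1 := by omega
    have hmb : b < max a b + 1 := by omega
    have := (G (max a b + 1)).2.2.1 a hma b hmb ha hb hab
    rw [hGa _ a hma, hGa _ b hmb] at this
    exact this
  · intro a ha v hv
    exact ((G (a + 1)).2.2.2 a (Nat.lt_succ_self a) ha).trans (hβmin _ _ hv)

end Pool.Agent.Helper317.PM
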