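import Pool.Agent.Helper317.PMU.Core

/-!
The embedding tasks are closed.
-/

namespace Pool.Agent.Helper317.PM

open Pool.Agent.Helper317.SOA Function

section clop
variable {α : Type*} [TopologicalSpace α]

lemma c_and {P Q : α → Prop} (h1 : IsClopen {x | P x}) (h2 : IsClopen {x | Q x}) :
    IsClopen {x | P x ∧ Q x} := h1.inter h2

lemma c_or {P Q : α → Prop} (h1 : IsClopen {x | P x}) (h2 : IsClopen {x | Q x}) :
    IsClopen {x | P x ∨ Q x} := h1.union h2

lemma c_not {P : α → Prop} (h1 : IsClopen {x | P x}) : IsClopen {x | ¬ P x} := h1.compl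

lemma c_const (p : Prop) : IsClopen {_x : α | p} := by
  by_cases h : p
  · have : {_x : α | p} = Set.univ := by ext; simp [h]
    rw [this]; exact isClopen_univ
  · have : {_x : α | p} = ∅ := by ext; simp [h]
    rw [this]; exact isClopen_empty

lemma c_imp {P Q : α → Prop} (h1 : IsClopen {x | P x}) (h2 : IsClopen {x | Q x}) :
    IsClopen {x | P x → Q x} := by
  have : {x | P x → Q x} = {x | ¬ P x ∨ Q x} := by ext x; exact imp_iff_not_or
  rw [this]; exact c_or (c_not h1) h2

lemma c_iff {P Q : α → Prop} (h1 : IsClopen {x | P x}) (h2 : IsClopen {x | Q x}) :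
    IsClopen {x | P x ↔ Q x} := by
  have : {x | P x ↔ Q x} = {x | (P x → Q x) ∧ (Q x → P x)} := by ext x; exact iff_iff_implies_and_implies
  rw [this]; exact c_and (c_imp h1 h2) (c_imp h2 h1)

lemma c_exle {P : ℕ → α → Prop} (v : ℕ) (h : ∀ a, IsClopen {x | P a x}) :
    IsClopen {x | ∃ a ≤ v, P a x} := by
  have : {x | ∃ a ≤ v, P a x} = ⋃ a ∈ Set.Iic v, {x | P a x} := by
    ext x; simp
  rw [this]
  exact (Set.finite_Iic v).isClopen_biUnion fun a _ => h a

lemma c_alle {P : ℕ → α → Prop} (v : ℕ) (h : ∀ a, IsClopen {x | P a x}) :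
    IsClopen {x | ∀ a ≤ v, P a x} := by
  have : {x | ∀ a ≤ v, P a x} = ⋂ a ∈ Set.Iic v, {x | P a x} := by
    ext x; simp
  rw [this]
  exact (Set.finite_Iic v).isClopen_biInter fun a _ => h a

lemma cl_all {ι : Type*} {P : ι → α → Prop} (h : ∀ a, IsClosed {x | P a x}) :
    IsClosed {x | ∀ a, P a x} := by
  have : {x | ∀ a, P a x} = ⋂ a, {x | P a x} := by
    ext x; simp
  rw [this]
  exact isClosed_iInter h

lemma cl_and {P Q : α → Prop} (h1 : IsClosed {x | P x}) (h2 : IsClosed {x | Q x}) :
    IsClosed {x | P x ∧ Q x} := h1.inter h2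

end clop

lemma coord_clopen (l k : ℕ) : IsClopen {x : Om | x l k = true} := by
  have hc : Continuous (fun x : Om => x l k) := by fun_prop
  exact (isClopen_discrete {true}).preimage hc

lemma coord1 (l k : ℕ) : IsClopen {p : Om × (ℕ → Bool) | p.1 l k = true} :=
  (coord_clopen l k).preimage continuous_fst

lemma coord2 (k : ℕ) : IsClopen {p : Om × (ℕ → Bool) | p.2 k = true} := by
  have hc : Continuous (fun p : Om × (ℕ → Bool) => p.2 k) := by fun_prop
  exact (isClopen_discrete {true}).preimage hc

theorem adq_clopen (l n m v : ℕ) :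
    IsClopen {x : Om | Adq (SB (x l) n) (CB (x l) n) m v} := by
  induction m generalizing v with
  | zero =>
    unfold Adq
    refine c_exle v fun a => c_exle v fun b => c_exle v fun c => ?_
    exact c_and (coord_clopen l _) (c_and (coord_clopen l _) (c_and (coord_clopen l _)
      (c_and (c_const _) (c_and (c_const _) (c_const _)))))
  | succ m ih =>
    unfold Adq
    refine c_exle v fun u => c_and (ih u) ?_
    refine c_alle u fun a => c_alle u fun b => ?_
    refine c_imp (coord_clopen l _) (c_imp (coord_clopen l _) (c_imp (c_const _) ?_))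
    exact c_exle v fun z => c_and (coord_clopen l _) (coord_clopen l _)

theorem qemb_closed (i l : ℕ) : IsClosed (Qemb i l) := by
  unfold Qemb
  refine cl_and ?_ (cl_and ?_ (cl_and ?_ (cl_and ?_ ?_)))
  · refine cl_all fun n => cl_all fun a => cl_all fun v => ?_
    refine (c_imp (coord1 i _) (c_imp ((adq_clopen l n (a+1) v).preimage continuous_fst) ?_)).isClosed
    exact c_exle v fun c => coord2 _
  · refine cl_all fun n => cl_all fun a => cl_all fun c => ?_
    exact (c_imp (coord2 _) (c_iff (coord1 i _) (coord1 l _))).isClosed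
  · refine cl_all fun a => cl_all fun c => cl_all fun b => cl_all fun d => ?_
    exact (c_imp (coord2 _) (c_imp (coord2 _) (c_const _))).isClosed
  · refine cl_all fun n => cl_all fun a => cl_all fun c => cl_all fun b => cl_all fun d =>
      cl_all fun e => cl_all fun g => ?_
    exact (c_imp (coord2 _) (c_imp (coord2 _) (c_imp (coord2 _)
      (c_iff (coord1 i _) (coord1 l _))))).isClosed
  · refine cl_all fun n => cl_all fun s => cl_all fun a => cl_all fun c => cl_all fun b =>
      cl_all fun d => ?_
    exact (c_imp (coord2 _) (c_imp (coord2 _) (c_iff (coord1 i _) (coord1 l _)))).isClosed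

theorem qemb_supp (i l : ℕ) :
    ∃ N, ∀ (x x' : Om) (y : ℕ → Bool), (∀ i < N, x i = x' i) →
      ((x, y) ∈ Qemb i l ↔ (x', y) ∈ Qemb i l) := by
  refine ⟨max i l + 1, fun x x' y h => ?_⟩
  have hi : x i = x' i := h i (by omega)
  have hl : x l = x' l := h l (by omega)
  simp only [Qemb, Set.mem_ofPred_eq, hi, hl]

end Pool.Agent.Helper317.PM
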