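import Pool.Agent.Helper317.PMU.Core

/-!
One-point extensions for linear and circular orders.
-/

namespace Pool.Agent.Helper317.PM

open Pool.Agent.Helper317.SOA Function

/-- a maximal element of a list -/
theorem list_max {S : Set ℕ} {lt : ℕ → ℕ → Prop} (hS : LinOn S lt) :
    ∀ F : List ℕ, (∀ x ∈ F, x ∈ S) → F ≠ [] → ∃ m ∈ F, ∀ x ∈ F, x = m ∨ lt x m := by
  intro F
  induction F with
  | nil => intro _ h; exact absurd rfl h
  | cons y F ih =>
    intro hF _
    by_cases hE : F = []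
    · subst hE
      exact ⟨y, by simp, by simp⟩
    · obtain ⟨m, hm, hmax⟩ := ih (fun x hx => hF x (List.mem_cons_of_mem _ hx)) hE
      have hyS : y ∈ S := hF y List.mem_cons_self
      have hmS : m ∈ S := hF m (List.mem_cons_of_mem _ hm)
      by_cases hym : y = m
      · refine ⟨m, List.mem_cons_of_mem _ hm, ?_⟩
        intro x hx
        rcases List.mem_cons.1 hx with h | h
        · left; rw [h, hym]
        · exact hmax x h
      · rcases hS.total y hyS m hmS hym with h | h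
        · refine ⟨m, List.mem_cons_of_mem _ hm, ?_⟩
          intro x hx
          rcases List.mem_cons.1 hx with h' | h'
          · right; rw [h']; exact h
          · exact hmax x h'
        · refine ⟨y, List.mem_cons_self, ?_⟩
          intro x hx
          rcases List.mem_cons.1 hx with h' | h'
          · left; exact h'
          · right
            rcases hmax x h' with h2 | h2
            · rw [h2]; exact h
            · exact hS.trans x (hF x (List.mem_cons_of_mem _ h')) m hmS y hyS h2 h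

theorem linOn_swap {S : Set ℕ} {lt : ℕ → ℕ → Prop} (hS : LinOn S lt) :
    LinOn S (fun a b => lt b a) :=
  ⟨fun a ha => hS.irrefl a ha, fun a ha b hb c hc h1 h2 => hS.trans c hc b hb a ha h2 h1,
    fun a ha b hb hab => (hS.total a ha b hb hab).symm⟩

theorem between {S : Set ℕ} {lt : ℕ → ℕ → Prop} (hS : LinOn S lt)
    (hd : ∀ a ∈ S, ∀ b ∈ S, lt a b → ∃ c ∈ S, lt a c ∧ lt c b)
    (hlo : ∀ a ∈ S, ∃ b ∈ S, lt b a) (hhi : ∀ a ∈ S, ∃ b ∈ S, lt a b)
    (hne : S.Nonempty) (lo hi : List ℕ) (h1 : ∀ x ∈ lo, x ∈ S) (h2 : ∀ x ∈ hi, x ∈ S)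
    (h3 : ∀ x ∈ lo, ∀ y ∈ hi, lt x y) :
    ∃ c ∈ S, (∀ x ∈ lo, lt x c) ∧ ∀ y ∈ hi, lt c y := by
  by_cases hE1 : lo = []
  · by_cases hE2 : hi = []
    · obtain ⟨c, hc⟩ := hne
      refine ⟨c, hc, ?_, ?_⟩
      · rw [hE1]; simp
      · rw [hE2]; simp
    · obtain ⟨m, hm, hmin⟩ := list_max (linOn_swap hS) hi h2 hE2
      obtain ⟨c, hc, hcm⟩ := hlo m (h2 m hm)
      refine ⟨c, hc, ?_, ?_⟩
      · rw [hE1]; simp
      · intro y hy
        rcases hmin y hy with h | h
        · rw [h]; exact hcm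
        · exact hS.trans c hc m (h2 m hm) y (h2 y hy) hcm h
  · obtain ⟨M, hM, hmax⟩ := list_max hS lo h1 hE1
    by_cases hE2 : hi = []
    · obtain ⟨c, hc, hcM⟩ := hhi M (h1 M hM)
      refine ⟨c, hc, ?_, ?_⟩
      · intro x hx
        rcases hmax x hx with h | h
        · rw [h]; exact hcM
        · exact hS.trans x (h1 x hx) M (h1 M hM) c hc h hcM
      · rw [hE2]; simp
    · obtain ⟨m, hm, hmin⟩ := list_max (linOn_swap hS) hi h2 hE2
      obtain ⟨c, hc, hc1, hc2⟩ := hd M (h1 M hM) m (h2 m hm) (h3 M hM m hm)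
      refine ⟨c, hc, ?_, ?_⟩
      · intro x hx
        rcases hmax x hx with h | h
        · rw [h]; exact hc1
        · exact hS.trans x (h1 x hx) M (h1 M hM) c hc h hc1
      · intro y hy
        rcases hmin y hy with h | h
        · rw [h]; exact hc2
        · exact hS.trans c hc m (h2 m hm) y (h2 y hy) hc2 h

theorem lin_ext {S S' : Set ℕ} {lt lt' : ℕ → ℕ → Prop} (hS : LinOn S lt) (hS' : LinOn S' lt')
    (hd : ∀ a ∈ S', ∀ b ∈ S', lt' a b → ∃ c ∈ S', lt' a c ∧ lt' c b)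
    (hlo : ∀ a ∈ S', ∃ b ∈ S', lt' b a) (hhi : ∀ a ∈ S', ∃ b ∈ S', lt' a b)
    (hne : S'.Nonempty) (L : List (ℕ × ℕ)) (hL : ∀ p ∈ L, p.1 ∈ S ∧ p.2 ∈ S')
    (hinj : ∀ p ∈ L, ∀ q ∈ L, (p.1 = q.1 ↔ p.2 = q.2))
    (hlt : ∀ p ∈ L, ∀ q ∈ L, (lt p.1 q.1 ↔ lt' p.2 q.2)) {a : ℕ} (ha : a ∈ S) :
    ∃ a' ∈ S', ∀ p ∈ L, (p.1 = a ↔ p.2 = a') ∧ (lt p.1 a ↔ lt' p.2 a') ∧
      (lt a p.1 ↔ lt' a' p.2) := by
  classical
  by_cases hex : ∃ p ∈ L, p.1 = a
  · obtain ⟨p0, hp0, hpa⟩ := hex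
    refine ⟨p0.2, (hL p0 hp0).2, ?_⟩
    intro p hp
    subst hpa
    exact ⟨hinj p hp p0 hp0, hlt p hp p0 hp0, hlt p0 hp0 p hp⟩
  · have hna : ∀ p ∈ L, p.1 ≠ a := fun p hp h => hex ⟨p, hp, h⟩
    have hasym : ∀ x ∈ S, ∀ y ∈ S, lt x y → ¬ lt y x := fun x hx y hy h1 h2 =>
      hS.irrefl x hx (hS.trans x hx y hy x hx h1 h2)
    have hasym' : ∀ x ∈ S', ∀ y ∈ S', lt' x y → ¬ lt' y x := fun x hx y hy h1 h2 =>
      hS'.irrefl x hx (hS'.trans x hx y hy x hx h1 h2)
    obtain ⟨a', ha', hc1, hc2⟩ := between hS' hd hlo hhi hne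
      ((L.filter (fun p => decide (lt p.1 a))).map Prod.snd)
      ((L.filter (fun p => decide (lt a p.1))).map Prod.snd)
      (by
        intro x hx
        obtain ⟨p, hp, rfl⟩ := List.mem_map.1 hx
        exact (hL p (List.mem_filter.1 hp).1).2)
      (by
        intro x hx
        obtain ⟨p, hp, rfl⟩ := List.mem_map.1 hx
        exact (hL p (List.mem_filter.1 hp).1).2)
      (by
        intro x hx y hy
        obtain ⟨p, hp, rfl⟩ := List.mem_map.1 hx
        obtain ⟨q, hq, rfl⟩ := List.mem_map.1 hy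
        obtain ⟨hp1, hp2⟩ := List.mem_filter.1 hp
        obtain ⟨hq1, hq2⟩ := List.mem_filter.1 hq
        have h1 : lt p.1 a := by simpa using hp2
        have h2 : lt a q.1 := by simpa using hq2
        exact (hlt p hp1 q hq1).1 (hS.trans _ (hL p hp1).1 a ha _ (hL q hq1).1 h1 h2))
    have k1 : ∀ p ∈ L, lt p.1 a → lt' p.2 a' := by
      intro p hp h
      apply hc1
      exact List.mem_map.2 ⟨p, List.mem_filter.2 ⟨hp, by simpa using h⟩, rfl⟩
    have k2 : ∀ p ∈ L, lt a p.1 → lt' a' p.2 := by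
      intro p hp h
      apply hc2
      exact List.mem_map.2 ⟨p, List.mem_filter.2 ⟨hp, by simpa using h⟩, rfl⟩
    refine ⟨a', ha', ?_⟩
    intro p hp
    have hp1 := (hL p hp).1
    have hp2 := (hL p hp).2
    rcases hS.total p.1 hp1 a ha (hna p hp) with h | h
    · have h' := k1 p hp h
      refine ⟨⟨fun e => absurd e (hna p hp), fun e => ?_⟩, ⟨fun _ => h', fun _ => h⟩,
        ⟨fun e => absurd e (hasym _ hp1 a ha h), fun e => absurd e (hasym' _ hp2 a' ha' h')⟩⟩
      rw [e] at h'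
      exact absurd h' (hS'.irrefl a' ha')
    · have h' := k2 p hp h
      refine ⟨⟨fun e => absurd e (hna p hp), fun e => ?_⟩,
        ⟨fun e => absurd e (hasym a ha _ hp1 h), fun e => absurd e (hasym' a' ha' _ hp2 h')⟩,
        ⟨fun _ => h', fun _ => h⟩⟩
      rw [e] at h'
      exact absurd h' (hS'.irrefl a' ha')

section circ
variable {S : Set ℕ} {C : ℕ → ℕ → ℕ → Prop}

theorem circ_rot (hS : Circ S C) {a b c : ℕ} (ha : a ∈ S) (hb : b ∈ S) (hc : c ∈ S) :
    C a b c ↔ C b c a :=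
  ⟨fun h => hS.cyclic a ha b hb c hc h,
    fun h => hS.cyclic c hc a ha b hb (hS.cyclic b hb c hc a ha h)⟩

theorem circ_aba (hS : Circ S C) {a b : ℕ} (ha : a ∈ S) (hb : b ∈ S) : ¬ C a b a :=
  fun h => hS.asymm a ha b hb a ha h h

theorem circ_aab (hS : Circ S C) {a b : ℕ} (ha : a ∈ S) (hb : b ∈ S) : ¬ C a a b :=
  fun h => circ_aba hS ha hb ((circ_rot hS ha ha hb).1 h)

theorem circ_baa (hS : Circ S C) {a b : ℕ} (ha : a ∈ S) (hb : b ∈ S) : ¬ C b a a :=
  fun h => circ_aab hS ha hb ((circ_rot hS hb ha ha).1 h)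

theorem circ_lin (hS : Circ S C) {b : ℕ} (hb : b ∈ S) : LinOn (S \ {b}) (C b) := by
  refine ⟨fun a ha => circ_baa hS ha.1 hb, fun x hx y hy z hz h1 h2 =>
    hS.trans b hb x hx.1 y hy.1 z hz.1 h1 h2, fun x hx y hy hxy => ?_⟩
  rcases hS.total b hb x hx.1 y hy.1 (fun h => hx.2 h.symm) hxy (fun h => hy.2 h.symm) with h | h
  · exact Or.inl h
  · right
    exact (circ_rot hS hx.1 hb hy.1).1 ((circ_rot hS hy.1 hx.1 hb).1 h)

theorem circ_key (hS : Circ S C) {b x y z : ℕ} (hb : b ∈ S) (hx : x ∈ S) (hy : y ∈ S)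
    (hz : z ∈ S) (h1 : C b x y) (h2 : C b y z) : C x y z := by
  have a1 : C y b x := (circ_rot hS hx hy hb).1 ((circ_rot hS hb hx hy).1 h1)
  have a2 : C y z b := (circ_rot hS hb hy hz).1 h2
  have a3 : C y z x := hS.trans y hy z hz b hb x hx a2 a1
  exact (circ_rot hS hx hy hz).2 a3

theorem circ_cyc (hS : Circ S C) {b x y z : ℕ} (hb : b ∈ S) (hx : x ∈ S) (hy : y ∈ S)
    (hz : z ∈ S) (hxb : x ≠ b) (hyb : y ≠ b) (hzb : z ≠ b) : C x y z ↔ cyc (C b) x y z := by
  have hlin := circ_lin hS hb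
  constructor
  · intro h
    have hxy : x ≠ y := by
      rintro rfl
      exact circ_aab hS hx hz h
    have hyz : y ≠ z := by
      rintro rfl
      exact circ_baa hS hy hx h
    have hxz : x ≠ z := by
      rintro rfl
      exact circ_aba hS hx hy h
    have t1 := hlin.total x ⟨hx, hxb⟩ y ⟨hy, hyb⟩ hxy
    have t2 := hlin.total y ⟨hy, hyb⟩ z ⟨hz, hzb⟩ hyz
    have t3 := hlin.total x ⟨hx, hxb⟩ z ⟨hz, hzb⟩ hxz
    have hno : ∀ u v w : ℕ, u ∈ S → v ∈ S → w ∈ S → C b u v → C b v w → ¬ C w v u := by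
      intro u v w hu hv hw h1 h2 h3
      exact hS.asymm u hu v hv w hw (circ_key hS hb hu hv hw h1 h2) h3
    have h' : C y z x := (circ_rot hS hx hy hz).1 h
    have h'' : C z x y := (circ_rot hS hy hz hx).1 h'
    unfold cyc
    rcases t1 with t1 | t1
    · rcases t2 with t2 | t2
      · exact Or.inl ⟨t1, t2⟩
      · rcases t3 with t3 | t3
        · -- x < z < y
          exact absurd h' (hno x z y hx hz hy t3 t2)
        · -- z < x < y
          exact Or.inr (Or.inr ⟨t3, t1⟩)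
    · rcases t2 with t2 | t2
      · rcases t3 with t3 | t3
        · -- y < x < z
          exact absurd h'' (hno y x z hy hx hz t1 t3)
        · -- y < z < x
          exact Or.inr (Or.inl ⟨t2, t3⟩)
      · -- z < y < x
        exact absurd h (hno z y x hz hy hx t2 t1)
  · rintro (⟨h1, h2⟩ | ⟨h1, h2⟩ | ⟨h1, h2⟩)
    · exact circ_key hS hb hx hy hz h1 h2
    · exact (circ_rot hS hx hy hz).2 (circ_key hS hb hy hz hx h1 h2)
    · exact (circ_rot hS hz hx hy).1 (circ_key hS hb hz hx hy h1 h2)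

theorem circ_dense (hS : Circ S C) {b x y : ℕ} (hb : b ∈ S) (hx : x ∈ S) (hy : y ∈ S)
    (hxy : C b x y) : ∃ c ∈ S \ {b}, C b x c ∧ C b c y := by
  have hne : x ≠ y := by
    rintro rfl
    exact circ_baa hS hx hb hxy
  obtain ⟨c, hc, hxcy⟩ := hS.dense x hx y hy hne
  have a1 : C x y b := (circ_rot hS hb hx hy).1 hxy
  have a2 : C x c b := hS.trans x hx c hc y hy b hb hxcy a1
  have a3 : C b x c := (circ_rot hS hb hx hc).2 a2
  have a4 : C y b x := (circ_rot hS hx hy hb).1 a1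
  have a5 : C y x c := (circ_rot hS hc hy hx).1 ((circ_rot hS hx hc hy).1 hxcy)
  have a6 : C y b c := hS.trans y hy b hb x hx c hc a4 a5
  have a7 : C b c y := (circ_rot hS hy hb hc).1 a6
  refine ⟨c, ⟨hc, ?_⟩, a3, a7⟩
  intro h
  have h : c = b := h
  subst h
  exact circ_aab hS hc hy a7

theorem circ_lo (hS : Circ S C) {b : ℕ} (hb : b ∈ S) :
    ∀ x ∈ S \ {b}, ∃ c ∈ S \ {b}, C b c x := by
  intro x hx
  obtain ⟨c, hc, h⟩ := hS.dense b hb x hx.1 (fun h => hx.2 h.symm)
  refine ⟨c, ⟨hc, ?_⟩, h⟩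
  intro hcb
  have hcb : c = b := hcb
  subst hcb
  exact circ_aab hS hc hx.1 h

theorem circ_hi (hS : Circ S C) {b : ℕ} (hb : b ∈ S) :
    ∀ x ∈ S \ {b}, ∃ c ∈ S \ {b}, C b x c := by
  intro x hx
  obtain ⟨c, hc, h⟩ := hS.dense x hx.1 b hb (fun h => hx.2 h)
  have h' : C b x c := (circ_rot hS hb hx.1 hc).2 h
  refine ⟨c, ⟨hc, ?_⟩, h'⟩
  intro hcb
  have hcb : c = b := hcb
  subst hcb
  exact circ_aba hS hc hx.1 h'

theorem circ_ne (hS : Circ S C) {b : ℕ} (hb : b ∈ S) : (S \ {b}).Nonempty := by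
  obtain ⟨x, hx, y, hy, hxy⟩ := hS.two
  by_cases h : x = b
  · exact ⟨y, hy, fun h' => hxy (h.trans (Eq.symm h'))⟩
  · exact ⟨x, hx, h⟩

end circ

theorem circ_ext {S S' : Set ℕ} {C C' : ℕ → ℕ → ℕ → Prop} (hS : Circ S C) (hS' : Circ S' C')
    (L : List (ℕ × ℕ)) (hL : ∀ p ∈ L, p.1 ∈ S ∧ p.2 ∈ S')
    (hinj : ∀ p ∈ L, ∀ q ∈ L, (p.1 = q.1 ↔ p.2 = q.2))
    (hC : ∀ p ∈ L, ∀ q ∈ L, ∀ r ∈ L, (C p.1 q.1 r.1 ↔ C' p.2 q.2 r.2)) {a : ℕ} (ha : a ∈ S) :
    ∃ a' ∈ S', (∀ p ∈ L, (p.1 = a ↔ p.2 = a')) ∧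
      ∀ p ∈ (a, a') :: L, ∀ q ∈ (a, a') :: L, ∀ r ∈ (a, a') :: L,
        (C p.1 q.1 r.1 ↔ C' p.2 q.2 r.2) := by
  classical
  by_cases hex : ∃ p ∈ L, p.1 = a
  · obtain ⟨⟨x, y⟩, hp0, hpa⟩ := hex
    have hpa : x = a := hpa
    subst hpa
    refine ⟨y, (hL _ hp0).2, fun p hp => hinj p hp _ hp0, ?_⟩
    have hsub : ∀ p ∈ (x, y) :: L, p ∈ L := by
      intro p hp
      rcases List.mem_cons.1 hp with h | h
      · rw [h]; exact hp0
      · exact h
    intro p hp q hq r hr
    exact hC p (hsub p hp) q (hsub q hq) r (hsub r hr)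
  · have hna : ∀ p ∈ L, p.1 ≠ a := fun p hp h => hex ⟨p, hp, h⟩
    by_cases hE : L = []
    · subst hE
      obtain ⟨a', ha', -⟩ := hS'.two
      refine ⟨a', ha', by simp, ?_⟩
      intro p hp q hq r hr
      have hp : p = (a, a') := by simpa using hp
      have hq : q = (a, a') := by simpa using hq
      have hr : r = (a, a') := by simpa using hr
      subst hp hq hr
      exact ⟨fun h => absurd h (circ_aab hS ha ha), fun h => absurd h (circ_aab hS' ha' ha')⟩
    · obtain ⟨⟨b, b'⟩, hb0⟩ := List.exists_mem_of_ne_nil L hE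
      have hb : b ∈ S := (hL _ hb0).1
      have hb' : b' ∈ S' := (hL _ hb0).2
      have hab : a ≠ b := fun h => hna _ hb0 h.symm
      have hbb : ∀ p ∈ L, (p.1 = b ↔ p.2 = b') := fun p hp => hinj p hp _ hb0
      obtain ⟨a', ha', hext⟩ := lin_ext (circ_lin hS hb) (circ_lin hS' hb')
        (fun x hx y hy h => circ_dense hS' hb' hx.1 hy.1 h)
        (circ_lo hS' hb') (circ_hi hS' hb') (circ_ne hS' hb')
        (L.filter (fun p => decide (p.1 ≠ b)))
        (by
          intro p hp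
          obtain ⟨hp1, hp2⟩ := List.mem_filter.1 hp
          have hpb : p.1 ≠ b := by simpa using hp2
          exact ⟨⟨(hL p hp1).1, hpb⟩, ⟨(hL p hp1).2, fun h => hpb ((hbb p hp1).2 h)⟩⟩)
        (by
          intro p hp q hq
          exact hinj p (List.mem_filter.1 hp).1 q (List.mem_filter.1 hq).1)
        (by
          intro p hp q hq
          exact hC _ hb0 p (List.mem_filter.1 hp).1 q (List.mem_filter.1 hq).1)
        (a := a) ⟨ha, hab⟩
      have hab' : a' ≠ b' := fun h => ha'.2 h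
      have hx : ∀ p ∈ L, p.1 ≠ b → ((p.1 = a ↔ p.2 = a') ∧ (C b p.1 a ↔ C' b' p.2 a') ∧
          (C b a p.1 ↔ C' b' a' p.2)) := by
        intro p hp hpb
        exact hext p (List.mem_filter.2 ⟨hp, by simpa using hpb⟩)
      have hmem : ∀ p ∈ (a, a') :: L, p.1 ∈ S ∧ p.2 ∈ S' := by
        intro p hp
        rcases List.mem_cons.1 hp with h | h
        · rw [h]; exact ⟨ha, ha'.1⟩
        · exact hL p h
      have hb1 : ∀ p ∈ (a, a') :: L, (p.1 = b ↔ p.2 = b') := by
        intro p hp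
        rcases List.mem_cons.1 hp with h | h
        · rw [h]; exact ⟨fun e => absurd e hab, fun e => absurd e hab'⟩
        · exact hbb p h
      have hk : ∀ p ∈ (a, a') :: L, ∀ q ∈ (a, a') :: L, (C b p.1 q.1 ↔ C' b' p.2 q.2) := by
        intro p hp q hq
        by_cases hpb : p.1 = b
        · have hpb' := (hb1 p hp).1 hpb
          rw [hpb, hpb']
          exact ⟨fun h => absurd h (circ_aab hS hb (hmem q hq).1),
            fun h => absurd h (circ_aab hS' hb' (hmem q hq).2)⟩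
        · by_cases hqb : q.1 = b
          · have hqb' := (hb1 q hq).1 hqb
            rw [hqb, hqb']
            exact ⟨fun h => absurd h (circ_aba hS hb (hmem p hp).1),
              fun h => absurd h (circ_aba hS' hb' (hmem p hp).2)⟩
          · rcases List.mem_cons.1 hp with hp' | hp'
            · rcases List.mem_cons.1 hq with hq' | hq'
              · rw [hp', hq']
                exact ⟨fun h => absurd h (circ_baa hS ha hb),
                  fun h => absurd h (circ_baa hS' ha'.1 hb')⟩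
              · rw [hp']
                exact (hx q hq' hqb).2.2
            · rcases List.mem_cons.1 hq with hq' | hq'
              · rw [hq']
                exact (hx p hp' hpb).2.1
              · exact hC _ hb0 p hp' q hq'
      refine ⟨a', ha'.1, ?_, ?_⟩
      · intro p hp
        by_cases hpb : p.1 = b
        · have hpb' := (hbb p hp).1 hpb
          rw [hpb, hpb']
          exact ⟨fun e => absurd e.symm hab, fun e => absurd e.symm hab'⟩
        · exact (hx p hp hpb).1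
      · intro p hp q hq r hr
        have mp := hmem p hp
        have mq := hmem q hq
        have mr := hmem r hr
        by_cases hpb : p.1 = b
        · have hpb' := (hb1 p hp).1 hpb
          rw [hpb, hpb']
          exact hk q hq r hr
        · by_cases hqb : q.1 = b
          · have hqb' := (hb1 q hq).1 hqb
            rw [hqb, hqb', circ_rot hS mp.1 hb mr.1, circ_rot hS' mp.2 hb' mr.2]
            exact hk r hr p hp
          · by_cases hrb : r.1 = b
            · have hrb' := (hb1 r hr).1 hrb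
              rw [hrb, hrb', ← circ_rot hS hb mp.1 mq.1, ← circ_rot hS' hb' mp.2 mq.2]
              exact hk p hp q hq
            · rw [circ_cyc hS hb mp.1 mq.1 mr.1 hpb hqb hrb,
                circ_cyc hS' hb' mp.2 mq.2 mr.2 (fun h => hpb ((hb1 p hp).2 h))
                  (fun h => hqb ((hb1 q hq).2 h)) (fun h => hrb ((hb1 r hr).2 h))]
              unfold cyc
              rw [hk p hp q hq, hk q hq r hr, hk r hr p hp]

theorem circ_infinite {S : Set ℕ} {C : ℕ → ℕ → ℕ → Prop} (hS : Circ S C) (F : List ℕ) :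
    ∃ a ∈ S, a ∉ F := by
  classical
  by_contra hcon
  push Not at hcon
  obtain ⟨b, hb, -⟩ := hS.two
  have hlin := circ_lin hS hb
  obtain ⟨c0, hc0⟩ := circ_ne hS hb
  have hmemF : ∀ x, x ∈ F.filter (fun x => decide (x ∈ S \ {b})) ↔ x ∈ S \ {b} := by
    intro x
    rw [List.mem_filter]
    constructor
    · rintro ⟨-, h⟩
      exact of_decide_eq_true h
    · intro h
      exact ⟨hcon x h.1, decide_eq_true h⟩
  obtain ⟨m, hm, hmax⟩ := list_max hlin (F.filter (fun x => decide (x ∈ S \ {b})))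
    (fun x hx => (hmemF x).1 hx) (List.ne_nil_of_mem ((hmemF c0).2 hc0))
  have hmS := (hmemF m).1 hm
  obtain ⟨c, hc, hmc⟩ := circ_hi hS hb m hmS
  rcases hmax c ((hmemF c).2 hc) with h | h
  · rw [h] at hmc
    exact hlin.irrefl m hmS hmc
  · exact hlin.irrefl m hmS (hlin.trans m hmS c hc m hmS hmc h)

end Pool.Agent.Helper317.PM
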