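import Pool.Agent.Helper317.PMU.Core
import Pool.Agent.Helper317.PMU.E1

/-!
One-point extensions of finite partial isomorphisms.
-/

namespace Pool.Agent.Helper317.PM

open Pool.Agent.Helper317.SOA Function




/-- criterion -/
theorem PI.of_crit {T : ℕ → ℕ → Bool} {A B : Str} (hA : Good T A) (hB : Good T B)
    {N : ℕ} {L : List (ℕ × ℕ)} (c1 : ∀ p ∈ L, p.1 ∈ A.dom ∧ p.2 ∈ B.dom)
    (c2 : ∀ p ∈ L, ∀ q ∈ L, (p.1 = q.1 ↔ p.2 = q.2))
    (c3 : ∀ n < N, ∀ p ∈ L, (p.1 ∈ sort A n ↔ p.2 ∈ sort B n))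
    (c4 : ∀ n < N, ∀ p ∈ L, ∀ q ∈ L, ∀ r ∈ L,
      (A.Rel n [p.1, q.1, r.1] ↔ B.Rel n [p.2, q.2, r.2]))
    (c5 : ∀ n < N, ∀ p ∈ L, ∀ q ∈ L, (A.Rel n [p.1, q.1] ↔ B.Rel n [p.2, q.2])) :
    PI N A B L := by
  refine ⟨c1, c2, fun r hr l hl => ?_⟩
  have hAd : ∀ x ∈ l.map Prod.fst, x ∈ A.dom := by
    intro x hx
    obtain ⟨p, hp, rfl⟩ := List.mem_map.mp hx
    exact (c1 p (hl p hp)).1
  have hBd : ∀ x ∈ l.map Prod.snd, x ∈ B.dom := by
    intro x hx
    obtain ⟨p, hp, rfl⟩ := List.mem_map.mp hx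
    exact (c1 p (hl p hp)).2
  have hno : ¬ (l.length = 1 ∨ l.length = 2 ∨ l.length = 3) →
      (A.Rel r (l.map Prod.fst) ↔ B.Rel r (l.map Prod.snd)) := by
    intro hlen
    constructor
    · intro h
      have := hA.other r _ hAd h
      rw [List.length_map] at this
      exact absurd this hlen
    · intro h
      have := hB.other r _ hBd h
      rw [List.length_map] at this
      exact absurd this hlen
  match l, hl, hno with
  | [], _, hno => exact hno (by simp)
  | [p], hl, _ =>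
    have hp : p ∈ L := hl p (by simp)
    have h := c3 r hr p hp
    constructor
    · intro h1
      exact (h.mp ⟨(c1 p hp).1, h1⟩).2
    · intro h1
      exact (h.mpr ⟨(c1 p hp).2, h1⟩).2
  | [p, q], hl, _ => exact c5 r hr p (hl p (by simp)) q (hl q (by simp))
  | [p, q, t], hl, _ => exact c4 r hr p (hl p (by simp)) q (hl q (by simp)) t (hl t (by simp))
  | p :: q :: t :: u :: l, _, hno => exact hno (by simp)

theorem PI.sort_iff {T : ℕ → ℕ → Bool} {A B : Str}
    {N : ℕ} {L : List (ℕ × ℕ)} (hL : PI N A B L) {n : ℕ} (hn : n < N) {p : ℕ × ℕ} (hp : p ∈ L) :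
    p.1 ∈ sort A n ↔ p.2 ∈ sort B n := by
  have h := hL.rel n hn [p] (by simpa using hp)
  have h' : A.Rel n [p.1] ↔ B.Rel n [p.2] := h
  exact ⟨fun h1 => ⟨(hL.dom p hp).2, h'.mp h1.2⟩, fun h1 => ⟨(hL.dom p hp).1, h'.mpr h1.2⟩⟩

theorem PI.rel3 {A B : Str} {N : ℕ} {L : List (ℕ × ℕ)} (hL : PI N A B L) {n : ℕ} (hn : n < N)
    {p q r : ℕ × ℕ} (hp : p ∈ L) (hq : q ∈ L) (hr : r ∈ L) :
    A.Rel n [p.1, q.1, r.1] ↔ B.Rel n [p.2, q.2, r.2] :=
  hL.rel n hn [p, q, r] (by
    intro x hx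
    simp only [List.mem_cons, List.not_mem_nil, or_false] at hx
    rcases hx with rfl | rfl | rfl <;> assumption)

theorem PI.rel2 {A B : Str} {N : ℕ} {L : List (ℕ × ℕ)} (hL : PI N A B L) {n : ℕ} (hn : n < N)
    {p q : ℕ × ℕ} (hp : p ∈ L) (hq : q ∈ L) :
    A.Rel n [p.1, q.1] ↔ B.Rel n [p.2, q.2] :=
  hL.rel n hn [p, q] (by
    intro x hx
    simp only [List.mem_cons, List.not_mem_nil, or_false] at hx
    rcases hx with rfl | rfl <;> assumption)

theorem inj_cons {L : List (ℕ × ℕ)} (h : ∀ p ∈ L, ∀ q ∈ L, (p.1 = q.1 ↔ p.2 = q.2)) {a b : ℕ}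
    (ha : ∀ p ∈ L, p.1 ≠ a) (hb : ∀ p ∈ L, p.2 ≠ b) :
    ∀ p ∈ (a, b) :: L, ∀ q ∈ (a, b) :: L, (p.1 = q.1 ↔ p.2 = q.2) := by
  intro p hp q hq
  rcases List.mem_cons.mp hp with rfl | hp <;> rcases List.mem_cons.mp hq with rfl | hq
  · exact iff_of_true rfl rfl
  · exact iff_of_false (fun e => ha q hq e.symm) (fun e => hb q hq e.symm)
  · exact iff_of_false (ha p hp) (hb p hp)
  · exact h p hp q hq

/-- extension inside a sort -/
theorem pi_sort {T : ℕ → ℕ → Bool} {A B : Str} (hA : Good T A) (hB : Good T B)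
    {N : ℕ} {L : List (ℕ × ℕ)} (hL : PI N A B L) {n a b : ℕ} (hn : n < N)
    (ha : a ∈ sort A n) (hb : b ∈ sort B n) (hna : ∀ p ∈ L, p.1 ≠ a)
    (L' : List (ℕ × ℕ)) (hL' : ∀ p, p ∈ L' ↔ p ∈ L ∧ p.1 ∈ sort A n)
    (h1 : ∀ p ∈ L', p.2 ≠ b)
    (h2 : ∀ p ∈ (a, b) :: L', ∀ q ∈ (a, b) :: L', ∀ r ∈ (a, b) :: L',
      (A.Rel n [p.1, q.1, r.1] ↔ B.Rel n [p.2, q.2, r.2]))
    (h3 : ∀ s, Nat.pair n s < N → ∀ p ∈ (a, b) :: L', ∀ q ∈ (a, b) :: L',
      (A.Rel (Nat.pair n s) [p.1, q.1] ↔ B.Rel (Nat.pair n s) [p.2, q.2])) :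
    PI N A B ((a, b) :: L) := by
  have hnb : ∀ p ∈ L, p.2 ≠ b := by
    intro p hp e
    have hps : p.2 ∈ sort B n := by rw [e]; exact hb
    have := (hL.sort_iff (T := T) hn hp).mpr hps
    exact h1 p ((hL' p).mpr ⟨hp, this⟩) e
  have hdom : ∀ p ∈ (a, b) :: L, p.1 ∈ A.dom ∧ p.2 ∈ B.dom := by
    intro p hp
    rcases List.mem_cons.mp hp with rfl | hp
    · exact ⟨ha.1, hb.1⟩
    · exact hL.dom p hp
  have hmA : ∀ p ∈ (a, b) :: L, p.1 ∈ sort A n → p ∈ (a, b) :: L' := by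
    intro p hp hs
    rcases List.mem_cons.mp hp with rfl | hp
    · exact List.mem_cons_self
    · exact List.mem_cons_of_mem _ ((hL' p).mpr ⟨hp, hs⟩)
  have hmB : ∀ p ∈ (a, b) :: L, p.2 ∈ sort B n → p ∈ (a, b) :: L' := by
    intro p hp hs
    rcases List.mem_cons.mp hp with rfl | hp
    · exact List.mem_cons_self
    · exact List.mem_cons_of_mem _ ((hL' p).mpr ⟨hp, (hL.sort_iff (T := T) hn hp).mpr hs⟩)
  -- if an element of sort `m` is the new one then `m = n`
  have hA1 : ∀ m, ∀ p ∈ (a, b) :: L, p ∉ L → p.1 ∈ sort A m → m = n := by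
    intro m p hp hpL hs
    rcases List.mem_cons.mp hp with rfl | hp
    · exact hA.disj m n a hs ha
    · exact absurd hp hpL
  have hB1 : ∀ m, ∀ p ∈ (a, b) :: L, p ∉ L → p.2 ∈ sort B m → m = n := by
    intro m p hp hpL hs
    rcases List.mem_cons.mp hp with rfl | hp
    · exact hB.disj m n b hs hb
    · exact absurd hp hpL
  refine PI.of_crit hA hB hdom (inj_cons hL.inj hna hnb) ?_ ?_ ?_
  · intro m hm p hp
    rcases List.mem_cons.mp hp with rfl | hp
    · constructor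
      · intro h
        rw [hA.disj m n a h ha]; exact hb
      · intro h
        rw [hB.disj m n b h hb]; exact ha
    · exact hL.sort_iff (T := T) hm hp
  · intro m hm p hp q hq r hr
    by_cases hall : p ∈ L ∧ q ∈ L ∧ r ∈ L
    · exact hL.rel3 hm hall.1 hall.2.1 hall.2.2
    · constructor
      · intro h
        obtain ⟨s1, s2, s3⟩ := hA.cdom m _ (hdom p hp).1 _ (hdom q hq).1 _ (hdom r hr).1 h
        have hmn : m = n := by
          by_contra hne
          apply hall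
          refine ⟨?_, ?_, ?_⟩
          · by_contra hc; exact hne (hA1 m p hp hc s1)
          · by_contra hc; exact hne (hA1 m q hq hc s2)
          · by_contra hc; exact hne (hA1 m r hr hc s3)
        subst hmn
        exact (h2 p (hmA p hp s1) q (hmA q hq s2) r (hmA r hr s3)).mp h
      · intro h
        obtain ⟨s1, s2, s3⟩ := hB.cdom m _ (hdom p hp).2 _ (hdom q hq).2 _ (hdom r hr).2 h
        have hmn : m = n := by
          by_contra hne
          apply hall
          refine ⟨?_, ?_, ?_⟩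
          · by_contra hc; exact hne (hB1 m p hp hc s1)
          · by_contra hc; exact hne (hB1 m q hq hc s2)
          · by_contra hc; exact hne (hB1 m r hr hc s3)
        subst hmn
        exact (h2 p (hmB p hp s1) q (hmB q hq s2) r (hmB r hr s3)).mpr h
  · intro m hm p hp q hq
    obtain ⟨m1, s, rfl⟩ : ∃ m1 s, m = Nat.pair m1 s := ⟨m.unpair.1, m.unpair.2, (Nat.pair_unpair m).symm⟩
    by_cases hall : p ∈ L ∧ q ∈ L
    · exact hL.rel2 hm hall.1 hall.2
    · constructor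
      · intro h
        obtain ⟨-, s1, s2⟩ := hA.rdom m1 s _ (hdom p hp).1 _ (hdom q hq).1 h
        have hmn : m1 = n := by
          by_contra hne
          apply hall
          refine ⟨?_, ?_⟩
          · by_contra hc; exact hne (hA1 m1 p hp hc s1)
          · by_contra hc; exact hne (hA1 m1 q hq hc s2)
        subst hmn
        exact (h3 s hm p (hmA p hp s1) q (hmA q hq s2)).mp h
      · intro h
        obtain ⟨-, s1, s2⟩ := hB.rdom m1 s _ (hdom p hp).2 _ (hdom q hq).2 h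
        have hmn : m1 = n := by
          by_contra hne
          apply hall
          refine ⟨?_, ?_⟩
          · by_contra hc; exact hne (hB1 m1 p hp hc s1)
          · by_contra hc; exact hne (hB1 m1 q hq hc s2)
        subst hmn
        exact (h3 s hm p (hmB p hp s1) q (hmB q hq s2)).mpr h

theorem pi_ext {T : ℕ → ℕ → Bool} (hT : Fnl T) {A B : Str} (hA : Good T A) (hB : Good T B)
    {N : ℕ} {L : List (ℕ × ℕ)} (hL : PI N A B L) {a : ℕ} (ha : a ∈ A.dom) :
    ∃ b ∈ B.dom, PI N A B ((a, b) :: L) := by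
  classical
  by_cases h0 : ∃ p ∈ L, p.1 = a
  · obtain ⟨p, hp, rfl⟩ := h0
    refine ⟨p.2, (hL.dom p hp).2, ?_⟩
    have hsub : ∀ q ∈ (p.1, p.2) :: L, q ∈ L := by
      intro q hq
      rcases List.mem_cons.mp hq with rfl | hq
      · exact hp
      · exact hq
    exact ⟨fun q hq => hL.dom q (hsub q hq), fun q hq r hr => hL.inj q (hsub q hq) r (hsub r hr),
      fun r hr l hl => hL.rel r hr l fun q hq => hsub q (hl q hq)⟩
  push Not at h0
  by_cases h1 : ∃ n < N, a ∈ sort A n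
  · obtain ⟨n, hn, has⟩ := h1
    obtain ⟨L', hL'⟩ : ∃ L' : List (ℕ × ℕ), ∀ p, p ∈ L' ↔ p ∈ L ∧ p.1 ∈ sort A n :=
      ⟨L.filter fun p => decide (p.1 ∈ sort A n), fun p => by simp [List.mem_filter]⟩
    have hLS : ∀ p ∈ L', p.1 ∈ sort A n ∧ p.2 ∈ sort B n := by
      intro p hp
      obtain ⟨hp1, hp2⟩ := (hL' p).mp hp
      exact ⟨hp2, (hL.sort_iff (T := T) hn hp1).mp hp2⟩
    have hsub : ∀ p ∈ L', p ∈ L := fun p hp => ((hL' p).mp hp).1
    have hinj : ∀ p ∈ L', ∀ q ∈ L', (p.1 = q.1 ↔ p.2 = q.2) := fun p hp q hq =>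
      hL.inj p (hsub p hp) q (hsub q hq)
    by_cases h2 : ∃ s, Nat.pair n s < N ∧ T n s = true
    · obtain ⟨s, hsN, hTs⟩ := h2
      have linA := hA.rlin n s hTs
      have linB := hB.rlin n s hTs
      obtain ⟨t0, ht0, -⟩ := (hB.circ n).two
      obtain ⟨b, hb, hbL⟩ := lin_ext linA linB (by
        intro x hx y hy hxy
        have hne : x ≠ y := by
          rintro rfl
          exact linB.irrefl x hx hxy
        obtain ⟨c, hc, hxcy⟩ := (hB.circ n).dense x hx y hy hne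
        have h5 := (hB.rcyc n s hTs x hx c hc y hy).mp hxcy
        have hnyx : ¬ B.Rel (Nat.pair n s) [y, x] := fun h6 =>
          linB.irrefl x hx (linB.trans x hx y hy x hx hxy h6)
        rcases h5 with h5 | h5 | h5
        · exact ⟨c, hc, h5⟩
        · exact absurd h5.2 hnyx
        · exact absurd h5.1 hnyx) (hB.rlow n s hTs) (hB.rhigh n s hTs) ⟨t0, ht0⟩ L' hLS hinj
        (fun p hp q hq => hL.rel2 hsN (hsub p hp) (hsub q hq)) has
      have h1b : ∀ p ∈ L', p.2 ≠ b := by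
        intro p hp e
        exact h0 p (hsub p hp) ((hbL p hp).1.mpr e)
      have hlt : ∀ p ∈ (a, b) :: L', ∀ q ∈ (a, b) :: L',
          (A.Rel (Nat.pair n s) [p.1, q.1] ↔ B.Rel (Nat.pair n s) [p.2, q.2]) := by
        intro p hp q hq
        rcases List.mem_cons.mp hp with rfl | hp <;> rcases List.mem_cons.mp hq with rfl | hq
        · exact iff_of_false (linA.irrefl a has) (linB.irrefl b hb)
        · exact (hbL q hq).2.2
        · exact (hbL p hp).2.1
        · exact hL.rel2 hsN (hsub p hp) (hsub q hq)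
      have hmem : ∀ p ∈ (a, b) :: L', p.1 ∈ sort A n ∧ p.2 ∈ sort B n := by
        intro p hp
        rcases List.mem_cons.mp hp with rfl | hp
        · exact ⟨has, hb⟩
        · exact hLS p hp
      refine ⟨b, hb.1, pi_sort hA hB hL hn has hb h0 L' hL' h1b ?_ ?_⟩
      · intro p hp q hq r hr
        rw [hA.rcyc n s hTs _ (hmem p hp).1 _ (hmem q hq).1 _ (hmem r hr).1,
          hB.rcyc n s hTs _ (hmem p hp).2 _ (hmem q hq).2 _ (hmem r hr).2]
        unfold cyc
        beta_reduce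
        rw [hlt p hp q hq, hlt q hq r hr, hlt r hr p hp]
      · intro s' hs' p hp q hq
        by_cases hTs' : T n s' = true
        · have : s' = s := hT n s' s hTs' hTs
          subst this
          exact hlt p hp q hq
        · exact iff_of_false
            (fun h => hTs' (hA.rdom n s' _ (hmem p hp).1.1 _ (hmem q hq).1.1 h).1)
            (fun h => hTs' (hB.rdom n s' _ (hmem p hp).2.1 _ (hmem q hq).2.1 h).1)
    · push Not at h2
      obtain ⟨b, hb, hb1, hb2⟩ := circ_ext (hA.circ n) (hB.circ n) L' hLS hinj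
        (fun p hp q hq r hr => hL.rel3 hn (hsub p hp) (hsub q hq) (hsub r hr)) has
      have h1b : ∀ p ∈ L', p.2 ≠ b := by
        intro p hp e
        exact h0 p (hsub p hp) ((hb1 p hp).mpr e)
      have hmem : ∀ p ∈ (a, b) :: L', p.1 ∈ sort A n ∧ p.2 ∈ sort B n := by
        intro p hp
        rcases List.mem_cons.mp hp with rfl | hp
        · exact ⟨has, hb⟩
        · exact hLS p hp
      refine ⟨b, hb.1, pi_sort hA hB hL hn has hb h0 L' hL' h1b hb2 ?_⟩
      intro s' hs' p hp q hq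
      have hTs' := h2 s' hs'
      exact iff_of_false
        (fun h => hTs' (hA.rdom n s' _ (hmem p hp).1.1 _ (hmem q hq).1.1 h).1)
        (fun h => hTs' (hB.rdom n s' _ (hmem p hp).2.1 _ (hmem q hq).2.1 h).1)
  · push Not at h1
    obtain ⟨b, hb, hbL⟩ := circ_infinite (hB.circ N) (L.map Prod.snd)
    have hnb : ∀ p ∈ L, p.2 ≠ b := fun p hp e => hbL (List.mem_map.mpr ⟨p, hp, e⟩)
    have hbs : ∀ n < N, b ∉ sort B n := by
      intro n hn hs
      have := hB.disj n N b hs hb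
      omega
    have hdom : ∀ p ∈ (a, b) :: L, p.1 ∈ A.dom ∧ p.2 ∈ B.dom := by
      intro p hp
      rcases List.mem_cons.mp hp with rfl | hp
      · exact ⟨ha, hb.1⟩
      · exact hL.dom p hp
    have hA1 : ∀ m < N, ∀ p ∈ (a, b) :: L, p.1 ∈ sort A m → p ∈ L := by
      intro m hm p hp hs
      rcases List.mem_cons.mp hp with rfl | hp
      · exact absurd hs (h1 m hm)
      · exact hp
    have hB1 : ∀ m < N, ∀ p ∈ (a, b) :: L, p.2 ∈ sort B m → p ∈ L := by
      intro m hm p hp hs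
      rcases List.mem_cons.mp hp with rfl | hp
      · exact absurd hs (hbs m hm)
      · exact hp
    refine ⟨b, hb.1, PI.of_crit hA hB hdom (inj_cons hL.inj h0 hnb) ?_ ?_ ?_⟩
    · intro m hm p hp
      rcases List.mem_cons.mp hp with rfl | hp
      · exact iff_of_false (h1 m hm) (hbs m hm)
      · exact hL.sort_iff (T := T) hm hp
    · intro m hm p hp q hq r hr
      constructor
      · intro h
        obtain ⟨s1, s2, s3⟩ := hA.cdom m _ (hdom p hp).1 _ (hdom q hq).1 _ (hdom r hr).1 h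
        exact (hL.rel3 hm (hA1 m hm p hp s1) (hA1 m hm q hq s2) (hA1 m hm r hr s3)).mp h
      · intro h
        obtain ⟨s1, s2, s3⟩ := hB.cdom m _ (hdom p hp).2 _ (hdom q hq).2 _ (hdom r hr).2 h
        exact (hL.rel3 hm (hB1 m hm p hp s1) (hB1 m hm q hq s2) (hB1 m hm r hr s3)).mpr h
    · intro m hm p hp q hq
      obtain ⟨m1, s, rfl⟩ : ∃ m1 s, m = Nat.pair m1 s := ⟨m.unpair.1, m.unpair.2, (Nat.pair_unpair m).symm⟩
      have hm1 : m1 < N := lt_of_le_of_lt (Nat.left_le_pair m1 s) hm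
      constructor
      · intro h
        obtain ⟨-, s1, s2⟩ := hA.rdom m1 s _ (hdom p hp).1 _ (hdom q hq).1 h
        exact (hL.rel2 hm (hA1 m1 hm1 p hp s1) (hA1 m1 hm1 q hq s2)).mp h
      · intro h
        obtain ⟨-, s1, s2⟩ := hB.rdom m1 s _ (hdom p hp).2 _ (hdom q hq).2 h
        exact (hL.rel2 hm (hB1 m1 hm1 p hp s1) (hB1 m1 hm1 q hq s2)).mpr h

end Pool.Agent.Helper317.PM
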