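import Pool.Agent.Helper317.PMU.Core
import Pool.Agent.Helper317.PMU.E2

/-!
Ehrenfeucht games; codes.
-/

namespace Pool.Agent.Helper317.PM

open Pool.Agent.Helper317.SOA Function


theorem getD_map_aux (L : List (ℕ × ℕ)) (i : ℕ) :
    (L.map Prod.fst).getD i 0 = (L.getD i (0, 0)).1 ∧
      (L.map Prod.snd).getD i 0 = (L.getD i (0, 0)).2 := by
  induction L generalizing i with
  | nil => simp
  | cons p L ih =>
    cases i with
    | zero => simp
    | succ i => simpa using ih i

theorem getD_mem_aux (L : List (ℕ × ℕ)) (i : ℕ) (h : i < L.length) : L.getD i (0, 0) ∈ L := by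
  rw [List.getD_eq_getElem _ _ h]
  exact List.getElem_mem h

theorem lcode_inj_aux : ∀ l l' : List ℕ, lcode l = lcode l' → l = l' := by
  intro l
  induction l with
  | nil =>
    intro l' h
    cases l' with
    | nil => rfl
    | cons b l' => simp [lcode] at h
  | cons a l ih =>
    intro l' h
    cases l' with
    | nil => simp [lcode] at h
    | cons b l' =>
      have h1 : Nat.pair a (lcode l) = Nat.pair b (lcode l') := Nat.succ.inj h
      rw [Nat.pair_eq_pair] at h1
      rw [h1.1, ih l' h1.2]

theorem bd_mono_aux {N M : ℕ} (h : N ≤ M) (φ : Form) : φ.Bd N → φ.Bd M := by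
  induction φ with
  | rel r vs => intro h1; exact lt_of_lt_of_le h1 h
  | eq i j => intro _; trivial
  | neg φ ih => exact ih
  | and φ ψ ih1 ih2 => intro h1; exact ⟨ih1 h1.1, ih2 h1.2⟩
  | all φ ih => exact ih

theorem PI.symm {A B : Str} {N : ℕ} {L : List (ℕ × ℕ)} (hL : PI N A B L) :
    PI N B A (L.map Prod.swap) := by
  constructor
  · intro p hp
    obtain ⟨q, hq, rfl⟩ := List.mem_map.1 hp
    exact ⟨(hL.dom q hq).2, (hL.dom q hq).1⟩
  · intro p hp q hq
    obtain ⟨p', hp', rfl⟩ := List.mem_map.1 hp
    obtain ⟨q', hq', rfl⟩ := List.mem_map.1 hq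
    exact (hL.inj p' hp' q' hq').symm
  · intro r hr l hl
    have h1 := hL.rel r hr (l.map Prod.swap) (by
      intro p hp
      obtain ⟨q, hq, rfl⟩ := List.mem_map.1 hp
      obtain ⟨q', hq', h2⟩ := List.mem_map.1 (hl q hq)
      rw [← h2, Prod.swap_swap]
      exact hq')
    rw [List.map_map, List.map_map] at h1
    have e1 : (Prod.fst ∘ Prod.swap : ℕ × ℕ → ℕ) = Prod.snd := rfl
    have e2 : (Prod.snd ∘ Prod.swap : ℕ × ℕ → ℕ) = Prod.fst := rfl
    rw [e1, e2] at h1
    exact h1.symm

theorem ef {T : ℕ → ℕ → Bool} (hT : Fnl T) {A B : Str} (hA : Good T A) (hB : Good T B)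
    {N : ℕ} {φ : Form} (hφ : φ.Bd N) {L : List (ℕ × ℕ)} (hL : PI N A B L)
    (hs : φ.Scoped L.length) : Holds A (L.map Prod.fst) φ ↔ Holds B (L.map Prod.snd) φ := by
  induction φ generalizing L with
  | rel r vs =>
    show A.Rel r (vs.map fun i => (L.map Prod.fst).getD i 0) ↔
      B.Rel r (vs.map fun i => (L.map Prod.snd).getD i 0)
    have h1 := hL.rel r hφ (vs.map fun i => L.getD i (0, 0)) (by
      intro p hp
      obtain ⟨i, hi, rfl⟩ := List.mem_map.1 hp
      exact getD_mem_aux L i (hs i hi))
    rw [List.map_map, List.map_map] at h1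
    have e1 : (vs.map fun i => (L.map Prod.fst).getD i 0)
        = vs.map (Prod.fst ∘ fun i => L.getD i (0, 0)) :=
      List.map_congr_left fun i _ => (getD_map_aux L i).1
    have e2 : (vs.map fun i => (L.map Prod.snd).getD i 0)
        = vs.map (Prod.snd ∘ fun i => L.getD i (0, 0)) :=
      List.map_congr_left fun i _ => (getD_map_aux L i).2
    rw [e1, e2]
    exact h1
  | eq i j =>
    show (L.map Prod.fst).getD i 0 = (L.map Prod.fst).getD j 0 ↔
      (L.map Prod.snd).getD i 0 = (L.map Prod.snd).getD j 0
    rw [(getD_map_aux L i).1, (getD_map_aux L j).1, (getD_map_aux L i).2, (getD_map_aux L j).2]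
    exact hL.inj _ (getD_mem_aux L i hs.1) _ (getD_mem_aux L j hs.2)
  | neg φ ih =>
    exact not_congr (ih hφ hL hs)
  | and φ ψ ih1 ih2 =>
    exact and_congr (ih1 hφ.1 hL hs.1) (ih2 hφ.2 hL hs.2)
  | all φ ih =>
    constructor
    · intro h b hb
      obtain ⟨a, ha, hab⟩ := pi_ext hT hB hA hL.symm hb
      have h2 := hab.symm
      have e : (((b, a) :: L.map Prod.swap).map Prod.swap) = (a, b) :: L := by
        simp
      rw [e] at h2
      have h3 := (ih hφ h2 hs).1 (h a ha)
      exact h3
    · intro h a ha
      obtain ⟨b, hb, hab⟩ := pi_ext hT hA hB hL ha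
      have h3 := (ih hφ hab hs).2 (h b hb)
      exact h3

theorem bd_exists (φ : Form) : ∃ N, φ.Bd N := by
  induction φ with
  | rel r vs => exact ⟨r + 1, Nat.lt_succ_self r⟩
  | eq i j => exact ⟨0, trivial⟩
  | neg φ ih => exact ih
  | and φ ψ ih1 ih2 =>
    obtain ⟨N, hN⟩ := ih1
    obtain ⟨M, hM⟩ := ih2
    exact ⟨max N M, bd_mono_aux (le_max_left _ _) φ hN, bd_mono_aux (le_max_right _ _) ψ hM⟩
  | all φ ih => exact ih

theorem code_inj : ∀ φ ψ : Form, φ.code = ψ.code → φ = ψ := by
  intro φ
  induction φ with
  | rel r vs =>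
    intro ψ h
    cases ψ with
    | rel r' vs' =>
      have h1 : Nat.pair r (lcode vs) = Nat.pair r' (lcode vs') := by
        simp only [Form.code] at h
        omega
      rw [Nat.pair_eq_pair] at h1
      rw [h1.1, lcode_inj_aux _ _ h1.2]
    | eq i j => simp only [Form.code] at h; omega
    | neg ψ => simp only [Form.code] at h; omega
    | and ψ χ => simp only [Form.code] at h; omega
    | all ψ => simp only [Form.code] at h; omega
  | eq i j =>
    intro ψ h
    cases ψ with
    | rel r' vs' => simp only [Form.code] at h; omega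
    | eq i' j' =>
      have h1 : Nat.pair i j = Nat.pair i' j' := by
        simp only [Form.code] at h
        omega
      rw [Nat.pair_eq_pair] at h1
      rw [h1.1, h1.2]
    | neg ψ => simp only [Form.code] at h; omega
    | and ψ χ => simp only [Form.code] at h; omega
    | all ψ => simp only [Form.code] at h; omega
  | neg φ ih =>
    intro ψ h
    cases ψ with
    | rel r' vs' => simp only [Form.code] at h; omega
    | eq i' j' => simp only [Form.code] at h; omega
    | neg ψ =>
      have h1 : φ.code = ψ.code := by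
        simp only [Form.code] at h
        omega
      rw [ih ψ h1]
    | and ψ χ => simp only [Form.code] at h; omega
    | all ψ => simp only [Form.code] at h; omega
  | and φ φ' ih ih' =>
    intro ψ h
    cases ψ with
    | rel r' vs' => simp only [Form.code] at h; omega
    | eq i' j' => simp only [Form.code] at h; omega
    | neg ψ => simp only [Form.code] at h; omega
    | and ψ χ =>
      have h1 : Nat.pair φ.code φ'.code = Nat.pair ψ.code χ.code := by
        simp only [Form.code] at h
        omega
      rw [Nat.pair_eq_pair] at h1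
      rw [ih ψ h1.1, ih' χ h1.2]
    | all ψ => simp only [Form.code] at h; omega
  | all φ ih =>
    intro ψ h
    cases ψ with
    | rel r' vs' => simp only [Form.code] at h; omega
    | eq i' j' => simp only [Form.code] at h; omega
    | neg ψ => simp only [Form.code] at h; omega
    | and ψ χ => simp only [Form.code] at h; omega
    | all ψ =>
      have h1 : φ.code = ψ.code := by
        simp only [Form.code] at h
        omega
      rw [ih ψ h1]

theorem lcode_inj : ∀ l l' : List ℕ, lcode l = lcode l' → l = l' := by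
  exact lcode_inj_aux

theorem mem_diag (A : Str) (φ : Form) (l : List ℕ) :
    Nat.pair φ.code (lcode l) ∈ diag A ↔
      φ.Scoped l.length ∧ (∀ a ∈ l, a ∈ A.dom) ∧ Holds A l φ := by
  constructor
  · rintro ⟨φ', l', h1, h2, h3, h4⟩
    rw [Nat.pair_eq_pair] at h1
    rw [code_inj _ _ h1.1, lcode_inj _ _ h1.2]
    exact ⟨h2, h3, h4⟩
  · rintro ⟨h2, h3, h4⟩
    exact ⟨φ, l, rfl, h2, h3, h4⟩

theorem th_eq {T : ℕ → ℕ → Bool} (hT : Fnl T) {A B : Str} (hA : Good T A) (hB : Good T B) :
    Th A = Th B := by
  have hkey : ∀ φ : Form, φ.Scoped 0 → (Holds A [] φ ↔ Holds B [] φ) := by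
    intro φ hφ
    obtain ⟨N, hN⟩ := bd_exists φ
    have hPI : PI N A B [] := by
      constructor
      · intro p hp
        simp at hp
      · intro p hp
        simp at hp
      · intro r _ l hl
        have hnil : l = [] := by
          apply List.eq_nil_iff_forall_not_mem.2
          intro p hp
          have := hl p hp
          simp at this
        subst hnil
        constructor
        · intro h
          have := hA.other r [] (by simp) h
          simp at this
        · intro h
          have := hB.other r [] (by simp) h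
          simp at this
    exact ef hT hA hB hN hPI hφ
  ext c
  constructor
  · rintro ⟨φ, h1, h2, h3⟩
    exact ⟨φ, h1, h2, (hkey φ h2).1 h3⟩
  · rintro ⟨φ, h1, h2, h3⟩
    exact ⟨φ, h1, h2, (hkey φ h2).2 h3⟩

end Pool.Agent.Helper317.PM
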