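import Pool.Agent.Helper317.PMU.Core
import Pool.Agent.Helper317.PMU.B1
import Pool.Agent.Helper317.PMU.E3

/-!
The embedding tasks are solvable, and solutions are elementary embeddings.
-/

namespace Pool.Agent.Helper317.PM

open Pool.Agent.Helper317.SOA Function








theorem hd_iff_b3 {A : Str} {y : ℕ → Bool} (hy : diag A = st y) (φ : Form) (l : List ℕ) :
    hd y φ l ↔ φ.Scoped l.length ∧ (∀ a ∈ l, a ∈ A.dom) ∧ Holds A l φ := by
  rw [← mem_diag, hy]
  rfl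

theorem SB_iff_b3 {A : Str} {y : ℕ → Bool} (hy : diag A = st y) (n a : ℕ) :
    a ∈ SB y n ↔ a ∈ sort A n := by
  have h1 : a ∈ SB y n ↔ hd y (.rel n [0]) [a] := Iff.rfl
  rw [h1, hd_iff_b3 hy]
  have h2 : a ∈ sort A n ↔ a ∈ A.dom ∧ A.Rel n [a] := Iff.rfl
  rw [h2]
  simp [Form.Scoped, Holds]

theorem CB_iff_b3 {A : Str} {y : ℕ → Bool} (hy : diag A = st y) (n a b c : ℕ) :
    CB y n a b c ↔ (a ∈ A.dom ∧ b ∈ A.dom ∧ c ∈ A.dom) ∧ A.Rel n [a, b, c] := by
  have h1 : CB y n a b c ↔ hd y (.rel n [0, 1, 2]) [a, b, c] := Iff.rfl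
  rw [h1, hd_iff_b3 hy]
  simp [Form.Scoped, Holds]

theorem RB_iff_b3 {A : Str} {y : ℕ → Bool} (hy : diag A = st y) (n s a b : ℕ) :
    RB y n s a b ↔ (a ∈ A.dom ∧ b ∈ A.dom) ∧ A.Rel (Nat.pair n s) [a, b] := by
  have h1 : RB y n s a b ↔ hd y (.rel (Nat.pair n s) [0, 1]) [a, b] := Iff.rfl
  rw [h1, hd_iff_b3 hy]
  simp [Form.Scoped, Holds]

theorem Adq_congr_b3 {S : Set ℕ} {C C' : ℕ → ℕ → ℕ → Prop}
    (h : ∀ x ∈ S, ∀ z ∈ S, ∀ y ∈ S, (C x z y ↔ C' x z y)) (m : ℕ) :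
    ∀ v, Adq S C m v ↔ Adq S C' m v := by
  induction m with
  | zero => intro v; exact Iff.rfl
  | succ m ih =>
    intro v
    constructor
    · rintro ⟨u, hu, h1, h2⟩
      refine ⟨u, hu, (ih u).1 h1, fun x hx y hy hxS hyS hxy => ?_⟩
      obtain ⟨z, hz, hzS, hC⟩ := h2 x hx y hy hxS hyS hxy
      exact ⟨z, hz, hzS, (h x hxS z hzS y hyS).1 hC⟩
    · rintro ⟨u, hu, h1, h2⟩
      refine ⟨u, hu, (ih u).2 h1, fun x hx y hy hxS hyS hxy => ?_⟩
      obtain ⟨z, hz, hzS, hC⟩ := h2 x hx y hy hxS hyS hxy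
      exact ⟨z, hz, hzS, (h x hxS z hzS y hyS).2 hC⟩

theorem Adq_iff_b3 {A : Str} {y : ℕ → Bool} (hy : diag A = st y) (n m v : ℕ) :
    Adq (SB y n) (CB y n) m v ↔ Adq (sort A n) (fun a b c => A.Rel n [a, b, c]) m v := by
  have hS : SB y n = sort A n := by
    ext a
    exact SB_iff_b3 hy n a
  rw [hS]
  refine Adq_congr_b3 (fun a ha b hb c hc => ?_) m v
  rw [CB_iff_b3 hy]
  exact ⟨fun h => h.2, fun h => ⟨⟨ha.1, hb.1, hc.1⟩, h⟩⟩

theorem choose_lt_b3 {T : ℕ → ℕ → Bool} (hT : Fnl T) {A : Str} (hA : Good T A) (n : ℕ) :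
    ∃ lt : ℕ → ℕ → Prop, LinOn (sort A n) lt ∧
      (∀ a ∈ sort A n, ∀ b ∈ sort A n, ∀ c ∈ sort A n, (A.Rel n [a, b, c] ↔ cyc lt a b c)) ∧
      ∀ s, T n s = true → ∀ a b, (lt a b ↔ A.Rel (Nat.pair n s) [a, b]) := by
  by_cases h : ∃ s, T n s = true
  · obtain ⟨s, hs⟩ := h
    refine ⟨fun a b => A.Rel (Nat.pair n s) [a, b], hA.rlin n s hs, hA.rcyc n s hs, ?_⟩
    intro s' hs' a b
    rw [hT n s s' hs hs']
  · obtain ⟨lt, h1, h2⟩ := circ_cut (hA.circ n)
    exact ⟨lt, h1, h2, fun s hs => absurd ⟨s, hs⟩ h⟩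

theorem qemb_solve {T : ℕ → ℕ → Bool} (hT : Fnl T) {A C : Str} (hA : Good T A) (hC : Good T C)
    (hdom : A.dom = Set.univ) (hsort : ∀ a, ∃ n, a ∈ sort A n) {x : Om} {i l : ℕ}
    (hi : diag A = st (x i)) (hl : diag C = st (x l)) : ∃ y, (x, y) ∈ Qemb i l := by
  classical
  choose ltA hA1 hA2 hA3 using choose_lt_b3 hT hA
  choose ltC hC1 hC2 hC3 using choose_lt_b3 hT hC
  have hf : ∀ n, ∃ f : ℕ → ℕ, (∀ a ∈ sort A n, f a ∈ sort C n) ∧
      (∀ a ∈ sort A n, ∀ b ∈ sort A n, ltA n a b → ltC n (f a) (f b)) ∧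
      ∀ a ∈ sort A n, ∀ v, Adq (sort C n) (fun a b c => C.Rel n [a, b, c]) (a + 1) v → f a ≤ v :=
    fun n => bdd_emb (hC.circ n) (hC1 n) (hC2 n) (hA1 n)
  choose f hf1 hf2 hf3 using hf
  choose N hN using hsort
  set g : ℕ → ℕ := fun a => f (N a) a with hg
  have hNe : ∀ n a, a ∈ sort A n → N a = n := fun n a ha => hA.disj _ _ a (hN a) ha
  have P1 : ∀ n a, a ∈ sort A n → g a ∈ sort C n := by
    intro n a ha
    have := hNe n a ha
    simp only [hg, this]
    exact hf1 n a ha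
  have P2 : ∀ n a b, a ∈ sort A n → b ∈ sort A n → ltA n a b → ltC n (g a) (g b) := by
    intro n a b ha hb hab
    have h1 := hNe n a ha
    have h2 := hNe n b hb
    simp only [hg, h1, h2]
    exact hf2 n a ha b hb hab
  have P5 : ∀ n a, a ∈ sort A n ↔ g a ∈ sort C n := by
    intro n a
    refine ⟨P1 n a, fun h => ?_⟩
    have h1 := P1 (N a) a (hN a)
    have h2 : N a = n := hC.disj _ _ _ h1 h
    rw [← h2]
    exact hN a
  have P4 : ∀ a b, g a = g b → a = b := by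
    intro a b hab
    by_contra hne
    have h1 := P1 (N a) a (hN a)
    have h2 := P1 (N b) b (hN b)
    rw [hab] at h1
    have h3 : N a = N b := hC.disj _ _ _ h1 h2
    have h4 : a ∈ sort A (N b) := h3 ▸ hN a
    rcases (hA1 (N b)).total a h4 b (hN b) hne with h5 | h5
    · have h6 := P2 _ _ _ h4 (hN b) h5
      rw [hab] at h6
      exact (hC1 (N b)).irrefl _ h2 h6
    · have h6 := P2 _ _ _ (hN b) h4 h5
      rw [hab] at h6
      exact (hC1 (N b)).irrefl _ h2 h6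
  have P6 : ∀ n a b, a ∈ sort A n → b ∈ sort A n → (ltA n a b ↔ ltC n (g a) (g b)) := by
    intro n a b ha hb
    refine ⟨P2 n a b ha hb, fun h => ?_⟩
    have hga := P1 n a ha
    have hgb := P1 n b hb
    have hne : a ≠ b := by
      rintro rfl
      exact (hC1 n).irrefl _ hga h
    rcases (hA1 n).total a ha b hb hne with h5 | h5
    · exact h5
    · exact absurd ((hC1 n).trans _ hga _ hgb _ hga h (P2 n b a hb ha h5)) ((hC1 n).irrefl _ hga)
  have hu : ∀ a, a ∈ A.dom := fun a => by rw [hdom]; trivial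
  have hgu : ∀ a, g a ∈ C.dom := fun a => (P1 (N a) a (hN a)).1
  have P7 : ∀ n a b e, A.Rel n [a, b, e] ↔ C.Rel n [g a, g b, g e] := by
    intro n a b e
    constructor
    · intro h
      obtain ⟨h1, h2, h3⟩ := hA.cdom n a (hu a) b (hu b) e (hu e) h
      rw [hA2 n a h1 b h2 e h3] at h
      rw [hC2 n _ (P1 n a h1) _ (P1 n b h2) _ (P1 n e h3)]
      unfold cyc at h ⊢
      rwa [P6 n a b h1 h2, P6 n b e h2 h3, P6 n e a h3 h1] at h
    · intro h
      obtain ⟨h1, h2, h3⟩ := hC.cdom n _ (hgu a) _ (hgu b) _ (hgu e) h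
      rw [hC2 n _ h1 _ h2 _ h3] at h
      rw [← P5] at h1 h2 h3
      rw [hA2 n a h1 b h2 e h3]
      unfold cyc at h ⊢
      rwa [P6 n a b h1 h2, P6 n b e h2 h3, P6 n e a h3 h1]
  have P8 : ∀ n s a b, A.Rel (Nat.pair n s) [a, b] ↔ C.Rel (Nat.pair n s) [g a, g b] := by
    intro n s a b
    constructor
    · intro h
      obtain ⟨h1, h2, h3⟩ := hA.rdom n s a (hu a) b (hu b) h
      rw [← hA3 n s h1 a b, P6 n a b h2 h3, hC3 n s h1] at h
      exact h
    · intro h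
      obtain ⟨h1, h2, h3⟩ := hC.rdom n s _ (hgu a) _ (hgu b) h
      rw [← P5] at h2 h3
      rw [← hC3 n s h1, ← P6 n a b h2 h3, hA3 n s h1] at h
      exact h
  let y : ℕ → Bool := fun c => decide (∃ a, c = Nat.pair a (g a))
  have hy : ∀ a c, y (Nat.pair a c) = true ↔ c = g a := by
    intro a c
    show decide (∃ a', Nat.pair a c = Nat.pair a' (g a')) = true ↔ c = g a
    rw [decide_eq_true_iff]
    constructor
    · rintro ⟨a', h⟩
      rw [Nat.pair_eq_pair] at h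
      rw [h.2, h.1]
    · intro h
      exact ⟨a, by rw [h]⟩
  refine ⟨y, ?_, ?_, ?_, ?_, ?_⟩
  · intro n a v ha hv
    have ha' := (SB_iff_b3 hi n a).1 ha
    have hv' := (Adq_iff_b3 hl n (a + 1) v).1 hv
    refine ⟨g a, ?_, (hy a (g a)).2 rfl⟩
    have h1 := hNe n a ha'
    simp only [hg, h1]
    exact hf3 n a ha' v hv'
  · intro n a c hac
    have hac' := (hy a c).1 hac
    rw [hac']
    exact (SB_iff_b3 hi n a).trans ((P5 n a).trans (SB_iff_b3 hl n (g a)).symm)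
  · intro a c b d hac hbd
    rw [(hy a c).1 hac, (hy b d).1 hbd]
    exact ⟨fun h => by rw [h], P4 a b⟩
  · intro n a c b d e k hac hbd hek
    rw [(hy a c).1 hac, (hy b d).1 hbd, (hy e k).1 hek]
    refine (CB_iff_b3 hi n a b e).trans (Iff.trans ?_ (CB_iff_b3 hl n (g a) (g b) (g e)).symm)
    rw [P7 n a b e]
    exact ⟨fun h => ⟨⟨hgu a, hgu b, hgu e⟩, h.2⟩, fun h => ⟨⟨hu a, hu b, hu e⟩, h.2⟩⟩
  · intro n s a c b d hac hbd
    rw [(hy a c).1 hac, (hy b d).1 hbd]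
    refine (RB_iff_b3 hi n s a b).trans (Iff.trans ?_ (RB_iff_b3 hl n s (g a) (g b)).symm)
    rw [P8 n s a b]
    exact ⟨fun h => ⟨⟨hgu a, hgu b⟩, h.2⟩, fun h => ⟨⟨hu a, hu b⟩, h.2⟩⟩

theorem qemb_emb {T : ℕ → ℕ → Bool} (hT : Fnl T) {A C : Str} (hA : Good T A) (hC : Good T C)
    (hdom : A.dom = Set.univ) (hsort : ∀ a, ∃ n, a ∈ sort A n) {x : Om} {i l : ℕ}
    (hi : diag A = st (x i)) (hl : diag C = st (x l)) {y : ℕ → Bool} (hy : (x, y) ∈ Qemb i l) :
    ∃ f, gr A f = st y ∧ ElemEmb A C f := by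
  obtain ⟨q1, q2, q3, q4, q5⟩ := hy
  have hex : ∀ a, ∃ c, y (Nat.pair a c) = true := by
    intro a
    obtain ⟨n, hn⟩ := hsort a
    obtain ⟨v, hv⟩ := adq_exists (hC.circ n) (a + 1)
    obtain ⟨c, _, hc⟩ := q1 n a v ((SB_iff_b3 hi n a).2 hn) ((Adq_iff_b3 hl n (a + 1) v).2 hv)
    exact ⟨c, hc⟩
  choose f hf using hex
  have huniq : ∀ a c, y (Nat.pair a c) = true → c = f a := fun a c hc =>
    (q3 a c a (f a) hc (hf a)).1 rfl
  have hu : ∀ a, a ∈ A.dom := fun a => by rw [hdom]; trivial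
  have hsrt : ∀ n a, a ∈ sort A n ↔ f a ∈ sort C n := fun n a =>
    (SB_iff_b3 hi n a).symm.trans ((q2 n a (f a) (hf a)).trans (SB_iff_b3 hl n (f a)))
  have hfu : ∀ a, f a ∈ C.dom := by
    intro a
    obtain ⟨n, hn⟩ := hsort a
    exact ((hsrt n a).1 hn).1
  have hinj : ∀ a b, a = b ↔ f a = f b := fun a b => q3 a (f a) b (f b) (hf a) (hf b)
  have R1 : ∀ r a, A.Rel r [a] ↔ C.Rel r [f a] := by
    intro r a
    have := hsrt r a
    exact ⟨fun h => (this.1 ⟨hu a, h⟩).2, fun h => (this.2 ⟨hfu a, h⟩).2⟩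
  have R2 : ∀ r a b, A.Rel r [a, b] ↔ C.Rel r [f a, f b] := by
    intro r a b
    have h := (RB_iff_b3 hi r.unpair.1 r.unpair.2 a b).symm.trans
      ((q5 r.unpair.1 r.unpair.2 a (f a) b (f b) (hf a) (hf b)).trans
        (RB_iff_b3 hl r.unpair.1 r.unpair.2 (f a) (f b)))
    rw [Nat.pair_unpair] at h
    exact ⟨fun h' => (h.1 ⟨⟨hu a, hu b⟩, h'⟩).2, fun h' => (h.2 ⟨⟨hfu a, hfu b⟩, h'⟩).2⟩
  have R3 : ∀ r a b c, A.Rel r [a, b, c] ↔ C.Rel r [f a, f b, f c] := by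
    intro r a b c
    have h := (CB_iff_b3 hi r a b c).symm.trans
      ((q4 r a (f a) b (f b) c (f c) (hf a) (hf b) (hf c)).trans (CB_iff_b3 hl r (f a) (f b) (f c)))
    exact ⟨fun h' => (h.1 ⟨⟨hu a, hu b, hu c⟩, h'⟩).2,
      fun h' => (h.2 ⟨⟨hfu a, hfu b, hfu c⟩, h'⟩).2⟩
  have R : ∀ r (m : List ℕ), A.Rel r m ↔ C.Rel r (m.map f) := by
    intro r m
    match m with
    | [] =>
      constructor
      · intro h
        have := hA.other r [] (by simp) h
        simp at this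
      · intro h
        have := hC.other r [] (by simp) h
        simp at this
    | [a] => exact R1 r a
    | [a, b] => exact R2 r a b
    | [a, b, c] => exact R3 r a b c
    | a :: b :: c :: d :: m' =>
      constructor
      · intro h
        have := hA.other r _ (fun a _ => hu a) h
        simp at this
      · intro h
        have h1 : ∀ k ∈ (a :: b :: c :: d :: m').map f, k ∈ C.dom := by
          intro k hk
          obtain ⟨k', _, rfl⟩ := List.mem_map.1 hk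
          exact hfu k'
        have := hC.other r _ h1 h
        simp at this
  refine ⟨f, ?_, fun a _ => hfu a, ?_⟩
  · ext k
    constructor
    · rintro ⟨a, _, rfl⟩
      exact hf a
    · intro hk
      have hk' : y (Nat.pair k.unpair.1 k.unpair.2) = true := by
        rw [Nat.pair_unpair]; exact hk
      refine ⟨k.unpair.1, hu _, ?_⟩
      rw [← huniq _ _ hk', Nat.pair_unpair]
  · intro φ L0 hs _
    obtain ⟨N, hN⟩ := bd_exists φ
    have hL : PI N A C (L0.map fun a => (a, f a)) := by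
      refine ⟨?_, ?_, ?_⟩
      · intro p hp
        obtain ⟨a, _, rfl⟩ := List.mem_map.1 hp
        exact ⟨hu a, hfu a⟩
      · intro p hp q hq
        obtain ⟨a, _, rfl⟩ := List.mem_map.1 hp
        obtain ⟨b, _, rfl⟩ := List.mem_map.1 hq
        exact hinj a b
      · intro r _ m hm
        have h1 : m.map Prod.snd = (m.map Prod.fst).map f := by
          rw [List.map_map]
          refine List.map_congr_left fun p hp => ?_
          obtain ⟨a, _, rfl⟩ := List.mem_map.1 (hm p hp)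
          rfl
        rw [h1]
        exact R r _
    have h := ef hT hA hC hN hL (by rw [List.length_map]; exact hs)
    rw [List.map_map, List.map_map] at h
    have e1 : L0.map (Prod.fst ∘ fun a => (a, f a)) = L0 := by
      have : (Prod.fst ∘ fun a : ℕ => (a, f a)) = id := rfl
      rw [this, List.map_id]
    have e2 : L0.map (Prod.snd ∘ fun a => (a, f a)) = L0.map f := rfl
    rw [e1, e2] at h
    exact h

end Pool.Agent.Helper317.PM
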