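import Pool.Agent.Helper317.PMU.Defs

/-!
The spaces, tasks and structures used in the construction.
-/

namespace Pool.Agent.Helper317.PM

open Pool.Agent.Helper317.SOA Function

/-- sequences of sets, as sequences of characteristic functions -/
abbrev Om := ℕ → ℕ → Bool

/-- the set with a given characteristic function -/
def st (y : ℕ → Bool) : Set ℕ := {n | y n = true}

/-- the family of the sets in a sequence -/
def Fam (x : Om) : Set (Set ℕ) := {X | ∃ i, X = st (x i)}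

/-- the assignment given by a list -/
def asg (l : List ℕ) : ℕ → ℕ := fun i => l.getD i 0

/-- `y` separates `∃ b, φ(a,b)` from `∃ b, ¬ ψ(a,b)` -/
def Qsep (φ ψ : Fm) (i j k : ℕ) (v V : List ℕ) : Set (Om × (ℕ → Bool)) :=
  {p | ∀ a b : ℕ,
    (Sat (omega ∅) (update (update (asg v) i a) j b) (fun m => st (p.1 (V.getD m 0))) φ →
      p.2 a = true) ∧
    (¬ Sat (omega ∅) (update (update (asg v) i a) k b) (fun m => st (p.1 (V.getD m 0))) ψ →
      p.2 a = false)}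

/-- `y` is a path of the tree `x i` -/
def Qwkl (i : ℕ) : Set (Om × (ℕ → Bool)) :=
  {p | ∀ n, p.1 i (bcode ((List.range n).map p.2)) = true}

/-- a strict linear order on `S` -/
structure LinOn (S : Set ℕ) (lt : ℕ → ℕ → Prop) : Prop where
  irrefl : ∀ a ∈ S, ¬ lt a a
  trans : ∀ a ∈ S, ∀ b ∈ S, ∀ c ∈ S, lt a b → lt b c → lt a c
  total : ∀ a ∈ S, ∀ b ∈ S, a ≠ b → lt a b ∨ lt b a

/-- the circular order of a linear order -/
def cyc {α : Type} (lt : α → α → Prop) (a b c : α) : Prop :=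
  (lt a b ∧ lt b c) ∨ (lt b c ∧ lt c a) ∨ (lt c a ∧ lt a b)

/-- a dense circular order on `S` -/
structure Circ (S : Set ℕ) (C : ℕ → ℕ → ℕ → Prop) : Prop where
  cyclic : ∀ a ∈ S, ∀ b ∈ S, ∀ c ∈ S, C a b c → C b c a
  asymm : ∀ a ∈ S, ∀ b ∈ S, ∀ c ∈ S, C a b c → ¬ C c b a
  trans : ∀ a ∈ S, ∀ b ∈ S, ∀ c ∈ S, ∀ d ∈ S, C a b c → C a c d → C a b d
  total : ∀ a ∈ S, ∀ b ∈ S, ∀ c ∈ S, a ≠ b → b ≠ c → a ≠ c → C a b c ∨ C c b a
  dense : ∀ a ∈ S, ∀ b ∈ S, a ≠ b → ∃ c ∈ S, C a c b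
  two : ∃ a ∈ S, ∃ b ∈ S, a ≠ b

/-- the sort number `n` of a structure -/
def sort (A : Str) (n : ℕ) : Set ℕ := {a | a ∈ A.dom ∧ A.Rel n [a]}

/-- `T` reveals each `n` at most once -/
def Fnl (T : ℕ → ℕ → Bool) : Prop := ∀ n s s', T n s = true → T n s' = true → s = s'

/-- the axioms -/
structure Good (T : ℕ → ℕ → Bool) (A : Str) : Prop where
  other : ∀ r l, (∀ a ∈ l, a ∈ A.dom) → A.Rel r l → l.length = 1 ∨ l.length = 2 ∨ l.length = 3
  disj : ∀ n m a, a ∈ sort A n → a ∈ sort A m → n = m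
  cdom : ∀ n, ∀ a ∈ A.dom, ∀ b ∈ A.dom, ∀ c ∈ A.dom, A.Rel n [a, b, c] →
    a ∈ sort A n ∧ b ∈ sort A n ∧ c ∈ sort A n
  circ : ∀ n, Circ (sort A n) (fun a b c => A.Rel n [a, b, c])
  rdom : ∀ n s, ∀ a ∈ A.dom, ∀ b ∈ A.dom, A.Rel (Nat.pair n s) [a, b] →
    T n s = true ∧ a ∈ sort A n ∧ b ∈ sort A n
  rlin : ∀ n s, T n s = true → LinOn (sort A n) (fun a b => A.Rel (Nat.pair n s) [a, b])
  rcyc : ∀ n s, T n s = true → ∀ a ∈ sort A n, ∀ b ∈ sort A n, ∀ c ∈ sort A n,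
    (A.Rel n [a, b, c] ↔ cyc (fun a b => A.Rel (Nat.pair n s) [a, b]) a b c)
  rlow : ∀ n s, T n s = true → ∀ a ∈ sort A n, ∃ b ∈ sort A n, A.Rel (Nat.pair n s) [b, a]
  rhigh : ∀ n s, T n s = true → ∀ a ∈ sort A n, ∃ b ∈ sort A n, A.Rel (Nat.pair n s) [a, b]

/-- all relation symbols of the formula have numbers below `N` -/
def Form.Bd (N : ℕ) : Form → Prop
  | .rel r _ => r < N
  | .eq _ _ => True
  | .neg φ => φ.Bd N
  | .and φ ψ => φ.Bd N ∧ ψ.Bd N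
  | .all φ => φ.Bd N

/-- finite partial isomorphisms for the relations with numbers below `N` -/
structure PI (N : ℕ) (A B : Str) (L : List (ℕ × ℕ)) : Prop where
  dom : ∀ p ∈ L, p.1 ∈ A.dom ∧ p.2 ∈ B.dom
  inj : ∀ p ∈ L, ∀ q ∈ L, (p.1 = q.1 ↔ p.2 = q.2)
  rel : ∀ r < N, ∀ l : List (ℕ × ℕ), (∀ p ∈ l, p ∈ L) →
    (A.Rel r (l.map Prod.fst) ↔ B.Rel r (l.map Prod.snd))

/-- `v` is adequate at stage `m`: there is a chain of `m` steps, starting with three points, each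
step meeting all arcs between the points of the previous step. -/
def Adq (S : Set ℕ) (C : ℕ → ℕ → ℕ → Prop) : ℕ → ℕ → Prop
  | 0, v => ∃ a ≤ v, ∃ b ≤ v, ∃ c ≤ v, a ∈ S ∧ b ∈ S ∧ c ∈ S ∧ a ≠ b ∧ b ≠ c ∧ a ≠ c
  | m + 1, v => ∃ u ≤ v, Adq S C m u ∧ ∀ x ≤ u, ∀ y ≤ u, x ∈ S → y ∈ S → x ≠ y →
      ∃ z ≤ v, z ∈ S ∧ C x z y

/-- the formula `φ` holds at `l` according to the diagram `y` -/
def hd (y : ℕ → Bool) (φ : Form) (l : List ℕ) : Prop :=
  y (Nat.pair φ.code (lcode l)) = true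

def SB (y : ℕ → Bool) (n : ℕ) : Set ℕ := {a | hd y (.rel n [0]) [a]}
def CB (y : ℕ → Bool) (n a b c : ℕ) : Prop := hd y (.rel n [0, 1, 2]) [a, b, c]
def RB (y : ℕ → Bool) (n s a b : ℕ) : Prop := hd y (.rel (Nat.pair n s) [0, 1]) [a, b]

/-- `y` is the graph of a structure preserving map, with bounded values -/
def Qemb (i l : ℕ) : Set (Om × (ℕ → Bool)) :=
  {p | (∀ n a v, a ∈ SB (p.1 i) n → Adq (SB (p.1 l) n) (CB (p.1 l) n) (a + 1) v →
        ∃ c ≤ v, p.2 (Nat.pair a c) = true) ∧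
    (∀ n a c, p.2 (Nat.pair a c) = true → (a ∈ SB (p.1 i) n ↔ c ∈ SB (p.1 l) n)) ∧
    (∀ a c b d, p.2 (Nat.pair a c) = true → p.2 (Nat.pair b d) = true → (a = b ↔ c = d)) ∧
    (∀ n a c b d e g, p.2 (Nat.pair a c) = true → p.2 (Nat.pair b d) = true →
      p.2 (Nat.pair e g) = true → (CB (p.1 i) n a b e ↔ CB (p.1 l) n c d g)) ∧
    (∀ n s a c b d, p.2 (Nat.pair a c) = true → p.2 (Nat.pair b d) = true →
      (RB (p.1 i) n s a b ↔ RB (p.1 l) n s c d))}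

/-- a fixed bijection -/
noncomputable def ee : ℕ ≃ ℕ × ℚ := (Denumerable.eqv (ℕ × ℚ)).symm

/-- The structure with the orders `O`. -/
def strO (O : ℕ → ℕ → ℚ → ℚ → Prop) (T : ℕ → ℕ → Bool) : Str where
  dom := Set.univ
  nonempty := ⟨0, trivial⟩
  Rel := fun r l => match l with
    | [a] => (ee a).1 = r
    | [a, b] => T r.unpair.1 r.unpair.2 = true ∧ (ee a).1 = r.unpair.1 ∧ (ee b).1 = r.unpair.1 ∧
        O r.unpair.1 r.unpair.2 (ee a).2 (ee b).2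
    | [a, b, c] => (ee a).1 = r ∧ (ee b).1 = r ∧ (ee c).1 = r ∧
        cyc (fun q r : ℚ => q < r) (ee a).2 (ee b).2 (ee c).2
    | _ => False

/-- The order of the rational numbers cut at `c`: the part above `c` comes first. -/
def cutlt (c : ℝ) (q r : ℚ) : Prop := (c < q ∧ (r : ℝ) < c) ∨ ((c < q ↔ c < r) ∧ q < r)

/-- the cut points used in the second structure -/
def IsCut (cut : ℕ → ℕ → ℝ) : Prop :=
  ∀ n s, Irrational (cut n s) ∧ cut n s < 0 ∧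
    ∀ a < s, (ee a).1 = n → ¬ (cut n s < ((ee a).2 : ℝ) ∧ (ee a).2 < 0)

/-- the first structure -/
def strA (T : ℕ → ℕ → Bool) : Str := strO (fun _ _ q r => q < r) T

/-- the second structure -/
def strB (cut : ℕ → ℕ → ℝ) (T : ℕ → ℕ → Bool) : Str := strO (fun n s => cutlt (cut n s)) T

/-- the code of the point `0` of the sort `n` -/
noncomputable def e0 (n : ℕ) : ℕ := ee.symm (n, 0)

/-- the point `q - 1` for the point `q` -/
noncomputable def pd (w : ℕ) : ℕ := ee.symm ((ee w).1, (ee w).2 - 1)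

/-- `y` is computed from the isomorphism `x i` and from `x 2` -/
def Qw (i : ℕ) : Set (Om × (ℕ → Bool)) :=
  {p | ∀ n w z, p.1 i (Nat.pair w (e0 n)) = true → p.1 i (Nat.pair (pd w) z) = true →
    (p.2 n = true ↔ ∃ s ≤ z, p.1 2 (Nat.pair n s) = true)}

/-- the closed relation between `T` and the first three sets -/
def RR (cut : ℕ → ℕ → ℝ) : Set ((ℕ → ℕ → Bool) × Om) :=
  {p | (∀ k, p.2 0 k = true ↔ k ∈ diag (strA p.1)) ∧
    (∀ k, p.2 1 k = true ↔ k ∈ diag (strB cut p.1)) ∧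
    ∀ n s, p.2 2 (Nat.pair n s) = p.1 n s}

end Pool.Agent.Helper317.PM
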