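import Pool.Agent.Helper317.PMU.E3

/-!
Definitions for the second model: names, generic objects, generic copies of a structure.
-/

namespace Pool.Agent.Helper317.PM

open Pool.Agent.Helper317.SOA Function

/-- `T` reveals numbers, with a color -/
abbrev Rv := ℕ → ℕ → Option Bool

/-- a sequence of generic functions -/
abbrev Gn := ℕ → ℕ → ℕ

/-- agreement on a finite window -/
def AgT (s : ℕ) (T T' : Rv) : Prop := ∀ a < s, ∀ b < s, T' a b = T a b
def AgG (s : ℕ) (G G' : Gn) : Prop := ∀ i < s, ∀ n < s, G' i n = G i n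
def AgGm (s m : ℕ) (G G' : Gn) : Prop := ∀ i < m, ∀ n < s, G' i n = G i n
def AgZ (s J : ℕ) (Z Z' : Om) : Prop := ∀ j < J, ∀ n < s, Z' j n = Z j n

/-- open sets, by windows -/
def WOpen (U : Set (Rv × Gn)) : Prop :=
  ∀ T G, (T, G) ∈ U → ∃ s, ∀ T' G', AgT s T T' → AgG s G G' → (T', G') ∈ U

/-- names of sets of numbers: continuous partial functions -/
structure Name where
  pos : ℕ → Set (Rv × Gn)
  neg : ℕ → Set (Rv × Gn)
  pos_open : ∀ n, WOpen (pos n)
  neg_open : ∀ n, WOpen (neg n)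
  lvl : ℕ
  pos_lvl : ∀ n T G G', (∀ i < lvl, ∀ k, G' i k = G i k) → (T, G) ∈ pos n → (T, G') ∈ pos n
  neg_lvl : ∀ n T G G', (∀ i < lvl, ∀ k, G' i k = G i k) → (T, G) ∈ neg n → (T, G') ∈ neg n

instance : Inhabited Name :=
  ⟨⟨fun _ => ∅, fun _ => ∅, fun _ _ _ h => h.elim, fun _ _ _ h => h.elim, 0,
    fun _ _ _ _ _ h => h.elim, fun _ _ _ _ _ h => h.elim⟩⟩

/-- the set where the name decides the bit `n` as `b` -/
def Name.sg (x : Name) (b : Bool) (n : ℕ) : Set (Rv × Gn) := if b then x.pos n else x.neg n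

/-- `X` is the value of the name at `(T, G)` -/
def Name.Val (x : Name) (T : Rv) (G : Gn) (X : Set ℕ) : Prop :=
  ∀ n, ((T, G) ∈ x.pos n ↔ n ∈ X) ∧ ((T, G) ∈ x.neg n ↔ n ∉ X)

/-- the list of names as a sequence -/
def nth (xs : List Name) (j : ℕ) : Name := xs.getD j default

/-- the points at which finite information decides `Ψ` -/
def opSet (Ψ : Rv → Gn → Om → ℕ → Prop) (m : ℕ) (xs : List Name) (k : ℕ) : Set (Rv × Gn) :=
  {g | ∃ (s : ℕ) (Z : Om), (∀ j < xs.length, ∀ n < s, g ∈ (nth xs j).sg (Z j n) n) ∧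
    ∀ T' G' Z', AgT s g.1 T' → AgGm s m g.2 G' → AgZ s xs.length Z Z' → Ψ T' G' Z' k}

/-- each number is revealed at most once -/
def Fnl2 (T : Rv) : Prop := ∀ n s s', T n s ≠ none → T n s' ≠ none → s = s'

/-- `X` separates the numbers revealed with the two colors -/
def Separates (T : Rv) (X : Set ℕ) : Prop := ∀ n s c, T n s = some c → (n ∈ X ↔ c = true)

open Classical in
/-- the characteristic function of a set -/
noncomputable def chr (X : Set ℕ) : ℕ → Bool := fun n => decide (n ∈ X)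

/-- the value of a list of parameters -/
def sub (t c : List ℕ) : List ℕ := c.map fun i => t.getD i 0

/-- the formulas with parameters decided at stage `s` -/
def Dec (s : ℕ) : Set (Form × List ℕ) :=
  {q | q.1.code < s ∧ q.2.length ≤ s ∧ (∀ c ∈ q.2, c < s) ∧ q.1.Scoped q.2.length}

theorem form_countable : Countable Form := Function.Injective.countable code_inj

theorem exists_tsk : ∃ tsk : ℕ → Form × List ℕ, ∀ q N, ∃ n ≥ N, tsk n = q := by
  have := form_countable
  have : Nonempty ((Form × List ℕ) × ℕ) := ⟨((.eq 0 0, []), 0)⟩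
  obtain ⟨e, he⟩ := exists_surjective_nat ((Form × List ℕ) × ℕ)
  refine ⟨fun n => (e n).1, fun q N => ?_⟩
  choose g hg using fun k : ℕ => he (q, k)
  have hinj : Injective g := by
    intro a b hab
    have h1 := hg a
    rw [hab, hg b] at h1
    exact (Prod.ext_iff.1 h1).2.symm
  have hinf : {n | (e n).1 = q}.Infinite :=
    Set.infinite_of_injective_forall_mem hinj fun k => by
      show (e (g k)).1 = q
      rw [hg k]
  obtain ⟨n, hn, hN⟩ := hinf.exists_gt N
  exact ⟨n, hN.le, hn⟩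

/-- the tasks, each occurs infinitely often -/
noncomputable def tsk : ℕ → Form × List ℕ := exists_tsk.choose

/-- decoding of lists -/
noncomputable def dl : ℕ → List ℕ := invFun lcode

/-- `t'` is an admissible choice at stage `s + 1` after `t` -/
structure OKs (Z : ℕ → Bool) (s : ℕ) (t t' : List ℕ) : Prop where
  len : t'.length = s + 1
  nd : t'.Nodup
  dom : ∀ a ∈ t', hd Z (.eq 0 0) [a]
  dec : ∀ q ∈ Dec s, (hd Z q.1 (sub t' q.2) ↔ hd Z q.1 (sub t q.2))
  wit : (∀ c ∈ (tsk s).2, c < s) → (tsk s).1.Scoped ((tsk s).2.length + 1) →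
    ¬ hd Z (.all (tsk s).1) (sub t' (tsk s).2) →
      ∃ j ≤ s, ¬ hd Z (tsk s).1 (sub t' (j :: (tsk s).2))

open Classical in
/-- the tuples that interpret the first elements of the generic copy -/
noncomputable def tup (Z : ℕ → Bool) (h : ℕ → ℕ) : ℕ → List ℕ
  | 0 => []
  | s + 1 =>
    if OKs Z s (tup Z h s) (dl (h s)) then dl (h s)
    else if H : ∃ y, OKs Z s (tup Z h s) (tup Z h s ++ [y]) then
      tup Z h s ++ [Nat.find H]
    else tup Z h s

/-- a stage at which the formula with parameters is decided -/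
def stg (φ : Form) (c : List ℕ) : ℕ := φ.code + c.length + c.sum + 1

/-- the diagram of the generic copy -/
def PsC (Z : ℕ → Bool) (h : ℕ → ℕ) (k : ℕ) : Prop :=
  ∃ (φ : Form) (c : List ℕ), k = Nat.pair φ.code (lcode c) ∧ φ.Scoped c.length ∧
    hd Z φ (sub (tup Z h (stg φ c)) c)

/-- finite information shows that the name `xf` is not an elementary map from the structure with
diagram `xA` into its generic copy -/
def Fl (xA xf : Name) (m : ℕ) : Set (Rv × Gn) :=
  {g | ∃ (a c : List ℕ) (χ : Form) (s w : ℕ) (Z : ℕ → Bool), a.length = c.length ∧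
    (χ, c) ∈ Dec s ∧ (∀ p ∈ a.zip c, g ∈ xf.pos (Nat.pair p.1 p.2)) ∧
    (∀ n < w, g ∈ xA.sg (Z n) n) ∧
    ∀ Z' : ℕ → Bool, (∀ n < w, Z' n = Z n) →
      hd Z' χ a ∧ ¬ hd Z' χ (sub (tup Z' (g.2 m) s) c)}

/-- finitely supported sequences -/
def gl (l : List (List ℕ)) : Gn := fun i n => (l.getD i []).getD n 0

theorem exists_cand : ∃ cand : ℕ → ℕ × List (List ℕ) × List ℕ, Surjective cand :=
  exists_surjective_nat _

/-- an enumeration of the candidates -/
noncomputable def cand : ℕ → ℕ × List (List ℕ) × List ℕ := exists_cand.choose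

/-- the candidate `q` decides the values of the name `xf` at the entries of `a` -/
def Fnd (xf : Name) (m s0 : ℕ) (G0 : Gn) (T : Rv) (G : Gn) (a : List ℕ)
    (q : ℕ × List (List ℕ) × List ℕ) : Prop :=
  s0 ≤ q.1 ∧ m < q.1 ∧ q.2.2.length = a.length ∧ (∀ c ∈ q.2.2, c < q.1) ∧
    (∀ i < m, ∀ n < q.1, gl q.2.1 i n = G i n) ∧
    (∀ i < s0, ∀ n < s0, gl q.2.1 i n = G0 i n) ∧
    ∀ T' G', AgT q.1 T T' → AgG q.1 (gl q.2.1) G' →
      ∀ p ∈ a.zip q.2.2, (T', G') ∈ xf.pos (Nat.pair p.1 p.2)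

/-- the truth values of the decided formulas -/
def pat (Z : ℕ → Bool) (s : ℕ) (t : List ℕ) : Set (Form × List ℕ) :=
  {q | q ∈ Dec s ∧ hd Z q.1 (sub t q.2)}

/-- the formula `ψ` says that its arguments are the entries `c` of a tuple with the truth values
given by `P` at stage `s` -/
def Says (s : ℕ) (P : Set (Form × List ℕ)) (c : List ℕ) (ψ : Form) : Prop :=
  ψ.Scoped c.length ∧ ∀ (M : Str) (b : List ℕ), b.length = c.length → (∀ x ∈ b, x ∈ M.dom) →
    (Holds M b ψ ↔ ∃ t : List ℕ, t.length = s ∧ t.Nodup ∧ (∀ x ∈ t, x ∈ M.dom) ∧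
      (∀ q ∈ Dec s, (Holds M (sub t q.2) q.1 ↔ q ∈ P)) ∧ sub t c = b)

open Classical in
/-- the chosen formula -/
noncomputable def AF (s : ℕ) (P : Set (Form × List ℕ)) (c : List ℕ) : Form :=
  if H : ∃ ψ, Says s P c ψ then H.choose else .eq 0 0

/-- the relation between tuples and atoms -/
def PsAt (xf : Name) (m s0 : ℕ) (l0 : List (List ℕ)) (T : Rv) (G : Gn) (Z : Om) (k : ℕ) : Prop :=
  ∃ (a : List ℕ) (p : ℕ), (∀ x ∈ a, hd (Z 0) (.eq 0 0) [x]) ∧
    Fnd xf m s0 (gl l0) T G a (cand p) ∧ (∀ p' < p, ¬ Fnd xf m s0 (gl l0) T G a (cand p')) ∧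
    k = Nat.pair (lcode a) (AF (cand p).1
      (pat (Z 0) (cand p).1 (tup (Z 0) (gl (cand p).2.1 m) (cand p).1)) (cand p).2.2).code

/-- `D` is the graph of a function that gives atoms of the tuples of `A` -/
def IsAt (A : Str) (D : Set ℕ) : Prop :=
  (∀ a : List ℕ, (∀ x ∈ a, x ∈ A.dom) → ∃ c, Nat.pair (lcode a) c ∈ D) ∧
  ∀ (a : List ℕ) (c : ℕ), Nat.pair (lcode a) c ∈ D → (∀ x ∈ a, x ∈ A.dom) ∧
    ∃ ψ : Form, ψ.code = c ∧ ψ.Scoped a.length ∧ Holds A a ψ ∧
      ∀ b : List ℕ, b.length = a.length → (∀ x ∈ b, x ∈ A.dom) → Holds A b ψ →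
        ∀ χ : Form, χ.Scoped a.length → Holds A a χ → Holds A b χ

/-- a quantified bounded formula, as a relation on the parameters -/
def PsS (φ : Fm) (i j : ℕ) (v : List ℕ) (J : ℕ) (b : Bool) (_ : Rv) (_ : Gn) (Z : Om) (a : ℕ) :
    Prop :=
  ∃ y : ℕ, (Sat (omega ∅) (update (update (asg v) i a) j y)
    (fun q => if q < J then st (Z q) else ∅) φ ↔ b = true)

open Classical in
/-- back-and-forth between the structures with diagrams `ZA` and `ZB`, guided by the atoms `ZD` -/
noncomputable def bfs (ZA ZB ZD : ℕ → Bool) : ℕ → List (ℕ × ℕ)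
  | 0 => []
  | n + 1 =>
    let L := bfs ZA ZB ZD n
    if n % 2 = 0 then
      if hd ZA (.eq 0 0) [n / 2] ∧ n / 2 ∉ L.map Prod.fst then
        if H : ∃ p : ℕ, ZD (Nat.pair (lcode (n / 2 :: L.map Prod.fst)) p.unpair.1) = true ∧
            ZB (Nat.pair p.unpair.1 (lcode (p.unpair.2 :: L.map Prod.snd))) = true then
          (n / 2, (Nat.find H).unpair.2) :: L
        else L
      else L
    else
      if hd ZB (.eq 0 0) [n / 2] ∧ n / 2 ∉ L.map Prod.snd then
        if H : ∃ p : ℕ, ZD (Nat.pair (lcode (p.unpair.2 :: L.map Prod.fst)) p.unpair.1) = true ∧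
            ZB (Nat.pair p.unpair.1 (lcode (n / 2 :: L.map Prod.snd))) = true then
          ((Nat.find H).unpair.2, n / 2) :: L
        else L
      else L

/-- the graph of the isomorphism -/
def PsI (ZA ZB ZD : ℕ → Bool) (k : ℕ) : Prop :=
  ∃ a b, k = Nat.pair a b ∧ (a, b) ∈ bfs ZA ZB ZD (2 * a + 1)

/-- the tree of the finite binary sequences that look like a separating set -/
def PsW (T : Rv) (k : ℕ) : Prop :=
  ∃ l : List Bool, k = bcode l ∧
    ∀ n < l.length, ∀ s < l.length, ∀ c, T n s = some c → l.getD n false = c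

/-- the graph of the revelations of color `true` -/
def PsT (T : Rv) (k : ℕ) : Prop :=
  ∃ n s : ℕ, k = (n + s) * (n + s) + n ∧ T n s = some true

end Pool.Agent.Helper317.PM
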