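import Pool.Agent.Helper317.PMU.Core
import Pool.Agent.Helper317.PMU.E3

/-!
Diagrams are continuous.
-/

namespace Pool.Agent.Helper317.PM

open Pool.Agent.Helper317.SOA Function


theorem strO_rel (O : ℕ → ℕ → ℚ → ℚ → Prop) (r : ℕ) (T T' : ℕ → ℕ → Bool)
    (h : T r.unpair.1 r.unpair.2 = T' r.unpair.1 r.unpair.2) (L : List ℕ) :
    (strO O T).Rel r L ↔ (strO O T').Rel r L := by
  match L with
  | [] => exact Iff.rfl
  | [a] => exact Iff.rfl
  | [a, b] =>
    show (T r.unpair.1 r.unpair.2 = true ∧ _) ↔ (T' r.unpair.1 r.unpair.2 = true ∧ _)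
    rw [h]
  | [a, b, c] => exact Iff.rfl
  | a :: b :: c :: d :: l => exact Iff.rfl

theorem holds_dep (O : ℕ → ℕ → ℚ → ℚ → Prop) (φ : Form) : ∃ F : Finset (ℕ × ℕ),
    ∀ T T' : ℕ → ℕ → Bool, (∀ p ∈ F, T p.1 p.2 = T' p.1 p.2) →
      ∀ l, Holds (strO O T) l φ ↔ Holds (strO O T') l φ := by
  classical
  induction φ with
  | rel r vs =>
    refine ⟨{(r.unpair.1, r.unpair.2)}, fun T T' h l => ?_⟩
    exact strO_rel O r T T' (h (r.unpair.1, r.unpair.2) (Finset.mem_singleton_self _)) _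
  | eq i j => exact ⟨∅, fun T T' _ l => Iff.rfl⟩
  | neg φ ih =>
    obtain ⟨F, hF⟩ := ih
    exact ⟨F, fun T T' h l => not_congr (hF T T' h l)⟩
  | and φ ψ ih1 ih2 =>
    obtain ⟨F, hF⟩ := ih1
    obtain ⟨F', hF'⟩ := ih2
    exact ⟨F ∪ F', fun T T' h l => and_congr
      (hF T T' (fun p hp => h p (Finset.mem_union_left _ hp)) l)
      (hF' T T' (fun p hp => h p (Finset.mem_union_right _ hp)) l)⟩
  | all φ ih =>
    obtain ⟨F, hF⟩ := ih
    refine ⟨F, fun T T' h l => ?_⟩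
    show (∀ a ∈ (Set.univ : Set ℕ), _) ↔ (∀ a ∈ (Set.univ : Set ℕ), _)
    exact forall₂_congr fun a _ => hF T T' h (a :: l)

theorem clopen_of_dep (S : Set (ℕ → ℕ → Bool)) (F : Finset (ℕ × ℕ))
    (h : ∀ T T' : ℕ → ℕ → Bool, (∀ p ∈ F, T p.1 p.2 = T' p.1 p.2) → (T ∈ S ↔ T' ∈ S)) :
    IsClopen S := by
  let res : (ℕ → ℕ → Bool) → ({p // p ∈ F} → Bool) := fun T p => T p.1.1 p.1.2
  have hres : Continuous res := by
    refine continuous_pi fun p => ?_
    exact (continuous_apply p.1.2).comp (continuous_apply p.1.1)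
  have h1 : S = res ⁻¹' (res '' S) := by
    ext T
    constructor
    · intro hT
      exact ⟨T, hT, rfl⟩
    · rintro ⟨T', hT', hr⟩
      refine (h T' T fun p hp => ?_).1 hT'
      exact congrFun hr ⟨p, hp⟩
  rw [h1]
  exact (isClopen_discrete (res '' S)).preimage hres

theorem diag_clopen (O : ℕ → ℕ → ℚ → ℚ → Prop) (k : ℕ) :
    IsClopen {T : ℕ → ℕ → Bool | k ∈ diag (strO O T)} := by
  by_cases hk : ∃ (φ : Form) (l : List ℕ), k = Nat.pair φ.code (lcode l)
  · obtain ⟨φ, l, rfl⟩ := hk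
    obtain ⟨F, hF⟩ := holds_dep O φ
    refine clopen_of_dep _ F fun T T' h => ?_
    rw [Set.mem_ofPred_eq, Set.mem_ofPred_eq, mem_diag, mem_diag]
    exact and_congr_right fun _ => and_congr Iff.rfl (hF T T' h l)
  · have : {T : ℕ → ℕ → Bool | k ∈ diag (strO O T)} = ∅ := by
      rw [Set.eq_empty_iff_forall_notMem]
      rintro T ⟨φ, l, h, -⟩
      exact hk ⟨φ, l, h⟩
    rw [this]
    exact isClopen_empty

theorem clopen_iff {X : Type*} [TopologicalSpace X] {p q : X → Prop} (hp : IsClopen {x | p x})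
    (hq : IsClopen {x | q x}) : IsClopen {x | p x ↔ q x} := by
  have : {x | p x ↔ q x} = ({x | p x} ∩ {x | q x}) ∪ ({x | p x}ᶜ ∩ {x | q x}ᶜ) := by
    ext x
    simp only [Set.mem_ofPred_eq, Set.mem_union, Set.mem_inter_iff, Set.mem_compl_iff]
    tauto
  rw [this]
  exact (hp.inter hq).union (hp.compl.inter hq.compl)

theorem clopen_val (i k : ℕ) : IsClopen {p : (ℕ → ℕ → Bool) × Om | p.2 i k = true} := by
  have h : Continuous (fun p : (ℕ → ℕ → Bool) × Om => p.2 i k) :=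
    (continuous_apply k).comp ((continuous_apply i).comp continuous_snd)
  exact (isClopen_discrete ({true} : Set Bool)).preimage h

theorem rr_closed (cut : ℕ → ℕ → ℝ) : IsClosed (RR cut) := by
  have h : RR cut = (⋂ k, {p : (ℕ → ℕ → Bool) × Om | p.2 0 k = true ↔ k ∈ diag (strA p.1)}) ∩
      ((⋂ k, {p : (ℕ → ℕ → Bool) × Om | p.2 1 k = true ↔ k ∈ diag (strB cut p.1)}) ∩
        ⋂ n, ⋂ s, {p : (ℕ → ℕ → Bool) × Om | p.2 2 (Nat.pair n s) = p.1 n s}) := by
    ext p
    simp only [RR, Set.mem_ofPred_eq, Set.mem_inter_iff, Set.mem_iInter]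
  rw [h]
  refine IsClosed.inter ?_ (IsClosed.inter ?_ ?_)
  · refine isClosed_iInter fun k => ?_
    exact (clopen_iff (clopen_val 0 k)
      ((diag_clopen (fun _ _ q r => q < r) k).preimage continuous_fst)).1
  · refine isClosed_iInter fun k => ?_
    exact (clopen_iff (clopen_val 1 k)
      ((diag_clopen (fun n s => cutlt (cut n s)) k).preimage continuous_fst)).1
  · refine isClosed_iInter fun n => isClosed_iInter fun s => ?_
    refine isClosed_eq ?_ ?_
    · exact (continuous_apply _).comp ((continuous_apply 2).comp continuous_snd)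
    · exact (continuous_apply s).comp ((continuous_apply n).comp continuous_fst)

theorem rr_supp (cut : ℕ → ℕ → ℝ) (T : ℕ → ℕ → Bool) (x x' : Om) (h : ∀ i < 3, x i = x' i) :
    (T, x) ∈ RR cut ↔ (T, x') ∈ RR cut := by
  have h0 := h 0 (by norm_num)
  have h1 := h 1 (by norm_num)
  have h2 := h 2 (by norm_num)
  simp only [RR, Set.mem_ofPred_eq, h0, h1, h2]

theorem rr_exists (cut : ℕ → ℕ → ℝ) (T : ℕ → ℕ → Bool) : ∃ x : Om, (T, x) ∈ RR cut := by
  classical
  refine ⟨fun i k => if i = 0 then decide (k ∈ diag (strA T)) else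
    if i = 1 then decide (k ∈ diag (strB cut T)) else T k.unpair.1 k.unpair.2, ?_, ?_, ?_⟩
  · intro k
    simp
  · intro k
    simp
  · intro n s
    simp

end Pool.Agent.Helper317.PM
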