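import Pool.Agent.Helper317.SOA

/-!
Structures for first-order languages inside an omega-model of second-order arithmetic; prime
structures; the principle `PMU` (uniqueness of prime models) and weak Koenig's lemma.
-/

namespace Pool.Agent.Helper317.PM

open Pool.Agent.Helper317.SOA

/-- The omega-model whose second-order part is `S`. -/
def omega (S : Set (Set ℕ)) : Model where
  Num := ℕ
  zero := 0
  one := 1
  add := fun a b => a + b
  mul := fun a b => a * b
  lt := fun a b => a < b
  sets := S

/-- The code of a finite sequence of natural numbers. -/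
def lcode : List ℕ → ℕ
  | [] => 0
  | a :: l => Nat.pair a (lcode l) + 1

/-- First-order formulas, with de Bruijn variables, over the relational language that has, for
all `r` and `k`, a `k`-ary relation symbol with number `r`; `rel r vs` applies the relation symbol
number `r` of arity `vs.length` to the variables in `vs`. In a context `l` (a list of elements)
the variable `i` denotes the entry number `i` of `l`; `all` adds a new entry at the front. -/
inductive Form : Type
  | rel : ℕ → List ℕ → Form
  | eq : ℕ → ℕ → Form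
  | neg : Form → Form
  | and : Form → Form → Form
  | all : Form → Form

/-- The Goedel number of a formula. -/
def Form.code : Form → ℕ
  | .rel r vs => 5 * Nat.pair r (lcode vs)
  | .eq i j => 5 * Nat.pair i j + 1
  | .neg φ => 5 * φ.code + 2
  | .and φ ψ => 5 * Nat.pair φ.code ψ.code + 3
  | .all φ => 5 * φ.code + 4

/-- All free variables of the formula are below `n`; sentences are the formulas with
`Scoped 0`. -/
def Form.Scoped : ℕ → Form → Prop
  | n, .rel _ vs => ∀ i ∈ vs, i < n
  | n, .eq i j => i < n ∧ j < n
  | n, .neg φ => φ.Scoped n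
  | n, .and φ ψ => φ.Scoped n ∧ ψ.Scoped n
  | n, .all φ => φ.Scoped (n + 1)

/-- A structure with a nonempty domain of natural numbers. `Rel r l` is the relation number `r`
of arity `l.length`. -/
structure Str where
  dom : Set ℕ
  nonempty : dom.Nonempty
  Rel : ℕ → List ℕ → Prop

/-- Satisfaction. -/
def Holds (A : Str) : List ℕ → Form → Prop
  | l, .rel r vs => A.Rel r (vs.map fun i => l.getD i 0)
  | l, .eq i j => l.getD i 0 = l.getD j 0
  | l, .neg φ => ¬ Holds A l φ
  | l, .and φ ψ => Holds A l φ ∧ Holds A l ψ
  | l, .all φ => ∀ a ∈ A.dom, Holds A (a :: l) φ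

/-- The elementary diagram of `A`: the codes of the pairs of a formula and a finite sequence of
elements that satisfies it. -/
def diag (A : Str) : Set ℕ :=
  {c | ∃ (φ : Form) (l : List ℕ), c = Nat.pair φ.code (lcode l) ∧ φ.Scoped l.length ∧
    (∀ a ∈ l, a ∈ A.dom) ∧ Holds A l φ}

/-- The complete theory of `A`. -/
def Th (A : Str) : Set ℕ := {c | ∃ φ : Form, c = φ.code ∧ φ.Scoped 0 ∧ Holds A [] φ}

/-- The structure `A` exists in the omega-model: its elementary diagram does. -/
def Str.In (A : Str) (S : Set (Set ℕ)) : Prop := diag A ∈ S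

/-- The graph of a function on the domain of `A`. -/
def gr (A : Str) (f : ℕ → ℕ) : Set ℕ := {c | ∃ a ∈ A.dom, c = Nat.pair a (f a)}

/-- `f` is an elementary embedding of `A` into `B`. -/
def ElemEmb (A B : Str) (f : ℕ → ℕ) : Prop :=
  (∀ a ∈ A.dom, f a ∈ B.dom) ∧
    ∀ (φ : Form) (l : List ℕ), φ.Scoped l.length → (∀ a ∈ l, a ∈ A.dom) →
      (Holds A l φ ↔ Holds B (l.map f) φ)

/-- `f` is an isomorphism of `A` and `B`. -/
def IsIso (A B : Str) (f : ℕ → ℕ) : Prop :=
  (∀ a ∈ A.dom, f a ∈ B.dom) ∧ (∀ a ∈ A.dom, ∀ b ∈ A.dom, f a = f b → a = b) ∧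
    (∀ b ∈ B.dom, ∃ a ∈ A.dom, f a = b) ∧
    ∀ (r : ℕ) (l : List ℕ), (∀ a ∈ l, a ∈ A.dom) → (A.Rel r l ↔ B.Rel r (l.map f))

/-- `A` is a prime structure in the omega-model with second-order part `S`: it embeds
elementarily, by an embedding in `S`, into each structure in `S` that is a model of its theory. -/
def Prime (S : Set (Set ℕ)) (A : Str) : Prop :=
  ∀ B : Str, B.In S → Th B = Th A → ∃ f, gr A f ∈ S ∧ ElemEmb A B f

/-- The principle `PMU` in the omega-model with second-order part `S`: any two prime structures
in `S` that are models of the same complete theory are isomorphic, by an isomorphism in `S`. -/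
def PMU (S : Set (Set ℕ)) : Prop :=
  ∀ A B : Str, A.In S → B.In S → Th A = Th B → Prime S A → Prime S B →
    ∃ f, gr A f ∈ S ∧ IsIso A B f

/-- The code of a finite binary sequence. -/
def bcode (l : List Bool) : ℕ := lcode (l.map Bool.toNat)

open Classical in
/-- The first `n` values of the characteristic function of `Y`. -/
noncomputable def initSeg (Y : Set ℕ) (n : ℕ) : List Bool :=
  (List.range n).map fun i => decide (i ∈ Y)

/-- Weak Koenig's lemma in the omega-model with second-order part `S`: every infinite binary tree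
has a path. -/
def WKL (S : Set (Set ℕ)) : Prop :=
  ∀ X ∈ S, (∀ l l' : List Bool, l <+: l' → bcode l' ∈ X → bcode l ∈ X) →
    (∀ n, ∃ l : List Bool, l.length = n ∧ bcode l ∈ X) →
    ∃ Y ∈ S, ∀ n, bcode (initSeg Y n) ∈ X

/-- Arithmetical formulas: no set quantifiers. -/
inductive IsArith : Fm → Prop
  | eq (s t : Tm) : IsArith (.eq s t)
  | lt (s t : Tm) : IsArith (.lt s t)
  | mem (t : Tm) (i : ℕ) : IsArith (.mem t i)
  | neg {φ : Fm} : IsArith φ → IsArith (.neg φ)
  | and {φ ψ : Fm} : IsArith φ → IsArith ψ → IsArith (.and φ ψ)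
  | all (i : ℕ) {φ : Fm} : IsArith φ → IsArith (.all i φ)

/-- Arithmetical comprehension, with number and set parameters. -/
def ACA (M : Model) : Prop :=
  ∀ φ, IsArith φ → ∀ (i : ℕ) (v : ℕ → M.Num) (V : ℕ → Set M.Num), M.SetAsg V →
    {a | Sat M (Function.update v i a) V φ} ∈ M.sets

end Pool.Agent.Helper317.PM
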