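import Pool.Agent.Helper317.PMU.Core

/-!
The two structures satisfy the axioms.
-/

namespace Pool.Agent.Helper317.PM

open Pool.Agent.Helper317.SOA Function

theorem mem_sort_strO (T : ℕ → ℕ → Bool) (O : ℕ → ℕ → ℚ → ℚ → Prop) (n a : ℕ) :
    a ∈ sort (strO O T) n ↔ (ee a).1 = n := by
  constructor
  · rintro ⟨-, h⟩; exact h
  · intro h; exact ⟨trivial, h⟩

theorem rel3_strO (T : ℕ → ℕ → Bool) (O : ℕ → ℕ → ℚ → ℚ → Prop) (n a b c : ℕ) :
    (strO O T).Rel n [a, b, c] ↔ (ee a).1 = n ∧ (ee b).1 = n ∧ (ee c).1 = n ∧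
        cyc (fun q r : ℚ => q < r) (ee a).2 (ee b).2 (ee c).2 := Iff.rfl

theorem rel2_strO (T : ℕ → ℕ → Bool) (O : ℕ → ℕ → ℚ → ℚ → Prop) (n s a b : ℕ) :
    (strO O T).Rel (Nat.pair n s) [a, b] ↔ T n s = true ∧ (ee a).1 = n ∧ (ee b).1 = n ∧
        O n s (ee a).2 (ee b).2 := by
  show (T (Nat.pair n s).unpair.1 (Nat.pair n s).unpair.2 = true ∧ (ee a).1 = (Nat.pair n s).unpair.1 ∧
    (ee b).1 = (Nat.pair n s).unpair.1 ∧
    O (Nat.pair n s).unpair.1 (Nat.pair n s).unpair.2 (ee a).2 (ee b).2) ↔ _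
  rw [Nat.unpair_pair]

theorem ee_ne {a b n : ℕ} (ha : (ee a).1 = n) (hb : (ee b).1 = n) (hab : a ≠ b) : (ee a).2 ≠ (ee b).2 := by
  intro h
  apply hab
  apply ee.injective
  exact Prod.ext (ha.trans hb.symm) h

theorem cyc_rot {α : Type} {lt : α → α → Prop} {a b c : α} (h : cyc lt a b c) : cyc lt b c a := by
  unfold cyc at *; tauto

theorem cyc_total {q r t : ℚ} (e1 : q ≠ r) (e2 : r ≠ t) (e3 : q ≠ t) :
    cyc (fun q r : ℚ => q < r) q r t ∨ cyc (fun q r : ℚ => q < r) t r q := by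
  unfold cyc
  rcases lt_or_gt_of_ne e1 with h1 | h1 <;> rcases lt_or_gt_of_ne e2 with h2 | h2 <;>
    rcases lt_or_gt_of_ne e3 with h3 | h3 <;>
    first
      | exact Or.inl (Or.inl ⟨h1, h2⟩)
      | exact Or.inl (Or.inr (Or.inl ⟨h2, h3⟩))
      | exact Or.inl (Or.inr (Or.inr ⟨h3, h1⟩))
      | exact Or.inr (Or.inl ⟨h2, h1⟩)
      | exact Or.inr (Or.inr (Or.inl ⟨h1, h3⟩))
      | exact Or.inr (Or.inr (Or.inr ⟨h3, h2⟩))

set_option maxHeartbeats 1000000 in
theorem good_strO {T : ℕ → ℕ → Bool} {O : ℕ → ℕ → ℚ → ℚ → Prop}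
    (hirr : ∀ n s q, ¬ O n s q q) (htr : ∀ n s q r t, O n s q r → O n s r t → O n s q t)
    (htot : ∀ n s q r, q ≠ r → O n s q r ∨ O n s r q)
    (hlo : ∀ n s q, ∃ r, O n s r q) (hhi : ∀ n s q, ∃ r, O n s q r)
    (hcyc : ∀ n s q r t, cyc (O n s) q r t ↔ cyc (fun q r : ℚ => q < r) q r t) :
    Good T (strO O T) where
  other := by
    intro r l _ h
    rcases l with _ | ⟨a, _ | ⟨b, _ | ⟨c, _ | ⟨d, l⟩⟩⟩⟩
    · exact h.elim
    · left; rfl
    · right; left; rfl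
    · right; right; rfl
    · exact h.elim
  disj := by
    intro n m a h1 h2
    rw [mem_sort_strO] at h1 h2
    rw [← h1, ← h2]
  cdom := by
    intro n a _ b _ c _ h
    rw [rel3_strO] at h
    rw [mem_sort_strO, mem_sort_strO, mem_sort_strO]
    exact ⟨h.1, h.2.1, h.2.2.1⟩
  circ := by
    intro n
    constructor
    · intro a _ b _ c _ h
      rw [rel3_strO] at *
      exact ⟨h.2.1, h.2.2.1, h.1, cyc_rot h.2.2.2⟩
    · intro a _ b _ c _ h h'
      rw [rel3_strO] at *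
      have h1 := h.2.2.2
      have h2 := h'.2.2.2
      unfold cyc at h1 h2
      simp only at h1 h2
      rcases h1 with ⟨x1, x2⟩ | ⟨x1, x2⟩ | ⟨x1, x2⟩ <;> rcases h2 with ⟨y1, y2⟩ | ⟨y1, y2⟩ | ⟨y1, y2⟩ <;> linarith
    · intro a _ b _ c _ d _ h h'
      rw [rel3_strO] at *
      refine ⟨h.1, h.2.1, h'.2.2.1, ?_⟩
      have h1 := h.2.2.2
      have h2 := h'.2.2.2
      unfold cyc at *
      simp only at *
      rcases h1 with ⟨x1, x2⟩ | ⟨x1, x2⟩ | ⟨x1, x2⟩ <;> rcases h2 with ⟨y1, y2⟩ | ⟨y1, y2⟩ | ⟨y1, y2⟩ <;>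
        first
          | (exfalso; linarith)
          | exact Or.inl ⟨by linarith, by linarith⟩
          | exact Or.inr (Or.inl ⟨by linarith, by linarith⟩)
          | exact Or.inr (Or.inr ⟨by linarith, by linarith⟩)
    · intro a ha b hb c hc hab hbc hac
      rw [mem_sort_strO] at ha hb hc
      rw [rel3_strO, rel3_strO]
      have e1 := ee_ne ha hb hab
      have e2 := ee_ne hb hc hbc
      have e3 := ee_ne ha hc hac
      have key := cyc_total e1 e2 e3
      rcases key with h | h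
      · exact Or.inl ⟨ha, hb, hc, h⟩
      · exact Or.inr ⟨hc, hb, ha, h⟩
    · intro a ha b hb hab
      rw [mem_sort_strO] at ha hb
      have e1 := ee_ne ha hb hab
      rcases lt_or_gt_of_ne e1 with h | h
      · refine ⟨ee.symm (n, ((ee a).2 + (ee b).2) / 2), ?_, ?_⟩
        · rw [mem_sort_strO]; simp
        · rw [rel3_strO]
          refine ⟨ha, by simp, hb, Or.inl ⟨?_, ?_⟩⟩
          · simp; linarith
          · simp; linarith
      · refine ⟨ee.symm (n, (ee a).2 + 1), ?_, ?_⟩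
        · rw [mem_sort_strO]; simp
        · rw [rel3_strO]
          refine ⟨ha, by simp, hb, Or.inr (Or.inr ⟨?_, ?_⟩)⟩
          · exact h
          · simp
    · refine ⟨ee.symm (n, 0), ?_, ee.symm (n, 1), ?_, ?_⟩
      · rw [mem_sort_strO]; simp
      · rw [mem_sort_strO]; simp
      · intro h
        have := ee.symm.injective h
        simp at this
  rdom := by
    intro n s a _ b _ h
    rw [rel2_strO] at h
    rw [mem_sort_strO, mem_sort_strO]
    exact ⟨h.1, h.2.1, h.2.2.1⟩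
  rlin := by
    intro n s hT
    constructor
    · intro a _ h
      rw [rel2_strO] at h
      exact hirr _ _ _ h.2.2.2
    · intro a _ b _ c _ h1 h2
      rw [rel2_strO] at *
      exact ⟨hT, h1.2.1, h2.2.2.1, htr _ _ _ _ _ h1.2.2.2 h2.2.2.2⟩
    · intro a ha b hb hab
      rw [mem_sort_strO] at ha hb
      rw [rel2_strO, rel2_strO]
      rcases htot n s _ _ (ee_ne ha hb hab) with h | h
      · exact Or.inl ⟨hT, ha, hb, h⟩
      · exact Or.inr ⟨hT, hb, ha, h⟩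
  rcyc := by
    intro n s hT a ha b hb c hc
    rw [mem_sort_strO] at ha hb hc
    have e : ∀ x y, (ee x).1 = n → (ee y).1 = n →
        ((strO O T).Rel (Nat.pair n s) [x, y] ↔ O n s (ee x).2 (ee y).2) := by
      intro x y hx hy
      rw [rel2_strO]
      exact ⟨fun h => h.2.2.2, fun h => ⟨hT, hx, hy, h⟩⟩
    rw [rel3_strO, ← hcyc n s]
    unfold cyc
    beta_reduce
    rw [e a b ha hb, e b c hb hc, e c a hc ha]
    tauto
  rlow := by
    intro n s hT a ha
    rw [mem_sort_strO] at ha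
    obtain ⟨r, hr⟩ := hlo n s (ee a).2
    refine ⟨ee.symm (n, r), ?_, ?_⟩
    · rw [mem_sort_strO]; simp
    · rw [rel2_strO]
      exact ⟨hT, by simp, ha, by simpa using hr⟩
  rhigh := by
    intro n s hT a ha
    rw [mem_sort_strO] at ha
    obtain ⟨r, hr⟩ := hhi n s (ee a).2
    refine ⟨ee.symm (n, r), ?_, ?_⟩
    · rw [mem_sort_strO]; simp
    · rw [rel2_strO]
      exact ⟨hT, ha, by simp, by simpa using hr⟩

theorem good_strA (T : ℕ → ℕ → Bool) : Good T (strA T) := by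
  unfold strA
  apply good_strO
  · intro n s q; exact lt_irrefl q
  · intro n s q r t h1 h2; exact lt_trans h1 h2
  · intro n s q r h; exact lt_or_gt_of_ne h
  · intro n s q; exact ⟨q - 1, by linarith⟩
  · intro n s q; exact ⟨q + 1, by linarith⟩
  · intro n s q r t; exact Iff.rfl

theorem cut_not {c : ℝ} (hc : Irrational c) (q : ℚ) (h : ¬ c < (q : ℝ)) : (q : ℝ) < c :=
  lt_of_le_of_ne (not_lt.1 h) (fun e => hc ⟨q, e⟩)

theorem cut_lt {c : ℝ} (hc : Irrational c) {q r : ℚ} (h : c < (q : ℝ)) (h' : ¬ c < (r : ℝ)) : r < q := by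
  have := cut_not hc r h'
  exact_mod_cast this.trans h

theorem cutlt_iff {c : ℝ} (hc : Irrational c) (q r : ℚ) :
    cutlt c q r ↔ (c < (q : ℝ) ∧ ¬ c < (r : ℝ)) ∨ ((c < (q : ℝ) ↔ c < (r : ℝ)) ∧ q < r) := by
  unfold cutlt
  constructor
  · rintro (⟨h1, h2⟩ | h)
    · exact Or.inl ⟨h1, not_lt.2 h2.le⟩
    · exact Or.inr h
  · rintro (⟨h1, h2⟩ | h)
    · exact Or.inl ⟨h1, cut_not hc r h2⟩
    · exact Or.inr h

theorem good_strB (T : ℕ → ℕ → Bool) {cut : ℕ → ℕ → ℝ} (hcut : IsCut cut) :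
    Good T (strB cut T) := by
  unfold strB
  apply good_strO
  · intro n s q h
    rw [cutlt_iff (hcut n s).1] at h
    rcases h with ⟨h1, h2⟩ | ⟨_, h⟩
    · exact h2 h1
    · exact lt_irrefl _ h
  · intro n s q r t h1 h2
    rw [cutlt_iff (hcut n s).1] at *
    rcases h1 with ⟨a1, a2⟩ | ⟨a1, a2⟩ <;> rcases h2 with ⟨b1, b2⟩ | ⟨b1, b2⟩
    · exact absurd b1 a2
    · exact Or.inl ⟨a1, fun h => a2 (b1.2 h)⟩
    · exact Or.inl ⟨a1.2 b1, b2⟩
    · exact Or.inr ⟨a1.trans b1, a2.trans b2⟩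
  · intro n s q r h
    rw [cutlt_iff (hcut n s).1, cutlt_iff (hcut n s).1]
    by_cases hq : cut n s < (q : ℝ) <;> by_cases hr : cut n s < (r : ℝ)
    · rcases lt_or_gt_of_ne h with h' | h'
      · exact Or.inl (Or.inr ⟨iff_of_true hq hr, h'⟩)
      · exact Or.inr (Or.inr ⟨iff_of_true hr hq, h'⟩)
    · exact Or.inl (Or.inl ⟨hq, hr⟩)
    · exact Or.inr (Or.inl ⟨hr, hq⟩)
    · rcases lt_or_gt_of_ne h with h' | h'
      · exact Or.inl (Or.inr ⟨iff_of_false hq hr, h'⟩)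
      · exact Or.inr (Or.inr ⟨iff_of_false hr hq, h'⟩)
  · intro n s q
    by_cases hq : cut n s < (q : ℝ)
    · obtain ⟨r, h1, h2⟩ := exists_rat_btwn hq
      refine ⟨r, ?_⟩
      rw [cutlt_iff (hcut n s).1]
      exact Or.inr ⟨iff_of_true h1 hq, by exact_mod_cast h2⟩
    · obtain ⟨r, hr⟩ := exists_rat_gt (cut n s)
      refine ⟨r, ?_⟩
      rw [cutlt_iff (hcut n s).1]
      exact Or.inl ⟨hr, hq⟩
  · intro n s q
    by_cases hq : cut n s < (q : ℝ)
    · refine ⟨q + 1, ?_⟩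
      rw [cutlt_iff (hcut n s).1]
      refine Or.inr ⟨iff_of_true hq ?_, by linarith⟩
      push_cast; linarith
    · obtain ⟨r, h1, h2⟩ := exists_rat_btwn (cut_not (hcut n s).1 q hq)
      refine ⟨r, ?_⟩
      rw [cutlt_iff (hcut n s).1]
      exact Or.inr ⟨iff_of_false hq (not_lt.2 h2.le), by exact_mod_cast h1⟩
  · intro n s q r t
    have hc := (hcut n s).1
    unfold cyc
    rw [cutlt_iff hc, cutlt_iff hc, cutlt_iff hc]
    have f1 : cut n s < (q : ℝ) → ¬ cut n s < (r : ℝ) → r < q ∧ ¬ q < r := fun h h' => ⟨cut_lt hc h h', (cut_lt hc h h').not_gt⟩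
    have f2 : cut n s < (q : ℝ) → ¬ cut n s < (t : ℝ) → t < q ∧ ¬ q < t := fun h h' => ⟨cut_lt hc h h', (cut_lt hc h h').not_gt⟩
    have f3 : cut n s < (r : ℝ) → ¬ cut n s < (q : ℝ) → q < r ∧ ¬ r < q := fun h h' => ⟨cut_lt hc h h', (cut_lt hc h h').not_gt⟩
    have f4 : cut n s < (r : ℝ) → ¬ cut n s < (t : ℝ) → t < r ∧ ¬ r < t := fun h h' => ⟨cut_lt hc h h', (cut_lt hc h h').not_gt⟩
    have f5 : cut n s < (t : ℝ) → ¬ cut n s < (q : ℝ) → q < t ∧ ¬ t < q := fun h h' => ⟨cut_lt hc h h', (cut_lt hc h h').not_gt⟩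
    have f6 : cut n s < (t : ℝ) → ¬ cut n s < (r : ℝ) → r < t ∧ ¬ t < r := fun h h' => ⟨cut_lt hc h h', (cut_lt hc h h').not_gt⟩
    by_cases hq : cut n s < (q : ℝ) <;> by_cases hr : cut n s < (r : ℝ) <;> by_cases ht : cut n s < (t : ℝ) <;>
      simp only [hq, hr, ht, not_true_eq_false, not_false_eq_true, true_and, and_true, false_and, and_false,
        true_iff, iff_true, false_iff, iff_false, or_false, false_or, iff_self, forall_true_left, true_imp_iff,
        false_imp_iff] at * <;> tauto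

theorem exists_isCut : ∃ cut : ℕ → ℕ → ℝ, IsCut cut := by
  have key : ∀ n s : ℕ, ∃ c : ℝ, Irrational c ∧ c < 0 ∧
      ∀ a < s, (ee a).1 = n → ¬ (c < ((ee a).2 : ℝ) ∧ (ee a).2 < 0) := by
    intro n s
    let F : Finset ℚ := insert (-1) (((Finset.range s).image (fun a => (ee a).2)).filter (· < 0))
    have hF : F.Nonempty := Finset.insert_nonempty _ _
    have hm : F.max' hF < 0 := by
      rw [Finset.max'_lt_iff]
      intro y hy
      rcases Finset.mem_insert.1 hy with rfl | hy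
      · norm_num
      · exact (Finset.mem_filter.1 hy).2
    have hm' : ((F.max' hF : ℚ) : ℝ) < 0 := by exact_mod_cast hm
    obtain ⟨c, hc, h1, h2⟩ := exists_irrational_btwn hm'
    refine ⟨c, hc, h2, ?_⟩
    rintro a ha - ⟨h3, h4⟩
    have h5 : (ee a).2 ∈ F := by
      apply Finset.mem_insert_of_mem
      rw [Finset.mem_filter]
      exact ⟨Finset.mem_image_of_mem _ (Finset.mem_range.2 ha), h4⟩
    have h6 : (ee a).2 ≤ F.max' hF := Finset.le_max' _ _ h5
    have h7 : (((ee a).2 : ℚ) : ℝ) ≤ ((F.max' hF : ℚ) : ℝ) := by exact_mod_cast h6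
    linarith
  choose cut h using key
  exact ⟨cut, fun n s => h n s⟩

theorem sorted_strO (T : ℕ → ℕ → Bool) (O : ℕ → ℕ → ℚ → ℚ → Prop) (a : ℕ) :
    ∃ n, a ∈ sort (strO O T) n := ⟨(ee a).1, (mem_sort_strO _ _ _ _).2 rfl⟩

end Pool.Agent.Helper317.PM
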