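import Pool.Agent.Helper317.PMU.Core
import Pool.Agent.Helper317.PMU.E3

/-!
The axioms transfer along elementary equivalence.
-/

namespace Pool.Agent.Helper317.PM

open Pool.Agent.Helper317.SOA Function


namespace GTr

/-- implication -/
def imp (φ ψ : Form) : Form := .neg (.and φ (.neg ψ))
/-- disjunction -/
def orr (φ ψ : Form) : Form := .neg (.and (.neg φ) (.neg ψ))
/-- universal quantifier over a sort -/
def alls (n : ℕ) (φ : Form) : Form := .all (imp (.rel n [0]) φ)
/-- existential quantifier over a sort -/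
def exs (n : ℕ) (φ : Form) : Form := .neg (alls n (.neg φ))

theorem h_neg {A : Str} {l : List ℕ} {φ : Form} : Holds A l (.neg φ) ↔ ¬ Holds A l φ := Iff.rfl
theorem h_and {A : Str} {l : List ℕ} {φ ψ : Form} :
    Holds A l (.and φ ψ) ↔ Holds A l φ ∧ Holds A l ψ := Iff.rfl
theorem h_all {A : Str} {l : List ℕ} {φ : Form} :
    Holds A l (.all φ) ↔ ∀ a ∈ A.dom, Holds A (a :: l) φ := Iff.rfl
theorem h_imp {A : Str} {l : List ℕ} {φ ψ : Form} :
    Holds A l (imp φ ψ) ↔ (Holds A l φ → Holds A l ψ) := by
  show ¬ (Holds A l φ ∧ ¬ Holds A l ψ) ↔ _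
  tauto
theorem h_or {A : Str} {l : List ℕ} {φ ψ : Form} :
    Holds A l (orr φ ψ) ↔ (Holds A l φ ∨ Holds A l ψ) := by
  show ¬ (¬ Holds A l φ ∧ ¬ Holds A l ψ) ↔ _
  tauto
theorem h_alls {A : Str} {l : List ℕ} {n : ℕ} {φ : Form} :
    Holds A l (alls n φ) ↔ ∀ a ∈ sort A n, Holds A (a :: l) φ := by
  unfold alls
  rw [h_all]
  simp only [h_imp]
  constructor
  · intro h a ha
    exact h a ha.1 ha.2
  · intro h a ha hr
    exact h a ⟨ha, hr⟩
theorem h_exs {A : Str} {l : List ℕ} {n : ℕ} {φ : Form} :
    Holds A l (exs n φ) ↔ ∃ a ∈ sort A n, Holds A (a :: l) φ := by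
  unfold exs
  rw [h_neg, h_alls]
  simp only [h_neg]
  push Not
  exact Iff.rfl
theorem h_eq {A : Str} {l : List ℕ} {i j : ℕ} :
    Holds A l (.eq i j) ↔ l.getD i 0 = l.getD j 0 := Iff.rfl
theorem h_r1 {A : Str} {l : List ℕ} {r i : ℕ} :
    Holds A l (.rel r [i]) ↔ A.Rel r [l.getD i 0] := Iff.rfl
theorem h_r2 {A : Str} {l : List ℕ} {r i j : ℕ} :
    Holds A l (.rel r [i, j]) ↔ A.Rel r [l.getD i 0, l.getD j 0] := Iff.rfl
theorem h_r3 {A : Str} {l : List ℕ} {r i j k : ℕ} :
    Holds A l (.rel r [i, j, k]) ↔ A.Rel r [l.getD i 0, l.getD j 0, l.getD k 0] := Iff.rfl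

theorem g0 {a : ℕ} {l : List ℕ} : (a :: l).getD 0 0 = a := rfl
theorem g1 {a b : ℕ} {l : List ℕ} : (a :: b :: l).getD 1 0 = b := rfl
theorem g2 {a b c : ℕ} {l : List ℕ} : (a :: b :: c :: l).getD 2 0 = c := rfl
theorem g3 {a b c d : ℕ} {l : List ℕ} : (a :: b :: c :: d :: l).getD 3 0 = d := rfl

theorem tr {A B : Str} (h : Th B = Th A) (φ : Form) (hs : φ.Scoped 0) (hA : Holds A [] φ) :
    Holds B [] φ := by
  have h1 : φ.code ∈ Th A := ⟨φ, rfl, hs, hA⟩
  rw [← h] at h1
  obtain ⟨ψ, h2, -, h3⟩ := h1
  rw [code_inj φ ψ h2]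
  exact h3

theorem h_iter {A : Str} {φ : Form} (k : ℕ) (l' : List ℕ) :
    Holds A l' (Form.all^[k] φ) ↔
      ∀ l : List ℕ, l.length = k → (∀ a ∈ l, a ∈ A.dom) → Holds A (l ++ l') φ := by
  induction k generalizing φ with
  | zero =>
    constructor
    · intro h l hl _
      rw [List.length_eq_zero_iff.1 hl]
      exact h
    · intro h
      exact h [] rfl (by simp)
  | succ k ih =>
    rw [Function.iterate_succ_apply, ih]
    constructor
    · intro h l hl hd
      obtain ⟨a, l, rfl⟩ := List.exists_cons_of_length_eq_add_one hl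
      exact h l (by simpa using hl) (fun b hb => hd b (List.mem_cons_of_mem _ hb)) a
        (hd a List.mem_cons_self)
    · intro h l hl hd a ha
      refine h (a :: l) (by simp [hl]) ?_
      intro b hb
      rcases List.mem_cons.1 hb with rfl | hb
      · exact ha
      · exact hd b hb

theorem s_iter {φ : Form} (k n : ℕ) : (Form.all^[k] φ).Scoped n ↔ φ.Scoped (n + k) := by
  induction k generalizing φ with
  | zero => simp
  | succ k ih =>
    rw [Function.iterate_succ_apply, ih]
    show φ.Scoped (n + k + 1) ↔ _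
    rw [Nat.add_assoc]

theorem map_range (l : List ℕ) : (List.range l.length).map (fun i => l.getD i 0) = l := by
  apply List.ext_getElem
  · simp
  · intro i h1 h2
    simp [h2]

end GTr

open GTr in
theorem good_transfer {T : ℕ → ℕ → Bool} {A B : Str} (hA : Good T A) (h : Th B = Th A) :
    Good T B := by
  constructor
  · -- other
    intro r l hl hr
    by_contra hcon
    push Not at hcon
    have h1 := tr h (Form.all^[l.length] (.neg (.rel r (List.range l.length))))
      ((s_iter _ _).2 (by
        show ∀ i ∈ List.range l.length, i < 0 + l.length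
        intro i hi
        have := List.mem_range.1 hi
        omega))
      ((h_iter _ _).2 (by
        intro l' hl' hd hr'
        rw [List.append_nil] at hr'
        have h2 : A.Rel r l' := by
          have h3 : A.Rel r ((List.range l.length).map fun i => l'.getD i 0) := hr'
          rw [← hl', map_range] at h3
          exact h3
        have h4 := hA.other r l' hd h2
        rw [hl'] at h4
        omega))
    have h5 := (h_iter _ _).1 h1 l rfl hl
    rw [List.append_nil] at h5
    apply h5
    show B.Rel r ((List.range l.length).map fun i => l.getD i 0)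
    rw [map_range]
    exact hr
  · -- disj
    intro n m a ha hb
    by_contra hnm
    have h1 := tr h (alls n (.neg (.rel m [0]))) (by simp [alls, imp, Form.Scoped]) (by
      simp only [h_alls, h_neg, h_r1, g0]
      intro a ha hr
      exact hnm (hA.disj n m a ha ⟨ha.1, hr⟩))
    simp only [h_alls, h_neg, h_r1, g0] at h1
    exact h1 a ha hb.2
  · -- cdom
    intro n a ha b hb c hc hr
    have h1 := tr h (.all (.all (.all (imp (.rel n [2, 1, 0])
      (.and (.rel n [2]) (.and (.rel n [1]) (.rel n [0]))))))) (by simp [imp, Form.Scoped]) (by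
      simp only [h_all, h_imp, h_and, h_r1, h_r3, g0, g1, g2]
      intro a ha b hb c hc hr
      have h2 := hA.cdom n a ha b hb c hc hr
      exact ⟨h2.1.2, h2.2.1.2, h2.2.2.2⟩)
    simp only [h_all, h_imp, h_and, h_r1, h_r3, g0, g1, g2] at h1
    have h2 := h1 a ha b hb c hc hr
    exact ⟨⟨ha, h2.1⟩, ⟨hb, h2.2.1⟩, ⟨hc, h2.2.2⟩⟩
  · -- circ
    intro n
    constructor
    · have h1 := tr h (alls n (alls n (alls n (imp (.rel n [2, 1, 0]) (.rel n [1, 0, 2])))))
        (by simp [alls, imp, Form.Scoped]) (by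
        simp only [h_alls, h_imp, h_r3, g0, g1, g2]
        exact (hA.circ n).cyclic)
      simp only [h_alls, h_imp, h_r3, g0, g1, g2] at h1
      exact h1
    · have h1 := tr h (alls n (alls n (alls n (imp (.rel n [2, 1, 0]) (.neg (.rel n [0, 1, 2]))))))
        (by simp [alls, imp, Form.Scoped]) (by
        simp only [h_alls, h_imp, h_neg, h_r3, g0, g1, g2]
        exact (hA.circ n).asymm)
      simp only [h_alls, h_imp, h_neg, h_r3, g0, g1, g2] at h1
      exact h1
    · have h1 := tr h (alls n (alls n (alls n (alls n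
        (imp (.rel n [3, 2, 1]) (imp (.rel n [3, 1, 0]) (.rel n [3, 2, 0])))))))
        (by simp [alls, imp, Form.Scoped]) (by
        simp only [h_alls, h_imp, h_neg, h_r3, g0, g1, g2, g3]
        exact (hA.circ n).trans)
      simp only [h_alls, h_imp, h_neg, h_r3, g0, g1, g2, g3] at h1
      exact h1
    · have h1 := tr h (alls n (alls n (alls n
        (imp (.neg (.eq 2 1)) (imp (.neg (.eq 1 0)) (imp (.neg (.eq 2 0))
          (orr (.rel n [2, 1, 0]) (.rel n [0, 1, 2]))))))))
        (by simp [alls, imp, orr, Form.Scoped]) (by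
        simp only [h_alls, h_imp, h_or, h_neg, h_eq, h_r3, g0, g1, g2, g3]
        exact (hA.circ n).total)
      simp only [h_alls, h_imp, h_or, h_neg, h_eq, h_r3, g0, g1, g2, g3] at h1
      exact h1
    · have h1 := tr h (alls n (alls n
        (imp (.neg (.eq 1 0)) (exs n (.rel n [2, 0, 1])))))
        (by simp [alls, imp, exs, Form.Scoped]) (by
        simp only [h_alls, h_imp, h_exs, h_neg, h_eq, h_r3, g0, g1, g2, g3]
        exact (hA.circ n).dense)
      simp only [h_alls, h_imp, h_exs, h_neg, h_eq, h_r3, g0, g1, g2, g3] at h1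
      exact h1
    · have h1 := tr h (exs n (exs n (.neg (.eq 1 0))))
        (by simp [alls, imp, exs, Form.Scoped]) (by
        simp only [h_alls, h_imp, h_exs, h_neg, h_eq, h_r3, g0, g1, g2, g3]
        exact (hA.circ n).two)
      simp only [h_alls, h_imp, h_exs, h_neg, h_eq, h_r3, g0, g1, g2, g3] at h1
      exact h1
  · -- rdom
    intro n s a ha b hb hr
    by_cases hT : T n s = true
    · have h1 := tr h (.all (.all (imp (.rel (Nat.pair n s) [1, 0])
        (.and (.rel n [1]) (.rel n [0]))))) (by simp [imp, Form.Scoped]) (by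
        simp only [h_all, h_imp, h_and, h_r1, h_r2, g0, g1]
        intro a ha b hb hr
        have h2 := hA.rdom n s a ha b hb hr
        exact ⟨h2.2.1.2, h2.2.2.2⟩)
      simp only [h_all, h_imp, h_and, h_r1, h_r2, g0, g1] at h1
      have h2 := h1 a ha b hb hr
      exact ⟨hT, ⟨ha, h2.1⟩, ⟨hb, h2.2⟩⟩
    · exfalso
      have h1 := tr h (.all (.all (.neg (.rel (Nat.pair n s) [1, 0]))))
        (by simp [Form.Scoped]) (by
        simp only [h_all, h_neg, h_r2, g0, g1]
        intro a ha b hb hr
        exact hT (hA.rdom n s a ha b hb hr).1)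
      simp only [h_all, h_neg, h_r2, g0, g1] at h1
      exact h1 a ha b hb hr
  · -- rlin
    intro n s hT
    constructor
    · have h1 := tr h (alls n (.neg (.rel (Nat.pair n s) [0, 0])))
        (by simp [alls, imp, Form.Scoped]) (by
        simp only [h_alls, h_neg, h_r2, g0]
        exact (hA.rlin n s hT).irrefl)
      simp only [h_alls, h_neg, h_r2, g0] at h1
      exact h1
    · have h1 := tr h (alls n (alls n (alls n (imp (.rel (Nat.pair n s) [2, 1])
        (imp (.rel (Nat.pair n s) [1, 0]) (.rel (Nat.pair n s) [2, 0]))))))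
        (by simp [alls, imp, Form.Scoped]) (by
        simp only [h_alls, h_imp, h_neg, h_r2, g0, g1, g2]
        exact (hA.rlin n s hT).trans)
      simp only [h_alls, h_imp, h_neg, h_r2, g0, g1, g2] at h1
      exact h1
    · have h1 := tr h (alls n (alls n (imp (.neg (.eq 1 0))
        (orr (.rel (Nat.pair n s) [1, 0]) (.rel (Nat.pair n s) [0, 1])))))
        (by simp [alls, imp, orr, Form.Scoped]) (by
        simp only [h_alls, h_imp, h_or, h_eq, h_neg, h_r2, g0, g1, g2]
        exact (hA.rlin n s hT).total)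
      simp only [h_alls, h_imp, h_or, h_eq, h_neg, h_r2, g0, g1, g2] at h1
      exact h1
  · -- rcyc
    intro n s hT
    have h1 := tr h (alls n (alls n (alls n (.and (imp (.rel n [2, 1, 0])
        (orr (.and (.rel (Nat.pair n s) [2, 1]) (.rel (Nat.pair n s) [1, 0]))
          (orr (.and (.rel (Nat.pair n s) [1, 0]) (.rel (Nat.pair n s) [0, 2]))
            (.and (.rel (Nat.pair n s) [0, 2]) (.rel (Nat.pair n s) [2, 1])))))
        (imp (orr (.and (.rel (Nat.pair n s) [2, 1]) (.rel (Nat.pair n s) [1, 0]))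
          (orr (.and (.rel (Nat.pair n s) [1, 0]) (.rel (Nat.pair n s) [0, 2]))
            (.and (.rel (Nat.pair n s) [0, 2]) (.rel (Nat.pair n s) [2, 1]))))
          (.rel n [2, 1, 0]))))))
        (by simp [alls, imp, orr, Form.Scoped]) (by
        simp only [h_alls, h_imp, h_or, h_and, h_eq, h_neg, h_r2, h_r3, g0, g1, g2]
        intro a ha b hb c hc
        have h2 := hA.rcyc n s hT a ha b hb c hc
        exact ⟨h2.1, h2.2⟩)
    simp only [h_alls, h_imp, h_or, h_and, h_eq, h_neg, h_r2, h_r3, g0, g1, g2] at h1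
    intro a ha b hb c hc
    have h2 := h1 a ha b hb c hc
    exact ⟨h2.1, h2.2⟩
  · -- rlow
    intro n s hT
    have h1 := tr h (alls n (exs n (.rel (Nat.pair n s) [0, 1])))
        (by simp [alls, exs, imp, orr, Form.Scoped]) (by
        simp only [h_alls, h_exs, h_imp, h_or, h_eq, h_neg, h_r2, g0, g1, g2]
        exact hA.rlow n s hT)
    simp only [h_alls, h_exs, h_imp, h_or, h_eq, h_neg, h_r2, g0, g1, g2] at h1
    exact h1
  · -- rhigh
    intro n s hT
    have h1 := tr h (alls n (exs n (.rel (Nat.pair n s) [1, 0])))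
        (by simp [alls, exs, imp, orr, Form.Scoped]) (by
        simp only [h_alls, h_exs, h_imp, h_or, h_eq, h_neg, h_r2, g0, g1, g2]
        exact hA.rhigh n s hT)
    simp only [h_alls, h_exs, h_imp, h_or, h_eq, h_neg, h_r2, g0, g1, g2] at h1
    exact h1

end Pool.Agent.Helper317.PM
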