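import Pool.Agent.Helper317.PMU.Core

/-!
There is no isomorphism.
-/

namespace Pool.Agent.Helper317.PM

open Pool.Agent.Helper317.SOA Function

theorem clopen_iffQ {X : Type} [TopologicalSpace X] {A B : X → Prop} (hA : IsClopen {p | A p})
    (hB : IsClopen {p | B p}) : IsClopen {p | A p ↔ B p} := by
  have h1 : {p | A p ↔ B p} = ({p | A p} ∩ {p | B p}) ∪ ({p | A p}ᶜ ∩ {p | B p}ᶜ) := by
    ext p
    change (A p ↔ B p) ↔ ((A p ∧ B p) ∨ (¬ A p ∧ ¬ B p))
    tauto
  rw [h1]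
  exact (hA.inter hB).union (hA.compl.inter hB.compl)

theorem clopen_imp {X : Type} [TopologicalSpace X] {A B : X → Prop} (hA : IsClopen {p | A p})
    (hB : IsClopen {p | B p}) : IsClopen {p | A p → B p} := by
  have h1 : {p | A p → B p} = {p | A p}ᶜ ∪ {p | B p} := by
    ext p
    change (A p → B p) ↔ (¬ A p ∨ B p)
    tauto
  rw [h1]
  exact hA.compl.union hB

theorem clopen_coord1 (i k : ℕ) : IsClopen {p : Om × (ℕ → Bool) | p.1 i k = true} := by
  have h1 : Continuous (fun p : Om × (ℕ → Bool) => p.1 i k) :=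
    (continuous_apply k).comp ((continuous_apply i).comp continuous_fst)
  exact (isClopen_discrete ({true} : Set Bool)).preimage h1

theorem clopen_coord2 (k : ℕ) : IsClopen {p : Om × (ℕ → Bool) | p.2 k = true} := by
  have h1 : Continuous (fun p : Om × (ℕ → Bool) => p.2 k) :=
    (continuous_apply k).comp continuous_snd
  exact (isClopen_discrete ({true} : Set Bool)).preimage h1

theorem qw_closed (i : ℕ) : IsClosed (Qw i) := by
  have h1 : Qw i = ⋂ (n : ℕ), ⋂ (w : ℕ), ⋂ (z : ℕ),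
      {p : Om × (ℕ → Bool) | p.1 i (Nat.pair w (e0 n)) = true → p.1 i (Nat.pair (pd w) z) = true →
    (p.2 n = true ↔ ∃ s ≤ z, p.1 2 (Nat.pair n s) = true)} := by
    ext p
    simp only [Set.mem_iInter]
    exact Iff.rfl
  rw [h1]
  refine isClosed_iInter fun n => isClosed_iInter fun w => isClosed_iInter fun z => ?_
  refine (clopen_imp (clopen_coord1 i _) (clopen_imp (clopen_coord1 i _) (clopen_iffQ (clopen_coord2 n) ?_))).isClosed
  have h2 : {p : Om × (ℕ → Bool) | ∃ s ≤ z, p.1 2 (Nat.pair n s) = true} =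
      ⋃ s ∈ {s : ℕ | s ≤ z}, {p : Om × (ℕ → Bool) | p.1 2 (Nat.pair n s) = true} := by
    ext p
    rw [Set.mem_iUnion₂]
    constructor
    · rintro ⟨s, hs, h⟩
      exact ⟨s, hs, h⟩
    · rintro ⟨s, hs, h⟩
      exact ⟨s, hs, h⟩
  rw [h2]
  exact (Set.finite_le_nat z).isClopen_biUnion fun s _ => clopen_coord1 2 _

theorem qw_supp (i : ℕ) :
    ∃ N, ∀ (x x' : Om) (y : ℕ → Bool), (∀ i < N, x i = x' i) →
      ((x, y) ∈ Qw i ↔ (x', y) ∈ Qw i) := by
  refine ⟨max i 2 + 1, fun x x' y h => ?_⟩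
  have h1 : x i = x' i := h i (Nat.lt_succ_of_le (le_max_left _ _))
  have h2 : x 2 = x' 2 := h 2 (Nat.lt_succ_of_le (le_max_right _ _))
  change (∀ n w z, x i (Nat.pair w (e0 n)) = true → x i (Nat.pair (pd w) z) = true →
    (y n = true ↔ ∃ s ≤ z, x 2 (Nat.pair n s) = true)) ↔
    (∀ n w z, x' i (Nat.pair w (e0 n)) = true → x' i (Nat.pair (pd w) z) = true →
    (y n = true ↔ ∃ s ≤ z, x' 2 (Nat.pair n s) = true))
  rw [h1, h2]

theorem no_iso {T : ℕ → ℕ → Bool} (hT : Fnl T) {cut : ℕ → ℕ → ℝ} (hcut : IsCut cut)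
    {x : Om} (hx : (T, x) ∈ RR cut) {w : ℕ → Bool} (hw : ∀ n, w n = true ↔ ∃ s, T n s = true)
    (hne : ∀ i, x i ≠ w)
    (hQ : ∀ i, (∃ y, (x, y) ∈ Qw i) → ∃ j, (x, x j) ∈ Qw i) :
    ¬ ∃ f, gr (strA T) f ∈ Fam x ∧ IsIso (strA T) (strB cut T) f := by
  rintro ⟨f, ⟨i, hi⟩, hiso⟩
  obtain ⟨_, _, hx2'⟩ := hx
  have hx2 : ∀ n s, x 2 (Nat.pair n s) = T n s := hx2'
  have A1 : ∀ a c, x i (Nat.pair a c) = true ↔ c = f a := by
    intro a c
    have h1 : Nat.pair a c ∈ gr (strA T) f ↔ Nat.pair a c ∈ st (x i) := by rw [hi]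
    constructor
    · intro h
      obtain ⟨a', _, h3⟩ := h1.mpr h
      rw [Nat.pair_eq_pair] at h3
      rw [h3.1, h3.2]
    · rintro rfl
      exact h1.mp ⟨a, trivial, rfl⟩
  obtain ⟨_, _, hsurj, hrel⟩ := hiso
  have A2 : ∀ a, (ee (f a)).1 = (ee a).1 := by
    intro a
    have h1 := hrel (ee a).1 [a] (fun _ _ => trivial)
    exact h1.mp rfl
  have hee0 : ∀ n, ee (e0 n) = (n, 0) := by
    intro n
    unfold e0
    exact Equiv.apply_symm_apply _ _
  have heepd : ∀ a, ee (pd a) = ((ee a).1, (ee a).2 - 1) := by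
    intro a
    unfold pd
    exact Equiv.apply_symm_apply _ _
  have A3 : ∀ n w' s, f w' = e0 n → T n s = true → s ≤ f (pd w') := by
    intro n w' s hf hT'
    have hw1 : (ee w').1 = n := by
      rw [← A2 w', hf, hee0]
    have h1 := hrel (Nat.pair n s) [pd w', w'] (fun _ _ => trivial)
    have h2 : (strA T).Rel (Nat.pair n s) [pd w', w'] := by
      change T (Nat.pair n s).unpair.1 (Nat.pair n s).unpair.2 = true ∧ (ee (pd w')).1 = (Nat.pair n s).unpair.1 ∧
        (ee w').1 = (Nat.pair n s).unpair.1 ∧ (ee (pd w')).2 < (ee w').2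
      rw [Nat.unpair_pair, heepd]
      exact ⟨hT', hw1, hw1, by simp⟩
    have h3 : (strB cut T).Rel (Nat.pair n s) [f (pd w'), f w'] := h1.mp h2
    have h4 : T (Nat.pair n s).unpair.1 (Nat.pair n s).unpair.2 = true ∧ (ee (f (pd w'))).1 = (Nat.pair n s).unpair.1 ∧
        (ee (f w')).1 = (Nat.pair n s).unpair.1 ∧ cutlt (cut (Nat.pair n s).unpair.1 (Nat.pair n s).unpair.2)
          (ee (f (pd w'))).2 (ee (f w')).2 := h3
    rw [Nat.unpair_pair, hf, hee0] at h4
    obtain ⟨_, h5, _, h6⟩ := h4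
    simp only at h5 h6
    obtain ⟨_, hc0, hc1⟩ := hcut n s
    by_contra hlt
    push Not at hlt
    apply hc1 _ hlt h5
    rcases h6 with h6 | h6
    · exfalso
      have := h6.2
      push_cast at this
      linarith
    · have h7 : cut n s < ((0 : ℚ) : ℝ) := by
        push_cast
        exact hc0
      exact ⟨h6.1.mpr h7, h6.2⟩
  have main : ∀ n w' z, f w' = e0 n → f (pd w') = z →
      (w n = true ↔ ∃ s ≤ z, x 2 (Nat.pair n s) = true) := by
    intro n w' z h1 h2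
    rw [hw n]
    constructor
    · rintro ⟨s, hs⟩
      refine ⟨s, ?_, ?_⟩
      · rw [← h2]
        exact A3 n w' s h1 hs
      · rw [hx2 n s]
        exact hs
    · rintro ⟨s, _, hs⟩
      rw [hx2 n s] at hs
      exact ⟨s, hs⟩
  have hwQ : (x, w) ∈ Qw i := by
    intro n w' z h1 h2
    rw [A1] at h1 h2
    exact main n w' z h1.symm h2.symm
  obtain ⟨j, hj⟩ := hQ i ⟨w, hwQ⟩
  apply hne j
  funext n
  obtain ⟨w', _, hw'⟩ := hsurj (e0 n) trivial
  have h1 : x j n = true ↔ ∃ s ≤ f (pd w'), x 2 (Nat.pair n s) = true :=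
    hj n w' (f (pd w')) ((A1 _ _).mpr hw'.symm) ((A1 _ _).mpr rfl)
  have h2 := main n w' (f (pd w')) hw' rfl
  rw [Bool.eq_iff_iff]
  exact h1.trans h2.symm

end Pool.Agent.Helper317.PM
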