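import Pool.Agent.Helper317.PMU.Core

/-!
Bounded formulas define clopen sets.
-/

namespace Pool.Agent.Helper317.PM

open Pool.Agent.Helper317.SOA Function

theorem val_fresh (v : ℕ → ℕ) (i a : ℕ) (t : Tm) (h : t.Fresh i) :
    t.val (omega ∅) (update v i a : ℕ → ℕ) = t.val (omega ∅) v := by
  induction t with
  | var j =>
    change update v i a j = v j
    exact update_of_ne h a v
  | zero => rfl
  | one => rfl
  | add s t ihs iht =>
    have h1 := ihs h.1
    have h2 := iht h.2
    exact congrArg₂ (omega ∅).add h1 h2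
  | mul s t ihs iht =>
    have h1 := ihs h.1
    have h2 := iht h.2
    exact congrArg₂ (omega ∅).mul h1 h2

theorem delta0_clopen {φ : Fm} (hφ : IsDelta0 φ) : ∀ (v : ℕ → ℕ) (V : ℕ → ℕ),
    IsClopen {x : Om | Sat (omega ∅) v (fun m => st (x (V m))) φ} := by
  induction hφ with
  | eq s t =>
    intro v V
    by_cases h : s.val (omega ∅) v = t.val (omega ∅) v
    · have : {x : Om | Sat (omega ∅) v (fun m => st (x (V m))) (.eq s t)} = Set.univ :=
        Set.eq_univ_of_forall fun _ => h
      rw [this]
      exact isClopen_univ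
    · have : {x : Om | Sat (omega ∅) v (fun m => st (x (V m))) (.eq s t)} = ∅ :=
        Set.eq_empty_of_forall_notMem fun _ => h
      rw [this]
      exact isClopen_empty
  | lt s t =>
    intro v V
    by_cases h : (omega ∅).lt (s.val (omega ∅) v) (t.val (omega ∅) v)
    · have : {x : Om | Sat (omega ∅) v (fun m => st (x (V m))) (.lt s t)} = Set.univ :=
        Set.eq_univ_of_forall fun _ => h
      rw [this]
      exact isClopen_univ
    · have : {x : Om | Sat (omega ∅) v (fun m => st (x (V m))) (.lt s t)} = ∅ :=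
        Set.eq_empty_of_forall_notMem fun _ => h
      rw [this]
      exact isClopen_empty
  | mem t i =>
    intro v V
    have h1 : Continuous (fun x : Om => x (V i) (show ℕ from t.val (omega ∅) v)) :=
      (continuous_apply _).comp (continuous_apply (V i))
    exact (isClopen_discrete ({true} : Set Bool)).preimage h1
  | neg _ ih =>
    intro v V
    exact (ih v V).compl
  | and _ _ ih1 ih2 =>
    intro v V
    exact (ih1 v V).inter (ih2 v V)
  | @ball i t φ hf _ ih =>
    intro v V
    have h1 : {x : Om | Sat (omega ∅) v (fun m => st (x (V m))) (.all i (.imp (.lt (.var i) t) φ))} =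
        ⋂ a ∈ {a : ℕ | a < (show ℕ from t.val (omega ∅) v)},
          {x : Om | Sat (omega ∅) (update v i a : ℕ → ℕ) (fun m => st (x (V m))) φ} := by
      ext x
      rw [Set.mem_iInter₂]
      change (∀ a : ℕ, ¬ ((omega ∅).lt (update v i a i) (t.val (omega ∅) (update v i a : ℕ → ℕ)) ∧
        ¬ Sat (omega ∅) (update v i a : ℕ → ℕ) (fun m => st (x (V m))) φ)) ↔ _
      constructor
      · intro h a ha
        by_contra hcon
        apply h a
        refine ⟨?_, hcon⟩
        rw [val_fresh v i a t hf, update_self]
        exact ha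
      · rintro h a ⟨h1, h2⟩
        rw [val_fresh v i a t hf, update_self] at h1
        exact h2 (h a h1)
    rw [h1]
    exact (Set.finite_lt_nat _).isClopen_biInter fun a _ => ih _ V

theorem qsep_closed {φ ψ : Fm} (hφ : IsDelta0 φ) (hψ : IsDelta0 ψ) (i j k : ℕ) (v V : List ℕ) :
    IsClosed (Qsep φ ψ i j k v V) := by
  have h1 : Qsep φ ψ i j k v V = ⋂ (a : ℕ), ⋂ (b : ℕ),
      ((({p : Om × (ℕ → Bool) | Sat (omega ∅) (update (update (asg v) i a) j b : ℕ → ℕ) (fun m => st (p.1 (V.getD m 0))) φ})ᶜ ∪
        {p : Om × (ℕ → Bool) | p.2 a = true}) ∩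
      ({p : Om × (ℕ → Bool) | Sat (omega ∅) (update (update (asg v) i a) k b : ℕ → ℕ) (fun m => st (p.1 (V.getD m 0))) ψ} ∪
        {p : Om × (ℕ → Bool) | p.2 a = false})) := by
    ext p
    simp only [Set.mem_iInter]
    constructor
    · intro h a b
      obtain ⟨h2, h3⟩ := h a b
      refine ⟨?_, ?_⟩
      · by_cases hc : Sat (omega ∅) (update (update (asg v) i a) j b : ℕ → ℕ) (fun m => st (p.1 (V.getD m 0))) φ
        · exact Or.inr (h2 hc)
        · exact Or.inl hc
      · by_cases hc : Sat (omega ∅) (update (update (asg v) i a) k b : ℕ → ℕ) (fun m => st (p.1 (V.getD m 0))) ψ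
        · exact Or.inl hc
        · exact Or.inr (h3 hc)
    · intro h a b
      obtain ⟨h2, h3⟩ := h a b
      refine ⟨fun hc => ?_, fun hc => ?_⟩
      · rcases h2 with h2 | h2
        · exact absurd hc h2
        · exact h2
      · rcases h3 with h3 | h3
        · exact absurd h3 hc
        · exact h3
  rw [h1]
  refine isClosed_iInter fun a => isClosed_iInter fun b => ?_
  have hcoord : Continuous (fun p : Om × (ℕ → Bool) => p.2 a) := (continuous_apply a).comp continuous_snd
  refine IsClosed.inter (IsClosed.union ?_ ?_) (IsClosed.union ?_ ?_)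
  · exact (((delta0_clopen hφ (update (update (asg v) i a) j b) (fun m => V.getD m 0)).preimage
      continuous_fst).compl).isClosed
  · exact (isClosed_discrete ({true} : Set Bool)).preimage hcoord
  · exact ((delta0_clopen hψ (update (update (asg v) i a) k b) (fun m => V.getD m 0)).preimage
      continuous_fst).isClosed
  · exact (isClosed_discrete ({false} : Set Bool)).preimage hcoord

theorem getD_le_sum (V : List ℕ) : ∀ m, V.getD m 0 ≤ V.sum := by
  induction V with
  | nil => intro m; simp
  | cons a l ih =>
    intro m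
    rw [List.sum_cons]
    cases m with
    | zero => simp
    | succ m =>
      rw [List.getD_cons_succ]
      exact (ih m).trans (Nat.le_add_left _ _)

theorem qsep_supp (φ ψ : Fm) (i j k : ℕ) (v V : List ℕ) :
    ∃ N, ∀ (x x' : Om) (y : ℕ → Bool), (∀ i < N, x i = x' i) →
      ((x, y) ∈ Qsep φ ψ i j k v V ↔ (x', y) ∈ Qsep φ ψ i j k v V) := by
  refine ⟨V.sum + 1, fun x x' y h => ?_⟩
  have h1 : (fun m => st (x (V.getD m 0))) = (fun m => st (x' (V.getD m 0))) := by
    funext m
    rw [h _ (Nat.lt_succ_of_le (getD_le_sum V m))]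
  unfold Qsep
  change (∀ a b : ℕ,
    (Sat (omega ∅) (update (update (asg v) i a) j b) (fun m => st (x (V.getD m 0))) φ →
      y a = true) ∧
    (¬ Sat (omega ∅) (update (update (asg v) i a) k b) (fun m => st (x (V.getD m 0))) ψ →
      y a = false)) ↔ (∀ a b : ℕ,
    (Sat (omega ∅) (update (update (asg v) i a) j b) (fun m => st (x' (V.getD m 0))) φ →
      y a = true) ∧
    (¬ Sat (omega ∅) (update (update (asg v) i a) k b) (fun m => st (x' (V.getD m 0))) ψ →
      y a = false))
  rw [h1]

end Pool.Agent.Helper317.PM
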