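import Pool.Agent.Helper317.PMU.Core

/-!
`RCA0` from closure under the separation tasks.
-/

namespace Pool.Agent.Helper317.PM

open Pool.Agent.Helper317.SOA Function

theorem tm_congr (M : Model) (t : Tm) : ∃ N : ℕ, ∀ v v' : ℕ → M.Num, (∀ n < N, v n = v' n) →
    t.val M v = t.val M v' := by
  induction t with
  | var i => exact ⟨i + 1, fun v v' h => h i (Nat.lt_succ_self i)⟩
  | zero => exact ⟨0, fun v v' h => rfl⟩
  | one => exact ⟨0, fun v v' h => rfl⟩
  | add s t hs ht =>
    obtain ⟨N, hN⟩ := hs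
    obtain ⟨N', hN'⟩ := ht
    refine ⟨max N N', fun v v' h => ?_⟩
    have h1 := hN v v' (fun n hn => h n (lt_of_lt_of_le hn (le_max_left _ _)))
    have h2 := hN' v v' (fun n hn => h n (lt_of_lt_of_le hn (le_max_right _ _)))
    simp only [Tm.val, h1, h2]
  | mul s t hs ht =>
    obtain ⟨N, hN⟩ := hs
    obtain ⟨N', hN'⟩ := ht
    refine ⟨max N N', fun v v' h => ?_⟩
    have h1 := hN v v' (fun n hn => h n (lt_of_lt_of_le hn (le_max_left _ _)))
    have h2 := hN' v v' (fun n hn => h n (lt_of_lt_of_le hn (le_max_right _ _)))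
    simp only [Tm.val, h1, h2]

theorem upd_agree {α : Type} (N i : ℕ) (a : α) (v v' : ℕ → α) (h : ∀ n < N, v n = v' n) :
    ∀ n < N, update v i a n = update v' i a n := by
  intro n hn
  by_cases hni : n = i
  · subst hni; simp
  · rw [update_of_ne hni, update_of_ne hni]; exact h n hn

theorem sat_congr (M : Model) (φ : Fm) : ∃ N : ℕ, ∀ (v v' : ℕ → M.Num) (V V' : ℕ → Set M.Num),
    (∀ n < N, v n = v' n) → (∀ n < N, V n = V' n) → (Sat M v V φ ↔ Sat M v' V' φ) := by
  induction φ with
  | eq s t =>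
    obtain ⟨N, hN⟩ := tm_congr M s
    obtain ⟨N', hN'⟩ := tm_congr M t
    refine ⟨max N N', fun v v' V V' h _ => ?_⟩
    have h1 := hN v v' (fun n hn => h n (lt_of_lt_of_le hn (le_max_left _ _)))
    have h2 := hN' v v' (fun n hn => h n (lt_of_lt_of_le hn (le_max_right _ _)))
    simp only [Sat, h1, h2]
  | lt s t =>
    obtain ⟨N, hN⟩ := tm_congr M s
    obtain ⟨N', hN'⟩ := tm_congr M t
    refine ⟨max N N', fun v v' V V' h _ => ?_⟩
    have h1 := hN v v' (fun n hn => h n (lt_of_lt_of_le hn (le_max_left _ _)))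
    have h2 := hN' v v' (fun n hn => h n (lt_of_lt_of_le hn (le_max_right _ _)))
    simp only [Sat, h1, h2]
  | mem t i =>
    obtain ⟨N, hN⟩ := tm_congr M t
    refine ⟨max N (i + 1), fun v v' V V' h hV => ?_⟩
    have h1 := hN v v' (fun n hn => h n (lt_of_lt_of_le hn (le_max_left _ _)))
    have h2 := hV i (lt_of_lt_of_le (Nat.lt_succ_self i) (le_max_right _ _))
    simp only [Sat, h1, h2]
  | neg φ ih =>
    obtain ⟨N, hN⟩ := ih
    refine ⟨N, fun v v' V V' h hV => ?_⟩
    simp only [Sat, hN v v' V V' h hV]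
  | and φ ψ ih ih' =>
    obtain ⟨N, hN⟩ := ih
    obtain ⟨N', hN'⟩ := ih'
    refine ⟨max N N', fun v v' V V' h hV => ?_⟩
    have h1 := hN v v' V V' (fun n hn => h n (lt_of_lt_of_le hn (le_max_left _ _)))
      (fun n hn => hV n (lt_of_lt_of_le hn (le_max_left _ _)))
    have h2 := hN' v v' V V' (fun n hn => h n (lt_of_lt_of_le hn (le_max_right _ _)))
      (fun n hn => hV n (lt_of_lt_of_le hn (le_max_right _ _)))
    simp only [Sat, h1, h2]
  | all i φ ih =>
    obtain ⟨N, hN⟩ := ih
    refine ⟨N, fun v v' V V' h hV => ?_⟩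
    simp only [Sat]
    exact forall_congr' (fun a => hN _ _ V V' (upd_agree N i a v v' h) hV)
  | allS i φ ih =>
    obtain ⟨N, hN⟩ := ih
    refine ⟨N, fun v v' V V' h hV => ?_⟩
    simp only [Sat]
    exact forall_congr' (fun A => imp_congr_right (fun _ => hN v v' _ _ h (upd_agree N i A V V' hV)))

/-- value of a term in an omega-model, as a natural number -/
def tv (S : Set (Set ℕ)) (v : ℕ → ℕ) (t : Tm) : ℕ := Tm.val (omega S) v t

theorem tv_add (S : Set (Set ℕ)) (v : ℕ → ℕ) (s t : Tm) : tv S v (.add s t) = tv S v s + tv S v t := rfl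
theorem tv_mul (S : Set (Set ℕ)) (v : ℕ → ℕ) (s t : Tm) : tv S v (.mul s t) = tv S v s * tv S v t := rfl

theorem tm_omega (S S' : Set (Set ℕ)) (t : Tm) (v : ℕ → ℕ) : tv S v t = tv S' v t := by
  induction t with
  | var i => rfl
  | zero => rfl
  | one => rfl
  | add s t hs ht => rw [tv_add, tv_add, hs, ht]
  | mul s t hs ht => rw [tv_mul, tv_mul, hs, ht]

theorem sat_eq (S : Set (Set ℕ)) (v : ℕ → ℕ) (V : ℕ → Set ℕ) (s t : Tm) :
    Sat (omega S) v V (.eq s t) ↔ tv S v s = tv S v t := Iff.rfl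
theorem sat_lt (S : Set (Set ℕ)) (v : ℕ → ℕ) (V : ℕ → Set ℕ) (s t : Tm) :
    Sat (omega S) v V (.lt s t) ↔ tv S v s < tv S v t := Iff.rfl
theorem sat_mem (S : Set (Set ℕ)) (v : ℕ → ℕ) (V : ℕ → Set ℕ) (t : Tm) (i : ℕ) :
    Sat (omega S) v V (.mem t i) ↔ tv S v t ∈ V i := Iff.rfl

theorem sat_omega (S S' : Set (Set ℕ)) (φ : Fm) (h : IsDelta0 φ) : ∀ (v : ℕ → ℕ) (V : ℕ → Set ℕ),
    (Sat (omega S) v V φ ↔ Sat (omega S') v V φ) := by
  induction h with
  | eq s t =>
    intro v V
    rw [sat_eq, sat_eq, tm_omega S S' s, tm_omega S S' t]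
  | lt s t =>
    intro v V
    rw [sat_lt, sat_lt, tm_omega S S' s, tm_omega S S' t]
  | mem t i =>
    intro v V
    rw [sat_mem, sat_mem, tm_omega S S' t]
  | neg _ ih =>
    intro v V
    exact not_congr (ih v V)
  | and _ _ ih ih' =>
    intro v V
    exact and_congr (ih v V) (ih' v V)
  | ball i t _ _ ih =>
    intro v V
    refine forall_congr' (fun a => not_congr (and_congr ?_ (not_congr ?_)))
    · have h1 := sat_lt S (update v i a) V (.var i) t
      have h2 := sat_lt S' (update v i a) V (.var i) t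
      rw [tm_omega S S' (.var i), tm_omega S S' t] at h1
      exact h1.trans h2.symm
    · exact ih _ V

theorem getD_map_range {α : Type} (f : ℕ → α) (d : α) (N n : ℕ) (hn : n < N) :
    ((List.range N).map f).getD n d = f n := by
  rw [List.getD_eq_getElem?_getD]
  simp [hn]

theorem rca_of_closed (x : Om)
    (h : ∀ φ ψ : Fm, IsDelta0 φ → IsDelta0 ψ → ∀ (i j k : ℕ) (v V : List ℕ),
      (∃ y, (x, y) ∈ Qsep φ ψ i j k v V) → ∃ l, (x, x l) ∈ Qsep φ ψ i j k v V) :
    RCA0 (omega (Fam x)) := by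
  classical
  refine ⟨?_, ?_, ?_⟩
  · refine ⟨?_, ?_, ?_, ?_, ?_, ?_, ?_, ?_⟩
    · intro n; exact Nat.succ_ne_zero n
    · intro m n hmn; exact Nat.succ_injective hmn
    · intro m; rfl
    · intro m n; rfl
    · intro m; rfl
    · intro m n; rfl
    · intro m; exact Nat.not_lt_zero m
    · intro m n; exact Nat.lt_succ_iff_lt_or_eq
  · intro φ _ i v V _ h0 hs a
    exact Nat.rec (motive := fun a : ℕ => Sat (omega (Fam x)) (update v i a) V φ) h0 (fun a ih => hs a ih) a
  · intro φ' ψ' hφ' hψ' i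
    show ∀ (v : ℕ → ℕ) (V : ℕ → Set ℕ), _
    intro v V hV hiff
    obtain ⟨j, φ, rfl, hφ⟩ := hφ'
    obtain ⟨k, ψ, rfl, hψ⟩ := hψ'
    have hφ0 : IsDelta0 φ := hφ
    have hψ0 : IsDelta0 ψ := hψ
    have hV' : ∀ m, ∃ c, V m = st (x c) := fun m => hV m
    choose c hc using hV'
    obtain ⟨N1, hN1⟩ := sat_congr (omega ∅) φ
    obtain ⟨N2, hN2⟩ := sat_congr (omega ∅) ψ
    set N := max N1 N2 with hN
    have hasg : ∀ n < N, asg ((List.range N).map v) n = v n := fun n hn => getD_map_range v 0 N n hn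
    have hVV : ∀ n < N, st (x (((List.range N).map c).getD n 0)) = V n := by
      intro n hn
      rw [getD_map_range c 0 N n hn, hc n]
    have eφ : ∀ a b : ℕ, Sat (omega ∅) (update (update (asg ((List.range N).map v)) i a) j b)
        (fun m => st (x (((List.range N).map c).getD m 0))) φ ↔
        Sat (omega (Fam x)) (update (update v i a) j b) V φ := by
      intro a b
      refine Iff.trans ?_ (sat_omega (Fam x) ∅ φ hφ0 _ _).symm
      apply hN1
      · intro n hn
        exact upd_agree N j b _ _ (upd_agree N i a _ _ hasg) n (lt_of_lt_of_le hn (le_max_left _ _))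
      · intro n hn
        exact hVV n (lt_of_lt_of_le hn (le_max_left _ _))
    have eψ : ∀ a b : ℕ, Sat (omega ∅) (update (update (asg ((List.range N).map v)) i a) k b)
        (fun m => st (x (((List.range N).map c).getD m 0))) ψ ↔
        Sat (omega (Fam x)) (update (update v i a) k b) V ψ := by
      intro a b
      refine Iff.trans ?_ (sat_omega (Fam x) ∅ ψ hψ0 _ _).symm
      apply hN2
      · intro n hn
        exact upd_agree N k b _ _ (upd_agree N i a _ _ hasg) n (lt_of_lt_of_le hn (le_max_right _ _))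
      · intro n hn
        exact hVV n (lt_of_lt_of_le hn (le_max_right _ _))
    have hex : ∀ a : ℕ, Sat (omega (Fam x)) (update v i a) V (Fm.ex j φ) ↔
        ∃ b : ℕ, Sat (omega (Fam x)) (update (update v i a) j b) V φ := by
      intro a
      show (¬ ∀ b : ℕ, ¬ Sat (omega (Fam x)) (update (update v i a) j b) V φ) ↔ _
      push Not
      exact Iff.rfl
    have hall : ∀ a : ℕ, Sat (omega (Fam x)) (update v i a) V (Fm.all k ψ) ↔
        ∀ b : ℕ, Sat (omega (Fam x)) (update (update v i a) k b) V ψ := fun a => Iff.rfl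
    obtain ⟨l, hl⟩ := h φ ψ hφ0 hψ0 i j k ((List.range N).map v) ((List.range N).map c)
      ⟨fun a => decide (Sat (omega (Fam x)) (update v i a) V (Fm.ex j φ)), by
        intro a b
        constructor
        · intro hs
          exact decide_eq_true ((hex a).2 ⟨b, (eφ a b).1 hs⟩)
        · intro hs
          refine decide_eq_false (fun hh => hs ((eψ a b).2 ?_))
          exact (hall a).1 ((hiff a).1 hh) b⟩
    refine ⟨l, ?_⟩
    ext a
    constructor
    · intro ha
      obtain ⟨b, hb⟩ := (hex a).1 ha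
      exact (hl a b).1 ((eφ a b).2 hb)
    · intro ha
      by_contra hna
      have h1 : ¬ Sat (omega (Fam x)) (update v i a) V (Fm.all k ψ) := fun hh => hna ((hiff a).2 hh)
      rw [hall a] at h1
      push Not at h1
      obtain ⟨b, hb⟩ := h1
      have h2 := (hl a b).2 (fun hh => hb ((eψ a b).1 hh))
      have h3 : x l a = true := ha
      have h4 : x l a = false := h2
      rw [h3] at h4
      exact Bool.noConfusion h4

deriving instance Countable for Tm
deriving instance Countable for Fm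

theorem fm_countable : Countable Fm := by
  infer_instance

end Pool.Agent.Helper317.PM
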