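import Pool.Agent.Helper317.PMU.Core

/-!
Choice of `T` by compactness.
-/

namespace Pool.Agent.Helper317.PM


/-- conditions -/
structure AuxCnd where
  s : ℕ
  T0 : ℕ → ℕ → Bool
  F : Finset ℕ
  supp : ∀ a b, T0 a b = true → a < s ∧ b < s
  fn : ∀ n b b', T0 n b = true → T0 n b' = true → b = b'

/-- the set of a condition -/
def AuxCnd.set (p : AuxCnd) : Set (ℕ → ℕ → Bool) :=
  {T | (∀ n b b', T n b = true → T n b' = true → b = b') ∧
    (∀ a b, a < p.s → b < p.s → T a b = p.T0 a b) ∧ (∀ a ∈ p.F, ∀ b, T a b = p.T0 a b)}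

theorem aux_mem (p : AuxCnd) : p.T0 ∈ p.set :=
  ⟨p.fn, fun _ _ _ _ => rfl, fun _ _ _ => rfl⟩

theorem aux_closed (p : AuxCnd) : IsClosed p.set := by
  have hc : ∀ a b, Continuous (fun T : ℕ → ℕ → Bool => T a b) := fun a b =>
    (continuous_apply b).comp (continuous_apply a)
  have h1 : IsClosed {T : ℕ → ℕ → Bool | ∀ n b b', T n b = true → T n b' = true → b = b'} := by
    have e : {T : ℕ → ℕ → Bool | ∀ n b b', T n b = true → T n b' = true → b = b'} =
        ⋂ n, ⋂ b, ⋂ b', (fun T : ℕ → ℕ → Bool => (T n b, T n b')) ⁻¹'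
          {q | q.1 = true → q.2 = true → b = b'} := by
      ext T; simp
    rw [e]
    refine isClosed_iInter fun n => isClosed_iInter fun b => isClosed_iInter fun b' => ?_
    exact (isClosed_discrete _).preimage ((hc n b).prodMk (hc n b'))
  have h2 : IsClosed {T : ℕ → ℕ → Bool | ∀ a b, a < p.s → b < p.s → T a b = p.T0 a b} := by
    have e : {T : ℕ → ℕ → Bool | ∀ a b, a < p.s → b < p.s → T a b = p.T0 a b} =
        ⋂ a, ⋂ b, ⋂ (_ : a < p.s), ⋂ (_ : b < p.s), {T | T a b = p.T0 a b} := by
      ext T; simp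
    rw [e]
    refine isClosed_iInter fun a => isClosed_iInter fun b => isClosed_iInter fun _ =>
      isClosed_iInter fun _ => ?_
    exact isClosed_eq (hc a b) continuous_const
  have h3 : IsClosed {T : ℕ → ℕ → Bool | ∀ a ∈ p.F, ∀ b, T a b = p.T0 a b} := by
    have e : {T : ℕ → ℕ → Bool | ∀ a ∈ p.F, ∀ b, T a b = p.T0 a b} =
        ⋂ a, ⋂ (_ : a ∈ p.F), ⋂ b, {T | T a b = p.T0 a b} := by
      ext T; simp
    rw [e]
    refine isClosed_iInter fun a => isClosed_iInter fun _ => isClosed_iInter fun b => ?_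
    exact isClosed_eq (hc a b) continuous_const
  exact h1.inter (h2.inter h3)

theorem aux_open {U : Set (ℕ → ℕ → Bool)} (hU : IsOpen U) {T1 : ℕ → ℕ → Bool} (h1 : T1 ∈ U) :
    ∃ s1 : ℕ, ∀ T : ℕ → ℕ → Bool, (∀ a b, a < s1 → b < s1 → T a b = T1 a b) → T ∈ U := by
  by_contra hcon
  push Not at hcon
  choose Ts hTs hTsU using hcon
  have hlim : Filter.Tendsto Ts Filter.atTop (nhds T1) := by
    rw [tendsto_pi_nhds]
    intro a
    rw [tendsto_pi_nhds]
    intro b
    apply Filter.Tendsto.congr' _ tendsto_const_nhds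
    filter_upwards [Filter.eventually_gt_atTop (max a b)] with s hs
    exact (hTs s a b (lt_of_le_of_lt (le_max_left _ _) hs)
      (lt_of_le_of_lt (le_max_right _ _) hs)).symm
  obtain ⟨s, hs⟩ := (hlim.eventually (hU.mem_nhds h1)).exists
  exact hTsU s hs

theorem aux_step (R : Set ((ℕ → ℕ → Bool) × Om)) (hR : IsClosed R)
    (K : Set Om) (hK : IsClosed K) (i : ℕ) (p : AuxCnd) :
    ∃ p' : AuxCnd, p'.set ⊆ p.set ∧ ∀ T ∈ p'.set, ∀ w : ℕ → Bool,
      (∀ n, w n = true ↔ ∃ s, T n s = true) →
        (∃ x ∈ K, (T, x) ∈ R) → ∃ x ∈ K, (T, x) ∈ R ∧ x i ≠ w := by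
  set n := p.s + p.F.sup id + 1 with hn
  have hns : p.s ≤ n := by omega
  have hnF : n ∉ p.F := by
    intro h
    have := Finset.le_sup (f := id) h
    simp only [id] at this
    omega
  by_cases hcase : ∃ T1 ∈ p.set, (∀ b, T1 n b = false) ∧ ¬ ∃ x ∈ K, (T1, x) ∈ R ∧ x i n = true
  · obtain ⟨T1, hT1, hT1n, hT1b⟩ := hcase
    have hbadc : IsClosed {T : ℕ → ℕ → Bool | ∃ x ∈ K, (T, x) ∈ R ∧ x i n = true} := by
      have hcl : IsClosed {q : (ℕ → ℕ → Bool) × Om | q.2 ∈ K ∧ q ∈ R ∧ q.2 i n = true} := by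
        refine (hK.preimage continuous_snd).inter (hR.inter ?_)
        have hc0 : Continuous (fun T : ℕ → ℕ → Bool => T i n) :=
          (continuous_apply n).comp (continuous_apply i)
        have hc : Continuous (fun q : (ℕ → ℕ → Bool) × Om => q.2 i n) :=
          hc0.comp continuous_snd
        exact isClosed_eq hc continuous_const
      have himg : {T : ℕ → ℕ → Bool | ∃ x ∈ K, (T, x) ∈ R ∧ x i n = true} =
          Prod.fst '' {q : (ℕ → ℕ → Bool) × Om | q.2 ∈ K ∧ q ∈ R ∧ q.2 i n = true} := by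
        ext T
        constructor
        · rintro ⟨x, h1, h2, h3⟩
          exact ⟨(T, x), ⟨h1, h2, h3⟩, rfl⟩
        · rintro ⟨⟨T', x⟩, ⟨h1, h2, h3⟩, rfl⟩
          exact ⟨x, h1, h2, h3⟩
      rw [himg]
      exact (hcl.isCompact.image continuous_fst).isClosed
    obtain ⟨s1, hs1⟩ := aux_open hbadc.isOpen_compl hT1b
    set s' := s1 + n + 1 with hs'
    obtain ⟨hf, hsq, hF⟩ := hT1
    let T0' : ℕ → ℕ → Bool := fun a b => if a < s' ∧ b < s' then T1 a b else decide (a = n ∧ b = s')
    have hT0sq : ∀ a b, a < s' → b < s' → T0' a b = T1 a b := by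
      intro a b ha hb
      simp only [T0', ha, hb, and_self, if_true]
    have hT0out : ∀ a b, ¬ (a < s' ∧ b < s') → T0' a b = decide (a = n ∧ b = s') := by
      intro a b h
      simp only [T0', if_neg h]
    have hnn : T0' n s' = true := by
      rw [hT0out n s' (by omega)]
      simp
    let p' : AuxCnd :=
      { s := s' + 1
        T0 := T0'
        F := p.F
        supp := by
          intro a b h
          by_cases hab : a < s' ∧ b < s'
          · omega
          · rw [hT0out a b hab, decide_eq_true_iff] at h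
            omega
        fn := by
          intro a b b' h h'
          by_cases hab : a < s' ∧ b < s'
          · by_cases hab' : a < s' ∧ b' < s'
            · rw [hT0sq a b hab.1 hab.2] at h
              rw [hT0sq a b' hab'.1 hab'.2] at h'
              exact hf a b b' h h'
            · rw [hT0out a b' hab', decide_eq_true_iff] at h'
              rw [hT0sq a b hab.1 hab.2, h'.1, hT1n b] at h
              exact absurd h (by simp)
          · rw [hT0out a b hab, decide_eq_true_iff] at h
            by_cases hab' : a < s' ∧ b' < s'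
            · rw [hT0sq a b' hab'.1 hab'.2, h.1, hT1n b'] at h'
              exact absurd h' (by simp)
            · rw [hT0out a b' hab', decide_eq_true_iff] at h'
              omega }
    refine ⟨p', ?_, ?_⟩
    · rintro T ⟨h1, h2, h3⟩
      refine ⟨h1, fun a b ha hb => ?_, fun a ha b => ?_⟩
      · have h4 : T a b = T0' a b := h2 a b (show a < s' + 1 by omega) (show b < s' + 1 by omega)
        rw [h4, hT0sq a b (by omega) (by omega)]
        exact hsq a b ha hb
      · have h4 : T a b = T0' a b := h3 a ha b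
        rw [h4]
        by_cases hab : a < s' ∧ b < s'
        · rw [hT0sq a b hab.1 hab.2]
          exact hF a ha b
        · rw [hT0out a b hab]
          have han : a ≠ n := by
            rintro rfl
            exact hnF ha
          have h5 : p.T0 a b = false := by
            by_contra h6
            rw [Bool.not_eq_false] at h6
            have := p.supp a b h6
            omega
          rw [h5]
          simp [han]
    · rintro T ⟨h1, h2, h3⟩ w hw ⟨x, hxK, hxR⟩
      refine ⟨x, hxK, hxR, fun hxw => ?_⟩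
      have hTU : T ∈ {T : ℕ → ℕ → Bool | ∃ x ∈ K, (T, x) ∈ R ∧ x i n = true}ᶜ := by
        apply hs1
        intro a b ha hb
        have h4 : T a b = T0' a b := h2 a b (show a < s' + 1 by omega) (show b < s' + 1 by omega)
        rw [h4, hT0sq a b (by omega) (by omega)]
      apply hTU
      refine ⟨x, hxK, hxR, ?_⟩
      rw [hxw, hw n]
      refine ⟨s', ?_⟩
      have h4 : T n s' = T0' n s' := h2 n s' (show n < s' + 1 by omega) (show s' < s' + 1 by omega)
      rw [h4, hnn]
  · push Not at hcase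
    let p' : AuxCnd :=
      { s := p.s
        T0 := p.T0
        F := insert n p.F
        supp := p.supp
        fn := p.fn }
    refine ⟨p', ?_, ?_⟩
    · rintro T ⟨h1, h2, h3⟩
      exact ⟨h1, h2, fun a ha b => h3 a (Finset.mem_insert_of_mem ha) b⟩
    · intro T hT w hw _
      have hTn : ∀ b, T n b = false := by
        intro b
        have h4 : T n b = p.T0 n b := hT.2.2 n (Finset.mem_insert_self _ _) b
        rw [h4]
        by_contra h6
        rw [Bool.not_eq_false] at h6
        have := p.supp n b h6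
        omega
      have hTp : T ∈ p.set :=
        ⟨hT.1, hT.2.1, fun a ha b => hT.2.2 a (Finset.mem_insert_of_mem ha) b⟩
      obtain ⟨x, hxK, hxR, hxn⟩ := hcase T hTp hTn
      refine ⟨x, hxK, hxR, fun hxw => ?_⟩
      rw [hxw, hw n] at hxn
      obtain ⟨s, hs⟩ := hxn
      rw [hTn s] at hs
      exact absurd hs (by simp)

theorem theta_lemma (R : Set ((ℕ → ℕ → Bool) × Om)) (hR : IsClosed R)
    (K : ℕ → Set Om) (hK : ∀ m, IsClosed (K m)) (idx : ℕ → ℕ) :
    ∃ T : ℕ → ℕ → Bool, (∀ n s s', T n s = true → T n s' = true → s = s') ∧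
      ∀ m, ∀ w : ℕ → Bool, (∀ n, w n = true ↔ ∃ s, T n s = true) →
        (∃ x ∈ K m, (T, x) ∈ R) → ∃ x ∈ K m, (T, x) ∈ R ∧ x (idx m) ≠ w := by
  choose nx hnx1 hnx2 using fun (m : ℕ) (p : AuxCnd) => aux_step R hR (K m) (hK m) (idx m) p
  let p0 : AuxCnd :=
    { s := 0
      T0 := fun _ _ => false
      F := ∅
      supp := by intro a b h; simp at h
      fn := by intro n b b' h; simp at h }
  let q : ℕ → AuxCnd := fun k => Nat.rec p0 (fun m p => nx m p) k
  have hq : ∀ k, q (k + 1) = nx k (q k) := fun _ => rfl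
  obtain ⟨T, hT⟩ := IsCompact.nonempty_iInter_of_sequence_nonempty_isCompact_isClosed
    (fun k => (q k).set) (fun k => by
      show (q (k + 1)).set ⊆ (q k).set
      rw [hq]
      exact hnx1 k (q k)) (fun k => ⟨_, aux_mem (q k)⟩) (aux_closed (q 0)).isCompact
      (fun k => aux_closed (q k))
  rw [Set.mem_iInter] at hT
  refine ⟨T, (hT 0).1, fun m w hw hx => ?_⟩
  have h1 := hT (m + 1)
  rw [hq] at h1
  exact hnx2 m (q m) T h1 w hw hx

end Pool.Agent.Helper317.PM
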