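import Pool.Agent.Helper317.PMU.Core

/-!
Weak Koenig lemma from closure under the path tasks.
-/

namespace Pool.Agent.Helper317.PM

open Pool.Agent.Helper317.SOA Function


theorem wk_open (n : ℕ) (z : ℕ → Bool) :
    IsOpen {y : ℕ → Bool | ∀ k ∈ Finset.range n, y k = z k} := by
  have h : {y : ℕ → Bool | ∀ k ∈ Finset.range n, y k = z k} =
      ⋂ k ∈ Finset.range n, {y : ℕ → Bool | y k = z k} := by
    ext y
    simp only [Set.mem_ofPred_eq, Set.mem_iInter]
  rw [h]
  refine isOpen_biInter_finset (fun k _ => ?_)
  have h2 : {y : ℕ → Bool | y k = z k} = (fun y : ℕ → Bool => y k) ⁻¹' {z k} := rfl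
  rw [h2]
  exact (isOpen_discrete _).preimage (continuous_apply k)

theorem wk_map (n : ℕ) (y z : ℕ → Bool) (h : ∀ k ∈ Finset.range n, y k = z k) :
    (List.range n).map y = (List.range n).map z := by
  refine List.map_congr_left (fun k hk => h k ?_)
  rw [Finset.mem_range]
  exact List.mem_range.mp hk

theorem qwkl_closed (i : ℕ) : IsClosed (Qwkl i) := by
  have h : Qwkl i = ⋂ n : ℕ, ⋂ z : ℕ → Bool,
      ({p : Om × (ℕ → Bool) | ∀ k ∈ Finset.range n, p.2 k = z k}ᶜ ∪
        {p : Om × (ℕ → Bool) | p.1 i (bcode ((List.range n).map z)) = true}) := by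
    ext p
    simp only [Set.mem_iInter, Set.mem_union, Set.mem_compl_iff]
    constructor
    · intro hp n z
      by_cases hz : ∀ k ∈ Finset.range n, p.2 k = z k
      · right
        show p.1 i (bcode ((List.range n).map z)) = true
        rw [← wk_map n p.2 z hz]
        exact hp n
      · left
        exact hz
    · intro hp n
      rcases hp n p.2 with h1 | h1
      · exact absurd (fun k _ => rfl) h1
      · exact h1
  rw [h]
  refine isClosed_iInter (fun n => isClosed_iInter (fun z => IsClosed.union ?_ ?_))
  · rw [isClosed_compl_iff]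
    exact (wk_open n z).preimage continuous_snd
  · have h2 : {p : Om × (ℕ → Bool) | p.1 i (bcode ((List.range n).map z)) = true} =
        (fun p : Om × (ℕ → Bool) => p.1 i (bcode ((List.range n).map z))) ⁻¹' {true} := rfl
    rw [h2]
    refine (isClosed_discrete _).preimage ?_
    exact (continuous_apply _).comp ((continuous_apply i).comp continuous_fst)

theorem wk_koenig (X : Set ℕ)
    (ht : ∀ l l' : List Bool, l <+: l' → bcode l' ∈ X → bcode l ∈ X)
    (hi : ∀ n, ∃ l : List Bool, l.length = n ∧ bcode l ∈ X) :
    ∃ y : ℕ → Bool, ∀ n, bcode ((List.range n).map y) ∈ X := by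
  have hcl : ∀ n : ℕ, IsClosed {y : ℕ → Bool | bcode ((List.range n).map y) ∈ X} := by
    intro n
    have h : {y : ℕ → Bool | bcode ((List.range n).map y) ∈ X} = ⋂ z : ℕ → Bool,
        ({y : ℕ → Bool | ∀ k ∈ Finset.range n, y k = z k}ᶜ ∪
          {_y : ℕ → Bool | bcode ((List.range n).map z) ∈ X}) := by
      ext y
      simp only [Set.mem_iInter, Set.mem_union, Set.mem_compl_iff]
      constructor
      · intro hy z
        by_cases hz : ∀ k ∈ Finset.range n, y k = z k
        · right
          show bcode ((List.range n).map z) ∈ X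
          rw [← wk_map n y z hz]
          exact hy
        · left
          exact hz
      · intro hy
        rcases hy y with h1 | h1
        · exact absurd (fun k _ => rfl) h1
        · exact h1
    rw [h]
    refine isClosed_iInter (fun z => IsClosed.union ?_ isClosed_const)
    rw [isClosed_compl_iff]
    exact wk_open n z
  have hne := IsCompact.nonempty_iInter_of_sequence_nonempty_isCompact_isClosed
    (fun n : ℕ => {y : ℕ → Bool | bcode ((List.range n).map y) ∈ X}) ?_ ?_ ?_ hcl
  · obtain ⟨y, hy⟩ := hne
    exact ⟨y, fun n => Set.mem_iInter.mp hy n⟩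
  · intro n y hy
    show bcode ((List.range n).map y) ∈ X
    refine ht _ _ ?_ hy
    rw [List.range_succ, List.map_append]
    exact ⟨_, rfl⟩
  · intro n
    obtain ⟨l, hl, hlX⟩ := hi n
    refine ⟨fun k => l.getD k false, ?_⟩
    show bcode ((List.range n).map (fun k => l.getD k false)) ∈ X
    have h3 : (List.range n).map (fun k => l.getD k false) = l := by
      apply List.ext_getElem
      · rw [List.length_map, List.length_range, hl]
      · intro k h1 h2
        rw [List.getElem_map, List.getElem_range]
        exact List.getD_eq_getElem _ _ h2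
    rw [h3]
    exact hlX
  · exact (hcl 0).isCompact

theorem wkl_of_closed (x : Om)
    (h : ∀ i, (∃ y, (x, y) ∈ Qwkl i) → ∃ l, (x, x l) ∈ Qwkl i) : WKL (Fam x) := by
  rintro X ⟨i, rfl⟩ ht hi
  obtain ⟨y, hy⟩ := wk_koenig (st (x i)) ht hi
  obtain ⟨l, hl⟩ := h i ⟨y, hy⟩
  refine ⟨st (x l), ⟨l, rfl⟩, fun n => ?_⟩
  have h3 : initSeg (st (x l)) n = (List.range n).map (x l) := by
    unfold initSeg
    refine List.map_congr_left (fun k _ => ?_)
    rw [Bool.eq_iff_iff]
    exact ⟨fun hh => @of_decide_eq_true (k ∈ st (x l)) (Classical.propDecidable _) hh,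
      fun hh => @decide_eq_true (k ∈ st (x l)) (Classical.propDecidable _) hh⟩
  rw [h3]
  exact hl n

end Pool.Agent.Helper317.PM
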