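import Pool.Agent.Helper317.PMU.T1
import Pool.Agent.Helper317.PMU.T2
import Pool.Agent.Helper317.PMU.R1
import Pool.Agent.Helper317.PMU.R2
import Pool.Agent.Helper317.PMU.W
import Pool.Agent.Helper317.PMU.B2
import Pool.Agent.Helper317.PMU.B3
import Pool.Agent.Helper317.PMU.G1
import Pool.Agent.Helper317.PMU.G2
import Pool.Agent.Helper317.PMU.D1
import Pool.Agent.Helper317.PMU.Q1

/-!
The omega-model of `WKL₀` in which `PMU` fails.
-/

namespace Pool.Agent.Helper317.PM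

open Pool.Agent.Helper317.SOA Function

/-- the type of the tasks -/
abbrev Tsk : Type := (Fm × Fm × ℕ × ℕ × ℕ × List ℕ × List ℕ) ⊕ ℕ ⊕ (ℕ × ℕ) ⊕ ℕ

/-- the closed relations of the tasks -/
def QQ : Tsk → Set (Om × (ℕ → Bool))
  | .inl (φ, ψ, i, j, k, v, V) => {p | (IsDelta0 φ ∧ IsDelta0 ψ) ∧ p ∈ Qsep φ ψ i j k v V}
  | .inr (.inl i) => Qwkl i
  | .inr (.inr (.inl (i, l))) => Qemb i l
  | .inr (.inr (.inr i)) => Qw i

theorem qq_closed (t : Tsk) : IsClosed (QQ t) := by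
  match t with
  | .inl (φ, ψ, i, j, k, v, V) =>
    by_cases h : IsDelta0 φ ∧ IsDelta0 ψ
    · have : QQ (.inl (φ, ψ, i, j, k, v, V)) = Qsep φ ψ i j k v V := by
        ext p
        exact ⟨fun hp => hp.2, fun hp => ⟨h, hp⟩⟩
      rw [this]
      exact qsep_closed h.1 h.2 i j k v V
    · have : QQ (.inl (φ, ψ, i, j, k, v, V)) = ∅ := by
        ext p
        exact ⟨fun hp => absurd hp.1 h, fun hp => absurd hp (Set.notMem_empty p)⟩
      rw [this]
      exact isClosed_empty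
  | .inr (.inl i) => exact qwkl_closed i
  | .inr (.inr (.inl (i, l))) => exact qemb_closed i l
  | .inr (.inr (.inr i)) => exact qw_closed i

theorem qwkl_supp (i : ℕ) :
    ∃ N, ∀ (x x' : Om) (y : ℕ → Bool), (∀ i < N, x i = x' i) →
      ((x, y) ∈ Qwkl i ↔ (x', y) ∈ Qwkl i) := by
  refine ⟨i + 1, fun x x' y h => ?_⟩
  show (∀ n, x i (bcode ((List.range n).map y)) = true) ↔
    (∀ n, x' i (bcode ((List.range n).map y)) = true)
  rw [h i (Nat.lt_succ_self i)]

theorem qq_supp (t : Tsk) : ∃ N, ∀ (x x' : Om) (y : ℕ → Bool), (∀ i < N, x i = x' i) →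
    ((x, y) ∈ QQ t ↔ (x', y) ∈ QQ t) := by
  match t with
  | .inl (φ, ψ, i, j, k, v, V) =>
    obtain ⟨N, hN⟩ := qsep_supp φ ψ i j k v V
    exact ⟨N, fun x x' y h => and_congr_right fun _ => hN x x' y h⟩
  | .inr (.inl i) => exact qwkl_supp i
  | .inr (.inr (.inl (i, l))) => exact qemb_supp i l
  | .inr (.inr (.inr i)) => exact qw_supp i

/-- the closed set of a condition -/
def KK (m : List (Tsk × ℕ) × List (ℕ × ℕ × Bool)) : Set Om :=
  {x | (∀ p ∈ m.1, (x, x p.2) ∈ QQ p.1) ∧ ∀ b ∈ m.2, x b.1 b.2.1 = b.2.2}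

theorem kk_closed (m : List (Tsk × ℕ) × List (ℕ × ℕ × Bool)) : IsClosed (KK m) := by
  have h1 : IsClosed {x : Om | ∀ p ∈ m.1, (x, x p.2) ∈ QQ p.1} := by
    have : {x : Om | ∀ p ∈ m.1, (x, x p.2) ∈ QQ p.1} =
        ⋂ p : Tsk × ℕ, ⋂ _ : p ∈ m.1, (fun x : Om => (x, x p.2)) ⁻¹' QQ p.1 := by
      ext x
      simp
    rw [this]
    exact isClosed_iInter fun p => isClosed_iInter fun _ =>
      (qq_closed p.1).preimage (continuous_id.prodMk (continuous_apply p.2))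
  have h2 : IsClosed {x : Om | ∀ b ∈ m.2, x b.1 b.2.1 = b.2.2} := by
    have : {x : Om | ∀ b ∈ m.2, x b.1 b.2.1 = b.2.2} =
        ⋂ b : ℕ × ℕ × Bool, ⋂ _ : b ∈ m.2, {x : Om | x b.1 b.2.1 = b.2.2} := by
      ext x
      simp
    rw [this]
    exact isClosed_iInter fun b => isClosed_iInter fun _ =>
      isClosed_eq ((continuous_apply b.2.1).comp (continuous_apply b.1)) continuous_const
  exact h1.inter h2

theorem part1 : ∃ S : Set (Set ℕ), RCA0 (omega S) ∧ WKL S ∧ ¬ PMU S := by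
  obtain ⟨cut, hcut⟩ := exists_isCut
  have : Countable Fm := fm_countable
  have hcnt : Countable ((List (Tsk × ℕ) × List (ℕ × ℕ × Bool)) × ℕ) := inferInstance
  obtain ⟨en, hen⟩ := exists_surjective_nat ((List (Tsk × ℕ) × List (ℕ × ℕ × Bool)) × ℕ)
  obtain ⟨T, hT, hTm⟩ := theta_lemma (RR cut) (rr_closed cut) (fun m => KK (en m).1)
    (fun m => kk_closed _) (fun m => (en m).2)
  classical
  let w : ℕ → Bool := fun n => decide (∃ s, T n s = true)
  have hw : ∀ n, w n = true ↔ ∃ s, T n s = true := fun n => by simp [w]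
  obtain ⟨x, hxZ, hxt, hxw⟩ := henkin_closed QQ qq_closed qq_supp {x : Om | (T, x) ∈ RR cut}
    ((rr_closed cut).preimage (continuous_const.prodMk continuous_id))
    (fun x x' h => rr_supp cut T x x' h) (rr_exists cut T) w (by
      intro L B i hx
      obtain ⟨m, hm⟩ := hen ((L, B), i)
      have h1 := hTm m w hw
      rw [hm] at h1
      obtain ⟨x, hx1, hx2, hx3⟩ := hx
      obtain ⟨x', h2, h3, h4⟩ := h1 ⟨x, ⟨hx2, hx3⟩, hx1⟩
      exact ⟨x', h3, h2.1, h2.2, h4⟩)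
  have hxZ : (T, x) ∈ RR cut := hxZ
  have hA : diag (strA T) = st (x 0) := by
    ext k
    exact (hxZ.1 k).symm
  have hB : diag (strB cut T) = st (x 1) := by
    ext k
    exact (hxZ.2.1 k).symm
  have gA : Good T (strA T) := good_strA T
  have gB : Good T (strB cut T) := good_strB T hcut
  refine ⟨Fam x, rca_of_closed x ?_, wkl_of_closed x fun i => hxt (.inr (.inl i)), ?_⟩
  · intro φ ψ hφ hψ i j k v V hy
    obtain ⟨y, hy⟩ := hy
    obtain ⟨l, hl⟩ := hxt (.inl (φ, ψ, i, j, k, v, V)) ⟨y, ⟨⟨hφ, hψ⟩, hy⟩⟩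
    exact ⟨l, hl.2⟩
  · intro hP
    have hprime : ∀ (A : Str), Good T A → A.dom = Set.univ → (∀ a, ∃ n, a ∈ sort A n) →
        ∀ i, diag A = st (x i) → Prime (Fam x) A := by
      intro A gA' hdom hsort i hi C hC hTh
      obtain ⟨l, hl⟩ := hC
      have gC : Good T C := good_transfer gA' hTh
      obtain ⟨j, hj⟩ := hxt (.inr (.inr (.inl (i, l)))) (qemb_solve hT gA' gC hdom hsort hi hl)
      obtain ⟨f, hf, he⟩ := qemb_emb hT gA' gC hdom hsort hi hl hj
      exact ⟨f, ⟨j, hf⟩, he⟩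
    have h := hP (strA T) (strB cut T) ⟨0, hA⟩ ⟨1, hB⟩ (th_eq hT gA gB)
      (hprime _ gA rfl (sorted_strO T _) 0 hA) (hprime _ gB rfl (sorted_strO T _) 1 hB)
    exact no_iso hT hcut hxZ hw hxw (fun i => hxt (.inr (.inr (.inr i)))) h

end Pool.Agent.Helper317.PM
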