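import Pool.Agent.Helper317.PMU.Core2

/-!
Generic objects.
-/

namespace Pool.Agent.Helper317.PM

open Pool.Agent.Helper317.SOA Function

structure GCond where
  s : ℕ
  T0 : Rv
  G0 : Gn
  F : Finset ℕ
  h : Fnl2 T0

def GCond.Mem (q : GCond) (T : Rv) (G : Gn) : Prop :=
  Fnl2 T ∧ (∀ a < q.s, ∀ b < q.s, T a b = q.T0 a b) ∧ (∀ a ∈ q.F, ∀ b, T a b = q.T0 a b) ∧
    ∀ i < q.s, ∀ n < q.s, G i n = q.G0 i n

theorem gstepA (U : Set (Rv × Gn)) (hU : WOpen U) (q : GCond) :
    ∃ q' : GCond, q.s < q'.s ∧ (∀ T G, q'.Mem T G → q.Mem T G) ∧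
      ((∀ T G, q'.Mem T G → (T, G) ∈ U) ∨ (∀ T G, q'.Mem T G → (T, G) ∉ U)) := by
  by_cases h : ∃ T1 G1, q.Mem T1 G1 ∧ (T1, G1) ∈ U
  · obtain ⟨T1, G1, ⟨hf, hw, hF, hG⟩, hin⟩ := h
    obtain ⟨s1, hs1⟩ := hU T1 G1 hin
    refine ⟨⟨max q.s s1 + 1, T1, G1, q.F, hf⟩, ?_, ?_, Or.inl ?_⟩
    · show q.s < max q.s s1 + 1
      omega
    · rintro T G ⟨h1, h2, h3, h4⟩
      refine ⟨h1, fun a ha b hb => ?_, fun a ha b => ?_, fun i hi n hn => ?_⟩
      · rw [h2 a (by show a < max q.s s1 + 1; omega) b (by show b < max q.s s1 + 1; omega)]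
        exact hw a ha b hb
      · rw [h3 a ha b]
        exact hF a ha b
      · rw [h4 i (by show i < max q.s s1 + 1; omega) n (by show n < max q.s s1 + 1; omega)]
        exact hG i hi n hn
    · rintro T G ⟨h1, h2, h3, h4⟩
      refine hs1 T G (fun a ha b hb => ?_) (fun i hi n hn => ?_)
      · exact h2 a (by show a < max q.s s1 + 1; omega) b (by show b < max q.s s1 + 1; omega)
      · exact h4 i (by show i < max q.s s1 + 1; omega) n (by show n < max q.s s1 + 1; omega)
  · push Not at h
    refine ⟨⟨q.s + 1, q.T0, q.G0, q.F, q.h⟩, Nat.lt_succ_self _, ?_, ?_⟩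
    · rintro T G ⟨h1, h2, h3, h4⟩
      exact ⟨h1, fun a ha b hb => h2 a (by show a < q.s + 1; omega) b (by show b < q.s + 1; omega),
        h3, fun i hi n hn => h4 i (by show i < q.s + 1; omega) n (by show n < q.s + 1; omega)⟩
    · right
      rintro T G ⟨h1, h2, h3, h4⟩
      exact h T G ⟨h1, fun a ha b hb => h2 a (by show a < q.s + 1; omega) b
          (by show b < q.s + 1; omega),
        h3, fun i hi n hn => h4 i (by show i < q.s + 1; omega) n (by show n < q.s + 1; omega)⟩

theorem Name.sg_open (x : Name) (c : Bool) (n : ℕ) : WOpen (x.sg c n) := by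
  cases c
  · exact x.neg_open n
  · exact x.pos_open n

theorem gstepB (x : Name) (q : GCond) :
    ∃ q' : GCond, q.s < q'.s ∧ (∀ T G, q'.Mem T G → q.Mem T G) ∧
      (∀ T G, q'.Mem T G → ∀ X, x.Val T G X → ¬ Separates T X) := by
  obtain ⟨n, hns, hnF⟩ : ∃ n, q.s ≤ n ∧ n ∉ q.F := by
    refine ⟨max q.s (q.F.sup id + 1), le_max_left _ _, fun hn => ?_⟩
    have := Finset.le_sup (f := id) hn
    simp only [id] at this
    omega
  by_cases h : ∃ T1 G1 c, q.Mem T1 G1 ∧ (∀ b, T1 n b = none) ∧ (T1, G1) ∈ x.sg c n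
  · obtain ⟨T1, G1, c, ⟨hf, hw, hF, hG⟩, hrow, hin⟩ := h
    obtain ⟨s0, hs0⟩ := x.sg_open c n T1 G1 hin
    classical
    obtain ⟨s1, h01, hs1, hn1⟩ : ∃ s1, s0 ≤ s1 ∧ q.s < s1 ∧ n < s1 :=
      ⟨max s0 (max q.s n + 1), by omega, by omega, by omega⟩
    set T2 : Rv := fun a b => if a = n ∧ b = s1 then some (!c) else
      if (a < s1 ∧ b < s1) ∨ a ∈ q.F then T1 a b else none with hT2
    have hT2n : T2 n s1 = some (!c) := by simp [hT2]
    have hT2w : ∀ a < s1, ∀ b < s1, T2 a b = T1 a b := by
      intro a ha b hb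
      simp only [hT2]
      rw [if_neg (by omega), if_pos (Or.inl ⟨ha, hb⟩)]
    have hT2F : ∀ a ∈ q.F, ∀ b, T2 a b = T1 a b := by
      intro a ha b
      have : a ≠ n := fun h => hnF (h ▸ ha)
      simp only [hT2]
      rw [if_neg (by tauto), if_pos (Or.inr ha)]
    have hf2 : Fnl2 T2 := by
      intro a b b' hb hb'
      by_cases han : a = n
      · subst han
        have key : ∀ b, T2 a b ≠ none → b = s1 := by
          intro b hb
          by_contra hne
          apply hb
          simp only [hT2]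
          rw [if_neg (by tauto)]
          split_ifs
          · exact hrow b
          · rfl
        rw [key b hb, key b' hb']
      · have key : ∀ b, T2 a b ≠ none → T1 a b ≠ none := by
          intro b hb h1
          apply hb
          simp only [hT2]
          rw [if_neg (by tauto)]
          split_ifs
          · exact h1
          · rfl
        exact hf a b b' (key b hb) (key b' hb')
    refine ⟨⟨s1 + 1, T2, G1, q.F, hf2⟩, ?_, ?_, ?_⟩
    · show q.s < s1 + 1
      omega
    · rintro T G ⟨h1, h2, h3, h4⟩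
      refine ⟨h1, fun a ha b hb => ?_, fun a ha b => ?_, fun i hi k hk => ?_⟩
      · rw [h2 a (by show a < s1 + 1; omega) b (by show b < s1 + 1; omega)]
        show T2 a b = _
        rw [hT2w a (by omega) b (by omega)]
        exact hw a ha b hb
      · rw [h3 a ha b]
        show T2 a b = _
        rw [hT2F a ha b]
        exact hF a ha b
      · rw [h4 i (by show i < s1 + 1; omega) k (by show k < s1 + 1; omega)]
        exact hG i hi k hk
    · rintro T G ⟨h1, h2, h3, h4⟩ X hX hsep
      have hmem : (T, G) ∈ x.sg c n := by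
        refine hs0 T G (fun a ha b hb => ?_) (fun i hi k hk => ?_)
        · rw [h2 a (by show a < s1 + 1; omega) b (by show b < s1 + 1; omega)]
          exact hT2w a (by omega) b (by omega)
        · exact h4 i (by show i < s1 + 1; omega) k (by show k < s1 + 1; omega)
      have hT : T n s1 = some (!c) := by
        rw [h2 n (by show n < s1 + 1; omega) s1 (by show s1 < s1 + 1; omega)]
        exact hT2n
      have hs := hsep n s1 _ hT
      obtain ⟨hp, hm⟩ := hX n
      cases c with
      | true =>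
        have : n ∈ X := hp.1 hmem
        have := hs.1 this
        simp at this
      | false =>
        have h' : n ∉ X := hm.1 hmem
        exact h' (hs.2 (by simp))
  · push Not at h
    classical
    set T2 : Rv := fun a b => if a = n then none else q.T0 a b with hT2
    have hf2 : Fnl2 T2 := by
      intro a b b' hb hb'
      by_cases han : a = n
      · exact absurd (by simp [hT2, han]) hb
      · refine q.h a b b' ?_ ?_
        · simpa [hT2, han] using hb
        · simpa [hT2, han] using hb'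
    have hback : ∀ T G, (GCond.mk (q.s + 1) T2 q.G0 (insert n q.F) hf2).Mem T G → q.Mem T G := by
      rintro T G ⟨h1, h2, h3, h4⟩
      refine ⟨h1, fun a ha b hb => ?_, fun a ha b => ?_, fun i hi k hk => ?_⟩
      · rw [h2 a (by show a < q.s + 1; omega) b (by show b < q.s + 1; omega)]
        show T2 a b = _
        simp only [hT2]
        rw [if_neg (by omega)]
      · rw [h3 a (Finset.mem_insert_of_mem ha) b]
        show T2 a b = _
        simp only [hT2]
        have hne : a ≠ n := by
          rintro rfl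
          exact hnF ha
        rw [if_neg hne]
      · exact h4 i (by show i < q.s + 1; omega) k (by show k < q.s + 1; omega)
    refine ⟨⟨q.s + 1, T2, q.G0, insert n q.F, hf2⟩, Nat.lt_succ_self _, hback, ?_⟩
    intro T G hTG X hX _
    have hrow : ∀ b, T n b = none := by
      intro b
      obtain ⟨h1, h2, h3, h4⟩ := hTG
      rw [h3 n (Finset.mem_insert_self _ _) b]
      show T2 n b = none
      simp [hT2]
    obtain ⟨hp, hm⟩ := hX n
    by_cases hnX : n ∈ X
    · exact h T G true (hback T G hTG) hrow (hp.2 hnX)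
    · exact h T G false (hback T G hTG) hrow (hm.2 hnX)

theorem generic_exists (xs : ℕ → Name) (U : ℕ → Set (Rv × Gn)) (hU : ∀ i, WOpen (U i)) :
    ∃ (T : Rv) (G : Gn), Fnl2 T ∧ (∀ i X, (xs i).Val T G X → ¬ Separates T X) ∧
      ∀ i, (T, G) ∈ U i ∨ ∃ s, ∀ G', AgG s G G' → (T, G') ∉ U i := by
  classical
  let Req : ℕ → GCond → Prop := fun k q =>
    ((∀ T G, q.Mem T G → (T, G) ∈ U k) ∨ (∀ T G, q.Mem T G → (T, G) ∉ U k)) ∧
      (∀ T G, q.Mem T G → ∀ X, (xs k).Val T G X → ¬ Separates T X)
  have hstep : ∀ (k : ℕ) (q : GCond), ∃ q' : GCond, q.s < q'.s ∧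
      (∀ T G, q'.Mem T G → q.Mem T G) ∧ Req k q' := by
    intro k q
    obtain ⟨q1, h1, h2, h3⟩ := gstepA (U k) (hU k) q
    obtain ⟨q2, h4, h5, h6⟩ := gstepB (xs k) q1
    refine ⟨q2, h1.trans h4, fun T G h => h2 T G (h5 T G h), ?_, h6⟩
    rcases h3 with h3 | h3
    · exact Or.inl fun T G h => h3 T G (h5 T G h)
    · exact Or.inr fun T G h => h3 T G (h5 T G h)
  choose nx hx1 hx2 hx3 using hstep
  let Q : ℕ → GCond := fun k => Nat.rec ⟨0, fun _ _ => none, fun _ _ => 0, ∅,
    fun _ _ _ h => absurd rfl h⟩ (fun k q => nx k q) k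
  have hQ : ∀ k, Q (k + 1) = nx k (Q k) := fun k => rfl
  have hs : ∀ k, k ≤ (Q k).s := by
    intro k
    induction k with
    | zero => exact Nat.zero_le _
    | succ k ih =>
      have := hx1 k (Q k)
      rw [hQ]
      omega
  have hself : ∀ q : GCond, q.Mem q.T0 q.G0 := fun q =>
    ⟨q.h, fun _ _ _ _ => rfl, fun _ _ _ => rfl, fun _ _ _ _ => rfl⟩
  have hnest : ∀ k l, k ≤ l → ∀ T G, (Q l).Mem T G → (Q k).Mem T G := by
    intro k l hkl
    induction l, hkl using Nat.le_induction with
    | base => exact fun T G h => h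
    | succ l _ ih =>
      intro T G h
      rw [hQ] at h
      exact ih T G (hx2 l (Q l) T G h)
  let T : Rv := fun a b => (Q (max a b + 1)).T0 a b
  let G : Gn := fun a b => (Q (max a b + 1)).G0 a b
  have hTval : ∀ a b K, max a b + 1 ≤ K → T a b = (Q K).T0 a b := by
    intro a b K hK
    have hm := hnest _ _ hK _ _ (hself (Q K))
    have h1 := hs (max a b + 1)
    exact (hm.2.1 a (by omega) b (by omega)).symm
  have hGval : ∀ a b K, max a b + 1 ≤ K → G a b = (Q K).G0 a b := by
    intro a b K hK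
    have hm := hnest _ _ hK _ _ (hself (Q K))
    have h1 := hs (max a b + 1)
    exact (hm.2.2.2 a (by omega) b (by omega)).symm
  have hfT : Fnl2 T := by
    intro n b b' hb hb'
    have e1 := hTval n b (max (max n b) b' + 1) (by omega)
    have e2 := hTval n b' (max (max n b) b' + 1) (by omega)
    rw [e1] at hb
    rw [e2] at hb'
    exact (Q (max (max n b) b' + 1)).h n b b' hb hb'
  have hmem : ∀ k, (Q k).Mem T G := by
    intro k
    refine ⟨hfT, fun a ha b hb => ?_, fun a ha b => ?_, fun a ha b hb => ?_⟩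
    · rw [hTval a b (max k (max a b + 1)) (by omega)]
      exact (hnest k _ (le_max_left _ _) _ _ (hself _)).2.1 a ha b hb
    · rw [hTval a b (max k (max a b + 1)) (by omega)]
      exact (hnest k _ (le_max_left _ _) _ _ (hself _)).2.2.1 a ha b
    · rw [hGval a b (max k (max a b + 1)) (by omega)]
      exact (hnest k _ (le_max_left _ _) _ _ (hself _)).2.2.2 a ha b hb
  refine ⟨T, G, hfT, fun i X hX => ?_, fun i => ?_⟩
  · have := (hx3 i (Q i)).2
    rw [← hQ] at this
    exact this T G (hmem (i + 1)) X hX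
  · have := (hx3 i (Q i)).1
    rw [← hQ] at this
    rcases this with h | h
    · exact Or.inl (h T G (hmem (i + 1)))
    · refine Or.inr ⟨(Q (i + 1)).s, fun G' hG' => h T G' ?_⟩
      obtain ⟨h1, h2, h3, h4⟩ := hmem (i + 1)
      exact ⟨h1, h2, h3, fun a ha b hb => (hG' a ha b hb).trans (h4 a ha b hb)⟩

end Pool.Agent.Helper317.PM
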