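import Pool.Agent.Helper317.PMU.Core2

/-!
Generic tuples.
-/

namespace Pool.Agent.Helper317.PM

open Pool.Agent.Helper317.SOA Function




theorem tup_congr {Z : ℕ → Bool} {h h' : ℕ → ℕ} {s : ℕ} (H : ∀ n < s, h' n = h n) :
    tup Z h' s = tup Z h s := by
  induction s with
  | zero => rfl
  | succ s ih =>
    have h1 : tup Z h' s = tup Z h s := ih (fun n hn => H n (by omega))
    have h2 : h' s = h s := H s (by omega)
    rw [tup, tup, h2, h1]

theorem hd_diag (A : Str) (φ : Form) (l : List ℕ) :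
    hd (chr (diag A)) φ l ↔ φ.Scoped l.length ∧ (∀ a ∈ l, a ∈ A.dom) ∧ Holds A l φ := by
  rw [← mem_diag]
  simp [hd, chr]

theorem sub_length_480 (t c : List ℕ) : (sub t c).length = c.length := by simp [sub]

theorem sub_append_480 (t r c : List ℕ) (hc : ∀ i ∈ c, i < t.length) :
    sub (t ++ r) c = sub t c := by
  unfold sub
  apply List.map_congr_left
  intro i hi
  rw [List.getD_append _ _ _ _ (hc i hi)]

theorem sub_mem_480 {A : Str} (t c : List ℕ) (hc : ∀ i ∈ c, i < t.length)
    (ht : ∀ a ∈ t, a ∈ A.dom) : ∀ a ∈ sub t c, a ∈ A.dom := by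
  intro a ha
  unfold sub at ha
  rw [List.mem_map] at ha
  obtain ⟨i, hi, rfl⟩ := ha
  have h1 := hc i hi
  rw [List.getD_eq_getElem _ _ h1]
  exact ht _ (List.getElem_mem h1)

theorem hd_sub_480 {A : Str} (φ : Form) (t c : List ℕ) (hφ : φ.Scoped c.length)
    (hc : ∀ i ∈ c, i < t.length) (ht : ∀ a ∈ t, a ∈ A.dom) :
    hd (chr (diag A)) φ (sub t c) ↔ Holds A (sub t c) φ := by
  rw [hd_diag, sub_length_480]
  exact ⟨fun h => h.2.2, fun h => ⟨hφ, sub_mem_480 t c hc ht, h⟩⟩

theorem exists_next_480 {A : Str} (hA : A.dom.Infinite) (s : ℕ) (t : List ℕ)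
    (hl : t.length = s) (hn : t.Nodup) (hd' : ∀ a ∈ t, a ∈ A.dom) :
    ∃ y, OKs (chr (diag A)) s t (t ++ [y]) := by
  classical
  have key : ∀ y, y ∈ A.dom → y ∉ t →
      ((∀ c ∈ (tsk s).2, c < s) → (tsk s).1.Scoped ((tsk s).2.length + 1) →
        ¬ hd (chr (diag A)) (.all (tsk s).1) (sub (t ++ [y]) (tsk s).2) →
        ∃ j ≤ s, ¬ hd (chr (diag A)) (tsk s).1 (sub (t ++ [y]) (j :: (tsk s).2))) →
      OKs (chr (diag A)) s t (t ++ [y]) := by
    intro y hy hyt hw
    refine ⟨by simp [hl], ?_, ?_, ?_, hw⟩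
    · rw [List.nodup_append]
      refine ⟨hn, by simp, ?_⟩
      intro a ha b hb
      rw [List.mem_singleton] at hb
      subst hb
      intro hab
      exact hyt (hab ▸ ha)
    · intro a ha
      rw [hd_diag]
      have : a ∈ A.dom := by
        rcases List.mem_append.1 ha with h | h
        · exact hd' a h
        · rw [List.mem_singleton] at h
          rw [h]; exact hy
      refine ⟨?_, ?_, ?_⟩
      · simp [Form.Scoped]
      · intro b hb
        rw [List.mem_singleton] at hb
        rw [hb]; exact this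
      · simp [Holds]
    · intro q hq
      rw [sub_append_480 t [y] q.2 (fun i hi => by rw [hl]; exact hq.2.2.1 i hi)]
  obtain ⟨y0, hy0, hy0t⟩ := hA.exists_notMem_finset t.toFinset
  rw [List.mem_toFinset] at hy0t
  by_cases hc : ∀ c ∈ (tsk s).2, c < s
  · by_cases hS : (tsk s).1.Scoped ((tsk s).2.length + 1)
    · have hc' : ∀ i ∈ (tsk s).2, i < t.length := fun i hi => by rw [hl]; exact hc i hi
      have hap : ∀ y, sub (t ++ [y]) (tsk s).2 = sub t (tsk s).2 :=
        fun y => sub_append_480 t [y] _ hc'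
      by_cases hH : Holds A (sub t (tsk s).2) (.all (tsk s).1)
      · refine ⟨y0, key y0 hy0 hy0t ?_⟩
        intro _ _ h3
        exfalso
        apply h3
        rw [hap, hd_sub_480 _ _ _ (by simpa [Form.Scoped] using hS) hc' hd']
        exact hH
      · have hH' : ∃ w ∈ A.dom, ¬ Holds A (w :: sub t (tsk s).2) (tsk s).1 := by
          by_contra hcon
          push Not at hcon
          exact hH hcon
        obtain ⟨w, hw, hwH⟩ := hH'
        by_cases hwt : w ∈ t
        · obtain ⟨j, hj, hjw⟩ := List.mem_iff_getElem.1 hwt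
          refine ⟨y0, key y0 hy0 hy0t ?_⟩
          intro _ _ _
          refine ⟨j, by omega, ?_⟩
          have h4 : sub (t ++ [y0]) (j :: (tsk s).2) = w :: sub t (tsk s).2 := by
            rw [show sub (t ++ [y0]) (j :: (tsk s).2) =
              (t ++ [y0]).getD j 0 :: sub (t ++ [y0]) (tsk s).2 from rfl, hap,
              List.getD_append _ _ _ _ hj, List.getD_eq_getElem _ _ hj, hjw]
          rw [h4, hd_diag]
          exact fun h => hwH h.2.2
        · refine ⟨w, key w hw hwt ?_⟩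
          intro _ _ _
          refine ⟨s, le_refl _, ?_⟩
          have h4 : sub (t ++ [w]) (s :: (tsk s).2) = w :: sub t (tsk s).2 := by
            rw [show sub (t ++ [w]) (s :: (tsk s).2) =
              (t ++ [w]).getD s 0 :: sub (t ++ [w]) (tsk s).2 from rfl, hap,
              List.getD_append_right _ _ _ _ (by omega)]
            simp [hl]
          rw [h4, hd_diag]
          exact fun h => hwH h.2.2
    · exact ⟨y0, key y0 hy0 hy0t (fun _ h => absurd h hS)⟩
  · exact ⟨y0, key y0 hy0 hy0t (fun h => absurd h hc)⟩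

theorem tup_both_480 {A : Str} (hA : A.dom.Infinite) (h : ℕ → ℕ) (s : ℕ)
    (hL : (tup (chr (diag A)) h s).length = s ∧ (tup (chr (diag A)) h s).Nodup ∧
      ∀ a ∈ tup (chr (diag A)) h s, a ∈ A.dom) :
    OKs (chr (diag A)) s (tup (chr (diag A)) h s) (tup (chr (diag A)) h (s + 1)) := by
  have hex := exists_next_480 hA s _ hL.1 hL.2.1 hL.2.2
  rw [tup]
  split_ifs with h1
  · exact h1
  · classical exact Nat.find_spec hex

theorem tup_len_480 {A : Str} (hA : A.dom.Infinite) (h : ℕ → ℕ) (s : ℕ) :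
    (tup (chr (diag A)) h s).length = s ∧ (tup (chr (diag A)) h s).Nodup ∧
      ∀ a ∈ tup (chr (diag A)) h s, a ∈ A.dom := by
  induction s with
  | zero => simp [tup]
  | succ s ih =>
    have h1 := tup_both_480 hA h s ih
    refine ⟨h1.len, h1.nd, ?_⟩
    intro a ha
    have h2 := h1.dom a ha
    rw [hd_diag] at h2
    exact h2.2.1 a (by simp)

theorem tup_ok {A : Str} (hA : A.dom.Infinite) (h : ℕ → ℕ) (s : ℕ) :
    OKs (chr (diag A)) s (tup (chr (diag A)) h s) (tup (chr (diag A)) h (s + 1)) :=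
  tup_both_480 hA h s (tup_len_480 hA h s)

theorem tup_length {A : Str} (hA : A.dom.Infinite) (h : ℕ → ℕ) (s : ℕ) :
    (tup (chr (diag A)) h s).length = s ∧ (tup (chr (diag A)) h s).Nodup ∧
      ∀ a ∈ tup (chr (diag A)) h s, a ∈ A.dom := 
  tup_len_480 hA h s

theorem tup_stable {A : Str} (hA : A.dom.Infinite) (h : ℕ → ℕ) {s s' : ℕ} (hs : s ≤ s')
    {φ : Form} {c : List ℕ} (hq : (φ, c) ∈ Dec s) :
    Holds A (sub (tup (chr (diag A)) h s') c) φ ↔ Holds A (sub (tup (chr (diag A)) h s) c) φ := by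
  obtain ⟨hq1, hq2, hq3, hq4⟩ := hq
  simp only at hq1 hq2 hq3 hq4
  induction s', hs using Nat.le_induction with
  | base => exact Iff.rfl
  | succ s' hs' ih =>
    rw [← ih]
    have h1 := tup_ok hA h s'
    have h2 := tup_length hA h s'
    have h3 := tup_length hA h (s' + 1)
    have h4 := h1.dec (φ, c) ⟨by simp only; omega, by simp only; omega,
      fun i hi => lt_of_lt_of_le (hq3 i hi) hs', hq4⟩
    simp only at h4
    rwa [hd_sub_480 φ _ c hq4 (fun i hi => by have := hq3 i hi; rw [h3.1]; omega) h3.2.2,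
      hd_sub_480 φ _ c hq4 (fun i hi => by have := hq3 i hi; rw [h2.1]; omega) h2.2.2] at h4

theorem tup_default_480 {Z : ℕ → Bool} {h : ℕ → ℕ} {s : ℕ}
    (h1 : ¬ OKs Z s (tup Z h s) (dl (h s))) (h2 : ∃ y, OKs Z s (tup Z h s) (tup Z h s ++ [y])) :
    ∃ z, tup Z h (s + 1) = tup Z h s ++ [z] := by
  rw [tup, if_neg h1, dif_pos h2]
  exact ⟨_, rfl⟩

theorem dl_lcode_480 (l : List ℕ) : dl (lcode l) = l := by
  have : Injective lcode := fun a b hab => lcode_inj a b hab
  exact leftInverse_invFun this l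

theorem tup_extend {A : Str} (hA : A.dom.Infinite) (h : ℕ → ℕ) (s : ℕ) (t : List ℕ)
    (hl : t.length = s) (hn : t.Nodup) (hd' : ∀ a ∈ t, a ∈ A.dom)
    (ht : ∀ q ∈ Dec s, (Holds A (sub t q.2) q.1 ↔
      Holds A (sub (tup (chr (diag A)) h s) q.2) q.1)) :
    ∃ h' : ℕ → ℕ, (∀ n < s, h' n = h n) ∧
      ∀ s' > s, ∃ r, tup (chr (diag A)) h' s' = t ++ r := by
  obtain ⟨y, hy⟩ := exists_next_480 hA s t hl hn hd'
  have hL := tup_length hA h s
  have hy' : OKs (chr (diag A)) s (tup (chr (diag A)) h s) (t ++ [y]) := by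
    refine ⟨hy.len, hy.nd, hy.dom, ?_, hy.wit⟩
    intro q hq
    rw [hy.dec q hq, hd_sub_480 q.1 t q.2 hq.2.2.2 (fun i hi => by rw [hl]; exact hq.2.2.1 i hi) hd',
      hd_sub_480 q.1 _ q.2 hq.2.2.2 (fun i hi => by rw [hL.1]; exact hq.2.2.1 i hi) hL.2.2]
    exact ht q hq
  refine ⟨fun n => if n < s then h n else if n = s then lcode (t ++ [y]) else 0, ?_, ?_⟩
  · intro n hn'
    simp [hn']
  set h' : ℕ → ℕ := fun n => if n < s then h n else if n = s then lcode (t ++ [y]) else 0 with hh'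
  have e1 : tup (chr (diag A)) h' s = tup (chr (diag A)) h s :=
    tup_congr (fun n hn' => by simp [hh', hn'])
  have e2 : dl (h' s) = t ++ [y] := by
    have : h' s = lcode (t ++ [y]) := by simp [hh']
    rw [this, dl_lcode_480]
  have e3 : ∀ n > s, dl (h' n) = [] := by
    intro n hn'
    have h1 : h' n = lcode [] := by
      have a1 : ¬ n < s := by omega
      have a2 : ¬ n = s := by omega
      simp [hh', a1, a2, lcode]
    rw [h1, dl_lcode_480]
  intro s' hs'
  induction s', hs' using Nat.le_induction with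
  | base =>
    refine ⟨[y], ?_⟩
    rw [Nat.succ_eq_add_one, tup, e1, e2, if_pos hy']
  | succ n hn' ih =>
    obtain ⟨r, hr⟩ := ih
    have hLn := tup_length hA h' n
    have hex := exists_next_480 hA n _ hLn.1 hLn.2.1 hLn.2.2
    have hnot : ¬ OKs (chr (diag A)) n (tup (chr (diag A)) h' n) (dl (h' n)) := by
      intro hcon
      have h1 := hcon.len
      rw [e3 n (by omega)] at h1
      simp at h1
    obtain ⟨z, hz⟩ := tup_default_480 hnot hex
    exact ⟨r ++ [z], by rw [hz, hr, List.append_assoc]⟩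

end Pool.Agent.Helper317.PM
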