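import Pool.Agent.Helper317.PMU.Core2
import Pool.Agent.Helper317.PMU.P4

/-!
Local constancy.
-/

namespace Pool.Agent.Helper317.PM

open Pool.Agent.Helper317.SOA Function







/-- finite windows -/
theorem exists_window {F : Set ℕ} (hF : F.Finite) : ∃ w, ∀ n ∈ F, n < w := by
  obtain ⟨b, hb⟩ := hF.bddAbove
  exact ⟨b + 1, fun n hn => Nat.lt_succ_of_le (hb hn)⟩

theorem hd_congr {Z Z' : ℕ → Bool} {φ : Form} {l : List ℕ}
    (h : Z' (Nat.pair φ.code (lcode l)) = Z (Nat.pair φ.code (lcode l))) :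
    hd Z' φ l ↔ hd Z φ l := by
  unfold hd
  rw [h]

theorem dec_finite (s : ℕ) : (Dec s).Finite := by
  have h1 : ({l : List ℕ | l.length ≤ s ∧ ∀ c ∈ l, c < s}).Finite := by
    refine ((List.finite_length_le (Fin s) s).image (List.map Fin.val)).subset ?_
    rintro l ⟨hl, hc⟩
    refine ⟨l.pmap (fun c hc => ⟨c, hc⟩) hc, ?_, ?_⟩
    · simpa using hl
    · simp [List.map_pmap]
  refine Set.Finite.of_finite_image (f := fun q : Form × List ℕ => (q.1.code, q.2))
    (((Set.finite_lt_nat s).prod h1).subset ?_) ?_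
  · rintro _ ⟨q, ⟨h1, h2, h3, _⟩, rfl⟩
    exact ⟨h1, h2, h3⟩
  · rintro q _ q' _ h
    simp only [Prod.mk.injEq] at h
    exact Prod.ext (code_inj _ _ h.1) h.2

theorem oks_local (Z : ℕ → Bool) (s : ℕ) (t t' : List ℕ) :
    ∃ w, ∀ Z' : ℕ → Bool, (∀ n < w, Z' n = Z n) → (OKs Z' s t t' ↔ OKs Z s t t') := by
  have f1 : ((fun a => Nat.pair (Form.eq 0 0).code (lcode [a])) '' {a | a ∈ t'}).Finite :=
    (List.finite_toSet t').image _
  have f2 : ((fun q : Form × List ℕ => Nat.pair q.1.code (lcode (sub t' q.2))) '' Dec s).Finite :=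
    (dec_finite s).image _
  have f3 : ((fun q : Form × List ℕ => Nat.pair q.1.code (lcode (sub t q.2))) '' Dec s).Finite :=
    (dec_finite s).image _
  have f5 : ((fun j => Nat.pair (tsk s).1.code (lcode (sub t' (j :: (tsk s).2)))) ''
    {j | j ≤ s}).Finite := (Set.finite_le_nat s).image _
  obtain ⟨w1, h1⟩ := exists_window f1
  obtain ⟨w2, h2⟩ := exists_window f2
  obtain ⟨w3, h3⟩ := exists_window f3
  obtain ⟨w5, h5⟩ := exists_window f5
  refine ⟨w1 + w2 + w3 + w5 + Nat.pair (Form.all (tsk s).1).code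
    (lcode (sub t' (tsk s).2)) + 1, fun Z' hZ => ?_⟩
  have g1 : ∀ a ∈ t', (hd Z' (.eq 0 0) [a] ↔ hd Z (.eq 0 0) [a]) := fun a ha =>
    hd_congr (hZ _ (by have := h1 _ ⟨a, ha, rfl⟩; simp only at this; omega))
  have g2 : ∀ q ∈ Dec s, (hd Z' q.1 (sub t' q.2) ↔ hd Z q.1 (sub t' q.2)) := fun q hq =>
    hd_congr (hZ _ (by have := h2 _ ⟨q, hq, rfl⟩; simp only at this; omega))
  have g3 : ∀ q ∈ Dec s, (hd Z' q.1 (sub t q.2) ↔ hd Z q.1 (sub t q.2)) := fun q hq =>
    hd_congr (hZ _ (by have := h3 _ ⟨q, hq, rfl⟩; simp only at this; omega))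
  have g4 : hd Z' (.all (tsk s).1) (sub t' (tsk s).2) ↔ hd Z (.all (tsk s).1) (sub t' (tsk s).2) :=
    hd_congr (hZ _ (by omega))
  have g5 : ∀ j ≤ s, (hd Z' (tsk s).1 (sub t' (j :: (tsk s).2)) ↔
      hd Z (tsk s).1 (sub t' (j :: (tsk s).2))) := fun j hj =>
    hd_congr (hZ _ (by have := h5 _ ⟨j, hj, rfl⟩; simp only at this; omega))
  constructor
  · rintro ⟨a1, a2, a3, a4, a5⟩
    refine ⟨a1, a2, fun a ha => (g1 a ha).1 (a3 a ha), fun q hq => ?_, fun b1 b2 b3 => ?_⟩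
    · rw [← g2 q hq, ← g3 q hq]; exact a4 q hq
    · obtain ⟨j, hj, h⟩ := a5 b1 b2 (fun h => b3 (g4.1 h))
      exact ⟨j, hj, fun h' => h ((g5 j hj).2 h')⟩
  · rintro ⟨a1, a2, a3, a4, a5⟩
    refine ⟨a1, a2, fun a ha => (g1 a ha).2 (a3 a ha), fun q hq => ?_, fun b1 b2 b3 => ?_⟩
    · rw [g2 q hq, g3 q hq]; exact a4 q hq
    · obtain ⟨j, hj, h⟩ := a5 b1 b2 (fun h => b3 (g4.2 h))
      exact ⟨j, hj, fun h' => h ((g5 j hj).1 h')⟩

/-- uniform windows for an initial segment -/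
theorem exists_uniform {P : ℕ → ℕ → Prop} (hmono : ∀ i w w', w ≤ w' → P i w → P i w')
    (N : ℕ) (h : ∀ i < N, ∃ w, P i w) : ∃ w, ∀ i < N, P i w := by
  induction N with
  | zero => exact ⟨0, fun i hi => absurd hi (Nat.not_lt_zero i)⟩
  | succ N ih =>
    obtain ⟨w1, h1⟩ := ih fun i hi => h i (by omega)
    obtain ⟨w2, h2⟩ := h N (by omega)
    refine ⟨w1 + w2, fun i hi => ?_⟩
    rcases Nat.lt_succ_iff_lt_or_eq.1 hi with hi | rfl
    · exact hmono i w1 _ (by omega) (h1 i hi)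
    · exact hmono i w2 _ (by omega) h2

theorem tup_local {A : Str} (hA : A.dom.Infinite) (h : ℕ → ℕ) (s : ℕ) :
    ∃ w, ∀ (Z' : ℕ → Bool) (h' : ℕ → ℕ), (∀ n < w, Z' n = chr (diag A) n) →
      (∀ n < s, h' n = h n) → tup Z' h' s = tup (chr (diag A)) h s := by
  induction s with
  | zero => exact ⟨0, fun _ _ _ _ => rfl⟩
  | succ s ih =>
    obtain ⟨w, hw⟩ := ih
    set Z := chr (diag A) with hZdef
    set t := tup Z h s with ht
    obtain ⟨w1, hw1⟩ := oks_local Z s t (dl (h s))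
    by_cases hc : OKs Z s t (dl (h s))
    · refine ⟨w + w1, fun Z' h' hZ' hh' => ?_⟩
      have e1 : tup Z' h' s = t := hw Z' h' (fun n hn => hZ' n (by omega))
        (fun n hn => hh' n (by omega))
      have e2 : h' s = h s := hh' s (by omega)
      have e3 : OKs Z' s t (dl (h s)) := (hw1 Z' fun n hn => hZ' n (by omega)).2 hc
      have l : tup Z' h' (s + 1) = dl (h s) := by
        rw [tup, e1, e2, if_pos e3]
      have r : tup Z h (s + 1) = dl (h s) := by
        rw [tup, ← ht, if_pos hc]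
      rw [l, r]
    · have hok := tup_ok hA h s
      rw [← hZdef, ← ht] at hok
      have H : ∃ y, OKs Z s t (t ++ [y]) := by
        by_contra H
        have r : tup Z h (s + 1) = t := by
          rw [tup, ← ht, if_neg hc, dif_neg H]
        rw [r] at hok
        have htl : ∀ n, (tup Z h n).length = n := by
          intro n
          cases n with
          | zero => rfl
          | succ n => exact (tup_ok hA h n).len
        have := hok.len
        have h2 := htl s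
        rw [← ht] at h2
        omega
      classical
      obtain ⟨w2, hw2⟩ := exists_uniform
        (P := fun y w => ∀ Z' : ℕ → Bool, (∀ n < w, Z' n = Z n) →
          (OKs Z' s t (t ++ [y]) ↔ OKs Z s t (t ++ [y])))
        (fun i w w' hle hP Z' hZ' => hP Z' fun n hn => hZ' n (by omega))
        (Nat.find H + 1) (fun y _ => oks_local Z s t (t ++ [y]))
      refine ⟨w + w1 + w2, fun Z' h' hZ' hh' => ?_⟩
      have e1 : tup Z' h' s = t := hw Z' h' (fun n hn => hZ' n (by omega))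
        (fun n hn => hh' n (by omega))
      have e2 : h' s = h s := hh' s (by omega)
      have e3 : ¬ OKs Z' s t (dl (h s)) := fun h' => hc
        ((hw1 Z' fun n hn => hZ' n (by omega)).1 h')
      have e4 : ∀ y < Nat.find H + 1, (OKs Z' s t (t ++ [y]) ↔ OKs Z s t (t ++ [y])) :=
        fun y hy => hw2 y hy Z' fun n hn => hZ' n (by omega)
      have H' : ∃ y, OKs Z' s t (t ++ [y]) :=
        ⟨Nat.find H, (e4 _ (by omega)).2 (Nat.find_spec H)⟩
      have r : tup Z h (s + 1) = t ++ [Nat.find H] := by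
        rw [tup, ← ht, if_neg hc, dif_pos H]
      have l : tup Z' h' (s + 1) = t ++ [Nat.find H'] := by
        rw [tup, e1, e2, if_neg e3, dif_pos H']
      have hf : Nat.find H' = Nat.find H := by
        rw [Nat.find_eq_iff]
        refine ⟨(e4 _ (by omega)).2 (Nat.find_spec H), fun y hy hy' => ?_⟩
        exact Nat.find_min H hy ((e4 y (by omega)).1 hy')
      rw [l, r, hf]

theorem psC_local {A : Str} (hA : A.dom.Infinite) (h : ℕ → ℕ) (k : ℕ) :
    ∃ w, ∀ (Z' : ℕ → Bool) (h' : ℕ → ℕ), (∀ n < w, Z' n = chr (diag A) n) →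
      (∀ n < w, h' n = h n) → (PsC Z' h' k ↔ PsC (chr (diag A)) h k) := by
  by_cases hk : ∃ (φ : Form) (c : List ℕ), k = Nat.pair φ.code (lcode c)
  · obtain ⟨φ, c, hk⟩ := hk
    have huniq : ∀ (ψ : Form) (d : List ℕ), k = Nat.pair ψ.code (lcode d) → ψ = φ ∧ d = c := by
      intro ψ d hd
      rw [hk] at hd
      have := Nat.pair_eq_pair.1 hd
      exact ⟨(code_inj _ _ this.1).symm, (lcode_inj _ _ this.2).symm⟩
    obtain ⟨w, hw⟩ := tup_local hA h (stg φ c)
    refine ⟨w + stg φ c + Nat.pair φ.code (lcode (sub (tup (chr (diag A)) h (stg φ c)) c)) + 1,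
      fun Z' h' hZ' hh' => ?_⟩
    have e1 : tup Z' h' (stg φ c) = tup (chr (diag A)) h (stg φ c) :=
      hw Z' h' (fun n hn => hZ' n (by omega)) (fun n hn => hh' n (by omega))
    have e2 : hd Z' φ (sub (tup (chr (diag A)) h (stg φ c)) c) ↔
        hd (chr (diag A)) φ (sub (tup (chr (diag A)) h (stg φ c)) c) :=
      hd_congr (hZ' _ (by omega))
    constructor
    · rintro ⟨ψ, d, h1, h2, h3⟩
      obtain ⟨rfl, rfl⟩ := huniq ψ d h1
      rw [e1] at h3
      exact ⟨ψ, d, h1, h2, e2.1 h3⟩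
    · rintro ⟨ψ, d, h1, h2, h3⟩
      obtain ⟨rfl, rfl⟩ := huniq ψ d h1
      refine ⟨ψ, d, h1, h2, ?_⟩
      rw [e1]
      exact e2.2 h3
  · refine ⟨0, fun Z' h' _ _ => ?_⟩
    constructor
    · rintro ⟨ψ, d, h1, _⟩
      exact absurd ⟨ψ, d, h1⟩ hk
    · rintro ⟨ψ, d, h1, _⟩
      exact absurd ⟨ψ, d, h1⟩ hk

theorem AgT.mono {s s' : ℕ} {T T' : Rv} (h : AgT s' T T') (hs : s ≤ s') : AgT s T T' :=
  fun a ha b hb => h a (by omega) b (by omega)

theorem AgG.mono {s s' : ℕ} {G G' : Gn} (h : AgG s' G G') (hs : s ≤ s') : AgG s G G' :=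
  fun a ha b hb => h a (by omega) b (by omega)

/-- finite intersections of open sets -/
theorem open_list {ι : Type} (L : List ι) (U : ι → Set (Rv × Gn)) (T : Rv) (G : Gn)
    (hU : ∀ i ∈ L, ∃ s, ∀ T' G', AgT s T T' → AgG s G G' → (T', G') ∈ U i) :
    ∃ s, ∀ T' G', AgT s T T' → AgG s G G' → ∀ i ∈ L, (T', G') ∈ U i := by
  induction L with
  | nil => exact ⟨0, fun _ _ _ _ i hi => absurd hi (by simp)⟩
  | cons a L ih =>
    obtain ⟨s1, h1⟩ := ih fun i hi => hU i (List.mem_cons_of_mem _ hi)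
    obtain ⟨s2, h2⟩ := hU a List.mem_cons_self
    refine ⟨s1 + s2, fun T' G' hT hG i hi => ?_⟩
    rcases List.mem_cons.1 hi with rfl | hi
    · exact h2 T' G' (hT.mono (by omega)) (hG.mono (by omega))
    · exact h1 T' G' (hT.mono (by omega)) (hG.mono (by omega)) i hi

theorem sg_open (x : Name) (b : Bool) (n : ℕ) : WOpen (x.sg b n) := by
  cases b with
  | false => simpa [Name.sg] using x.neg_open n
  | true => simpa [Name.sg] using x.pos_open n

theorem fl_open (xA xf : Name) (m : ℕ) : WOpen (Fl xA xf m) := by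
  rintro T G ⟨a, c, χ, s, w, Z, h1, h2, h3, h4, h5⟩
  obtain ⟨s1, g1⟩ := open_list (a.zip c) (fun p => xf.pos (Nat.pair p.1 p.2)) T G
    (fun p hp => xf.pos_open _ T G (h3 p hp))
  obtain ⟨s2, g2⟩ := open_list (List.range w) (fun n => xA.sg (Z n) n) T G
    (fun n hn => sg_open xA _ n T G (h4 n (List.mem_range.1 hn)))
  refine ⟨s1 + s2 + s + m + 1, fun T' G' hT hG => ?_⟩
  refine ⟨a, c, χ, s, w, Z, h1, h2, ?_, ?_, ?_⟩
  · exact g1 T' G' (hT.mono (by omega)) (hG.mono (by omega))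
  · intro n hn
    exact g2 T' G' (hT.mono (by omega)) (hG.mono (by omega)) n (List.mem_range.2 hn)
  · intro Z' hZ'
    have e : tup Z' (G' m) s = tup Z' (G m) s :=
      tup_congr fun n hn => hG m (by omega) n (by omega)
    have := h5 Z' hZ'
    simp only at this ⊢
    rw [e]
    exact this

theorem fnd_local {xf : Name} {m s0 : ℕ} {G0 : Gn} {T T' : Rv} {G G' : Gn} {a : List ℕ}
    {q : ℕ × List (List ℕ) × List ℕ} (hT : AgT q.1 T T') (hG : AgGm q.1 m G G') :
    Fnd xf m s0 G0 T' G' a q ↔ Fnd xf m s0 G0 T G a q := by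
  have e : ∀ T'', AgT q.1 T' T'' ↔ AgT q.1 T T'' := by
    intro T''
    constructor
    · intro h x hx y hy; rw [h x hx y hy, hT x hx y hy]
    · intro h x hx y hy; rw [h x hx y hy, hT x hx y hy]
  unfold Fnd
  simp only [e]
  have e2 : (∀ i < m, ∀ n < q.1, gl q.2.1 i n = G' i n) ↔
      (∀ i < m, ∀ n < q.1, gl q.2.1 i n = G i n) := by
    constructor
    · intro h i hi n hn; rw [h i hi n hn, hG i hi n hn]
    · intro h i hi n hn; rw [h i hi n hn, hG i hi n hn]
  rw [e2]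

theorem hd_eq_diag (A : Str) (x : ℕ) : hd (chr (diag A)) (.eq 0 0) [x] ↔ x ∈ A.dom := by
  rw [hd_diag]
  constructor
  · rintro ⟨_, h, _⟩
    exact h x (by simp)
  · intro h
    refine ⟨⟨by simp, by simp⟩, ?_, ?_⟩
    · intro a ha
      rw [List.mem_singleton] at ha
      rwa [ha]
    · simp [Holds]

theorem pat_local (Z : ℕ → Bool) (s : ℕ) (t : List ℕ) :
    ∃ w, ∀ Z' : ℕ → Bool, (∀ n < w, Z' n = Z n) → pat Z' s t = pat Z s t := by
  have f2 : ((fun q : Form × List ℕ => Nat.pair q.1.code (lcode (sub t q.2))) '' Dec s).Finite :=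
    (dec_finite s).image _
  obtain ⟨w, h⟩ := exists_window f2
  refine ⟨w, fun Z' hZ' => ?_⟩
  ext q
  unfold pat
  simp only [Set.mem_ofPred_eq]
  refine and_congr_right fun hq => hd_congr (hZ' _ (h _ ⟨q, hq, rfl⟩))

theorem psAt_local {A : Str} (hA : A.dom.Infinite) (xf : Name) (m s0 : ℕ)
    (l0 : List (List ℕ)) (T : Rv) (G : Gn) (Z : Om) (hZ : Z 0 = chr (diag A))
    (hex : ∀ a : List ℕ, (∀ x ∈ a, x ∈ A.dom) → ∃ p, Fnd xf m s0 (gl l0) T G a (cand p))
    (k : ℕ) :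
    ∃ w, ∀ T' G' Z', AgT w T T' → AgGm w m G G' → AgZ w 1 Z Z' →
      (PsAt xf m s0 l0 T' G' Z' k ↔ PsAt xf m s0 l0 T G Z k) := by
  by_cases hk : ∃ a : List ℕ, k.unpair.1 = lcode a
  swap
  · have hno : ∀ T G Z, ¬ PsAt xf m s0 l0 T G Z k := by
      rintro T G Z ⟨a, p, _, _, _, hk'⟩
      exact hk ⟨a, by rw [hk', Nat.unpair_pair]⟩
    exact ⟨0, fun T' G' Z' _ _ _ => iff_of_false (hno _ _ _) (hno _ _ _)⟩
  obtain ⟨a, ha⟩ := hk
  have huniq : ∀ (b : List ℕ) (c : ℕ), k = Nat.pair (lcode b) c → b = a := by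
    intro b c hb
    apply lcode_inj
    rw [← ha, hb, Nat.unpair_pair]
  by_cases hdom : ∀ x ∈ a, x ∈ A.dom
  swap
  · push Not at hdom
    obtain ⟨x, hx, hxd⟩ := hdom
    refine ⟨Nat.pair (Form.eq 0 0).code (lcode [x]) + 1, fun T' G' Z' _ _ hZ' => ?_⟩
    have e : hd (Z' 0) (.eq 0 0) [x] ↔ hd (Z 0) (.eq 0 0) [x] :=
      hd_congr (hZ' 0 (by omega) _ (by omega))
    have hn : ¬ hd (Z 0) (.eq 0 0) [x] := by
      rw [hZ, hd_eq_diag]; exact hxd
    refine iff_of_false ?_ ?_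
    · rintro ⟨b, p, h1, _, _, h4⟩
      obtain rfl := huniq b _ h4
      exact hn (e.1 (h1 x hx))
    · rintro ⟨b, p, h1, _, _, h4⟩
      obtain rfl := huniq b _ h4
      exact hn (h1 x hx)
  classical
  have hp := hex a hdom
  set p0 := Nat.find hp with hp0
  have hspec : Fnd xf m s0 (gl l0) T G a (cand p0) := Nat.find_spec hp
  have hmin : ∀ p' < p0, ¬ Fnd xf m s0 (gl l0) T G a (cand p') := fun p' h' => Nat.find_min hp h'
  -- windows
  have f1 : ((fun x => Nat.pair (Form.eq 0 0).code (lcode [x])) '' {x | x ∈ a}).Finite :=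
    (List.finite_toSet a).image _
  obtain ⟨w1, h1⟩ := exists_window f1
  have f2 : ((fun p => (cand p).1) '' {p | p ≤ p0}).Finite := (Set.finite_le_nat p0).image _
  obtain ⟨w2, h2⟩ := exists_window f2
  obtain ⟨w3, h3⟩ := tup_local hA (gl (cand p0).2.1 m) (cand p0).1
  obtain ⟨w4, h4⟩ := pat_local (chr (diag A)) (cand p0).1
    (tup (chr (diag A)) (gl (cand p0).2.1 m) (cand p0).1)
  refine ⟨w1 + w2 + w3 + w4, fun T' G' Z' hT' hG' hZ' => ?_⟩
  have e1 : ∀ x ∈ a, hd (Z' 0) (.eq 0 0) [x] := by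
    intro x hx
    refine (hd_congr (hZ' 0 (by omega) _ ?_)).2 (by rw [hZ, hd_eq_diag]; exact hdom x hx)
    have := h1 _ ⟨x, hx, rfl⟩
    simp only at this
    omega
  have e1' : ∀ x ∈ a, hd (Z 0) (.eq 0 0) [x] := fun x hx => by
    rw [hZ, hd_eq_diag]; exact hdom x hx
  have e2 : ∀ p ≤ p0, (Fnd xf m s0 (gl l0) T' G' a (cand p) ↔
      Fnd xf m s0 (gl l0) T G a (cand p)) := by
    intro p hp
    have := h2 _ ⟨p, hp, rfl⟩
    simp only at this
    refine fnd_local (hT'.mono (by omega)) (fun i hi n hn => hG' i hi n (by omega))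
  have hz0 : ∀ n < w1 + w2 + w3 + w4, Z' 0 n = chr (diag A) n := fun n hn => by
    rw [hZ' 0 (by omega) n hn, hZ]
  have e3 : tup (Z' 0) (gl (cand p0).2.1 m) (cand p0).1 =
      tup (chr (diag A)) (gl (cand p0).2.1 m) (cand p0).1 :=
    h3 _ _ (fun n hn => hz0 n (by omega)) (fun _ _ => rfl)
  have e4 := h4 (Z' 0) (fun n hn => hz0 n (by omega))
  have hlast : pat (Z' 0) (cand p0).1 (tup (Z' 0) (gl (cand p0).2.1 m) (cand p0).1) =
      pat (Z 0) (cand p0).1 (tup (Z 0) (gl (cand p0).2.1 m) (cand p0).1) := by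
    rw [e3, e4, hZ]
  constructor
  · rintro ⟨b, p, g1, g2, g3, g4⟩
    obtain rfl := huniq b _ g4
    have hpp : p = p0 := by
      rcases lt_trichotomy p p0 with h | h | h
      · exact absurd ((e2 p h.le).1 g2) (hmin p h)
      · exact h
      · exact absurd ((e2 p0 le_rfl).2 hspec) (g3 p0 h)
    rw [hpp] at g4
    refine ⟨b, p0, e1', hspec, hmin, ?_⟩
    rw [← hlast]
    exact g4
  · rintro ⟨b, p, g1, g2, g3, g4⟩
    obtain rfl := huniq b _ g4
    have hpp : p = p0 := by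
      rcases lt_trichotomy p p0 with h | h | h
      · exact absurd g2 (hmin p h)
      · exact h
      · exact absurd hspec (g3 p0 h)
    rw [hpp] at g4
    refine ⟨b, p0, e1, (e2 _ le_rfl).2 hspec, fun p' hp' h' => hmin p' hp' ((e2 p' hp'.le).1 h'), ?_⟩
    rw [hlast]
    exact g4

end Pool.Agent.Helper317.PM
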