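import Pool.Agent.Helper317.PMU.Core2

/-!
Formulas that describe finite sets of decided formulas.
-/

namespace Pool.Agent.Helper317.PM

open Pool.Agent.Helper317.SOA Function

theorem P9_lcode_inj : ∀ l l' : List ℕ, lcode l = lcode l' → l = l' := by
  intro l
  induction l with
  | nil =>
    intro l' h
    cases l' with
    | nil => rfl
    | cons a l' => simp [lcode] at h
  | cons a l ih =>
    intro l' h
    cases l' with
    | nil => simp [lcode] at h
    | cons a' l' =>
      simp only [lcode] at h
      have h1 : Nat.pair a (lcode l) = Nat.pair a' (lcode l') := by omega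
      rw [Nat.pair_eq_pair] at h1
      rw [h1.1, ih l' h1.2]

theorem P9_code_inj : ∀ φ ψ : Form, φ.code = ψ.code → φ = ψ := by
  intro φ
  induction φ with
  | rel r vs =>
    intro ψ h
    cases ψ with
    | rel r' vs' =>
      simp only [Form.code] at h
      have h1 : Nat.pair r (lcode vs) = Nat.pair r' (lcode vs') := by omega
      rw [Nat.pair_eq_pair] at h1
      rw [h1.1, P9_lcode_inj _ _ h1.2]
    | eq i j => simp only [Form.code] at h; omega
    | neg φ => simp only [Form.code] at h; omega
    | and φ ψ => simp only [Form.code] at h; omega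
    | all φ => simp only [Form.code] at h; omega
  | eq i j =>
    intro ψ h
    cases ψ with
    | rel r' vs' => simp only [Form.code] at h; omega
    | eq i' j' =>
      simp only [Form.code] at h
      have h1 : Nat.pair i j = Nat.pair i' j' := by omega
      rw [Nat.pair_eq_pair] at h1
      rw [h1.1, h1.2]
    | neg φ => simp only [Form.code] at h; omega
    | and φ ψ => simp only [Form.code] at h; omega
    | all φ => simp only [Form.code] at h; omega
  | neg φ ih =>
    intro ψ h
    cases ψ with
    | rel r' vs' => simp only [Form.code] at h; omega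
    | eq i' j' => simp only [Form.code] at h; omega
    | neg φ' =>
      simp only [Form.code] at h
      rw [ih φ' (by omega)]
    | and φ ψ => simp only [Form.code] at h; omega
    | all φ => simp only [Form.code] at h; omega
  | and φ ψ ih1 ih2 =>
    intro ψ h
    cases ψ with
    | rel r' vs' => simp only [Form.code] at h; omega
    | eq i' j' => simp only [Form.code] at h; omega
    | neg φ' => simp only [Form.code] at h; omega
    | and φ' ψ' =>
      simp only [Form.code] at h
      have h1 : Nat.pair φ.code ψ.code = Nat.pair φ'.code ψ'.code := by omega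
      rw [Nat.pair_eq_pair] at h1
      rw [ih1 _ h1.1, ih2 _ h1.2]
    | all φ => simp only [Form.code] at h; omega
  | all φ ih =>
    intro ψ h
    cases ψ with
    | rel r' vs' => simp only [Form.code] at h; omega
    | eq i' j' => simp only [Form.code] at h; omega
    | neg φ' => simp only [Form.code] at h; omega
    | and φ ψ => simp only [Form.code] at h; omega
    | all φ' =>
      simp only [Form.code] at h
      rw [ih φ' (by omega)]

theorem P9_Dec_finite (s : ℕ) : (Dec s).Finite := by
  have h1 : {φ : Form | φ.code < s}.Finite :=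
    Set.Finite.preimage (f := Form.code) (fun φ _ ψ _ h => P9_code_inj φ ψ h) (Set.finite_lt_nat s)
  have h2 : {l : List ℕ | l.length ≤ s ∧ ∀ x ∈ l, x < s}.Finite := by
    refine ((List.finite_length_le (Fin s) s).image (List.map Fin.val)).subset ?_
    rintro l ⟨hl, hl2⟩
    lift l to List (Fin s) using hl2
    exact ⟨l, by simpa using hl, rfl⟩
  refine (h1.prod h2).subset ?_
  rintro q ⟨hq1, hq2, hq3, hq4⟩
  exact ⟨hq1, hq2, hq3⟩

/-- lifting of a renaming -/
def P9_lift (ρ : ℕ → ℕ) : ℕ → ℕ
  | 0 => 0
  | n + 1 => ρ n + 1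

/-- renaming -/
def P9_ren : (ℕ → ℕ) → Form → Form
  | ρ, .rel r vs => .rel r (vs.map ρ)
  | ρ, .eq i j => .eq (ρ i) (ρ j)
  | ρ, .neg φ => .neg (P9_ren ρ φ)
  | ρ, .and φ ψ => .and (P9_ren ρ φ) (P9_ren ρ ψ)
  | ρ, .all φ => .all (P9_ren (P9_lift ρ) φ)

theorem P9_ren_holds (M : Str) (φ : Form) : ∀ (n : ℕ) (ρ : ℕ → ℕ) (l l' : List ℕ), φ.Scoped n →
    (∀ i < n, l'.getD (ρ i) 0 = l.getD i 0) → (Holds M l' (P9_ren ρ φ) ↔ Holds M l φ) := by
  induction φ with
  | rel r vs =>
    intro n ρ l l' hs h
    simp only [P9_ren, Holds, List.map_map]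
    simp only [Form.Scoped] at hs
    have : vs.map ((fun i => l'.getD i 0) ∘ ρ) = vs.map fun i => l.getD i 0 := by
      apply List.map_congr_left
      intro i hi
      exact h i (hs i hi)
    rw [this]
  | eq i j =>
    intro n ρ l l' hs h
    simp only [P9_ren, Holds]
    simp only [Form.Scoped] at hs
    rw [h i hs.1, h j hs.2]
  | neg φ ih =>
    intro n ρ l l' hs h
    simp only [P9_ren, Holds]
    simp only [Form.Scoped] at hs
    rw [ih n ρ l l' hs h]
  | and φ ψ ih1 ih2 =>
    intro n ρ l l' hs h
    simp only [P9_ren, Holds]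
    simp only [Form.Scoped] at hs
    rw [ih1 n ρ l l' hs.1 h, ih2 n ρ l l' hs.2 h]
  | all φ ih =>
    intro n ρ l l' hs h
    simp only [P9_ren, Holds]
    simp only [Form.Scoped] at hs
    apply forall₂_congr
    intro a _
    apply ih (n + 1) _ _ _ hs
    intro i hi
    cases i with
    | zero => rfl
    | succ i =>
      simp only [P9_lift, List.getD_cons_succ]
      exact h i (by omega)

theorem P9_ren_scoped (φ : Form) : ∀ (n n' : ℕ) (ρ : ℕ → ℕ), φ.Scoped n → (∀ i < n, ρ i < n') →
    (P9_ren ρ φ).Scoped n' := by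
  induction φ with
  | rel r vs =>
    intro n n' ρ hs h
    simp only [P9_ren, Form.Scoped] at hs ⊢
    intro i hi
    rw [List.mem_map] at hi
    obtain ⟨j, hj, rfl⟩ := hi
    exact h j (hs j hj)
  | eq i j =>
    intro n n' ρ hs h
    simp only [P9_ren, Form.Scoped] at hs ⊢
    exact ⟨h i hs.1, h j hs.2⟩
  | neg φ ih =>
    intro n n' ρ hs h
    simp only [P9_ren, Form.Scoped] at hs ⊢
    exact ih n n' ρ hs h
  | and φ ψ ih1 ih2 =>
    intro n n' ρ hs h
    simp only [P9_ren, Form.Scoped] at hs ⊢
    exact ⟨ih1 n n' ρ hs.1 h, ih2 n n' ρ hs.2 h⟩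
  | all φ ih =>
    intro n n' ρ hs h
    simp only [P9_ren, Form.Scoped] at hs ⊢
    apply ih (n + 1) (n' + 1) _ hs
    intro i hi
    cases i with
    | zero => simp only [P9_lift]; omega
    | succ i =>
      simp only [P9_lift]
      have := h i (by omega)
      omega

/-- `s` existential quantifiers -/
def P9_exn : ℕ → Form → Form
  | 0, θ => θ
  | s + 1, θ => P9_exn s (.neg (.all (.neg θ)))

theorem P9_exn_holds (M : Str) (b : List ℕ) (s : ℕ) : ∀ θ : Form, Holds M b (P9_exn s θ) ↔
    ∃ t : List ℕ, t.length = s ∧ (∀ x ∈ t, x ∈ M.dom) ∧ Holds M (t ++ b) θ := by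
  induction s with
  | zero =>
    intro θ
    constructor
    · intro h
      exact ⟨[], rfl, by simp, h⟩
    · rintro ⟨t, ht, _, h⟩
      rw [List.length_eq_zero_iff] at ht
      subst ht
      exact h
  | succ s ih =>
    intro θ
    simp only [P9_exn]
    rw [ih]
    constructor
    · rintro ⟨t, ht, hd, h⟩
      simp only [Holds] at h
      push Not at h
      obtain ⟨a, ha, h⟩ := h
      refine ⟨a :: t, by simp [ht], ?_, h⟩
      intro x hx
      rw [List.mem_cons] at hx
      rcases hx with rfl | hx
      · exact ha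
      · exact hd x hx
    · rintro ⟨t, ht, hd, h⟩
      cases t with
      | nil => simp at ht
      | cons a t =>
        refine ⟨t, by simpa using ht, fun x hx => hd x (List.mem_cons_of_mem _ hx), ?_⟩
        simp only [Holds]
        push Not
        exact ⟨a, hd a (List.mem_cons_self), h⟩

theorem P9_exn_scoped (n s : ℕ) : ∀ θ : Form, θ.Scoped (n + s) → (P9_exn s θ).Scoped n := by
  induction s with
  | zero =>
    intro θ h
    exact h
  | succ s ih =>
    intro θ h
    simp only [P9_exn]
    apply ih
    simp only [Form.Scoped]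
    exact h

theorem P9_conj (F : Set Form) (hF : F.Finite) : ∃ Θ : Form,
    (∀ (M : Str) (l : List ℕ), Holds M l Θ ↔ ∀ φ ∈ F, Holds M l φ) ∧
    ∀ n, (∀ φ ∈ F, φ.Scoped n) → Θ.Scoped n := by
  induction F, hF using Set.Finite.induction_on with
  | empty =>
    refine ⟨.all (.eq 0 0), ?_, ?_⟩
    · intro M l
      simp [Holds]
    · intro n _
      simp [Form.Scoped]
  | @insert a F _ _ ih =>
    obtain ⟨Θ, h1, h2⟩ := ih
    refine ⟨.and a Θ, ?_, ?_⟩
    · intro M l
      simp only [Holds]
      rw [h1, Set.forall_mem_insert]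
    · intro n h
      rw [Set.forall_mem_insert] at h
      simp only [Form.Scoped]
      exact ⟨h.1, h2 n h.2⟩

theorem P9_sub_getD (t c : List ℕ) {i : ℕ} (hi : i < c.length) :
    (sub t c).getD i 0 = t.getD (c.getD i 0) 0 := by
  unfold sub
  rw [List.getD_eq_getElem _ _ (by simpa using hi), List.getElem_map, List.getD_eq_getElem _ _ hi]

theorem P9_getD_lt {c : List ℕ} {s : ℕ} (hc : ∀ x ∈ c, x < s) {i : ℕ} (hi : i < c.length) :
    c.getD i 0 < s := by
  rw [List.getD_eq_getElem _ _ hi]
  exact hc _ (List.getElem_mem hi)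

theorem says_exists (s : ℕ) (P : Set (Form × List ℕ)) (c : List ℕ) (hc : ∀ x ∈ c, x < s) :
    ∃ ψ, Says s P c ψ := by
  classical
  obtain ⟨f2, hf2⟩ : ∃ f2 : Form × List ℕ → Form, ∀ q, f2 q =
      if q ∈ P then P9_ren (fun i => q.2.getD i 0) q.1 else .neg (P9_ren (fun i => q.2.getD i 0) q.1) :=
    ⟨_, fun q => rfl⟩
  have hF1 : {φ : Form | ∃ i j, i < j ∧ j < s ∧ φ = .neg (.eq i j)}.Finite := by
    refine (((Set.finite_lt_nat s).prod (Set.finite_lt_nat s)).image
      (fun p : ℕ × ℕ => Form.neg (.eq p.1 p.2))).subset ?_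
    rintro φ ⟨i, j, hij, hj, rfl⟩
    exact ⟨(i, j), ⟨by show i < s; omega, hj⟩, rfl⟩
  obtain ⟨Θ1, h11, h12⟩ := P9_conj _ hF1
  obtain ⟨Θ2, h21, h22⟩ := P9_conj _ ((P9_Dec_finite s).image f2)
  obtain ⟨Θ3, h31, h32⟩ := P9_conj _ ((Set.finite_lt_nat c.length).image
    (fun i => Form.eq (c.getD i 0) (s + i)))
  refine ⟨P9_exn s (.and Θ1 (.and Θ2 Θ3)), ?_, ?_⟩
  · apply P9_exn_scoped
    simp only [Form.Scoped]
    refine ⟨h12 _ ?_, h22 _ ?_, h32 _ ?_⟩
    · rintro φ ⟨i, j, hij, hj, rfl⟩
      simp only [Form.Scoped]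
      omega
    · rintro φ ⟨q, hq, rfl⟩
      have h1 : (P9_ren (fun i => q.2.getD i 0) q.1).Scoped (c.length + s) := by
        apply P9_ren_scoped _ q.2.length _ _ hq.2.2.2
        intro i hi
        have := P9_getD_lt hq.2.2.1 hi
        omega
      rw [hf2]
      split_ifs
      · exact h1
      · simp only [Form.Scoped]
        exact h1
    · rintro φ ⟨i, hi, rfl⟩
      have hi' : i < c.length := hi
      simp only [Form.Scoped]
      have := P9_getD_lt hc hi'
      omega
  · intro M b hb hbM
    rw [P9_exn_holds]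
    apply exists_congr
    intro t
    have key : t.length = s → (Holds M (t ++ b) (.and Θ1 (.and Θ2 Θ3)) ↔
        (t.Nodup ∧ (∀ q ∈ Dec s, (Holds M (sub t q.2) q.1 ↔ q ∈ P)) ∧ sub t c = b)) := by
      intro ht
      simp only [Holds]
      rw [h11, h21, h31]
      have k1 : (∀ φ ∈ {φ : Form | ∃ i j, i < j ∧ j < s ∧ φ = .neg (.eq i j)}, Holds M (t ++ b) φ) ↔
          t.Nodup := by
        unfold List.Nodup
        rw [List.pairwise_iff_getElem]
        constructor
        · intro h i j hi hj hij
          have h1 := h (.neg (.eq i j)) ⟨i, j, hij, by omega, rfl⟩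
          simp only [Holds] at h1
          rw [List.getD_append _ _ _ _ hi, List.getD_append _ _ _ _ hj,
            List.getD_eq_getElem _ _ hi, List.getD_eq_getElem _ _ hj] at h1
          exact h1
        · rintro h φ ⟨i, j, hij, hj, rfl⟩
          have hj' : j < t.length := by omega
          have hi' : i < t.length := by omega
          simp only [Holds]
          rw [List.getD_append _ _ _ _ hi', List.getD_append _ _ _ _ hj',
            List.getD_eq_getElem _ _ hi', List.getD_eq_getElem _ _ hj']
          exact h i j hi' hj' hij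
      have k2 : (∀ φ ∈ f2 '' Dec s, Holds M (t ++ b) φ) ↔
          ∀ q ∈ Dec s, (Holds M (sub t q.2) q.1 ↔ q ∈ P) := by
        rw [Set.forall_mem_image]
        apply forall₂_congr
        intro q hq
        have h1 : Holds M (t ++ b) (P9_ren (fun i => q.2.getD i 0) q.1) ↔ Holds M (sub t q.2) q.1 := by
          apply P9_ren_holds M q.1 q.2.length _ _ _ hq.2.2.2
          intro i hi
          rw [P9_sub_getD t q.2 hi, List.getD_append]
          rw [ht]
          exact P9_getD_lt hq.2.2.1 hi
        rw [hf2]
        split_ifs with hP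
        · rw [h1]
          exact ⟨fun h => ⟨fun _ => hP, fun _ => h⟩, fun h => h.2 hP⟩
        · simp only [Holds]
          rw [h1]
          exact ⟨fun h => ⟨fun h' => absurd h' h, fun h' => absurd h' hP⟩, fun h h' => hP (h.1 h')⟩
      have k3 : (∀ φ ∈ (fun i => Form.eq (c.getD i 0) (s + i)) '' {n : ℕ | n < c.length},
          Holds M (t ++ b) φ) ↔ sub t c = b := by
        rw [Set.forall_mem_image]
        have hlen : (sub t c).length = c.length := by simp [sub]
        have h1 : ∀ i < c.length, (Holds M (t ++ b) (Form.eq (c.getD i 0) (s + i)) ↔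
            (sub t c).getD i 0 = b.getD i 0) := by
          intro i hi
          simp only [Holds]
          rw [P9_sub_getD t c hi, List.getD_append, List.getD_append_right, ht]
          · rw [Nat.add_sub_cancel_left]
          · omega
          · rw [ht]
            exact P9_getD_lt hc hi
        constructor
        · intro h
          apply List.ext_getElem (by omega)
          intro i hi hi'
          have h2 := (h1 i (by omega)).1 (h (by show i < c.length; omega))
          rwa [List.getD_eq_getElem _ _ hi, List.getD_eq_getElem _ _ hi'] at h2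
        · intro h i hi
          exact (h1 i hi).2 (by rw [h])
      rw [k1, k2, k3]
    constructor
    · rintro ⟨h1, h2, h3⟩
      obtain ⟨h4, h5, h6⟩ := (key h1).1 h3
      exact ⟨h1, h4, h2, h5, h6⟩
    · rintro ⟨h1, h4, h2, h5, h6⟩
      exact ⟨h1, h2, (key h1).2 ⟨h4, h5, h6⟩⟩

end Pool.Agent.Helper317.PM
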