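import Pool.Agent.Helper317.PMU.Core2
import Pool.Agent.Helper317.PMU.P4
import Pool.Agent.Helper317.PMU.P7
import Pool.Agent.Helper317.PMU.P9

/-!
A forced elementary embedding gives the atoms.
-/

namespace Pool.Agent.Helper317.PM

open Pool.Agent.Helper317.SOA Function










theorem P10_getD_mem {t : List ℕ} {i : ℕ} (hi : i < t.length) : t.getD i 0 ∈ t := by
  rw [List.getD_eq_getElem _ _ hi]
  exact List.getElem_mem hi

theorem P10_sub_dom {A : Str} {t c : List ℕ} {s : ℕ} (hl : t.length = s) (hd' : ∀ a ∈ t, a ∈ A.dom)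
    (hc : ∀ x ∈ c, x < s) : ∀ x ∈ sub t c, x ∈ A.dom := by
  intro x hx
  rw [sub, List.mem_map] at hx
  obtain ⟨i, hi, rfl⟩ := hx
  exact hd' _ (P10_getD_mem (by rw [hl]; exact hc i hi))

theorem P10_sub_length (t c : List ℕ) : (sub t c).length = c.length := by
  rw [sub, List.length_map]

theorem P10_sub_append {t c r : List ℕ} (hc : ∀ x ∈ c, x < t.length) :
    sub (t ++ r) c = sub t c := by
  rw [sub, sub]
  apply List.map_congr_left
  intro i hi
  exact List.getD_append _ _ _ _ (hc i hi)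

theorem P10_sg {x : Name} {T : Rv} {G : Gn} {X : Set ℕ} (v : x.Val T G X) (n : ℕ) (b : Bool) :
    (T, G) ∈ x.sg b n ↔ b = chr X n := by
  unfold Name.sg chr
  cases b
  · simp [(v n).2]
  · simp [(v n).1]

theorem P10_zip {a c : List ℕ} {f : ℕ → ℕ} (hl : a.length = c.length)
    (h : ∀ p ∈ a.zip c, p.2 = f p.1) : c = a.map f := by
  apply List.ext_getElem
  · rw [List.length_map, hl]
  · intro i h1 h2
    rw [List.getElem_map]
    have h3 : i < a.length := by rw [hl]; exact h1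
    have h4 : i < (a.zip c).length := by rw [List.length_zip]; omega
    have h5 := h _ (List.getElem_mem h4)
    rw [List.getElem_zip] at h5
    exact h5

theorem P10_zip_dom {a c : List ℕ} {D : Set ℕ} (hl : a.length = c.length)
    (h : ∀ p ∈ a.zip c, p.1 ∈ D) : ∀ x ∈ a, x ∈ D := by
  intro x hx
  obtain ⟨i, hi, rfl⟩ := List.getElem_of_mem hx
  have h4 : i < (a.zip c).length := by rw [List.length_zip]; omega
  have h5 := h _ (List.getElem_mem h4)
  rw [List.getElem_zip] at h5
  exact h5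

/-- at a real embedding, `Fl` fails. -/
theorem not_fl {A C : Str} (hA : A.dom.Infinite) {xA xf : Name} {T : Rv} {G : Gn} {m : ℕ}
    (vA : xA.Val T G (diag A)) {f : ℕ → ℕ} (vf : xf.Val T G (gr A f)) (hf : ElemEmb A C f)
    (hC : ∀ (φ : Form) (c : List ℕ) (s : ℕ), (φ, c) ∈ Dec s →
      (Holds C c φ ↔ Holds A (sub (tup (chr (diag A)) (G m) s) c) φ)) :
    (T, G) ∉ Fl xA xf m := by
  rintro ⟨a, c, χ, s, w, Z, hlen, hdec, hp, hn, hl⟩
  have hpos : ∀ p ∈ a.zip c, p.1 ∈ A.dom ∧ p.2 = f p.1 := by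
    intro p hpm
    have h1 := (vf (Nat.pair p.1 p.2)).1.1 (hp p hpm)
    obtain ⟨x, hx, he⟩ := h1
    rw [Nat.pair_eq_pair] at he
    refine ⟨?_, ?_⟩
    · rw [he.1]; exact hx
    · rw [he.2, he.1]
  have hc : c = a.map f := P10_zip hlen (fun p hpm => (hpos p hpm).2)
  have ha : ∀ x ∈ a, x ∈ A.dom := P10_zip_dom hlen (fun p hpm => (hpos p hpm).1)
  have h1 := hl (chr (diag A)) (fun n hnw => ((P10_sg vA n (Z n)).1 (hn n hnw)).symm)
  obtain ⟨h2, h3⟩ := h1
  rw [hd_diag] at h2
  have h4 := (hf.2 χ a h2.1 ha).1 h2.2.2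
  rw [← hc] at h4
  have h5 := (hC χ c s hdec).1 h4
  apply h3
  rw [hd_diag]
  obtain ⟨t1, t2, t3⟩ := tup_length hA (G m) s
  refine ⟨?_, P10_sub_dom t1 t3 hdec.2.2.1, h5⟩
  rw [P10_sub_length]
  exact hdec.2.2.2

theorem P10_gl {G : Gn} {S i n : ℕ} (hi : i < S) (hn : n < S) :
    gl ((List.range S).map (fun i => (List.range S).map (G i))) i n = G i n := by
  have h1 : ((List.range S).map (fun i => (List.range S).map (G i))).getD i [] =
      (List.range S).map (G i) := by
    rw [List.getD_eq_getElem _ _ (by simpa using hi), List.getElem_map, List.getElem_range]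
  unfold gl
  rw [h1, List.getD_eq_getElem _ _ (by simpa using hn), List.getElem_map, List.getElem_range]

theorem P10_le_sum {l : List ℕ} {x : ℕ} (h : x ∈ l) : x ≤ l.sum := by
  induction l with
  | nil => simp at h
  | cons y l ih =>
    rw [List.sum_cons]
    rcases List.mem_cons.1 h with rfl | h
    · omega
    · have := ih h
      omega

/-- candidates exist. -/
theorem cand_exists {A : Str} {xf : Name} {T : Rv} {G : Gn} {m s0 : ℕ}
    {f : ℕ → ℕ} (vf : xf.Val T G (gr A f)) {l0 : List (List ℕ)} (hl0 : AgG s0 G (gl l0))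
    {a : List ℕ} (ha : ∀ x ∈ a, x ∈ A.dom) : ∃ p, Fnd xf m s0 (gl l0) T G a (cand p) := by
  have h1 : ∀ x : ℕ, ∃ w, x ∈ A.dom → ∀ T' G', AgT w T T' → AgG w G G' →
      (T', G') ∈ xf.pos (Nat.pair x (f x)) := by
    intro x
    by_cases hx : x ∈ A.dom
    · obtain ⟨w, hw⟩ := xf.pos_open (Nat.pair x (f x)) T G
        ((vf (Nat.pair x (f x))).1.2 ⟨x, hx, rfl⟩)
      exact ⟨w, fun _ => hw⟩
    · exact ⟨0, fun h => absurd h hx⟩
  choose w hw using h1
  obtain ⟨S, hS⟩ : ∃ S, S = s0 + m + 1 + (a.map f).sum + (a.map w).sum := ⟨_, rfl⟩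
  obtain ⟨p, hp⟩ := exists_cand.choose_spec
    (S, (List.range S).map (fun i => (List.range S).map (G i)), a.map f)
  refine ⟨p, ?_⟩
  have hp' : cand p = (S, (List.range S).map (fun i => (List.range S).map (G i)), a.map f) := hp
  rw [hp']
  have hg : ∀ i n, i < S → n < S →
      gl ((List.range S).map (fun i => (List.range S).map (G i))) i n = G i n :=
    fun i n hi hn => P10_gl hi hn
  refine ⟨by simp only; omega, by simp only; omega, by simp, ?_, ?_, ?_, ?_⟩
  · intro c hc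
    have := P10_le_sum hc
    simp only at this ⊢
    omega
  · intro i hi n hn
    exact hg i n (by omega) hn
  · intro i hi n hn
    simp only
    rw [hg i n (by omega) (by omega)]
    exact (hl0 i hi n hn).symm
  · intro T' G' hT hG p hpm
    simp only at hpm hT hG
    obtain ⟨x, hx, rfl⟩ : ∃ x ∈ a, p = (x, f x) := by
      obtain ⟨i, hi, rfl⟩ := List.getElem_of_mem hpm
      have h4 : i < a.length := by rw [List.length_zip] at hi; omega
      refine ⟨a[i], List.getElem_mem h4, ?_⟩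
      rw [List.getElem_zip, List.getElem_map]
    have hwS : w x ≤ S := by
      have := P10_le_sum (List.mem_map_of_mem (f := w) hx)
      omega
    refine hw x (ha x hx) T' G' ?_ ?_
    · intro a' ha' b hb
      exact hT a' (by omega) b (by omega)
    · intro i hi n hn
      rw [hG i (by omega) n (by omega)]
      exact hg i n (by omega) (by omega)

/-- each candidate gives an atom. -/
theorem kill {A : Str} (hA : A.dom.Infinite) {xA xf : Name} {T : Rv} {G : Gn} {m s0 : ℕ}
    (hm : xA.lvl ≤ m) (vA : xA.Val T G (diag A)) {l0 : List (List ℕ)}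
    (hl0 : AgG s0 G (gl l0)) (hs0 : ∀ G', AgG s0 G G' → (T, G') ∉ Fl xA xf m)
    {a : List ℕ} (ha : ∀ x ∈ a, x ∈ A.dom) {q : ℕ × List (List ℕ) × List ℕ}
    (hq : Fnd xf m s0 (gl l0) T G a q) {ψ : Form}
    (hψ : ψ = AF q.1 (pat (chr (diag A)) q.1 (tup (chr (diag A)) (gl q.2.1 m) q.1)) q.2.2) :
    ψ.Scoped a.length ∧ Holds A a ψ ∧
      ∀ b : List ℕ, b.length = a.length → (∀ x ∈ b, x ∈ A.dom) → Holds A b ψ →
        ∀ χ : Form, χ.Scoped a.length → Holds A a χ → Holds A b χ := by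
  obtain ⟨S, l, c⟩ := q
  obtain ⟨q1, q2, q3, q4, q5, q6, q7⟩ := hq
  simp only at q1 q2 q3 q4 q5 q6 q7 hψ
  obtain ⟨Z, hZ⟩ : ∃ Z, Z = chr (diag A) := ⟨_, rfl⟩
  obtain ⟨t, ht⟩ : ∃ t, t = tup Z (gl l m) S := ⟨_, rfl⟩
  obtain ⟨P, hP⟩ : ∃ P, P = pat Z S t := ⟨_, rfl⟩
  rw [← hZ, ← ht, ← hP] at hψ
  have hsays : Says S P c ψ := by
    have H := says_exists S P c q4
    rw [hψ, AF, dif_pos H]
    exact H.choose_spec
  obtain ⟨t1, t2, t3⟩ := tup_length hA (gl l m) S
  rw [← hZ, ← ht] at t1 t2 t3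
  have hmemP : ∀ q' ∈ Dec S, (Holds A (sub t q'.2) q'.1 ↔ q' ∈ P) := by
    intro q' hq'
    rw [hP, pat, Set.mem_setOf_eq, hZ, hd_diag]
    constructor
    · intro h
      refine ⟨hq', ?_, P10_sub_dom t1 t3 hq'.2.2.1, h⟩
      rw [P10_sub_length]
      exact hq'.2.2.2
    · intro h
      exact h.2.2.2
  have claim : ∀ t' : List ℕ, t'.length = S → t'.Nodup → (∀ x ∈ t', x ∈ A.dom) →
      (∀ q' ∈ Dec S, (Holds A (sub t' q'.2) q'.1 ↔ q' ∈ P)) →
      ∀ χ : Form, χ.Scoped a.length → Holds A a χ → Holds A (sub t' c) χ := by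
    intro t' u1 u2 u3 u4 χ hχ hχa
    by_contra hcon
    obtain ⟨h', hh1, hh2⟩ := tup_extend hA (gl l m) S t' u1 u2 u3 (by
      intro q' hq'
      rw [← hZ, ← ht]
      exact (u4 q' hq').trans (hmemP q' hq').symm)
    obtain ⟨s', hs'⟩ : ∃ s', s' = S + 1 + χ.code + c.length := ⟨_, rfl⟩
    obtain ⟨r, hr⟩ := hh2 s' (by omega)
    have hdec : (χ, c) ∈ Dec s' := by
      refine ⟨by simp only; omega, by simp only; omega, ?_, ?_⟩
      · intro x hx
        have := q4 x hx
        omega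
      · simp only
        rw [q3]; exact hχ
    obtain ⟨w, hw⟩ := tup_local hA h' s'
    obtain ⟨G'', hG''⟩ : ∃ G'' : Gn, G'' = fun i n =>
      if i < m then G i n else if i = m then h' n else gl l i n := ⟨_, rfl⟩
    have g1 : ∀ i n, i < m → G'' i n = G i n := by
      intro i n hi
      rw [hG'']
      simp only
      rw [if_pos hi]
    have g2 : G'' m = h' := by
      funext n
      rw [hG'']
      simp
    have g3 : ∀ i n, m < i → G'' i n = gl l i n := by
      intro i n hi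
      rw [hG'']
      simp only
      rw [if_neg (by omega), if_neg (by omega)]
    have hag : AgG S (gl l) G'' := by
      intro i hi n hn
      rcases lt_trichotomy i m with h | h | h
      · rw [g1 i n h, q5 i h n hn]
      · subst h
        rw [g2, hh1 n hn]
      · rw [g3 i n h]
    refine hs0 G'' ?_ ?_
    · intro i hi n hn
      rw [hag i (by omega) n (by omega), q6 i hi n hn, hl0 i hi n hn]
    · refine ⟨a, c, χ, s', w + (Nat.pair χ.code (lcode a) + 1) +
        (Nat.pair χ.code (lcode (sub (t' ++ r) c)) + 1), chr (diag A), q3.symm, hdec, ?_, ?_, ?_⟩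
      · exact q7 T G'' (fun _ _ _ _ => rfl) hag
      · intro n _
        have h1 : (T, G) ∈ xA.sg (chr (diag A) n) n := (P10_sg vA n _).2 rfl
        unfold Name.sg at h1 ⊢
        split_ifs at h1 ⊢ with hh
        · exact xA.pos_lvl n T G G'' (fun i hi k => g1 i k (by omega)) h1
        · exact xA.neg_lvl n T G G'' (fun i hi k => g1 i k (by omega)) h1
      · intro Z' hZ'
        have e1 : tup Z' (G'' m) s' = t' ++ r := by
          rw [g2, hw Z' h' (fun n hn => hZ' n (by omega)) (fun n _ => rfl), hr]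
        constructor
        · unfold hd
          rw [hZ' _ (by omega)]
          exact (hd_diag A χ a).2 ⟨hχ, ha, hχa⟩
        · simp only
          rw [e1]
          intro h
          unfold hd at h
          rw [hZ' _ (by omega)] at h
          have h2 := (hd_diag A χ _).1 h
          rw [P10_sub_append (by rw [u1]; exact q4)] at h2
          exact hcon h2.2.2
  refine ⟨by rw [← q3]; exact hsays.1, ?_, ?_⟩
  · by_contra hcon
    have h1 := claim t t1 t2 t3 hmemP (.neg ψ) (by
      show ψ.Scoped a.length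
      rw [← q3]; exact hsays.1) hcon
    apply h1
    refine (hsays.2 A (sub t c) (P10_sub_length t c) (P10_sub_dom t1 t3 q4)).2 ?_
    exact ⟨t, t1, t2, t3, hmemP, rfl⟩
  · intro b hb hbd hbψ χ hχ hχa
    obtain ⟨t', u1, u2, u3, u4, u5⟩ := (hsays.2 A b (by rw [hb, q3]) hbd).1 hbψ
    rw [← u5]
    exact claim t' u1 u2 u3 u4 χ hχ hχa

theorem isAt_psAt {A : Str} {xf : Name} {T : Rv} {G : Gn} {m s0 : ℕ} {l0 : List (List ℕ)}
    (hex : ∀ a : List ℕ, (∀ x ∈ a, x ∈ A.dom) → ∃ p, Fnd xf m s0 (gl l0) T G a (cand p))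
    (hat : ∀ a : List ℕ, (∀ x ∈ a, x ∈ A.dom) → ∀ q : ℕ × List (List ℕ) × List ℕ,
      Fnd xf m s0 (gl l0) T G a q → ∀ ψ : Form,
      ψ = AF q.1 (pat (chr (diag A)) q.1 (tup (chr (diag A)) (gl q.2.1 m) q.1)) q.2.2 →
      ψ.Scoped a.length ∧ Holds A a ψ ∧
      ∀ b : List ℕ, b.length = a.length → (∀ x ∈ b, x ∈ A.dom) → Holds A b ψ →
        ∀ χ : Form, χ.Scoped a.length → Holds A a χ → Holds A b χ)
    {Z : Om} (hZ : Z 0 = chr (diag A)) :
    IsAt A {k | PsAt xf m s0 l0 T G Z k} := by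
  have hdom : ∀ x, hd (Z 0) (.eq 0 0) [x] ↔ x ∈ A.dom := by
    intro x
    rw [hZ, hd_diag]
    simp [Form.Scoped, Holds]
  constructor
  · intro a ha
    classical
    have H := hex a ha
    refine ⟨_, a, Nat.find H, fun x hx => (hdom x).2 (ha x hx), Nat.find_spec H,
      fun p' hp' => Nat.find_min H hp', rfl⟩
  · rintro a c ⟨a', p, h1, h2, h3, h4⟩
    rw [Nat.pair_eq_pair] at h4
    have h5 := lcode_inj _ _ h4.1
    subst h5
    have ha : ∀ x ∈ a, x ∈ A.dom := fun x hx => (hdom x).1 (h1 x hx)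
    refine ⟨ha, _, h4.2.symm, ?_⟩
    exact hat a ha (cand p) h2 _ (by rw [hZ])

end Pool.Agent.Helper317.PM
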