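import Pool.Agent.Helper317.PMU.Core2

/-!
Back-and-forth with atoms.
-/

namespace Pool.Agent.Helper317.PM

open Pool.Agent.Helper317.SOA Function





theorem lem_getD_map {α : Type} (L : List α) (g : α → ℕ) (i : ℕ) (hi : i < L.length) :
    (L.map g).getD i 0 = g L[i] := by
  rw [List.getD_eq_getElem _ _ (by simpa using hi)]
  simp

/-- existential quantifier -/
def exF (φ : Form) : Form := .neg (.all (.neg φ))

theorem holds_exF (A : Str) (l : List ℕ) (φ : Form) :
    Holds A l (exF φ) ↔ ∃ a ∈ A.dom, Holds A (a :: l) φ := by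
  simp [exF, Holds]

theorem scoped_exF (n : ℕ) (φ : Form) : (exF φ).Scoped n ↔ φ.Scoped (n + 1) := by
  simp [exF, Form.Scoped]

/-- universal closure -/
def allk : ℕ → Form → Form
  | 0, φ => φ
  | k + 1, φ => allk k (.all φ)

theorem holds_allk (A : Str) (k : ℕ) : ∀ (φ : Form),
    Holds A [] (allk k φ) ↔ ∀ l : List ℕ, l.length = k → (∀ x ∈ l, x ∈ A.dom) → Holds A l φ := by
  induction k with
  | zero =>
    intro φ
    constructor
    · intro h l hl _
      rw [List.length_eq_zero_iff] at hl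
      subst hl
      exact h
    · intro h
      exact h [] rfl (by simp)
  | succ k ih =>
    intro φ
    rw [allk, ih]
    constructor
    · intro h l hl hx
      match l, hl with
      | a :: l', hl =>
        exact h l' (by simpa using hl) (fun x hx' => hx x (List.mem_cons_of_mem _ hx')) a
          (hx a (List.mem_cons_self))
    · intro h l hl hx a ha
      refine h (a :: l) (by simp [hl]) ?_
      intro x hx'
      rcases List.mem_cons.1 hx' with rfl | hx'
      · exact ha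
      · exact hx x hx'

theorem scoped_allk (k : ℕ) : ∀ (φ : Form), φ.Scoped k → (allk k φ).Scoped 0 := by
  induction k with
  | zero => intro φ h; exact h
  | succ k ih =>
    intro φ h
    rw [allk]
    exact ih _ h

theorem th_iff {A B : Str} (hTh : Th A = Th B) (φ : Form) (hφ : φ.Scoped 0) :
    Holds A [] φ ↔ Holds B [] φ := by
  constructor
  · intro h
    have : φ.code ∈ Th B := by rw [← hTh]; exact ⟨φ, rfl, hφ, h⟩
    obtain ⟨ψ, h1, _, h3⟩ := this
    rw [code_inj _ _ h1]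
    exact h3
  · intro h
    have : φ.code ∈ Th A := by rw [hTh]; exact ⟨φ, rfl, hφ, h⟩
    obtain ⟨ψ, h1, _, h3⟩ := this
    rw [code_inj _ _ h1]
    exact h3

/-- transfer of atoms -/
theorem atom_type {A B : Str} (hTh : Th A = Th B) (a : List ℕ) (ψ : Form)
    (hψ : ψ.Scoped a.length)
    (hat : ∀ b : List ℕ, b.length = a.length → (∀ x ∈ b, x ∈ A.dom) → Holds A b ψ →
        ∀ χ : Form, χ.Scoped a.length → Holds A a χ → Holds A b χ)
    (b : List ℕ) (hb : b.length = a.length) (hbd : ∀ x ∈ b, x ∈ B.dom) (hbψ : Holds B b ψ)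
    (χ : Form) (hχ : χ.Scoped a.length) : Holds A a χ ↔ Holds B b χ := by
  have key : ∀ χ : Form, χ.Scoped a.length → Holds A a χ → Holds B b χ := by
    intro χ hχ h
    have h1 : Holds A [] (allk a.length (.neg (.and ψ (.neg χ)))) := by
      rw [holds_allk]
      intro l hl hx
      simp only [Holds, not_and, not_not]
      intro h2
      exact hat l hl hx h2 χ hχ h
    have h2 : (allk a.length (.neg (.and ψ (.neg χ)))).Scoped 0 := by
      apply scoped_allk
      exact ⟨hψ, hχ⟩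
    rw [th_iff hTh _ h2, holds_allk] at h1
    have h3 := h1 b hb hbd
    simp only [Holds, not_and, not_not] at h3
    exact h3 hbψ
  constructor
  · exact key χ hχ
  · intro h
    by_contra h1
    have : Holds B b (.neg χ) := key (.neg χ) hχ h1
    exact this h

/-- the invariant -/
structure Inv (A B : Str) (L : List (ℕ × ℕ)) : Prop where
  dom : ∀ p ∈ L, p.1 ∈ A.dom ∧ p.2 ∈ B.dom
  ty : ∀ χ : Form, χ.Scoped L.length →
    (Holds A (L.map Prod.fst) χ ↔ Holds B (L.map Prod.snd) χ)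

theorem Inv.uniq {A B : Str} {L : List (ℕ × ℕ)} (h : Inv A B L) {p q : ℕ × ℕ} (hp : p ∈ L)
    (hq : q ∈ L) : p.1 = q.1 ↔ p.2 = q.2 := by
  obtain ⟨i, hi, rfl⟩ := List.mem_iff_getElem.1 hp
  obtain ⟨j, hj, rfl⟩ := List.mem_iff_getElem.1 hq
  have := h.ty (.eq i j) ⟨hi, hj⟩
  simp only [Holds] at this
  rwa [lem_getD_map _ _ _ hi, lem_getD_map _ _ _ hj, lem_getD_map _ _ _ hi,
    lem_getD_map _ _ _ hj] at this

theorem Inv.rel {A B : Str} {L : List (ℕ × ℕ)} (h : Inv A B L) (r : ℕ) (l : List (ℕ × ℕ))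
    (hl : ∀ p ∈ l, p ∈ L) : A.Rel r (l.map Prod.fst) ↔ B.Rel r (l.map Prod.snd) := by
  have h1 : ∀ p : ℕ × ℕ, ∃ i, p ∈ L → ∃ hi : i < L.length, L[i] = p := by
    intro p
    by_cases hp : p ∈ L
    · obtain ⟨i, hi, h2⟩ := List.mem_iff_getElem.1 hp
      exact ⟨i, fun _ => ⟨hi, h2⟩⟩
    · exact ⟨0, fun h => absurd h hp⟩
  choose g hg using h1
  have h2 := h.ty (.rel r (l.map g)) (by
    intro i hi
    obtain ⟨p, hp, rfl⟩ := List.mem_map.1 hi
    exact (hg p (hl p hp)).1)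
  simp only [Holds, List.map_map] at h2
  have h3 : List.map ((fun i => (L.map Prod.fst).getD i 0) ∘ g) l = l.map Prod.fst := by
    apply List.map_congr_left
    intro p hp
    obtain ⟨hi, h4⟩ := hg p (hl p hp)
    simp only [Function.comp]
    rw [lem_getD_map _ _ _ hi, h4]
  have h5 : List.map ((fun i => (L.map Prod.snd).getD i 0) ∘ g) l = l.map Prod.snd := by
    apply List.map_congr_left
    intro p hp
    obtain ⟨hi, h4⟩ := hg p (hl p hp)
    simp only [Function.comp]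
    rw [lem_getD_map _ _ _ hi, h4]
  rwa [h3, h5] at h2

theorem Inv.nil {A B : Str} (hTh : Th A = Th B) : Inv A B [] where
  dom := by simp
  ty := fun χ hχ => th_iff hTh χ hχ

theorem ext_inv {A B : Str} (hTh : Th A = Th B) {D : Set ℕ} (hD : IsAt A D)
    {L : List (ℕ × ℕ)} {x y c : ℕ}
    (h1 : Nat.pair (lcode (x :: L.map Prod.fst)) c ∈ D)
    (h2 : Nat.pair c (lcode (y :: L.map Prod.snd)) ∈ diag B) : Inv A B ((x, y) :: L) := by
  obtain ⟨hx, ψ, hc, hψ, hψA, hat⟩ := hD.2 _ _ h1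
  rw [← hc, mem_diag] at h2
  obtain ⟨_, hy, hψB⟩ := h2
  constructor
  · intro p hp
    constructor
    · apply hx
      have := List.mem_map_of_mem (f := Prod.fst) hp
      simpa using this
    · apply hy
      have := List.mem_map_of_mem (f := Prod.snd) hp
      simpa using this
  · intro χ hχ
    have := atom_type hTh (x :: L.map Prod.fst) ψ hψ hat (y :: L.map Prod.snd) (by simp) hy hψB χ
      (by simpa using hχ)
    simpa using this

theorem ex_even {A B : Str} {D : Set ℕ} (hD : IsAt A D)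
    {L : List (ℕ × ℕ)} (hL : Inv A B L) {x : ℕ} (hx : x ∈ A.dom) :
    ∃ p : ℕ, Nat.pair (lcode (x :: L.map Prod.fst)) p.unpair.1 ∈ D ∧
      Nat.pair p.unpair.1 (lcode (p.unpair.2 :: L.map Prod.snd)) ∈ diag B := by
  have hxa : ∀ z ∈ x :: L.map Prod.fst, z ∈ A.dom := by
    intro z hz
    rcases List.mem_cons.1 hz with rfl | hz
    · exact hx
    · obtain ⟨p, hp, rfl⟩ := List.mem_map.1 hz
      exact (hL.dom p hp).1
  obtain ⟨c, hc⟩ := hD.1 _ hxa
  obtain ⟨_, ψ, hc', hψ, hψA, hat⟩ := hD.2 _ _ hc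
  have h1 : Holds A (L.map Prod.fst) (exF ψ) := by
    rw [holds_exF]
    exact ⟨x, hx, hψA⟩
  have h2 : (exF ψ).Scoped L.length := by
    rw [scoped_exF]; simpa using hψ
  rw [hL.ty _ h2, holds_exF] at h1
  obtain ⟨y, hy, hyψ⟩ := h1
  refine ⟨Nat.pair c y, ?_, ?_⟩
  · simpa using hc
  · simp only [Nat.unpair_pair]
    rw [← hc', mem_diag]
    refine ⟨by simpa using hψ, ?_, hyψ⟩
    intro z hz
    rcases List.mem_cons.1 hz with rfl | hz
    · exact hy
    · obtain ⟨p, hp, rfl⟩ := List.mem_map.1 hz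
      exact (hL.dom p hp).2

theorem ex_odd {A B : Str} {D : Set ℕ} (hD : IsAt A D)
    {e : ℕ → ℕ} (he : ElemEmb B A e)
    {L : List (ℕ × ℕ)} (hL : Inv A B L) {y : ℕ} (hy : y ∈ B.dom) :
    ∃ p : ℕ, Nat.pair (lcode (p.unpair.2 :: L.map Prod.fst)) p.unpair.1 ∈ D ∧
      Nat.pair p.unpair.1 (lcode (y :: L.map Prod.snd)) ∈ diag B := by
  have hyb : ∀ z ∈ y :: L.map Prod.snd, z ∈ B.dom := by
    intro z hz
    rcases List.mem_cons.1 hz with rfl | hz
    · exact hy
    · obtain ⟨p, hp, rfl⟩ := List.mem_map.1 hz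
      exact (hL.dom p hp).2
  have ha2 : ∀ z ∈ (y :: L.map Prod.snd).map e, z ∈ A.dom := by
    intro z hz
    obtain ⟨w, hw, rfl⟩ := List.mem_map.1 hz
    exact he.1 w (hyb w hw)
  obtain ⟨c, hc⟩ := hD.1 _ ha2
  obtain ⟨_, ψ, hc', hψ, hψA, hat⟩ := hD.2 _ _ hc
  have hlen : ((y :: L.map Prod.snd).map e).length = L.length + 1 := by simp
  have hlen2 : (y :: L.map Prod.snd).length = L.length + 1 := by simp
  rw [hlen] at hψ
  have h0 : Holds B (y :: L.map Prod.snd) ψ :=
    (he.2 ψ _ (by rw [hlen2]; exact hψ) hyb).2 hψA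
  have h1 : Holds B (L.map Prod.snd) (exF ψ) := by
    rw [holds_exF]
    exact ⟨y, hy, h0⟩
  have h2 : (exF ψ).Scoped L.length := by
    rw [scoped_exF]; exact hψ
  rw [← hL.ty _ h2, holds_exF] at h1
  obtain ⟨x, hx, hxψ⟩ := h1
  have hxa : ∀ z ∈ x :: L.map Prod.fst, z ∈ A.dom := by
    intro z hz
    rcases List.mem_cons.1 hz with rfl | hz
    · exact hx
    · obtain ⟨p, hp, rfl⟩ := List.mem_map.1 hz
      exact (hL.dom p hp).1
  have hlen3 : (x :: L.map Prod.fst).length = L.length + 1 := by simp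
  have hat2 : ∀ χ : Form, χ.Scoped (L.length + 1) → (Holds A ((y :: L.map Prod.snd).map e) χ ↔
      Holds A (x :: L.map Prod.fst) χ) := by
    have key : ∀ χ : Form, χ.Scoped (L.length + 1) → Holds A ((y :: L.map Prod.snd).map e) χ →
      Holds A (x :: L.map Prod.fst) χ := by
      intro χ hχ h
      exact hat (x :: L.map Prod.fst) (by rw [hlen3, hlen]) hxa hxψ χ (by rw [hlen]; exact hχ) h
    intro χ hχ
    constructor
    · exact key χ hχ
    · intro h
      by_contra h3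
      exact key (.neg χ) hχ h3 h
  obtain ⟨c', hc1⟩ := hD.1 _ hxa
  obtain ⟨_, ψ', hc1', hψ', hψA', hat'⟩ := hD.2 _ _ hc1
  rw [hlen3] at hψ'
  have h4 : Holds B (y :: L.map Prod.snd) ψ' := by
    rw [he.2 ψ' _ (by rw [hlen2]; exact hψ') hyb, hat2 ψ' hψ']
    exact hψA'
  refine ⟨Nat.pair c' x, ?_, ?_⟩
  · simpa using hc1
  · simp only [Nat.unpair_pair]
    rw [← hc1', mem_diag]
    exact ⟨by rw [hlen2]; exact hψ', hyb, h4⟩

open Classical in
/-- search -/
noncomputable def fnd (P : ℕ → Prop) : Option ℕ := if H : ∃ p, P p then some (Nat.find H) else none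

theorem fnd_some {P : ℕ → Prop} (h : ∃ p, P p) : ∃ p, P p ∧ fnd P = some p := by
  classical
  refine ⟨Nat.find h, Nat.find_spec h, ?_⟩
  rw [fnd, dif_pos h]

theorem findLocal {P : ℕ → Prop} (h : ∃ p, P p) : ∃ p0, ∀ P' : ℕ → Prop,
    (∀ p ≤ p0, (P' p ↔ P p)) → fnd P' = fnd P := by
  classical
  refine ⟨Nat.find h, ?_⟩
  intro P' hP'
  have h' : ∃ p, P' p := ⟨Nat.find h, (hP' _ le_rfl).2 (Nat.find_spec h)⟩
  have h1 : Nat.find h' = Nat.find h := by
    rw [Nat.find_eq_iff]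
    refine ⟨(hP' _ le_rfl).2 (Nat.find_spec h), ?_⟩
    intro n hn
    rw [hP' n hn.le]
    exact Nat.find_min h hn
  rw [fnd, fnd, dif_pos h, dif_pos h', h1]

/-- condition searched for -/
def PE (ZB ZD : ℕ → Bool) (L : List (ℕ × ℕ)) (x : ℕ) (p : ℕ) : Prop :=
  ZD (Nat.pair (lcode (x :: L.map Prod.fst)) p.unpair.1) = true ∧
    ZB (Nat.pair p.unpair.1 (lcode (p.unpair.2 :: L.map Prod.snd))) = true

def PO (ZB ZD : ℕ → Bool) (L : List (ℕ × ℕ)) (y : ℕ) (p : ℕ) : Prop :=
  ZD (Nat.pair (lcode (p.unpair.2 :: L.map Prod.fst)) p.unpair.1) = true ∧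
    ZB (Nat.pair p.unpair.1 (lcode (y :: L.map Prod.snd))) = true

open Classical in
theorem bfs_even (ZA ZB ZD : ℕ → Bool) (n : ℕ) (hn : n % 2 = 0) : bfs ZA ZB ZD (n + 1) =
    if hd ZA (.eq 0 0) [n / 2] ∧ n / 2 ∉ (bfs ZA ZB ZD n).map Prod.fst then
      match fnd (PE ZB ZD (bfs ZA ZB ZD n) (n / 2)) with
      | some p => (n / 2, p.unpair.2) :: bfs ZA ZB ZD n
      | none => bfs ZA ZB ZD n
    else bfs ZA ZB ZD n := by
  rw [bfs]
  simp only [hn, if_true]
  by_cases hc : hd ZA (.eq 0 0) [n / 2] ∧ n / 2 ∉ (bfs ZA ZB ZD n).map Prod.fst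
  · rw [if_pos hc, if_pos hc]
    by_cases H : ∃ p, PE ZB ZD (bfs ZA ZB ZD n) (n / 2) p
    · rw [fnd, dif_pos H]
      rw [dif_pos (show ∃ p : ℕ, ZD (Nat.pair (lcode (n / 2 :: (bfs ZA ZB ZD n).map Prod.fst)) p.unpair.1) = true ∧
            ZB (Nat.pair p.unpair.1 (lcode (p.unpair.2 :: (bfs ZA ZB ZD n).map Prod.snd))) = true from H)]
      have : ∀ (q q' : ℕ) (L : List (ℕ × ℕ)), q = q' → (n / 2, q.unpair.2) :: L = (n / 2, q'.unpair.2) :: L := by
        intro q q' L h; rw [h]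
      apply this
      exact Nat.find_congr' (fun {_} => Iff.rfl)
    · rw [fnd, dif_neg H]
      rw [dif_neg (show ¬ ∃ p : ℕ, ZD (Nat.pair (lcode (n / 2 :: (bfs ZA ZB ZD n).map Prod.fst)) p.unpair.1) = true ∧
            ZB (Nat.pair p.unpair.1 (lcode (p.unpair.2 :: (bfs ZA ZB ZD n).map Prod.snd))) = true from H)]
  · rw [if_neg hc, if_neg hc]

open Classical in
theorem bfs_odd (ZA ZB ZD : ℕ → Bool) (n : ℕ) (hn : ¬ n % 2 = 0) : bfs ZA ZB ZD (n + 1) =
    if hd ZB (.eq 0 0) [n / 2] ∧ n / 2 ∉ (bfs ZA ZB ZD n).map Prod.snd then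
      match fnd (PO ZB ZD (bfs ZA ZB ZD n) (n / 2)) with
      | some p => (p.unpair.2, n / 2) :: bfs ZA ZB ZD n
      | none => bfs ZA ZB ZD n
    else bfs ZA ZB ZD n := by
  rw [bfs]
  simp only [hn, if_false]
  by_cases hc : hd ZB (.eq 0 0) [n / 2] ∧ n / 2 ∉ (bfs ZA ZB ZD n).map Prod.snd
  · rw [if_pos hc, if_pos hc]
    by_cases H : ∃ p, PO ZB ZD (bfs ZA ZB ZD n) (n / 2) p
    · rw [fnd, dif_pos H]
      rw [dif_pos (show ∃ p : ℕ, ZD (Nat.pair (lcode (p.unpair.2 :: (bfs ZA ZB ZD n).map Prod.fst)) p.unpair.1) = true ∧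
            ZB (Nat.pair p.unpair.1 (lcode (n / 2 :: (bfs ZA ZB ZD n).map Prod.snd))) = true from H)]
      have : ∀ (q q' : ℕ) (L : List (ℕ × ℕ)), q = q' → (q.unpair.2, n / 2) :: L = (q'.unpair.2, n / 2) :: L := by
        intro q q' L h; rw [h]
      apply this
      exact Nat.find_congr' (fun {_} => Iff.rfl)
    · rw [fnd, dif_neg H]
      rw [dif_neg (show ¬ ∃ p : ℕ, ZD (Nat.pair (lcode (p.unpair.2 :: (bfs ZA ZB ZD n).map Prod.fst)) p.unpair.1) = true ∧
            ZB (Nat.pair p.unpair.1 (lcode (n / 2 :: (bfs ZA ZB ZD n).map Prod.snd))) = true from H)]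
  · rw [if_neg hc, if_neg hc]

theorem chr_iff (X : Set ℕ) (n : ℕ) : chr X n = true ↔ n ∈ X := by
  simp [chr]

theorem hd_chr (A : Str) (n : ℕ) : hd (chr (diag A)) (.eq 0 0) [n] ↔ n ∈ A.dom := by
  rw [hd, chr_iff, mem_diag]
  simp [Form.Scoped, Holds]

theorem ex_PE {A B : Str} {D : Set ℕ} (hD : IsAt A D)
    {L : List (ℕ × ℕ)} (hL : Inv A B L) {x : ℕ} (hx : x ∈ A.dom) :
    ∃ p, PE (chr (diag B)) (chr D) L x p := by
  obtain ⟨p, h1, h2⟩ := ex_even hD hL hx
  exact ⟨p, (chr_iff _ _).2 h1, (chr_iff _ _).2 h2⟩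

theorem ex_PO {A B : Str} {D : Set ℕ} (hD : IsAt A D)
    {e : ℕ → ℕ} (he : ElemEmb B A e)
    {L : List (ℕ × ℕ)} (hL : Inv A B L) {y : ℕ} (hy : y ∈ B.dom) :
    ∃ p, PO (chr (diag B)) (chr D) L y p := by
  obtain ⟨p, h1, h2⟩ := ex_odd hD he hL hy
  exact ⟨p, (chr_iff _ _).2 h1, (chr_iff _ _).2 h2⟩

theorem bfs_inv {A B : Str} (hTh : Th A = Th B) {D : Set ℕ} (hD : IsAt A D) {e : ℕ → ℕ}
    (he : ElemEmb B A e) (n : ℕ) : Inv A B (bfs (chr (diag A)) (chr (diag B)) (chr D) n) := by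
  induction n with
  | zero => exact Inv.nil hTh
  | succ n ih =>
    by_cases hn : n % 2 = 0
    · rw [bfs_even _ _ _ _ hn]
      split_ifs with hc
      · rw [hd_chr] at hc
        obtain ⟨p, hp, hf⟩ := fnd_some (ex_PE hD ih hc.1)
        rw [hf]
        exact ext_inv hTh hD ((chr_iff _ _).1 hp.1) ((chr_iff _ _).1 hp.2)
      · exact ih
    · rw [bfs_odd _ _ _ _ hn]
      split_ifs with hc
      · rw [hd_chr] at hc
        obtain ⟨p, hp, hf⟩ := fnd_some (ex_PO hD he ih hc.1)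
        rw [hf]
        exact ext_inv hTh hD ((chr_iff _ _).1 hp.1) ((chr_iff _ _).1 hp.2)
      · exact ih

theorem bfs_mono (ZA ZB ZD : ℕ → Bool) {m n : ℕ} (h : m ≤ n) (q : ℕ × ℕ)
    (hq : q ∈ bfs ZA ZB ZD m) : q ∈ bfs ZA ZB ZD n := by
  induction n, h using Nat.le_induction with
  | base => exact hq
  | succ n _ ih =>
    by_cases hn : n % 2 = 0
    · rw [bfs_even _ _ _ _ hn]
      split_ifs
      · cases fnd (PE ZB ZD (bfs ZA ZB ZD n) (n / 2)) with
        | none => exact ih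
        | some p => exact List.mem_cons_of_mem _ ih
      · exact ih
    · rw [bfs_odd _ _ _ _ hn]
      split_ifs
      · cases fnd (PO ZB ZD (bfs ZA ZB ZD n) (n / 2)) with
        | none => exact ih
        | some p => exact List.mem_cons_of_mem _ ih
      · exact ih

theorem bfs_total {A B : Str} (hTh : Th A = Th B) {D : Set ℕ} (hD : IsAt A D) {e : ℕ → ℕ}
    (he : ElemEmb B A e) {a : ℕ} (ha : a ∈ A.dom) :
    ∃ b, (a, b) ∈ bfs (chr (diag A)) (chr (diag B)) (chr D) (2 * a + 1) := by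
  have hn : (2 * a) % 2 = 0 := by omega
  have hn2 : (2 * a) / 2 = a := by omega
  have hI := bfs_inv hTh hD he (2 * a)
  rw [bfs_even _ _ _ _ hn, hn2]
  split_ifs with hc
  · obtain ⟨p, hp, hf⟩ := fnd_some (ex_PE hD hI ha)
    rw [hf]
    exact ⟨_, List.mem_cons_self⟩
  · rw [hd_chr] at hc
    have : a ∈ (bfs (chr (diag A)) (chr (diag B)) (chr D) (2 * a)).map Prod.fst := by
      by_contra h
      exact hc ⟨ha, h⟩
    obtain ⟨p, hp, h⟩ := List.mem_map.1 this
    subst h
    exact ⟨p.2, hp⟩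

theorem bfs_surj {A B : Str} (hTh : Th A = Th B) {D : Set ℕ} (hD : IsAt A D) {e : ℕ → ℕ}
    (he : ElemEmb B A e) {b : ℕ} (hb : b ∈ B.dom) :
    ∃ a, (a, b) ∈ bfs (chr (diag A)) (chr (diag B)) (chr D) (2 * b + 1 + 1) := by
  have hn : ¬ (2 * b + 1) % 2 = 0 := by omega
  have hn2 : (2 * b + 1) / 2 = b := by omega
  have hI := bfs_inv hTh hD he (2 * b + 1)
  rw [bfs_odd _ _ _ _ hn, hn2]
  split_ifs with hc
  · obtain ⟨p, hp, hf⟩ := fnd_some (ex_PO hD he hI hb)
    rw [hf]
    exact ⟨_, List.mem_cons_self⟩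
  · rw [hd_chr] at hc
    have : b ∈ (bfs (chr (diag A)) (chr (diag B)) (chr D) (2 * b + 1)).map Prod.snd := by
      by_contra h
      exact hc ⟨hb, h⟩
    obtain ⟨p, hp, h⟩ := List.mem_map.1 this
    subst h
    exact ⟨p.1, hp⟩

theorem psI_local (ZA ZB ZD : ℕ → Bool)
    (hstep : ∀ k, ∃ w, ∀ ZA' ZB' ZD' : ℕ → Bool, (∀ n < w, ZA' n = ZA n) →
      (∀ n < w, ZB' n = ZB n) → (∀ n < w, ZD' n = ZD n) → bfs ZA' ZB' ZD' k = bfs ZA ZB ZD k)
    (k : ℕ) :
    ∃ w, ∀ ZA' ZB' ZD' : ℕ → Bool, (∀ n < w, ZA' n = ZA n) → (∀ n < w, ZB' n = ZB n) →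
      (∀ n < w, ZD' n = ZD n) → (PsI ZA' ZB' ZD' k ↔ PsI ZA ZB ZD k) := by
  have h : ∀ ZA ZB ZD : ℕ → Bool, PsI ZA ZB ZD k ↔
      (k.unpair.1, k.unpair.2) ∈ bfs ZA ZB ZD (2 * k.unpair.1 + 1) := by
    intro ZA ZB ZD
    constructor
    · rintro ⟨a, b, rfl, h⟩
      simpa using h
    · intro h
      exact ⟨_, _, (Nat.pair_unpair k).symm, h⟩
  obtain ⟨w, hw⟩ := hstep (2 * k.unpair.1 + 1)
  refine ⟨w, ?_⟩
  intro ZA' ZB' ZD' h1 h2 h3
  rw [h, h, hw ZA' ZB' ZD' h1 h2 h3]

theorem bound_exists (g : ℕ → ℕ) (p0 : ℕ) : ∃ w, ∀ p ≤ p0, g p < w := by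
  refine ⟨∑ p ∈ Finset.range (p0 + 1), g p + 1, ?_⟩
  intro p hp
  have : g p ≤ ∑ p ∈ Finset.range (p0 + 1), g p :=
    Finset.single_le_sum (f := g) (fun _ _ => Nat.zero_le _) (Finset.mem_range.2 (by omega))
  omega

theorem bfs_local {A B : Str} (hTh : Th A = Th B) {D : Set ℕ} (hD : IsAt A D) {e : ℕ → ℕ}
    (he : ElemEmb B A e) (k : ℕ) :
    ∃ w, ∀ ZA' ZB' ZD' : ℕ → Bool, (∀ n < w, ZA' n = chr (diag A) n) →
      (∀ n < w, ZB' n = chr (diag B) n) → (∀ n < w, ZD' n = chr D n) →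
      bfs ZA' ZB' ZD' k = bfs (chr (diag A)) (chr (diag B)) (chr D) k := by
  induction k with
  | zero => exact ⟨0, fun _ _ _ _ _ _ => rfl⟩
  | succ n ih =>
    obtain ⟨w0, hw0⟩ := ih
    have hI := bfs_inv hTh hD he n
    set L := bfs (chr (diag A)) (chr (diag B)) (chr D) n with hL
    set m1 := Nat.pair (Form.eq 0 0).code (lcode [n / 2]) with hm1
    by_cases hn : n % 2 = 0
    · by_cases hc : hd (chr (diag A)) (.eq 0 0) [n / 2] ∧ n / 2 ∉ L.map Prod.fst
      · obtain ⟨p0, hp0⟩ := findLocal (ex_PE hD hI ((hd_chr _ _).1 hc.1))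
        obtain ⟨w1, hw1⟩ := bound_exists
          (fun p => Nat.pair (lcode (n / 2 :: L.map Prod.fst)) p.unpair.1) p0
        obtain ⟨w2, hw2⟩ := bound_exists
          (fun p => Nat.pair p.unpair.1 (lcode (p.unpair.2 :: L.map Prod.snd))) p0
        refine ⟨w0 + w1 + w2 + (m1 + 1), ?_⟩
        intro ZA' ZB' ZD' h1 h2 h3
        have hLL : bfs ZA' ZB' ZD' n = L := hw0 ZA' ZB' ZD' (fun i hi => h1 i (by omega))
          (fun i hi => h2 i (by omega)) (fun i hi => h3 i (by omega))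
        rw [bfs_even _ _ _ _ hn, bfs_even _ _ _ _ hn, hLL, ← hL]
        have hhd : hd ZA' (.eq 0 0) [n / 2] := by
          have := hc.1
          rw [hd] at this ⊢
          rw [h1 _ (by rw [← hm1]; omega)]
          exact this
        rw [if_pos hc, if_pos ⟨hhd, hc.2⟩]
        rw [hp0]
        intro p hp
        have e1 := hw1 p hp
        have e2 := hw2 p hp
        rw [PE, PE, h3 _ (by omega), h2 _ (by omega)]
      · refine ⟨w0 + (m1 + 1), ?_⟩
        intro ZA' ZB' ZD' h1 h2 h3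
        have hLL : bfs ZA' ZB' ZD' n = L := hw0 ZA' ZB' ZD' (fun i hi => h1 i (by omega))
          (fun i hi => h2 i (by omega)) (fun i hi => h3 i (by omega))
        rw [bfs_even _ _ _ _ hn, bfs_even _ _ _ _ hn, hLL, ← hL]
        have hc' : ¬ (hd ZA' (.eq 0 0) [n / 2] ∧ n / 2 ∉ L.map Prod.fst) := by
          intro h
          apply hc
          refine ⟨?_, h.2⟩
          have := h.1
          rw [hd] at this ⊢
          rw [h1 _ (by rw [← hm1]; omega)] at this
          exact this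
        rw [if_neg hc, if_neg hc']
    · by_cases hc : hd (chr (diag B)) (.eq 0 0) [n / 2] ∧ n / 2 ∉ L.map Prod.snd
      · obtain ⟨p0, hp0⟩ := findLocal (ex_PO hD he hI ((hd_chr _ _).1 hc.1))
        obtain ⟨w1, hw1⟩ := bound_exists
          (fun p => Nat.pair (lcode (p.unpair.2 :: L.map Prod.fst)) p.unpair.1) p0
        obtain ⟨w2, hw2⟩ := bound_exists
          (fun p => Nat.pair p.unpair.1 (lcode (n / 2 :: L.map Prod.snd))) p0
        refine ⟨w0 + w1 + w2 + (m1 + 1), ?_⟩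
        intro ZA' ZB' ZD' h1 h2 h3
        have hLL : bfs ZA' ZB' ZD' n = L := hw0 ZA' ZB' ZD' (fun i hi => h1 i (by omega))
          (fun i hi => h2 i (by omega)) (fun i hi => h3 i (by omega))
        rw [bfs_odd _ _ _ _ hn, bfs_odd _ _ _ _ hn, hLL, ← hL]
        have hhd : hd ZB' (.eq 0 0) [n / 2] := by
          have := hc.1
          rw [hd] at this ⊢
          rw [h2 _ (by rw [← hm1]; omega)]
          exact this
        rw [if_pos hc, if_pos ⟨hhd, hc.2⟩]
        rw [hp0]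
        intro p hp
        have e1 := hw1 p hp
        have e2 := hw2 p hp
        rw [PO, PO, h3 _ (by omega), h2 _ (by omega)]
      · refine ⟨w0 + (m1 + 1), ?_⟩
        intro ZA' ZB' ZD' h1 h2 h3
        have hLL : bfs ZA' ZB' ZD' n = L := hw0 ZA' ZB' ZD' (fun i hi => h1 i (by omega))
          (fun i hi => h2 i (by omega)) (fun i hi => h3 i (by omega))
        rw [bfs_odd _ _ _ _ hn, bfs_odd _ _ _ _ hn, hLL, ← hL]
        have hc' : ¬ (hd ZB' (.eq 0 0) [n / 2] ∧ n / 2 ∉ L.map Prod.snd) := by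
          intro h
          apply hc
          refine ⟨?_, h.2⟩
          have := h.1
          rw [hd] at this ⊢
          rw [h2 _ (by rw [← hm1]; omega)] at this
          exact this
        rw [if_neg hc, if_neg hc']

theorem iso_exists {A B : Str} (hTh : Th A = Th B) {D : Set ℕ} (hD : IsAt A D) {e : ℕ → ℕ}
    (he : ElemEmb B A e) :
    ∃ f, IsIso A B f ∧
      gr A f = {k | PsI (chr (diag A)) (chr (diag B)) (chr D) k} := by
  have h0 : ∀ a, ∃ b, a ∈ A.dom → (a, b) ∈ bfs (chr (diag A)) (chr (diag B)) (chr D) (2 * a + 1) := by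
    intro a
    by_cases ha : a ∈ A.dom
    · obtain ⟨b, hb⟩ := bfs_total hTh hD he ha
      exact ⟨b, fun _ => hb⟩
    · exact ⟨0, fun h => absurd h ha⟩
  choose f hf using h0
  have huniq : ∀ m n (p q : ℕ × ℕ), p ∈ bfs (chr (diag A)) (chr (diag B)) (chr D) m →
      q ∈ bfs (chr (diag A)) (chr (diag B)) (chr D) n → (p.1 = q.1 ↔ p.2 = q.2) := by
    intro m n p q hp hq
    exact (bfs_inv hTh hD he (max m n)).uniq (bfs_mono _ _ _ (le_max_left _ _) _ hp)
      (bfs_mono _ _ _ (le_max_right _ _) _ hq)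
  refine ⟨f, ⟨?_, ?_, ?_, ?_⟩, ?_⟩
  · intro a ha
    exact ((bfs_inv hTh hD he _).dom _ (hf a ha)).2
  · intro a ha b hb hab
    exact (huniq _ _ _ _ (hf a ha) (hf b hb)).2 hab
  · intro b hb
    obtain ⟨a, ha⟩ := bfs_surj hTh hD he hb
    have haA : a ∈ A.dom := ((bfs_inv hTh hD he _).dom _ ha).1
    exact ⟨a, haA, (huniq _ _ _ _ (hf a haA) ha).1 rfl⟩
  · intro r l hl
    have hN : ∃ N, ∀ a ∈ l, (a, f a) ∈ bfs (chr (diag A)) (chr (diag B)) (chr D) N := by
      refine ⟨2 * l.sum + 1, ?_⟩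
      intro a ha
      apply bfs_mono _ _ _ _ _ (hf a (hl a ha))
      have := List.single_le_sum (l := l) (fun _ _ => Nat.zero_le _) a ha
      omega
    obtain ⟨N, hN⟩ := hN
    have := (bfs_inv hTh hD he N).rel r (l.map fun a => (a, f a)) (by
      intro p hp
      obtain ⟨a, ha, rfl⟩ := List.mem_map.1 hp
      exact hN a ha)
    rw [List.map_map, List.map_map] at this
    have e1 : List.map (Prod.fst ∘ fun a => (a, f a)) l = l := by
      have : (Prod.fst ∘ fun a : ℕ => (a, f a)) = id := by funext a; rfl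
      rw [this, List.map_id]
    have e2 : List.map (Prod.snd ∘ fun a => (a, f a)) l = l.map f := rfl
    rw [e1, e2] at this
    exact this
  · ext k
    constructor
    · rintro ⟨a, ha, rfl⟩
      exact ⟨a, f a, rfl, hf a ha⟩
    · rintro ⟨a, b, rfl, h⟩
      have haA : a ∈ A.dom := ((bfs_inv hTh hD he _).dom _ h).1
      refine ⟨a, haA, ?_⟩
      have := (huniq _ _ _ _ (hf a haA) h).1 rfl
      simp only at this
      rw [this]

/-- no entry equals the first one -/
def noneq : ℕ → Form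
  | 0 => .eq 0 0
  | k + 1 => .and (noneq k) (.neg (.eq 0 (k + 1)))

theorem holds_noneq (A : Str) (x : ℕ) (l : List ℕ) (k : ℕ) :
    Holds A (x :: l) (noneq k) ↔ ∀ i < k, x ≠ l.getD i 0 := by
  induction k with
  | zero => simp [noneq, Holds]
  | succ k ih =>
    rw [noneq]
    simp only [Holds]
    rw [ih]
    constructor
    · rintro ⟨h1, h2⟩ i hi
      rcases Nat.lt_succ_iff_lt_or_eq.1 hi with h | rfl
      · exact h1 i h
      · simpa using h2
    · intro h
      exact ⟨fun i hi => h i (by omega), by simpa using h k (by omega)⟩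

theorem scoped_noneq (n k : ℕ) (h : k < n) : (noneq k).Scoped n := by
  induction k with
  | zero => exact ⟨h, h⟩
  | succ k ih => exact ⟨ih (by omega), ⟨by omega, h⟩⟩

theorem fin_iso {A B : Str} (hA : A.dom.Finite) {f : ℕ → ℕ} (hf : ElemEmb A B f) :
    IsIso A B f := by
  refine ⟨hf.1, ?_, ?_, ?_⟩
  · intro a ha b hb hab
    have := hf.2 (.eq 0 1) [a, b] (by simp [Form.Scoped]) (by
      intro x hx
      simp only [List.mem_cons, List.not_mem_nil, or_false] at hx
      rcases hx with rfl | rfl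
      · exact ha
      · exact hb)
    simp only [Holds, List.map] at this
    exact this.2 (by simpa using hab)
  · intro y hy
    have hl : ∀ a, a ∈ hA.toFinset.toList ↔ a ∈ A.dom := by intro a; simp
    set l := hA.toFinset.toList with hldef
    have h1 : Holds A l (.all (.neg (noneq l.length))) := by
      intro x hx
      simp only [Holds]
      rw [holds_noneq]
      intro h
      obtain ⟨i, hi, h2⟩ := List.mem_iff_getElem.1 ((hl x).2 hx)
      apply h i hi
      rw [List.getD_eq_getElem _ _ hi, h2]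
    rw [hf.2 (.all (.neg (noneq l.length))) l (scoped_noneq (l.length + 1) l.length (Nat.lt_succ_self _))
      (fun a ha => (hl a).1 ha)] at h1
    have h2 := h1 y hy
    simp only [Holds] at h2
    rw [holds_noneq] at h2
    push Not at h2
    obtain ⟨i, hi, h3⟩ := h2
    rw [lem_getD_map _ _ _ hi] at h3
    exact ⟨l[i], (hl _).1 (List.getElem_mem hi), h3.symm⟩
  · intro r l hl
    have := hf.2 (.rel r (List.range l.length)) l (by
      intro i hi
      simpa using hi) hl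
    simp only [Holds] at this
    have e1 : (List.range l.length).map (fun i => l.getD i 0) = l := by
      apply List.ext_getElem
      · simp
      · intro i h1 h2
        simp [h2]
    have e2 : (List.range l.length).map (fun i => (l.map f).getD i 0) = l.map f := by
      apply List.ext_getElem
      · simp
      · intro i h1 h2
        simp only [List.length_map] at h2
        simp [h2]
    rwa [e1, e2] at this

end Pool.Agent.Helper317.PM
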