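import Pool.Agent.Helper317.PMU.Core2

/-!
`RCA0` from comprehension for `Delta^0_1` formulas.
-/

namespace Pool.Agent.Helper317.PM

open Pool.Agent.Helper317.SOA Function

theorem tm_congr15 (M : Model) (t : Tm) : ∃ N : ℕ, ∀ v v' : ℕ → M.Num, (∀ n < N, v n = v' n) →
    t.val M v = t.val M v' := by
  induction t with
  | var i => exact ⟨i + 1, fun v v' h => h i (Nat.lt_succ_self i)⟩
  | zero => exact ⟨0, fun v v' h => rfl⟩
  | one => exact ⟨0, fun v v' h => rfl⟩
  | add s t hs ht =>
    obtain ⟨N, hN⟩ := hs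
    obtain ⟨N', hN'⟩ := ht
    refine ⟨max N N', fun v v' h => ?_⟩
    have h1 := hN v v' (fun n hn => h n (lt_of_lt_of_le hn (le_max_left _ _)))
    have h2 := hN' v v' (fun n hn => h n (lt_of_lt_of_le hn (le_max_right _ _)))
    simp only [Tm.val, h1, h2]
  | mul s t hs ht =>
    obtain ⟨N, hN⟩ := hs
    obtain ⟨N', hN'⟩ := ht
    refine ⟨max N N', fun v v' h => ?_⟩
    have h1 := hN v v' (fun n hn => h n (lt_of_lt_of_le hn (le_max_left _ _)))
    have h2 := hN' v v' (fun n hn => h n (lt_of_lt_of_le hn (le_max_right _ _)))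
    simp only [Tm.val, h1, h2]

theorem upd_agree15 {α : Type} (N i : ℕ) (a : α) (v v' : ℕ → α) (h : ∀ n < N, v n = v' n) :
    ∀ n < N, update v i a n = update v' i a n := by
  intro n hn
  by_cases hni : n = i
  · subst hni; simp
  · rw [update_of_ne hni, update_of_ne hni]; exact h n hn

theorem sat_congr15 (M : Model) (φ : Fm) : ∃ N : ℕ, ∀ (v v' : ℕ → M.Num) (V V' : ℕ → Set M.Num),
    (∀ n < N, v n = v' n) → (∀ n < N, V n = V' n) → (Sat M v V φ ↔ Sat M v' V' φ) := by
  induction φ with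
  | eq s t =>
    obtain ⟨N, hN⟩ := tm_congr15 M s
    obtain ⟨N', hN'⟩ := tm_congr15 M t
    refine ⟨max N N', fun v v' V V' h _ => ?_⟩
    have h1 := hN v v' (fun n hn => h n (lt_of_lt_of_le hn (le_max_left _ _)))
    have h2 := hN' v v' (fun n hn => h n (lt_of_lt_of_le hn (le_max_right _ _)))
    simp only [Sat, h1, h2]
  | lt s t =>
    obtain ⟨N, hN⟩ := tm_congr15 M s
    obtain ⟨N', hN'⟩ := tm_congr15 M t
    refine ⟨max N N', fun v v' V V' h _ => ?_⟩
    have h1 := hN v v' (fun n hn => h n (lt_of_lt_of_le hn (le_max_left _ _)))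
    have h2 := hN' v v' (fun n hn => h n (lt_of_lt_of_le hn (le_max_right _ _)))
    simp only [Sat, h1, h2]
  | mem t i =>
    obtain ⟨N, hN⟩ := tm_congr15 M t
    refine ⟨max N (i + 1), fun v v' V V' h hV => ?_⟩
    have h1 := hN v v' (fun n hn => h n (lt_of_lt_of_le hn (le_max_left _ _)))
    have h2 := hV i (lt_of_lt_of_le (Nat.lt_succ_self i) (le_max_right _ _))
    simp only [Sat, h1, h2]
  | neg φ ih =>
    obtain ⟨N, hN⟩ := ih
    refine ⟨N, fun v v' V V' h hV => ?_⟩
    simp only [Sat, hN v v' V V' h hV]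
  | and φ ψ ih ih' =>
    obtain ⟨N, hN⟩ := ih
    obtain ⟨N', hN'⟩ := ih'
    refine ⟨max N N', fun v v' V V' h hV => ?_⟩
    have h1 := hN v v' V V' (fun n hn => h n (lt_of_lt_of_le hn (le_max_left _ _)))
      (fun n hn => hV n (lt_of_lt_of_le hn (le_max_left _ _)))
    have h2 := hN' v v' V V' (fun n hn => h n (lt_of_lt_of_le hn (le_max_right _ _)))
      (fun n hn => hV n (lt_of_lt_of_le hn (le_max_right _ _)))
    simp only [Sat, h1, h2]
  | all i φ ih =>
    obtain ⟨N, hN⟩ := ih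
    refine ⟨N, fun v v' V V' h hV => ?_⟩
    simp only [Sat]
    exact forall_congr' (fun a => hN _ _ V V' (upd_agree15 N i a v v' h) hV)
  | allS i φ ih =>
    obtain ⟨N, hN⟩ := ih
    refine ⟨N, fun v v' V V' h hV => ?_⟩
    simp only [Sat]
    exact forall_congr' (fun A => imp_congr_right (fun _ => hN v v' _ _ h (upd_agree15 N i A V V' hV)))

/-- value of a term in an omega-model, as a natural number -/
def tv15 (S : Set (Set ℕ)) (v : ℕ → ℕ) (t : Tm) : ℕ := Tm.val (omega S) v t

theorem tv_add15 (S : Set (Set ℕ)) (v : ℕ → ℕ) (s t : Tm) : tv15 S v (.add s t) = tv15 S v s + tv15 S v t := rfl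
theorem tv_mul15 (S : Set (Set ℕ)) (v : ℕ → ℕ) (s t : Tm) : tv15 S v (.mul s t) = tv15 S v s * tv15 S v t := rfl

theorem tm_omega15 (S S' : Set (Set ℕ)) (t : Tm) (v : ℕ → ℕ) : tv15 S v t = tv15 S' v t := by
  induction t with
  | var i => rfl
  | zero => rfl
  | one => rfl
  | add s t hs ht => rw [tv_add15, tv_add15, hs, ht]
  | mul s t hs ht => rw [tv_mul15, tv_mul15, hs, ht]

theorem sat_eq15 (S : Set (Set ℕ)) (v : ℕ → ℕ) (V : ℕ → Set ℕ) (s t : Tm) :
    Sat (omega S) v V (.eq s t) ↔ tv15 S v s = tv15 S v t := Iff.rfl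
theorem sat_lt15 (S : Set (Set ℕ)) (v : ℕ → ℕ) (V : ℕ → Set ℕ) (s t : Tm) :
    Sat (omega S) v V (.lt s t) ↔ tv15 S v s < tv15 S v t := Iff.rfl
theorem sat_mem15 (S : Set (Set ℕ)) (v : ℕ → ℕ) (V : ℕ → Set ℕ) (t : Tm) (i : ℕ) :
    Sat (omega S) v V (.mem t i) ↔ tv15 S v t ∈ V i := Iff.rfl

theorem sat_omega15 (S S' : Set (Set ℕ)) (φ : Fm) (h : IsDelta0 φ) : ∀ (v : ℕ → ℕ) (V : ℕ → Set ℕ),
    (Sat (omega S) v V φ ↔ Sat (omega S') v V φ) := by
  induction h with
  | eq s t =>
    intro v V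
    rw [sat_eq15, sat_eq15, tm_omega15 S S' s, tm_omega15 S S' t]
  | lt s t =>
    intro v V
    rw [sat_lt15, sat_lt15, tm_omega15 S S' s, tm_omega15 S S' t]
  | mem t i =>
    intro v V
    rw [sat_mem15, sat_mem15, tm_omega15 S S' t]
  | neg _ ih =>
    intro v V
    exact not_congr (ih v V)
  | and _ _ ih ih' =>
    intro v V
    exact and_congr (ih v V) (ih' v V)
  | ball i t _ _ ih =>
    intro v V
    refine forall_congr' (fun a => not_congr (and_congr ?_ (not_congr ?_)))
    · have h1 := sat_lt15 S (update v i a) V (.var i) t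
      have h2 := sat_lt15 S' (update v i a) V (.var i) t
      rw [tm_omega15 S S' (.var i), tm_omega15 S S' t] at h1
      exact h1.trans h2.symm
    · exact ih _ V

theorem getD_map_range15 {α : Type} (f : ℕ → α) (d : α) (N n : ℕ) (hn : n < N) :
    ((List.range N).map f).getD n d = f n := by
  rw [List.getD_eq_getElem?_getD]
  simp [hn]

theorem rca_of_delta (S : Set (Set ℕ))
    (h : ∀ φ ψ : Fm, IsDelta0 φ → IsDelta0 ψ → ∀ (i j k : ℕ) (v : List ℕ) (J : ℕ)
      (V : ℕ → Set ℕ), (∀ q < J, V q ∈ S) →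
      (∀ a : ℕ, (∃ b : ℕ, Sat (omega ∅) (update (update (asg v) i a) j b)
          (fun q => if q < J then V q else ∅) φ) ↔
        ∀ b : ℕ, Sat (omega ∅) (update (update (asg v) i a) k b)
          (fun q => if q < J then V q else ∅) ψ) →
      {a : ℕ | ∃ b : ℕ, Sat (omega ∅) (update (update (asg v) i a) j b)
          (fun q => if q < J then V q else ∅) φ} ∈ S) :
    RCA0 (omega S) := by
  classical
  refine ⟨?_, ?_, ?_⟩
  · refine ⟨?_, ?_, ?_, ?_, ?_, ?_, ?_, ?_⟩
    · intro n; exact Nat.succ_ne_zero n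
    · intro m n hmn; exact Nat.succ_injective hmn
    · intro m; rfl
    · intro m n; rfl
    · intro m; rfl
    · intro m n; rfl
    · intro m; exact Nat.not_lt_zero m
    · intro m n; exact Nat.lt_succ_iff_lt_or_eq
  · intro φ _ i v V _ h0 hs a
    exact Nat.rec (motive := fun a : ℕ => Sat (omega S) (update v i a) V φ) h0 (fun a ih => hs a ih) a
  · intro φ' ψ' hφ' hψ' i
    show ∀ (v : ℕ → ℕ) (V : ℕ → Set ℕ), _
    intro v V hV hiff
    obtain ⟨j, φ, rfl, hφ⟩ := hφ'
    obtain ⟨k, ψ, rfl, hψ⟩ := hψ'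
    have hφ0 : IsDelta0 φ := hφ
    have hψ0 : IsDelta0 ψ := hψ
    have hV' : ∀ m, V m ∈ S := fun m => hV m
    obtain ⟨N1, hN1⟩ := sat_congr15 (omega ∅) φ
    obtain ⟨N2, hN2⟩ := sat_congr15 (omega ∅) ψ
    set N := max N1 N2 with hN
    have hasg : ∀ n < N, asg ((List.range N).map v) n = v n := fun n hn => getD_map_range15 v 0 N n hn
    have hVV : ∀ n < N, (fun q => if q < N then V q else ∅) n = V n := by
      intro n hn
      simp [hn]
    have eφ : ∀ a b : ℕ, Sat (omega ∅) (update (update (asg ((List.range N).map v)) i a) j b)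
        (fun q => if q < N then V q else ∅) φ ↔
        Sat (omega S) (update (update v i a) j b) V φ := by
      intro a b
      refine Iff.trans ?_ (sat_omega15 S ∅ φ hφ0 _ _).symm
      apply hN1
      · intro n hn
        exact upd_agree15 N j b _ _ (upd_agree15 N i a _ _ hasg) n (lt_of_lt_of_le hn (le_max_left _ _))
      · intro n hn
        exact hVV n (lt_of_lt_of_le hn (le_max_left _ _))
    have eψ : ∀ a b : ℕ, Sat (omega ∅) (update (update (asg ((List.range N).map v)) i a) k b)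
        (fun q => if q < N then V q else ∅) ψ ↔
        Sat (omega S) (update (update v i a) k b) V ψ := by
      intro a b
      refine Iff.trans ?_ (sat_omega15 S ∅ ψ hψ0 _ _).symm
      apply hN2
      · intro n hn
        exact upd_agree15 N k b _ _ (upd_agree15 N i a _ _ hasg) n (lt_of_lt_of_le hn (le_max_right _ _))
      · intro n hn
        exact hVV n (lt_of_lt_of_le hn (le_max_right _ _))
    have hex : ∀ a : ℕ, Sat (omega S) (update v i a) V (Fm.ex j φ) ↔
        ∃ b : ℕ, Sat (omega S) (update (update v i a) j b) V φ := by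
      intro a
      show (¬ ∀ b : ℕ, ¬ Sat (omega S) (update (update v i a) j b) V φ) ↔ _
      push Not
      exact Iff.rfl
    have hall : ∀ a : ℕ, Sat (omega S) (update v i a) V (Fm.all k ψ) ↔
        ∀ b : ℕ, Sat (omega S) (update (update v i a) k b) V ψ := fun a => Iff.rfl
    have key := h φ ψ hφ0 hψ0 i j k ((List.range N).map v) N V (fun q _ => hV' q) (by
      intro a
      have e1 : (∃ b : ℕ, Sat (omega ∅) (update (update (asg ((List.range N).map v)) i a) j b)
          (fun q => if q < N then V q else ∅) φ) ↔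
          ∃ b : ℕ, Sat (omega S) (update (update v i a) j b) V φ := exists_congr (eφ a)
      have e2 : (∀ b : ℕ, Sat (omega ∅) (update (update (asg ((List.range N).map v)) i a) k b)
          (fun q => if q < N then V q else ∅) ψ) ↔
          ∀ b : ℕ, Sat (omega S) (update (update v i a) k b) V ψ := forall_congr' (eψ a)
      rw [e1, e2, ← hex a, ← hall a]
      exact hiff a)
    have e : {a : ℕ | ∃ b : ℕ, Sat (omega ∅) (update (update (asg ((List.range N).map v)) i a) j b)
          (fun q => if q < N then V q else ∅) φ} =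
        {a : ℕ | Sat (omega S) (update v i a) V (Fm.ex j φ)} := by
      ext a
      exact (exists_congr (eφ a)).trans (hex a).symm
    rw [e] at key
    exact key

theorem tv_fresh (S : Set (Set ℕ)) (v : ℕ → ℕ) (i a : ℕ) (t : Tm) (ht : t.Fresh i) :
    tv15 S (update v i a) t = tv15 S v t := by
  induction t with
  | var j => exact update_of_ne ht a v
  | zero => rfl
  | one => rfl
  | add s t hs ht' => rw [tv_add15, tv_add15, hs ht.1, ht' ht.2]
  | mul s t hs ht' => rw [tv_mul15, tv_mul15, hs ht.1, ht' ht.2]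

theorem agz_mono {w w' J : ℕ} (h : w ≤ w') {Z Z' : Om} (hz : AgZ w' J Z Z') : AgZ w J Z Z' :=
  fun j hj n hn => hz j hj n (lt_of_lt_of_le hn h)

theorem tv_self (S : Set (Set ℕ)) (v : ℕ → ℕ) (i a : ℕ) : tv15 S (update v i a) (.var i) = a := by
  show update v i a i = a
  simp

theorem sep_local {φ : Fm} (hφ : IsDelta0 φ) (v : ℕ → ℕ) (J : ℕ) (Z : Om) :
    ∃ w, ∀ Z', AgZ w J Z Z' →
      (Sat (omega ∅) v (fun q => if q < J then st (Z' q) else ∅) φ ↔
        Sat (omega ∅) v (fun q => if q < J then st (Z q) else ∅) φ) := by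
  induction hφ generalizing v with
  | eq s t => exact ⟨0, fun Z' _ => Iff.rfl⟩
  | lt s t => exact ⟨0, fun Z' _ => Iff.rfl⟩
  | mem t i =>
    refine ⟨tv15 ∅ v t + 1, fun Z' hZ => ?_⟩
    rw [sat_mem15, sat_mem15]
    by_cases hi : i < J
    · simp only [hi, if_true]
      show Z' i (tv15 ∅ v t) = true ↔ Z i (tv15 ∅ v t) = true
      rw [hZ i hi _ (Nat.lt_succ_self _)]
    · simp only [hi, if_false]
  | neg _ ih =>
    obtain ⟨w, hw⟩ := ih v
    exact ⟨w, fun Z' hZ => not_congr (hw Z' hZ)⟩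
  | and _ _ ih ih' =>
    obtain ⟨w, hw⟩ := ih v
    obtain ⟨w', hw'⟩ := ih' v
    exact ⟨max w w', fun Z' hZ => and_congr (hw Z' (agz_mono (le_max_left _ _) hZ))
      (hw' Z' (agz_mono (le_max_right _ _) hZ))⟩
  | ball i t ht _ ih =>
    choose f hf using fun a : ℕ => ih (update v i a)
    refine ⟨(Finset.range (tv15 ∅ v t)).sup f, fun Z' hZ => ?_⟩
    refine forall_congr' (fun (a : ℕ) => not_congr ?_)
    have hlt : ∀ V : ℕ → Set ℕ, Sat (omega ∅) (update v i a) V (.lt (.var i) t) ↔ a < tv15 ∅ v t := by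
      intro V
      have e1 : tv15 ∅ (update v i a) (.var i) = a := tv_self ∅ v i a
      have e2 : tv15 ∅ (update v i a) t = tv15 ∅ v t := tv_fresh ∅ v i a t ht
      have e3 : (tv15 ∅ (update v i a) (.var i) < tv15 ∅ (update v i a) t) ↔ (a < tv15 ∅ v t) := by
        rw [e1, e2]
      exact e3
    by_cases ha : a < tv15 ∅ v t
    · refine and_congr ?_ (not_congr ?_)
      · exact (hlt _).trans (hlt _).symm
      · exact hf a Z' (agz_mono (Finset.le_sup (f := f) (Finset.mem_range.2 ha)) hZ)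
    · constructor
      · rintro ⟨h1, _⟩
        exact absurd ((hlt _).1 h1) ha
      · rintro ⟨h1, _⟩
        exact absurd ((hlt _).1 h1) ha

end Pool.Agent.Helper317.PM
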