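import Pool.Agent.Helper317.PMU.Core2

/-!
Failure of weak Koenig lemma and of arithmetical comprehension.
-/

namespace Pool.Agent.Helper317.PM

open Pool.Agent.Helper317.SOA Function


theorem j6519_length_le_lcode : ∀ l : List ℕ, l.length ≤ lcode l
  | [] => Nat.zero_le _
  | a :: l => by
    have h := j6519_length_le_lcode l
    have h2 := Nat.right_le_pair a (lcode l)
    simp only [List.length_cons, lcode]
    omega

theorem j6519_length_le_bcode (l : List Bool) : l.length ≤ bcode l := by
  have h := j6519_length_le_lcode (l.map Bool.toNat)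
  rw [List.length_map] at h
  exact h

theorem j6519_lcode_inj : ∀ l l' : List ℕ, lcode l = lcode l' → l = l'
  | [], [], _ => rfl
  | [], b :: l', h => by simp [lcode] at h
  | a :: l, [], h => by simp [lcode] at h
  | a :: l, b :: l', h => by
    simp only [lcode, Nat.add_right_cancel_iff, Nat.pair_eq_pair] at h
    rw [h.1, j6519_lcode_inj l l' h.2]

theorem j6519_bcode_inj {l l' : List Bool} (h : bcode l = bcode l') : l = l' := by
  have h1 := j6519_lcode_inj _ _ h
  have hinj : Function.Injective Bool.toNat := by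
    intro a b hab
    cases a <;> cases b <;> simp at hab ⊢
  exact List.map_injective_iff.mpr hinj h1

theorem psW_local (T : Rv) (k : ℕ) :
    ∃ w, ∀ T', AgT w T T' → (PsW T' k ↔ PsW T k) := by
  refine ⟨k + 1, fun T' hT => ?_⟩
  have key : ∀ l : List Bool, k = bcode l → ∀ n < l.length, ∀ s < l.length, T' n s = T n s := by
    intro l hl n hn s hs
    have h := j6519_length_le_bcode l
    exact hT n (by omega) s (by omega)
  constructor
  · rintro ⟨l, hl, h⟩
    refine ⟨l, hl, fun n hn s hs c hc => h n hn s hs c ?_⟩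
    rw [key l hl n hn s hs]; exact hc
  · rintro ⟨l, hl, h⟩
    refine ⟨l, hl, fun n hn s hs c hc => h n hn s hs c ?_⟩
    rw [← key l hl n hn s hs]; exact hc

theorem j6519_sq {n s k : ℕ} (h : k = (n + s) * (n + s) + n) : n ≤ k ∧ s ≤ k := by
  constructor
  · rw [h]; omega
  · rcases Nat.eq_zero_or_pos (n + s) with h0 | h0
    · omega
    · have := Nat.le_mul_of_pos_left (n + s) h0
      omega

theorem j6519_sqinj {n s n' s' : ℕ} (h : (n + s) * (n + s) + n = (n' + s') * (n' + s') + n') :
    n = n' ∧ s = s' := by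
  have h1 : n + s = n' + s' := by
    rcases lt_trichotomy (n + s) (n' + s') with hlt | heq | hgt
    · exfalso
      have : (n + s + 1) * (n + s + 1) ≤ (n' + s') * (n' + s') := Nat.mul_le_mul hlt hlt
      nlinarith
    · exact heq
    · exfalso
      have : (n' + s' + 1) * (n' + s' + 1) ≤ (n + s) * (n + s) := Nat.mul_le_mul hgt hgt
      nlinarith
  rw [h1] at h
  omega

theorem psT_local (T : Rv) (k : ℕ) :
    ∃ w, ∀ T', AgT w T T' → (PsT T' k ↔ PsT T k) := by
  refine ⟨k + 1, fun T' hT => ?_⟩
  constructor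
  · rintro ⟨n, s, hk, h⟩
    have h2 := j6519_sq hk
    refine ⟨n, s, hk, ?_⟩
    rw [← hT n (by omega) s (by omega)]; exact h
  · rintro ⟨n, s, hk, h⟩
    have h2 := j6519_sq hk
    refine ⟨n, s, hk, ?_⟩
    rw [hT n (by omega) s (by omega)]; exact h

theorem not_wkl {T : Rv} (hT : Fnl2 T) {S : Set (Set ℕ)} (hW : {k | PsW T k} ∈ S)
    (hS : ∀ X ∈ S, ¬ Separates T X) : ¬ WKL S := by
  classical
  intro hwkl
  have hmem : ∀ l : List Bool, bcode l ∈ {k | PsW T k} ↔
      ∀ n < l.length, ∀ s < l.length, ∀ c, T n s = some c → l.getD n false = c := by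
    intro l
    constructor
    · rintro ⟨l', hl', h⟩
      rw [j6519_bcode_inj hl']; exact h
    · intro h
      exact ⟨l, rfl, h⟩
  have hpre : ∀ l l' : List Bool, l <+: l' → bcode l' ∈ {k | PsW T k} →
      bcode l ∈ {k | PsW T k} := by
    intro l l' hpre hl'
    rw [hmem] at hl' ⊢
    intro n hn s hs c hc
    have hle := hpre.length_le
    have h := hl' n (by omega) s (by omega) c hc
    rw [← h, List.getD_eq_getElem _ _ hn, List.getD_eq_getElem _ _ (lt_of_lt_of_le hn hle)]
    exact hpre.getElem hn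
  have hinf : ∀ n, ∃ l : List Bool, l.length = n ∧ bcode l ∈ {k | PsW T k} := by
    intro N
    refine ⟨(List.range N).map (fun n => decide (∃ s < N, T n s = some true)), by simp, ?_⟩
    rw [hmem]
    intro n hn s hs c hc
    have hn' : n < N := by simpa using hn
    have hs' : s < N := by simpa using hs
    rw [List.getD_eq_getElem _ _ hn]
    simp only [List.getElem_map, List.getElem_range]
    cases c with
    | true => exact decide_eq_true ⟨s, hs', hc⟩
    | false =>
      apply decide_eq_false
      rintro ⟨s', hs'', hc'⟩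
      have := hT n s s' (by rw [hc]; simp) (by rw [hc']; simp)
      subst this
      rw [hc] at hc'
      simp at hc'
  obtain ⟨Y, hY, hpath⟩ := hwkl _ hW hpre hinf
  refine hS Y hY ?_
  intro n s c hc
  have h := (hmem _).1 (hpath (max n s + 1))
  have hlen : (initSeg Y (max n s + 1)).length = max n s + 1 := by simp [initSeg]
  rw [hlen] at h
  have h2 := h n (by omega) s (by omega) c hc
  have h3 : (initSeg Y (max n s + 1)).getD n false = decide (n ∈ Y) := by
    rw [List.getD_eq_getElem _ _ (by rw [hlen]; omega)]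
    simp [initSeg]
  rw [h3] at h2
  rw [← h2]
  simp

theorem not_aca {T : Rv} (hT : Fnl2 T) {S : Set (Set ℕ)} (hW : {k | PsT T k} ∈ S)
    (hS : ∀ X ∈ S, ¬ Separates T X) : ¬ ACA (omega S) := by
  intro haca
  let tm : Tm := .add (.mul (.add (.var 0) (.var 1)) (.add (.var 0) (.var 1))) (.var 0)
  have hA : IsArith (Fm.ex 1 (.mem tm 0)) :=
    IsArith.neg (IsArith.all 1 (IsArith.neg (IsArith.mem tm 0)))
  have hD := haca _ hA 0 (fun _ => (0 : ℕ)) (fun _ => {k | PsT T k}) (fun _ => hW)
  refine hS _ hD ?_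
  intro n s c hc
  have hiff : (n ∈ {a : ℕ | Sat (omega S) (update (fun _ => (0 : ℕ)) 0 a)
      (fun _ => {k | PsT T k}) (Fm.ex 1 (.mem tm 0))}) ↔ ∃ s' : ℕ, T n s' = some true := by
    show ¬ (∀ s' : ℕ, ¬ (PsT T _)) ↔ _
    push Not
    constructor
    · rintro ⟨s', n2, s2, h, hh⟩
      have h' : (n + s') * (n + s') + n = (n2 + s2) * (n2 + s2) + n2 := h
      obtain ⟨h3, h4⟩ := j6519_sqinj h'
      subst h3; subst h4
      exact ⟨_, hh⟩
    · rintro ⟨s', hs'⟩
      exact ⟨s', n, s', rfl, hs'⟩
  refine hiff.trans ?_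
  constructor
  · rintro ⟨s', hs'⟩
    have := hT n s s' (by rw [hc]; simp) (by rw [hs']; simp)
    subst this
    rw [hc] at hs'
    simpa using hs'
  · intro h
    subst h
    exact ⟨s, hc⟩

end Pool.Agent.Helper317.PM
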