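import Pool.Agent.Helper317.PMU.Core2

/-!
Names and the operations on them.
-/

namespace Pool.Agent.Helper317.PM

open Pool.Agent.Helper317.SOA Function

theorem opSet_open (Ψ : Rv → Gn → Om → ℕ → Prop) (m : ℕ) (xs : List Name) (k : ℕ) :
    WOpen (opSet Ψ m xs k) := by
  rintro T G ⟨s, Z, h1, h2⟩
  have hex : ∀ j n, ∃ w : ℕ, j < xs.length → n < s → ∀ T' G', AgT w T T' → AgG w G G' →
      (T', G') ∈ (nth xs j).sg (Z j n) n := by
    intro j n
    by_cases hj : j < xs.length
    · by_cases hn : n < s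
      · have hm := h1 j hj n hn
        cases hb : Z j n with
        | true =>
          rw [hb] at hm
          obtain ⟨w, hw⟩ := (nth xs j).pos_open n T G hm
          exact ⟨w, fun _ _ => hw⟩
        | false =>
          rw [hb] at hm
          obtain ⟨w, hw⟩ := (nth xs j).neg_open n T G hm
          exact ⟨w, fun _ _ => hw⟩
      · exact ⟨0, fun _ h => absurd h hn⟩
    · exact ⟨0, fun h => absurd h hj⟩
  choose w hw using hex
  refine ⟨max (max s m) ((Finset.range xs.length).sup fun j => (Finset.range s).sup fun n => w j n),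
    ?_⟩
  intro T' G' hT hG
  have hsW : s ≤ max (max s m)
      ((Finset.range xs.length).sup fun j => (Finset.range s).sup fun n => w j n) :=
    (le_max_left s m).trans (le_max_left _ _)
  have hmW : m ≤ max (max s m)
      ((Finset.range xs.length).sup fun j => (Finset.range s).sup fun n => w j n) :=
    (le_max_right s m).trans (le_max_left _ _)
  have hwW : ∀ j < xs.length, ∀ n < s, w j n ≤ max (max s m)
      ((Finset.range xs.length).sup fun j => (Finset.range s).sup fun n => w j n) := by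
    intro j hj n hn
    refine le_trans ?_ (le_max_right _ _)
    refine le_trans ?_ (Finset.le_sup (f := fun j => (Finset.range s).sup fun n => w j n)
      (Finset.mem_range.mpr hj))
    exact Finset.le_sup (f := fun n => w j n) (Finset.mem_range.mpr hn)
  refine ⟨s, Z, ?_, ?_⟩
  · intro j hj n hn
    apply hw j n hj hn
    · intro a ha b hb
      exact hT a (lt_of_lt_of_le ha (hwW j hj n hn)) b (lt_of_lt_of_le hb (hwW j hj n hn))
    · intro a ha b hb
      exact hG a (lt_of_lt_of_le ha (hwW j hj n hn)) b (lt_of_lt_of_le hb (hwW j hj n hn))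
  · intro T'' G'' Z' hT' hG' hZ'
    apply h2 T'' G'' Z' _ _ hZ'
    · intro a ha b hb
      rw [hT' a ha b hb]
      exact hT a (lt_of_lt_of_le ha hsW) b (lt_of_lt_of_le hb hsW)
    · intro i hi n hn
      rw [hG' i hi n hn]
      exact hG i (lt_of_lt_of_le hi hmW) n (lt_of_lt_of_le hn hsW)

theorem opSet_lvl (Ψ : Rv → Gn → Om → ℕ → Prop) (m : ℕ) (xs : List Name) (k : ℕ) (T : Rv)
    (G G' : Gn)
    (h : ∀ i < max m ((Finset.range xs.length).sup fun j => (nth xs j).lvl), ∀ n,
      G' i n = G i n) (hg : (T, G) ∈ opSet Ψ m xs k) : (T, G') ∈ opSet Ψ m xs k := by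
  obtain ⟨s, Z, h1, h2⟩ := hg
  refine ⟨s, Z, ?_, ?_⟩
  · intro j hj n hn
    have hm := h1 j hj n hn
    have hl : (nth xs j).lvl ≤ max m ((Finset.range xs.length).sup fun j => (nth xs j).lvl) :=
      le_trans (Finset.le_sup (f := fun j => (nth xs j).lvl) (Finset.mem_range.mpr hj))
        (le_max_right _ _)
    cases hb : Z j n with
    | true =>
      rw [hb] at hm
      exact (nth xs j).pos_lvl n T G G' (fun i hi k => h i (lt_of_lt_of_le hi hl) k) hm
    | false =>
      rw [hb] at hm
      exact (nth xs j).neg_lvl n T G G' (fun i hi k => h i (lt_of_lt_of_le hi hl) k) hm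
  · intro T' G'' Z' hT' hG' hZ'
    apply h2 T' G'' Z' hT' _ hZ'
    intro i hi n hn
    rw [hG' i hi n hn]
    exact h i (lt_of_lt_of_le hi (le_max_left _ _)) n

/-- the name given by two predicates -/
def opName (Ψ Ψ' : Rv → Gn → Om → ℕ → Prop) (m : ℕ) (xs : List Name) : Name where
  pos := opSet Ψ m xs
  neg := opSet Ψ' m xs
  pos_open := opSet_open Ψ m xs
  neg_open := opSet_open Ψ' m xs
  lvl := max m ((Finset.range xs.length).sup fun j => (nth xs j).lvl)
  pos_lvl := fun n T G G' h hg => opSet_lvl Ψ m xs n T G G' h hg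
  neg_lvl := fun n T G G' h hg => opSet_lvl Ψ' m xs n T G G' h hg

theorem opSet_mem_of {Ψ : Rv → Gn → Om → ℕ → Prop} {m : ℕ} {xs : List Name} {T : Rv} {G : Gn}
    {X : ℕ → Set ℕ} (hx : ∀ j < xs.length, (nth xs j).Val T G (X j)) {k s : ℕ}
    (h : ∀ T' G' Z', AgT s T T' → AgGm s m G G' →
      AgZ s xs.length (fun j => chr (X j)) Z' → Ψ T' G' Z' k) : (T, G) ∈ opSet Ψ m xs k := by
  refine ⟨s, fun j => chr (X j), ?_, h⟩
  intro j hj n _
  show (T, G) ∈ (nth xs j).sg (chr (X j) n) n
  by_cases hn : n ∈ X j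
  · have : chr (X j) n = true := by simp [chr, hn]
    rw [this]
    exact ((hx j hj n).1).mpr hn
  · have : chr (X j) n = false := by simp [chr, hn]
    rw [this]
    exact ((hx j hj n).2).mpr hn

theorem of_opSet_mem {Ψ : Rv → Gn → Om → ℕ → Prop} {m : ℕ} {xs : List Name} {T : Rv} {G : Gn}
    {X : ℕ → Set ℕ} (hx : ∀ j < xs.length, (nth xs j).Val T G (X j)) {k : ℕ}
    (h : (T, G) ∈ opSet Ψ m xs k) : Ψ T G (fun j => chr (X j)) k := by
  obtain ⟨s, Z, h1, h2⟩ := h
  apply h2 T G _ (fun _ _ _ _ => rfl) (fun _ _ _ _ => rfl)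
  intro j hj n hn
  have hm := h1 j hj n hn
  cases hb : Z j n with
  | true =>
    rw [hb] at hm
    have : n ∈ X j := ((hx j hj n).1).mp hm
    simp [chr, this]
  | false =>
    rw [hb] at hm
    have : n ∉ X j := ((hx j hj n).2).mp hm
    simp [chr, this]

theorem val_op {Ψ Ψ' : Rv → Gn → Om → ℕ → Prop} {m : ℕ} {xs : List Name} {T : Rv} {G : Gn}
    {X : ℕ → Set ℕ} (hx : ∀ j < xs.length, (nth xs j).Val T G (X j)) {D : Set ℕ}
    (h1 : ∀ k ∈ D, ∃ s, ∀ T' G' Z', AgT s T T' → AgGm s m G G' →
      AgZ s xs.length (fun j => chr (X j)) Z' → Ψ T' G' Z' k)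
    (h2 : ∀ k ∉ D, ∃ s, ∀ T' G' Z', AgT s T T' → AgGm s m G G' →
      AgZ s xs.length (fun j => chr (X j)) Z' → Ψ' T' G' Z' k)
    (h3 : ∀ k, Ψ T G (fun j => chr (X j)) k → k ∈ D)
    (h4 : ∀ k, Ψ' T G (fun j => chr (X j)) k → k ∉ D) :
    (opName Ψ Ψ' m xs).Val T G D := by
  intro k
  constructor
  · constructor
    · intro h
      exact h3 k (of_opSet_mem hx h)
    · intro h
      obtain ⟨s, hs⟩ := h1 k h
      exact opSet_mem_of hx hs
  · constructor
    · intro h
      exact h4 k (of_opSet_mem hx h)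
    · intro h
      obtain ⟨s, hs⟩ := h2 k h
      exact opSet_mem_of hx hs

/-- the levels of the closure -/
def clN {ι : Type} (ops : ι → List Name → Name) : ℕ → Set Name
  | 0 => {default}
  | k + 1 => clN ops k ∪ Set.range
      (fun p : ι × List (clN ops k) => ops p.1 (p.2.map Subtype.val))

theorem clN_countable {ι : Type} [Countable ι] (ops : ι → List Name → Name) (k : ℕ) :
    (clN ops k).Countable := by
  induction k with
  | zero => exact Set.countable_singleton _
  | succ k ih =>
    haveI : Countable (clN ops k) := ih.to_subtype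
    exact ih.union (Set.countable_range _)

theorem clN_mono {ι : Type} (ops : ι → List Name → Name) : Monotone (clN ops) :=
  monotone_nat_of_le_succ (fun _ => Set.subset_union_left)

theorem exists_closed {ι : Type} [Countable ι] (ops : ι → List Name → Name) :
    ∃ N : Set Name, N.Countable ∧ default ∈ N ∧
      ∀ i (xs : List Name), (∀ x ∈ xs, x ∈ N) → ops i xs ∈ N := by
  refine ⟨⋃ k, clN ops k, Set.countable_iUnion (clN_countable ops), ?_, ?_⟩
  · exact Set.mem_iUnion.mpr ⟨0, rfl⟩
  · intro i xs hxs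
    have hK : ∃ K, ∀ x ∈ xs, x ∈ clN ops K := by
      clear i
      induction xs with
      | nil => exact ⟨0, by simp⟩
      | cons y ys ih =>
        obtain ⟨K, hK⟩ := ih (fun x hx => hxs x (List.mem_cons_of_mem _ hx))
        obtain ⟨K', hK'⟩ := Set.mem_iUnion.mp (hxs y List.mem_cons_self)
        refine ⟨max K K', ?_⟩
        intro x hx
        rcases List.mem_cons.mp hx with rfl | hx
        · exact clN_mono ops (le_max_right _ _) hK'
        · exact clN_mono ops (le_max_left _ _) (hK x hx)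
    obtain ⟨K, hK⟩ := hK
    refine Set.mem_iUnion.mpr ⟨K + 1, Or.inr ?_⟩
    refine ⟨(i, xs.pmap Subtype.mk hK), ?_⟩
    simp [List.map_pmap]

end Pool.Agent.Helper317.PM
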