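import Pool.Agent.Helper317.PMU.Core2
import Pool.Agent.Helper317.PMU.P4

/-!
The generic copy of a structure.
-/

namespace Pool.Agent.Helper317.PM

open Pool.Agent.Helper317.SOA Function








theorem P5_dec_mono {s s' : ℕ} (hs : s ≤ s') {q : Form × List ℕ} (hq : q ∈ Dec s) :
    q ∈ Dec s' :=
  ⟨hq.1.trans_le hs, hq.2.1.trans hs, fun c hc => (hq.2.2.1 c hc).trans_le hs, hq.2.2.2⟩

theorem P5_dec_stg {φ : Form} {c : List ℕ} (h : φ.Scoped c.length) : (φ, c) ∈ Dec (stg φ c) := by
  refine ⟨?_, ?_, ?_, h⟩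
  · simp only [stg]; omega
  · simp only [stg]; omega
  · intro a ha
    have : a ≤ c.sum := List.le_sum_of_mem ha
    simp only [stg]; omega

theorem P5_sub_length (t c : List ℕ) : (sub t c).length = c.length := by
  simp [sub]

theorem P5_sub_getD (t c : List ℕ) {i : ℕ} (hi : i < c.length) :
    (sub t c).getD i 0 = t.getD (c.getD i 0) 0 := by
  unfold sub
  rw [List.getD_eq_getElem _ _ (by simpa using hi), List.getElem_map,
    List.getD_eq_getElem _ _ hi]

theorem P5_range_map (l : List ℕ) : (List.range l.length).map (fun i => l.getD i 0) = l := by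
  apply List.ext_getElem
  · simp
  · intro i h1 h2
    rw [List.getElem_map, List.getElem_range, List.getD_eq_getElem _ _ h2]

theorem P5_sub_dom {A : Str} (hA : A.dom.Infinite) (h : ℕ → ℕ) (s : ℕ) {c : List ℕ}
    (hc : ∀ a ∈ c, a < s) : ∀ a ∈ sub (tup (chr (diag A)) h s) c, a ∈ A.dom := by
  intro a ha
  obtain ⟨h1, h2, h3⟩ := tup_length hA h s
  unfold sub at ha
  rw [List.mem_map] at ha
  obtain ⟨i, hi, rfl⟩ := ha
  rw [List.getD_eq_getElem _ _ (by rw [h1]; exact hc i hi)]
  exact h3 _ (List.getElem_mem _)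

/-- the generic copy -/
def P5C (A : Str) (h : ℕ → ℕ) : Str where
  dom := Set.univ
  nonempty := ⟨0, trivial⟩
  Rel := fun r l => ∃ s, (Form.rel r (List.range l.length), l) ∈ Dec s ∧
    Holds A (sub (tup (chr (diag A)) h s) l) (.rel r (List.range l.length))

theorem P5_rel {A : Str} (hA : A.dom.Infinite) (h : ℕ → ℕ) (r : ℕ) (l : List ℕ) {s : ℕ}
    (hs : (Form.rel r (List.range l.length), l) ∈ Dec s) :
    (P5C A h).Rel r l ↔ A.Rel r (sub (tup (chr (diag A)) h s) l) := by
  have e : ∀ t : List ℕ, Holds A (sub t l) (.rel r (List.range l.length)) ↔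
      A.Rel r (sub t l) := by
    intro t
    show A.Rel r ((List.range l.length).map fun i => (sub t l).getD i 0) ↔ _
    have := P5_range_map (sub t l)
    rw [P5_sub_length] at this
    rw [this]
  constructor
  · rintro ⟨s', hs', hh⟩
    rw [← tup_stable hA h (le_max_right s s') hs', tup_stable hA h (le_max_left s s') hs, e] at hh
    exact hh
  · intro hh
    exact ⟨s, hs, (e _).2 hh⟩

theorem P5_main {A : Str} (hA : A.dom.Infinite) (h : ℕ → ℕ) (φ : Form) :
    ∀ (c : List ℕ) (s : ℕ), (φ, c) ∈ Dec s →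
      (Holds (P5C A h) c φ ↔ Holds A (sub (tup (chr (diag A)) h s) c) φ) := by
  induction φ with
  | rel r vs =>
    intro c s hq
    have hsc : ∀ i ∈ vs, i < c.length := hq.2.2.2
    set l := vs.map fun i => c.getD i 0 with hl
    have hscl : (Form.rel r (List.range l.length)).Scoped l.length := by
      intro i hi
      exact List.mem_range.1 hi
    set s' := max s (stg (.rel r (List.range l.length)) l) with hs'
    have hd' : (Form.rel r (List.range l.length), l) ∈ Dec s' :=
      P5_dec_mono (le_max_right _ _) (P5_dec_stg hscl)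
    rw [← tup_stable hA h (le_max_left s (stg (.rel r (List.range l.length)) l)) hq, ← hs']
    show (P5C A h).Rel r l ↔ A.Rel r (vs.map fun i => (sub (tup (chr (diag A)) h s') c).getD i 0)
    rw [P5_rel hA h r l hd']
    have e : (vs.map fun i => (sub (tup (chr (diag A)) h s') c).getD i 0) =
        sub (tup (chr (diag A)) h s') l := by
      rw [hl]
      unfold sub
      rw [List.map_map]
      apply List.map_congr_left
      intro i hi
      exact P5_sub_getD _ c (hsc i hi)
    rw [e]
  | eq i j =>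
    intro c s hq
    have hsc : i < c.length ∧ j < c.length := hq.2.2.2
    obtain ⟨h1, h2, h3⟩ := tup_length hA h s
    show c.getD i 0 = c.getD j 0 ↔ (sub (tup (chr (diag A)) h s) c).getD i 0 =
      (sub (tup (chr (diag A)) h s) c).getD j 0
    rw [P5_sub_getD _ _ hsc.1, P5_sub_getD _ _ hsc.2]
    have hi : c.getD i 0 < (tup (chr (diag A)) h s).length := by
      rw [h1, List.getD_eq_getElem _ _ hsc.1]
      exact hq.2.2.1 _ (List.getElem_mem _)
    have hj : c.getD j 0 < (tup (chr (diag A)) h s).length := by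
      rw [h1, List.getD_eq_getElem _ _ hsc.2]
      exact hq.2.2.1 _ (List.getElem_mem _)
    rw [List.getD_eq_getElem _ _ hi, List.getD_eq_getElem _ _ hj, h2.getElem_inj_iff]
  | neg φ ih =>
    intro c s hq
    have h1 : 5 * φ.code + 2 < s := hq.1
    have hq' : (φ, c) ∈ Dec s := ⟨show φ.code < s by omega, hq.2.1, hq.2.2.1, hq.2.2.2⟩
    show ¬ _ ↔ ¬ _
    rw [ih c s hq']
  | and φ ψ ih1 ih2 =>
    intro c s hq
    have h1 : 5 * Nat.pair φ.code ψ.code + 3 < s := hq.1
    have h2 := Nat.left_le_pair φ.code ψ.code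
    have h3 := Nat.right_le_pair φ.code ψ.code
    have h4 : φ.Scoped c.length ∧ ψ.Scoped c.length := hq.2.2.2
    have hq1 : (φ, c) ∈ Dec s := ⟨show φ.code < s by omega, hq.2.1, hq.2.2.1, h4.1⟩
    have hq2 : (ψ, c) ∈ Dec s := ⟨show ψ.code < s by omega, hq.2.1, hq.2.2.1, h4.2⟩
    show _ ∧ _ ↔ _ ∧ _
    rw [ih1 c s hq1, ih2 c s hq2]
  | all φ ih =>
    intro c s hq
    have h1 : 5 * φ.code + 4 < s := hq.1
    have hlen : c.length ≤ s := hq.2.1
    have hent : ∀ a ∈ c, a < s := hq.2.2.1
    have hsc : φ.Scoped (c.length + 1) := hq.2.2.2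
    constructor
    · intro hC
      by_contra hn
      obtain ⟨n, hn1, hn2⟩ := exists_tsk.choose_spec (φ, c) s
      have hn2' : tsk n = (φ, c) := hn2
      rw [← tup_stable hA h (show s ≤ n + 1 by omega) hq] at hn
      have hw := (tup_ok hA h n).wit
      rw [hn2'] at hw
      obtain ⟨j, hj, hj2⟩ := hw (fun a ha => (hent a ha).trans_le hn1) hsc (by
        rw [hd_diag]
        rintro ⟨-, -, hh⟩
        exact hn hh)
      have hq' : (φ, j :: c) ∈ Dec (n + 1) := by
        refine ⟨show φ.code < n + 1 by omega, ?_, ?_, hsc⟩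
        · show (j :: c).length ≤ n + 1
          simp only [List.length_cons]; omega
        · intro a ha
          rcases List.mem_cons.1 ha with rfl | ha
          · omega
          · have := hent a ha
            omega
      apply hj2
      rw [hd_diag]
      refine ⟨?_, P5_sub_dom hA h (n + 1) hq'.2.2.1, ?_⟩
      · rw [P5_sub_length]; exact hsc
      · rw [← ih (j :: c) (n + 1) hq']
        exact hC j trivial
    · intro hh j _
      have hq' : (φ, j :: c) ∈ Dec (s + j + 1) := by
        refine ⟨show φ.code < s + j + 1 by omega, ?_, ?_, hsc⟩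
        · show (j :: c).length ≤ s + j + 1
          simp only [List.length_cons]; omega
        · intro a ha
          rcases List.mem_cons.1 ha with rfl | ha
          · omega
          · have := hent a ha
            omega
      rw [ih (j :: c) (s + j + 1) hq']
      rw [← tup_stable hA h (show s ≤ s + j + 1 by omega) hq] at hh
      have hj : (tup (chr (diag A)) h (s + j + 1)).getD j 0 ∈ A.dom := by
        obtain ⟨k1, k2, k3⟩ := tup_length hA h (s + j + 1)
        rw [List.getD_eq_getElem _ _ (by rw [k1]; omega)]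
        exact k3 _ (List.getElem_mem _)
      exact hh _ hj

theorem copy_exists {A : Str} (hA : A.dom.Infinite) (h : ℕ → ℕ) :
    ∃ C : Str, C.dom = Set.univ ∧ ∀ (φ : Form) (c : List ℕ) (s : ℕ), (φ, c) ∈ Dec s →
      (Holds C c φ ↔ Holds A (sub (tup (chr (diag A)) h s) c) φ) :=
  ⟨P5C A h, rfl, fun φ => P5_main hA h φ⟩

theorem copy_diag {A : Str} (hA : A.dom.Infinite) (h : ℕ → ℕ) {C : Str}
    (hC : C.dom = Set.univ) (hH : ∀ (φ : Form) (c : List ℕ) (s : ℕ), (φ, c) ∈ Dec s →
      (Holds C c φ ↔ Holds A (sub (tup (chr (diag A)) h s) c) φ)) :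
    diag C = {k | PsC (chr (diag A)) h k} ∧ Th C = Th A := by
  constructor
  · ext k
    constructor
    · rintro ⟨φ, l, hk, hs, -, hh⟩
      have hq := P5_dec_stg hs
      refine ⟨φ, l, hk, hs, ?_⟩
      rw [hd_diag]
      refine ⟨?_, P5_sub_dom hA h _ hq.2.2.1, (hH φ l _ hq).1 hh⟩
      rw [P5_sub_length]; exact hs
    · rintro ⟨φ, c, hk, hs, hh⟩
      have hq := P5_dec_stg hs
      rw [hd_diag] at hh
      exact ⟨φ, c, hk, hs, fun a _ => by rw [hC]; trivial, (hH φ c _ hq).2 hh.2.2⟩
  · ext k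
    constructor
    · rintro ⟨φ, hk, hs, hh⟩
      have hq : (φ, ([] : List ℕ)) ∈ Dec (stg φ []) := P5_dec_stg hs
      exact ⟨φ, hk, hs, (hH φ [] _ hq).1 hh⟩
    · rintro ⟨φ, hk, hs, hh⟩
      have hq : (φ, ([] : List ℕ)) ∈ Dec (stg φ []) := P5_dec_stg hs
      exact ⟨φ, hk, hs, (hH φ [] _ hq).2 hh⟩

end Pool.Agent.Helper317.PM
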