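import Pool.Agent.Helper317.PMU.R2
import Pool.Agent.Helper317.PMU.P1
import Pool.Agent.Helper317.PMU.P2
import Pool.Agent.Helper317.PMU.P5
import Pool.Agent.Helper317.PMU.P7
import Pool.Agent.Helper317.PMU.P10
import Pool.Agent.Helper317.PMU.P13
import Pool.Agent.Helper317.PMU.P15
import Pool.Agent.Helper317.PMU.P17

/-!
The omega-model of `RCA₀ + PMU` in which weak Koenig's lemma fails.
-/

namespace Pool.Agent.Helper317.PM

open Pool.Agent.Helper317.SOA Function

/-- the type of the operations on names -/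
abbrev Opn : Type := (Fm × Fm × ℕ × ℕ × ℕ × List ℕ) ⊕ ℕ ⊕ (ℕ × ℕ × List (List ℕ)) ⊕ Fin 3

/-- the operations on names -/
def ops : Opn → List Name → Name
  | .inl (φ, ψ, i, j, k, v), xs =>
    opName (PsS φ i j v xs.length true) (PsS ψ i k v xs.length false) 0 xs
  | .inr (.inl m), xs =>
    opName (fun _ G Z k => PsC (Z 0) (G m) k) (fun _ G Z k => ¬ PsC (Z 0) (G m) k) (m + 1)
      [nth xs 0]
  | .inr (.inr (.inl (m, s0, l0))), xs =>
    opName (PsAt (nth xs 1) m s0 l0) (fun T G Z k => ¬ PsAt (nth xs 1) m s0 l0 T G Z k) m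
      [nth xs 0]
  | .inr (.inr (.inr 0)), xs =>
    opName (fun _ _ Z k => PsI (Z 0) (Z 1) (Z 2) k) (fun _ _ Z k => ¬ PsI (Z 0) (Z 1) (Z 2) k) 0
      [nth xs 0, nth xs 1, nth xs 2]
  | .inr (.inr (.inr 1)), _ => opName (fun T _ _ k => PsW T k) (fun T _ _ k => ¬ PsW T k) 0 []
  | .inr (.inr (.inr _)), _ => opName (fun T _ _ k => PsT T k) (fun T _ _ k => ¬ PsT T k) 0 []

theorem ops_at (m s0 : ℕ) (l0 : List (List ℕ)) (xs : List Name) :
    ops (.inr (.inr (.inl (m, s0, l0)))) xs =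
      opName (PsAt (nth xs 1) m s0 l0) (fun T G Z k => ¬ PsAt (nth xs 1) m s0 l0 T G Z k) m
        [nth xs 0] := rfl

theorem st_chr (X : Set ℕ) : st (chr X) = X := by
  ext n
  simp [st, chr]

theorem val_op' {Ψ : Rv → Gn → Om → ℕ → Prop} {m : ℕ} {xs : List Name} {T : Rv} {G : Gn}
    {X : ℕ → Set ℕ} (hx : ∀ j < xs.length, (nth xs j).Val T G (X j))
    (hloc : ∀ k, ∃ s, ∀ T' G' Z', AgT s T T' → AgGm s m G G' →
      AgZ s xs.length (fun j => chr (X j)) Z' → (Ψ T' G' Z' k ↔ Ψ T G (fun j => chr (X j)) k)) :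
    (opName Ψ (fun T G Z k => ¬ Ψ T G Z k) m xs).Val T G
      {k | Ψ T G (fun j => chr (X j)) k} := by
  refine val_op hx ?_ ?_ (fun k h => h) (fun k h => h)
  · intro k hk
    obtain ⟨s, hs⟩ := hloc k
    exact ⟨s, fun T' G' Z' h1 h2 h3 => (hs T' G' Z' h1 h2 h3).2 hk⟩
  · intro k hk
    obtain ⟨s, hs⟩ := hloc k
    exact ⟨s, fun T' G' Z' h1 h2 h3 h => hk ((hs T' G' Z' h1 h2 h3).1 h)⟩

theorem sat_cast {V1 V2 : ℕ → Set ℕ} (h : V1 = V2) {v : ℕ → ℕ} {φ : Fm}
    (hs : Sat (omega ∅) v V1 φ) : Sat (omega ∅) v V2 φ := by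
  subst h
  exact hs

theorem gl_window (s : ℕ) (G : Gn) :
    AgG s G (gl ((List.range s).map fun i => (List.range s).map (G i))) := by
  intro i hi n hn
  simp [gl, hi, hn]

theorem part2 : ∃ S : Set (Set ℕ),
    RCA0 (omega S) ∧ PMU S ∧ ¬ WKL S ∧ ¬ ACA (omega S) := by
  have : Countable Fm := fm_countable
  obtain ⟨N, hNc, hN0, hN⟩ := exists_closed ops
  obtain ⟨en, hen⟩ := hNc.exists_eq_range ⟨default, hN0⟩
  have henN : ∀ i, en i ∈ N := fun i => by rw [hen]; exact ⟨i, rfl⟩
  have henS : ∀ x ∈ N, ∃ i, en i = x := fun x hx => by rw [hen] at hx; exact hx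
  obtain ⟨e3, he3⟩ := exists_surjective_nat (ℕ × ℕ × ℕ)
  obtain ⟨T, G, hT, hsep, hU⟩ := generic_exists en
    (fun i => Fl (en (e3 i).1) (en (e3 i).2.1) (e3 i).2.2) (fun i => fl_open _ _ _)
  have hgen : ∀ xA ∈ N, ∀ xf ∈ N, ∀ m, (T, G) ∉ Fl xA xf m →
      ∃ s, ∀ G', AgG s G G' → (T, G') ∉ Fl xA xf m := by
    intro xA hxA xf hxf m hn
    obtain ⟨a, rfl⟩ := henS xA hxA
    obtain ⟨b, rfl⟩ := henS xf hxf
    obtain ⟨i, hi⟩ := he3 (a, b, m)
    have h := hU i
    rw [hi] at h
    exact h.resolve_left hn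
  have hnth : ∀ (xs : List Name), (∀ x ∈ xs, x ∈ N) → ∀ j, nth xs j ∈ N := by
    intro xs hxs j
    unfold nth
    by_cases hj : j < xs.length
    · rw [List.getD_eq_getElem _ _ hj]
      exact hxs _ (List.getElem_mem hj)
    · rw [List.getD_eq_default _ _ (not_lt.1 hj)]
      exact hN0
  refine ⟨{X | ∃ x ∈ N, x.Val T G X}, ?_, ?_, ?_, ?_⟩
  · -- RCA0
    refine rca_of_delta _ ?_
    intro φ ψ hφ hψ i j k v J V hV heq
    have hV' : ∀ q, ∃ x ∈ N, q < J → x.Val T G (V q) := by
      intro q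
      by_cases hq : q < J
      · obtain ⟨x, hx, hxv⟩ := hV q hq
        exact ⟨x, hx, fun _ => hxv⟩
      · exact ⟨default, hN0, fun h => absurd h hq⟩
    choose x hxN hxV using hV'
    have hlen : ((List.range J).map x).length = J := by simp
    have hnx : ∀ q < J, nth ((List.range J).map x) q = x q := by
      intro q hq
      unfold nth
      rw [List.getD_eq_getElem _ _ (by simpa using hq), List.getElem_map, List.getElem_range]
    have hst : (fun q => if q < J then st ((fun j => chr (V j)) q) else ∅) =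
        (fun q => if q < J then V q else ∅ : ℕ → Set ℕ) := by
      funext q
      simp only [st_chr]
    refine ⟨ops (.inl (φ, ψ, i, j, k, v)) ((List.range J).map x), hN _ _ ?_, ?_⟩
    · intro y hy
      obtain ⟨q, _, rfl⟩ := List.mem_map.1 hy
      exact hxN q
    · show (opName (PsS φ i j v ((List.range J).map x).length true)
        (PsS ψ i k v ((List.range J).map x).length false) 0 ((List.range J).map x)).Val T G _
      rw [hlen]
      refine val_op (X := V) ?_ ?_ ?_ ?_ ?_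
      · intro q hq
        rw [hlen] at hq
        rw [hnx q hq]
        exact hxV q hq
      · rintro a ⟨b, hb⟩
        obtain ⟨w, hw⟩ := sep_local hφ (update (update (asg v) i a) j b) J
          (fun j => chr (V j))
        refine ⟨w, fun T' G' Z' _ _ hZ => ⟨b, ?_⟩⟩
        rw [hlen] at hZ
        exact iff_of_true ((hw Z' hZ).2 (sat_cast hst.symm hb)) rfl
      · intro a ha
        have h1 : ¬ ∀ b : ℕ, Sat (omega ∅) (update (update (asg v) i a) k b)
          (fun q => if q < J then V q else ∅) ψ := fun h => ha ((heq a).2 h)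
        obtain ⟨b, hb⟩ := not_forall.1 h1
        obtain ⟨w, hw⟩ := sep_local hψ (update (update (asg v) i a) k b) J
          (fun j => chr (V j))
        refine ⟨w, fun T' G' Z' _ _ hZ => ⟨b, ?_⟩⟩
        rw [hlen] at hZ
        exact iff_of_false (fun h => hb (sat_cast hst ((hw Z' hZ).1 h))) (by simp)
      · rintro a ⟨b, hb⟩
        exact ⟨b, sat_cast hst (hb.2 rfl)⟩
      · rintro a ⟨b, hb⟩ ha
        have h1 := (heq a).1 ha b
        exact absurd (hb.1 (sat_cast hst.symm h1)) (by simp)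
  · -- PMU
    intro A B hA hB hTh pA pB
    by_cases hfin : A.dom.Finite
    · obtain ⟨f, hf, he⟩ := pA B hB hTh.symm
      exact ⟨f, hf, fin_iso hfin he⟩
    have hinf : A.dom.Infinite := hfin
    obtain ⟨xA, hxA, vA⟩ := hA
    obtain ⟨xB, hxB, vB⟩ := id hB
    obtain ⟨C, hCd, hC⟩ := copy_exists hinf (G xA.lvl)
    obtain ⟨hCdiag, hCTh⟩ := copy_diag hinf (G xA.lvl) hCd hC
    have hCS : C.In {X | ∃ x ∈ N, x.Val T G X} := by
      refine ⟨ops (.inr (.inl xA.lvl)) [xA], hN _ _ (by simpa using hxA), ?_⟩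
      have h1 : nth [xA] 0 = xA := rfl
      show (opName (fun _ G Z k => PsC (Z 0) (G xA.lvl) k)
        (fun _ G Z k => ¬ PsC (Z 0) (G xA.lvl) k) (xA.lvl + 1) [xA]).Val T G (diag C)
      rw [hCdiag]
      refine val_op' (X := fun _ => diag A) ?_ ?_
      · intro j hj
        have : j = 0 := by simpa using hj
        subst this
        exact vA
      · intro k
        obtain ⟨w, hw⟩ := psC_local hinf (G xA.lvl) k
        refine ⟨w, fun T' G' Z' _ hG hZ => ?_⟩
        exact hw (Z' 0) (G' xA.lvl) (fun n hn => hZ 0 (by simp) n hn)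
          (fun n hn => hG xA.lvl (Nat.lt_succ_self _) n hn)
    obtain ⟨f, ⟨xf, hxf, vf⟩, he⟩ := pA C hCS hCTh
    obtain ⟨s0, hs0⟩ := hgen xA hxA xf hxf xA.lvl (not_fl hinf vA vf he hC)
    have hl0 := gl_window s0 G
    have hex : ∀ a : List ℕ, (∀ x ∈ a, x ∈ A.dom) → ∃ p, Fnd xf xA.lvl s0
        (gl ((List.range s0).map fun i => (List.range s0).map (G i))) T G a (cand p) :=
      fun a ha => cand_exists vf hl0 ha
    have hZ0 : (fun _ : ℕ => chr (diag A)) 0 = chr (diag A) := rfl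
    have hD := isAt_psAt (A := A) hex (fun a ha q hq ψ hψ =>
      kill hinf le_rfl vA hl0 hs0 ha hq hψ) (Z := fun _ => chr (diag A)) hZ0
    set D : Set ℕ := {k | PsAt xf xA.lvl s0
      ((List.range s0).map fun i => (List.range s0).map (G i)) T G
      (fun _ => chr (diag A)) k} with hDdef
    have hDS : ∃ xD ∈ N, xD.Val T G D := by
      refine ⟨ops (.inr (.inr (.inl (xA.lvl, s0,
        (List.range s0).map fun i => (List.range s0).map (G i))))) [xA, xf], hN _ _ ?_, ?_⟩
      · intro x hx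
        simp only [List.mem_cons, List.not_mem_nil, or_false] at hx
        rcases hx with rfl | rfl
        exacts [hxA, hxf]
      have h1 : nth [xA, xf] 1 = xf := rfl
      have h0 : nth [xA, xf] 0 = xA := rfl
      rw [ops_at, h1, h0, hDdef]
      refine val_op' (X := fun _ => diag A) ?_ ?_
      · intro j hj
        have : j = 0 := by simpa using hj
        subst this
        exact vA
      · intro k
        obtain ⟨w, hw⟩ := psAt_local hinf xf xA.lvl s0
          ((List.range s0).map fun i => (List.range s0).map (G i)) T G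
          (fun _ => chr (diag A)) hZ0 hex k
        exact ⟨w, fun T' G' Z' h1 h2 h3 => hw T' G' Z' h1 h2 h3⟩
    obtain ⟨xD, hxD, vD⟩ := hDS
    obtain ⟨e, _, heB⟩ := pB A ⟨xA, hxA, vA⟩ hTh
    obtain ⟨g, hg, hgr⟩ := iso_exists hTh hD heB
    refine ⟨g, ?_, hg⟩
    rw [hgr]
    refine ⟨ops (.inr (.inr (.inr 0))) [xA, xB, xD], hN _ _ ?_, ?_⟩
    · intro x hx
      simp only [List.mem_cons, List.not_mem_nil, or_false] at hx
      rcases hx with rfl | rfl | rfl
      exacts [hxA, hxB, hxD]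
    show (opName (fun _ _ Z k => PsI (Z 0) (Z 1) (Z 2) k)
      (fun _ _ Z k => ¬ PsI (Z 0) (Z 1) (Z 2) k) 0 [xA, xB, xD]).Val T G _
    refine val_op' (X := fun j => if j = 0 then diag A else if j = 1 then diag B else D) ?_ ?_
    · intro j hj
      have : j = 0 ∨ j = 1 ∨ j = 2 := by
        simp only [List.length_cons, List.length_nil] at hj
        omega
      rcases this with rfl | rfl | rfl
      · exact vA
      · exact vB
      · exact vD
    · intro k
      obtain ⟨w, hw⟩ := psI_local (chr (diag A)) (chr (diag B)) (chr D)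
        (fun k => bfs_local hTh hD heB k) k
      refine ⟨w, fun T' G' Z' _ _ hZ => ?_⟩
      exact hw (Z' 0) (Z' 1) (Z' 2) (fun n hn => hZ 0 (by simp) n hn)
        (fun n hn => hZ 1 (by simp) n hn) (fun n hn => hZ 2 (by simp) n hn)
  · -- not WKL
    refine not_wkl hT ⟨ops (.inr (.inr (.inr 1))) [], hN _ _ (by simp), ?_⟩ ?_
    · show (opName (fun T _ _ k => PsW T k) (fun T _ _ k => ¬ PsW T k) 0 []).Val T G _
      refine val_op' (Ψ := fun T _ _ k => PsW T k) (X := fun _ => ∅) (by simp) ?_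
      intro k
      obtain ⟨w, hw⟩ := psW_local T k
      exact ⟨w, fun T' _ _ h _ _ => hw T' h⟩
    · rintro X ⟨x, hx, hv⟩
      obtain ⟨i, rfl⟩ := henS x hx
      exact hsep i X hv
  · -- not ACA
    refine not_aca hT ⟨ops (.inr (.inr (.inr 2))) [], hN _ _ (by simp), ?_⟩ ?_
    · show (opName (fun T _ _ k => PsT T k) (fun T _ _ k => ¬ PsT T k) 0 []).Val T G _
      refine val_op' (Ψ := fun T _ _ k => PsT T k) (X := fun _ => ∅) (by simp) ?_
      intro k
      obtain ⟨w, hw⟩ := psT_local T k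
      exact ⟨w, fun T' _ _ h _ _ => hw T' h⟩
    · rintro X ⟨x, hx, hv⟩
      obtain ⟨i, rfl⟩ := henS x hx
      exact hsep i X hv

end Pool.Agent.Helper317.PM
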