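import Pool.Agent.Helper317.PMU.Core

/-!
Henkin construction with closed sets.
-/

namespace Pool.Agent.Helper317.PM


theorem henkin_closed {ι : Type} [Countable ι] (Q : ι → Set (Om × (ℕ → Bool)))
    (hQ : ∀ t, IsClosed (Q t))
    (hsupp : ∀ t, ∃ N, ∀ (x x' : Om) (y : ℕ → Bool), (∀ i < N, x i = x' i) →
      ((x, y) ∈ Q t ↔ (x', y) ∈ Q t))
    (Z : Set Om) (hZ : IsClosed Z)
    (hZ3 : ∀ x x' : Om, (∀ i < 3, x i = x' i) → (x ∈ Z ↔ x' ∈ Z)) (hne : Z.Nonempty)
    (w : ℕ → Bool)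
    (hOm : ∀ (L : List (ι × ℕ)) (B : List (ℕ × ℕ × Bool)) (i : ℕ),
      (∃ x ∈ Z, (∀ p ∈ L, (x, x p.2) ∈ Q p.1) ∧ ∀ b ∈ B, x b.1 b.2.1 = b.2.2) →
      ∃ x ∈ Z, (∀ p ∈ L, (x, x p.2) ∈ Q p.1) ∧ (∀ b ∈ B, x b.1 b.2.1 = b.2.2) ∧ x i ≠ w) :
    ∃ x ∈ Z, (∀ t, (∃ y, (x, y) ∈ Q t) → ∃ j, (x, x j) ∈ Q t) ∧ ∀ i, x i ≠ w := by
  classical
  choose N hN using hsupp
  let C : List (ι × ℕ) × List (ℕ × ℕ × Bool) → Set Om := fun c =>
    {x | x ∈ Z ∧ (∀ p ∈ c.1, (x, x p.2) ∈ Q p.1) ∧ ∀ b ∈ c.2, x b.1 b.2.1 = b.2.2}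
  have hCcl : ∀ c, IsClosed (C c) := by
    intro c
    have h1 : IsClosed {x : Om | ∀ p ∈ c.1, (x, x p.2) ∈ Q p.1} := by
      have : {x : Om | ∀ p ∈ c.1, (x, x p.2) ∈ Q p.1}
          = ⋂ p ∈ c.1, (fun x : Om => (x, x p.2)) ⁻¹' (Q p.1) := by
        ext x; simp
      rw [this]
      refine isClosed_biInter fun p _ => (hQ p.1).preimage ?_
      fun_prop
    have h2 : IsClosed {x : Om | ∀ b ∈ c.2, x b.1 b.2.1 = b.2.2} := by
      have : {x : Om | ∀ b ∈ c.2, x b.1 b.2.1 = b.2.2}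
          = ⋂ b ∈ c.2, {x : Om | x b.1 b.2.1 = b.2.2} := by
        ext x; simp
      rw [this]
      refine isClosed_biInter fun b _ => isClosed_eq ?_ continuous_const
      exact (continuous_apply b.2.1).comp (continuous_apply b.1)
    exact hZ.inter (h1.inter h2)
  let Sat : ι ⊕ ℕ → Om → Prop := fun r x =>
    match r with
    | Sum.inl t => (∃ y, (x, y) ∈ Q t) → ∃ j, (x, x j) ∈ Q t
    | Sum.inr i => x i ≠ w
  have step : ∀ c : {c // (C c).Nonempty}, ∀ r : ι ⊕ ℕ,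
      ∃ c' : {c // (C c).Nonempty}, C c'.1 ⊆ C c.1 ∧ ∀ x ∈ C c'.1, Sat r x := by
    rintro ⟨c, hc⟩ r
    rcases r with t | i
    · by_cases hex : ∃ x ∈ C c, ∃ y, (x, y) ∈ Q t
      · obtain ⟨x, hx, y, hy⟩ := hex
        -- fresh index
        obtain ⟨j, hj3, hjt, hjL, hjN, hjB⟩ : ∃ j : ℕ, 3 ≤ j ∧ N t ≤ j ∧ (∀ p ∈ c.1, p.2 < j) ∧
            (∀ p ∈ c.1, N p.1 ≤ j) ∧ (∀ b ∈ c.2, b.1 < j) := by
          have b1 : ∃ M : ℕ, ∀ p ∈ c.1, p.2 < M ∧ N p.1 ≤ M := by
            refine ⟨(c.1.map (fun p => p.2 + 1 + N p.1)).sum, fun p hp => ?_⟩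
            have := List.single_le_sum (l := c.1.map (fun p => p.2 + 1 + N p.1))
              (by simp) (p.2 + 1 + N p.1) (List.mem_map.2 ⟨p, hp, rfl⟩)
            omega
          have b2 : ∃ M : ℕ, ∀ b ∈ c.2, b.1 < M := by
            refine ⟨(c.2.map (fun b => b.1 + 1)).sum, fun b hb => ?_⟩
            have := List.single_le_sum (l := c.2.map (fun b => b.1 + 1))
              (by simp) (b.1 + 1) (List.mem_map.2 ⟨b, hb, rfl⟩)
            omega
          obtain ⟨M1, h1⟩ := b1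
          obtain ⟨M2, h2⟩ := b2
          refine ⟨3 + N t + M1 + M2, by omega, by omega, fun p hp => ?_, fun p hp => ?_,
            fun b hb => ?_⟩
          · have := (h1 p hp).1; omega
          · have := (h1 p hp).2; omega
          · have := h2 b hb; omega
        have hupd : ∀ i, i < j → Function.update x j y i = x i := fun i hi =>
          Function.update_of_ne (by omega) _ _
        have hmem : Function.update x j y ∈ C ((t, j) :: c.1, c.2) := by
          refine ⟨?_, ?_, ?_⟩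
          · exact (hZ3 _ _ (fun i hi => hupd i (by omega))).2 hx.1
          · intro p hp
            rcases List.mem_cons.1 hp with rfl | hp
            · have : Function.update x j y j = y := Function.update_self _ _ _
              simp only [this]
              exact (hN t _ _ y (fun i hi => hupd i (by omega))).2 hy
            · rw [hupd p.2 (hjL p hp)]
              have := hjN p hp
              exact (hN p.1 _ _ (x p.2) (fun i hi => hupd i (by omega))).2 (hx.2.1 p hp)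
          · intro b hb
            rw [hupd b.1 (hjB b hb)]
            exact hx.2.2 b hb
        refine ⟨⟨((t, j) :: c.1, c.2), ⟨_, hmem⟩⟩, ?_, ?_⟩
        · intro z hz
          exact ⟨hz.1, fun p hp => hz.2.1 p (List.mem_cons_of_mem _ hp), hz.2.2⟩
        · intro z hz _
          exact ⟨j, hz.2.1 (t, j) List.mem_cons_self⟩
      · refine ⟨⟨c, hc⟩, subset_rfl, ?_⟩
        intro z hz hy
        exact absurd ⟨z, hz, hy⟩ hex
    · obtain ⟨x, hxZ, hxL, hxB, hxw⟩ := hOm c.1 c.2 i (by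
        obtain ⟨x, hx⟩ := hc
        exact ⟨x, hx.1, hx.2.1, hx.2.2⟩)
      obtain ⟨n, hn⟩ := Function.ne_iff.1 hxw
      refine ⟨⟨(c.1, (i, n, x i n) :: c.2), ⟨x, hxZ, hxL, ?_⟩⟩, ?_, ?_⟩
      · intro b hb
        rcases List.mem_cons.1 hb with rfl | hb
        · rfl
        · exact hxB b hb
      · intro z hz
        exact ⟨hz.1, hz.2.1, fun b hb => hz.2.2 b (List.mem_cons_of_mem _ hb)⟩
      · intro z hz
        have h3 := hz.2.2 (i, n, x i n) List.mem_cons_self
        intro h4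
        apply hn
        have h5 : z i n = x i n := h3
        rw [← h5, h4]
  choose nx hnx1 hnx2 using step
  obtain ⟨e, he⟩ := exists_surjective_nat (ι ⊕ ℕ)
  have h0 : (C ([], [])).Nonempty := by
    obtain ⟨x, hx⟩ := hne
    exact ⟨x, hx, by simp, by simp⟩
  let seq : ℕ → {c // (C c).Nonempty} := fun k =>
    Nat.rec (⟨([], []), h0⟩ : {c // (C c).Nonempty}) (fun k s => nx s (e k)) k
  have hseq : ∀ k, seq (k+1) = nx (seq k) (e k) := fun k => rfl
  obtain ⟨x, hx⟩ := IsCompact.nonempty_iInter_of_sequence_nonempty_isCompact_isClosed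
    (fun k => C (seq k).1) (fun k => by rw [hseq]; exact hnx1 _ _)
    (fun k => (seq k).2) (hCcl _).isCompact (fun k => hCcl _)
  rw [Set.mem_iInter] at hx
  have hsat : ∀ r, Sat r x := by
    intro r
    obtain ⟨k, rfl⟩ := he r
    have := hx (k+1)
    rw [hseq] at this
    exact hnx2 _ _ x this
  exact ⟨x, (hx 0).1, fun t => hsat (Sum.inl t), fun i => hsat (Sum.inr i)⟩

end Pool.Agent.Helper317.PM
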